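import Mathlib

/-!
# [QQA] small residues as products of two primes: definitions and the statements of the rows
-/

set_option autoImplicit false

namespace Pool.Agent.QQA

open Finset

/-- the end of the window `(V, V + V / 10]` -/
def wn (V : ℕ) : ℕ := V + V / 10

/-- the window -/
def II (V : ℕ) : Finset ℕ := Ioc V (wn V)

/-- all the prime factors of `n` are larger than `y` -/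
def Rg (y n : ℕ) : Prop := ∀ q : ℕ, q.Prime → q ∣ n → y < q

noncomputable instance decRg (y n : ℕ) : Decidable (Rg y n) := Classical.propDecidable _

/-- the indicator function of the rough numbers -/
noncomputable def ro (y n : ℕ) : ℝ := if Rg y n then 1 else 0

/-- the weights of the prime powers in the window -/
noncomputable def gP (V n : ℕ) : ℝ :=
  if n ∈ II V then ArithmeticFunction.vonMangoldt n / Real.log (wn V) else 0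

/-- the number of the `q m = n`, `q` prime, `z < q ≤ √(wn V)`, all the prime factors of `m` larger than `z` -/
noncomputable def gQ (z V n : ℕ) : ℝ :=
  if n ∈ II V then ∑ q ∈ (Ioc z (Nat.sqrt (wn V))).filter Nat.Prime,
    (if q ∣ n ∧ Rg z (n / q) then (1 : ℝ) else 0) else 0

/-- `b n l ≡ a` modulo `p` -/
noncomputable def ch (p : ℕ) (a : ℤ) (b n l : ℕ) : ℝ :=
  if (p : ℤ) ∣ (b : ℤ) * n * l - a then 1 else 0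

/-- the number (with weights) of the solutions in the window -/
noncomputable def NN (p : ℕ) (a : ℤ) (b V : ℕ) (γ φ : ℕ → ℝ) : ℝ :=
  ∑ n ∈ II V, ∑ l ∈ II V, ch p a b n l * γ n * φ l

/-- the total weight -/
noncomputable def tot (V : ℕ) (γ : ℕ → ℝ) : ℝ := ∑ n ∈ II V, γ n

/-- the number of the solutions with `l = q y`, `y ∈ S` -/
noncomputable def cc (p : ℕ) (a : ℤ) (b V : ℕ) (γ : ℕ → ℝ) (q : ℕ) (S : Finset ℕ) : ℝ :=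
  ∑ n ∈ II V, ∑ y ∈ S, ch p a b n (q * y) * γ n

/-- the number of pairs of primes -/
def Qc (p : ℕ) (a : ℤ) (b V : ℕ) : ℕ :=
  #((II V ×ˢ II V).filter (fun t : ℕ × ℕ => t.1.Prime ∧ t.2.Prime ∧ (p : ℤ) ∣ (b : ℤ) * t.1 * t.2 - a))

/-! ### cells -/

def yy (T k i : ℕ) : ℕ := 2 ^ k + i * 2 ^ k / T

/-- a short interval of primes -/
def cell (T k i : ℕ) : Finset ℕ := (Ioc (yy T k i) (yy T k (i + 1))).filter Nat.Prime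

noncomputable def AAs (V q : ℕ) : Finset ℕ :=
  (Icc 1 (wn V)).filter (fun y => V < q * y ∧ q * y ≤ wn V ∧ Rg (q - 1) y)

noncomputable def UC (V N₁ N₂ : ℕ) : Finset ℕ :=
  (Icc 1 (wn V)).filter (fun y => V < N₂ * y ∧ N₁ * y ≤ wn V ∧ Rg N₁ y)

noncomputable def LC (V N₁ N₂ : ℕ) : Finset ℕ :=
  (Icc 1 (wn V)).filter (fun y => V < N₁ * y ∧ N₂ * y ≤ wn V ∧ Rg N₂ y)

/-- the error of one cell -/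
noncomputable def ER (p : ℕ) (a : ℤ) (b V : ℕ) (γ : ℕ → ℝ) (T k i : ℕ) (S : Finset ℕ) : ℝ :=
  |∑ q ∈ cell T k i, cc p a b V γ q S - tot V γ * #(cell T k i) * #S / p|

/-! ### the statements: the Type II part -/

/-- the Type II estimate (proved in `TIA`) -/
def st_TIIA : Prop := ∀ e : ℝ, 0 < e → e < 1 / 3 → ∃ η δ C : ℝ, 0 < η ∧ 0 < δ ∧ 0 < C ∧
    ∀ X N M : ℕ, 2 ≤ X → (X : ℝ) ^ e ≤ N → (N : ℝ) ≤ (X : ℝ) ^ (1 / 3 - e) →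
      (X : ℝ) ^ (2 - η) ≤ (M : ℝ) * N → (M : ℝ) * N ≤ (X : ℝ) ^ 2 →
      ∀ a : ℤ, a ≠ 0 → |(a : ℝ)| ≤ (X : ℝ) ^ η →
      ∀ α β : ℕ → ℝ, (∀ m, |α m| ≤ 1) → (∀ n, |β n| ≤ 1) → (∀ n, ¬ n.Prime → β n = 0) →
        ∑ p ∈ (Ioc X (2 * X)).filter Nat.Prime,
          |∑ m ∈ Ioc M (2 * M), ∑ n ∈ Ioc N (2 * N),
            α m * β n * ((if (p : ℤ) ∣ (m : ℤ) * n - a then 1 else 0) - 1 / (p : ℝ))| ≤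
        C * (X : ℝ) ^ (1 - δ) * ((M : ℝ) * N) / X

/-- the divisor bound -/
def st_tau : Prop := ∀ ε : ℝ, 0 < ε → ∃ C : ℝ, 0 < C ∧ ∀ n : ℕ, 1 ≤ n →
  (n.divisors.card : ℝ) ≤ C * (n : ℝ) ^ ε

def st_B1 : Prop := ∀ y₀ y₁ l : ℕ, y₀ ≤ y₁ → 1 ≤ l →
  ro y₀ l - ro y₁ l = ∑ q ∈ (Ioc y₀ y₁).filter Nat.Prime,
    (if q ∣ l ∧ Rg (q - 1) (l / q) then (1 : ℝ) else 0)

def st_B2 : Prop := ∀ T K₀ K₁ : ℕ, 1 ≤ T → K₀ ≤ K₁ → ∀ f : ℕ → ℝ,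
  ∑ q ∈ (Ioc (2 ^ K₀) (2 ^ K₁)).filter Nat.Prime, f q =
    ∑ k ∈ Ico K₀ K₁, ∑ i ∈ range T, ∑ q ∈ cell T k i, f q

def st_B3 : Prop := ∀ T k i V q : ℕ, q ∈ cell T k i →
  LC V (yy T k i) (yy T k (i + 1)) ⊆ AAs V q ∧ AAs V q ⊆ UC V (yy T k i) (yy T k (i + 1))

def st_B4 : Prop := ∀ (p : ℕ) (a : ℤ) (b V : ℕ) (γ : ℕ → ℝ) (y₀ y₁ : ℕ), y₀ ≤ y₁ →
  NN p a b V γ (ro y₀) - NN p a b V γ (ro y₁) =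
      ∑ q ∈ (Ioc y₀ y₁).filter Nat.Prime, cc p a b V γ q (AAs V q) ∧
    tot V (ro y₀) - tot V (ro y₁) = ∑ q ∈ (Ioc y₀ y₁).filter Nat.Prime, (#(AAs V q) : ℝ)

def st_B5 : Prop := ∀ T K₀ K₁ V : ℕ, 2 ≤ T → T ≤ 2 ^ K₀ → K₀ ≤ K₁ → 2 ^ K₁ ≤ V →
  ∑ k ∈ Ico K₀ K₁, ∑ i ∈ range T, (#(cell T k i) : ℝ) *
      ((#(UC V (yy T k i) (yy T k (i + 1))) : ℝ) - #(LC V (yy T k i) (yy T k (i + 1)))) ≤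
    20 * ((K₁ : ℝ) * V / T + 2 ^ K₁)

def st_B6 : Prop := ∀ e : ℝ, 0 < e → e < 1 / 3 → ∃ η δ C : ℝ, 0 < η ∧ 0 < δ ∧ 0 < C ∧ ∃ X₀ : ℕ,
  ∀ X T k i V b : ℕ, ∀ a : ℤ, ∀ γ : ℕ → ℝ, ∀ S : Finset ℕ, X₀ ≤ X → 10 ≤ T → T ≤ 2 ^ k → i < T →
    (X : ℝ) ^ e ≤ 2 ^ k → (2 : ℝ) ^ (k + 1) ≤ (X : ℝ) ^ (1 / 3 - e) → (X : ℝ) ^ (1 - η) ≤ V →
    1 ≤ b → b * V ^ 2 ≤ X ^ 2 → a ≠ 0 → |(a : ℝ)| ≤ (X : ℝ) ^ η → (∀ n, 0 ≤ γ n ∧ γ n ≤ 3) →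
    S ⊆ UC V (yy T k i) (yy T k (i + 1)) →
    ∑ p ∈ (Ioc X (2 * X)).filter Nat.Prime, ER p a b V γ T k i S ≤
      C * (X : ℝ) ^ (-δ) * ((b : ℝ) * (V : ℝ) ^ 2)

def st_B7 : Prop := ∀ (p : ℕ) (a : ℤ) (b V : ℕ) (γ : ℕ → ℝ) (T K₀ K₁ : ℕ), 1 ≤ p → 2 ≤ T →
  T ≤ 2 ^ K₀ → K₀ ≤ K₁ → 2 ^ K₁ ≤ V → (∀ n, 0 ≤ γ n) →
  |NN p a b V γ (ro (2 ^ K₀)) - NN p a b V γ (ro (2 ^ K₁)) -
      tot V γ * (tot V (ro (2 ^ K₀)) - tot V (ro (2 ^ K₁))) / p| ≤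
    ∑ k ∈ Ico K₀ K₁, ∑ i ∈ range T, (ER p a b V γ T k i (LC V (yy T k i) (yy T k (i + 1))) +
      ER p a b V γ T k i (UC V (yy T k i) (yy T k (i + 1)))) +
    tot V γ / p * (20 * ((K₁ : ℝ) * V / T + 2 ^ K₁))

/-- the Type II part -/
def st_B8 : Prop := ∀ e : ℝ, 0 < e → e < 1 / 6 → ∃ η δ C : ℝ, 0 < η ∧ 0 < δ ∧ 0 < C ∧ ∃ X₀ : ℕ,
  ∀ X K₀ K₁ V : ℕ, ∀ γ : ℕ → ℝ, X₀ ≤ X → (X : ℝ) ^ e ≤ 2 ^ K₀ → K₀ ≤ K₁ →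
    (2 : ℝ) ^ K₁ ≤ (X : ℝ) ^ (1 / 3 - e) → (X : ℝ) ^ (1 - η) ≤ V → V ≤ X →
    (∀ n, 0 ≤ γ n ∧ γ n ≤ 3) →
    ∃ Bad : Finset ℕ, (#Bad : ℝ) ≤ C * (X : ℝ) ^ (1 - δ) ∧
      ∀ p : ℕ, p.Prime → X < p → p ≤ 2 * X → p ∉ Bad → ∀ (a : ℤ) (b : ℕ), a ≠ 0 →
        |(a : ℝ)| ≤ (X : ℝ) ^ δ → 1 ≤ b → (b : ℝ) ≤ (X : ℝ) ^ δ → b * V ^ 2 ≤ X ^ 2 →
        |NN p a b V γ (ro (2 ^ K₀)) - NN p a b V γ (ro (2 ^ K₁)) -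
            tot V γ * (tot V (ro (2 ^ K₀)) - tot V (ro (2 ^ K₁))) / p| ≤
          (V : ℝ) ^ 2 * (X : ℝ) ^ (-1 - δ)

/-! ### the statements: the level of distribution and the base -/

/-- `∏ (1 - 1 / q)` over the primes up to `2^K` -/
noncomputable def PK (K : ℕ) : ℝ := ∏ q ∈ (Icc 1 (2 ^ K)).filter Nat.Prime, (1 - 1 / (q : ℝ))

/-- the fundamental lemma -/
def st_FL : Prop := ∃ dl : ℕ → ℝ, (∀ b, 0 ≤ dl b) ∧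
  Filter.Tendsto (fun b : ℕ => (b : ℝ) * dl b) Filter.atTop (nhds 0) ∧
  ∀ b K : ℕ, ∃ θp θm : ℕ → ℝ, (∀ d, |θp d| ≤ 1) ∧ (∀ d, |θm d| ≤ 1) ∧
    (∀ d, 2 ^ (K * (4 * b + 6)) < d → θp d = 0) ∧ (∀ d, 2 ^ (K * (4 * b + 6)) < d → θm d = 0) ∧
    (∀ l : ℕ, l ≠ 0 → ro (2 ^ K) l ≤ ∑ d ∈ l.divisors, θp d) ∧
    (∀ l : ℕ, l ≠ 0 → ∑ d ∈ l.divisors, θm d ≤ ro (2 ^ K) l) ∧
    ∑ d ∈ Icc 1 (2 ^ (K * (4 * b + 6))), θp d / d ≤ (1 + dl b) * PK K ∧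
    (1 - dl b) * PK K ≤ ∑ d ∈ Icc 1 (2 ^ (K * (4 * b + 6))), θm d / d

def st_C4 : Prop := ∃ C : ℝ, 0 < C ∧ ∀ K : ℕ, 1 ≤ K → PK K ≤ C / K

/-- the base: rough numbers with the level of distribution -/
def st_C6 : Prop := ∀ κ e₁ : ℝ, 0 < κ → 0 < e₁ → ∃ e : ℝ, 0 < e ∧ e ≤ e₁ ∧ ∃ X₀ : ℕ,
  ∀ X p K₀ V z b : ℕ, ∀ a : ℤ, ∀ γ : ℕ → ℝ, X₀ ≤ X → p.Prime → X < p → p ≤ 2 * X →
    (X : ℝ) ^ e ≤ 2 ^ K₀ → (2 : ℝ) ^ K₀ ≤ 2 * (X : ℝ) ^ e → (X : ℝ) ^ (9 / 10 : ℝ) ≤ V → V ≤ X →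
    wn V < p → (X : ℝ) ^ (3 / 10 : ℝ) ≤ z → ¬ (p : ℤ) ∣ a → ¬ p ∣ b →
    (γ = gP V ∨ γ = gQ z V) →
    |NN p a b V γ (ro (2 ^ K₀)) - tot V γ * tot V (ro (2 ^ K₀)) / p| ≤
      κ * V * tot V γ / (p * Real.log X) + (X : ℝ) ^ (24 / 25 : ℝ)

/-! ### the statements: the main term -/

/-- Mertens -/
def st_Mertens : Prop := ∀ N : ℕ, 1 ≤ N →
  |∑ n ∈ Icc 1 N, ArithmeticFunction.vonMangoldt n / n - Real.log N| ≤ Real.log 4 + 4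

/-- the sum of `1 / m` over the primes `m` with `v₀ < q m ≤ v₁` -/
noncomputable def SP (q v₀ v₁ : ℕ) : ℝ :=
  ∑ m ∈ (Icc 1 v₁).filter (fun m => m.Prime ∧ v₀ < q * m ∧ q * m ≤ v₁), 1 / (m : ℝ)

/-- the scales -/
def vv (v₀ : ℕ) (j : ℕ) : ℕ := wn^[j] v₀

def st_M1 : Prop := ∀ v₀ J : ℕ, 100 ≤ v₀ → (21 / 20 : ℝ) ^ J * v₀ ≤ vv v₀ J ∧
  (vv v₀ J : ℝ) ≤ (11 / 10 : ℝ) ^ J * v₀ ∧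
  ∀ f : ℕ → ℝ, ∑ j ∈ range J, ∑ n ∈ II (vv v₀ j), f n = ∑ n ∈ Ioc v₀ (vv v₀ J), f n

def st_M2 : Prop := ∀ v₀ J : ℕ, 100 ≤ v₀ →
  (Real.log ((vv v₀ J : ℝ) / v₀) - 12) / Real.log (vv v₀ J) ≤
    ∑ j ∈ range J, tot (vv v₀ j) (gP (vv v₀ j)) / (vv v₀ j : ℝ)

def st_M3 : Prop := (∀ q v₀ v₁ : ℕ, 1 ≤ q → 2 * q ≤ v₀ → v₀ ≤ v₁ →
    SP q v₀ v₁ ≤ (Real.log ((v₁ : ℝ) / v₀) + 12) / Real.log ((v₀ : ℝ) / q)) ∧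
  (∀ x y : ℕ, 2 ≤ x → x ≤ y →
    ∑ q ∈ (Ioc x y).filter Nat.Prime, 1 / (q : ℝ) ≤ (Real.log ((y : ℝ) / x) + 12) / Real.log x)

def st_M4a : Prop := ∀ X z v₀ v₁ q : ℕ, 1 ≤ z → X < z ^ 4 → v₀ ≤ v₁ → v₁ ≤ X → z < q → q.Prime →
  q ≤ v₀ →
  ∑ n ∈ Ioc v₀ v₁, (if q ∣ n ∧ Rg z (n / q) then (1 : ℝ) else 0) / n ≤
    1 / (q : ℝ) * (SP q v₀ v₁ + ∑ r ∈ (Ioc z (X / z ^ 2)).filter Nat.Prime, 1 / (r : ℝ) * SP (q * r) v₀ v₁)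

def st_M4 : Prop := ∃ X₀ : ℕ, ∀ X z v₀ v₁ : ℕ, X₀ ≤ X → (X : ℝ) ^ (1 / 3 - 1 / 10000 : ℝ) ≤ z →
  (X : ℝ) ^ (1 - 2 / 10000 : ℝ) ≤ v₀ → v₀ ≤ v₁ → v₁ ≤ X →
  ∑ n ∈ Ioc v₀ v₁, (∑ q ∈ (Ioc z (Nat.sqrt X)).filter Nat.Prime,
    (if q ∣ n ∧ Rg z (n / q) then (1 : ℝ) else 0)) / n ≤
      84 / 100 * (Real.log ((v₁ : ℝ) / v₀) + 12) / Real.log X

/-- the windows -/
def st_M5 : Prop := ∃ c₁ A : ℝ, 0 < c₁ ∧ 0 < A ∧ ∃ X₀ : ℕ, ∀ X Y z : ℕ, X₀ ≤ X →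
  (X : ℝ) ^ (1 - 1 / 10000 : ℝ) ≤ Y → Y ≤ X → (X : ℝ) ^ (1 / 3 - 1 / 10000 : ℝ) ≤ z →
  ∃ V : ℕ, (Y : ℝ) ≤ A * V ∧ wn V ≤ Y ∧
    c₁ * V / Real.log X ≤ tot V (gP V) - tot V (gQ z V)

/-! ### the statements: the final part -/

def st_F0 : Prop := (∀ V n : ℕ, 0 ≤ gP V n ∧ gP V n ≤ 1) ∧
  (∀ z V n : ℕ, wn V < z ^ 4 → 0 ≤ gQ z V n ∧ gQ z V n ≤ 3)

def st_F1 : Prop := ∀ (p : ℕ) (a : ℤ) (b V z : ℕ), p.Prime → wn V < p → ¬ (p : ℤ) ∣ a → ¬ p ∣ b →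
  1 ≤ z → z ≤ V → 2 ≤ V → wn V < z ^ 4 →
  NN p a b V (gP V) (ro z) - NN p a b V (gQ z V) (ro z) ≤
    (Qc p a b V : ℝ) + 4 * Real.sqrt (wn V) * Nat.log 2 (wn V)

/-- one scale -/
def st_F2 : Prop := ∃ η δ c C A : ℝ, 0 < η ∧ 0 < δ ∧ 0 < c ∧ 0 < C ∧ 0 < A ∧ ∃ X₀ : ℕ,
  ∀ X s : ℕ, X₀ ≤ X → (X : ℝ) ^ (1 - η) ≤ 2 ^ s → 2 ^ s ≤ X →
  ∃ V : ℕ, (2 : ℝ) ^ s ≤ A * V ∧ wn V ≤ 2 ^ s ∧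
  ∃ Bad : Finset ℕ, (#Bad : ℝ) ≤ C * (X : ℝ) ^ (1 - δ) ∧
    ∀ p : ℕ, p.Prime → X < p → p ≤ 2 * X → p ∉ Bad → ∀ (a : ℤ) (b : ℕ), a ≠ 0 →
      |(a : ℝ)| ≤ (X : ℝ) ^ δ → 1 ≤ b → (b : ℝ) ≤ (X : ℝ) ^ δ → b * V ^ 2 ≤ X ^ 2 →
      c * (V : ℝ) ^ 2 / (X * Real.log X ^ 2) ≤ Qc p a b V

/-- one dyadic block of primes -/
def st_F3 : Prop := ∃ η δ c C : ℝ, 0 < η ∧ 0 < δ ∧ 0 < c ∧ 0 < C ∧ ∃ X₀ : ℕ, ∀ X : ℕ, X₀ ≤ X →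
  ∃ Bad : Finset ℕ, (#Bad : ℝ) ≤ C * (X : ℝ) ^ (1 - δ) ∧
    ∀ p : ℕ, p.Prime → X < p → p ≤ 2 * X → p ∉ Bad → ∀ (Y : ℝ) (a : ℤ) (b : ℕ),
      (p : ℝ) ^ (1 - η) ≤ Y → Y ≤ p → a ≠ 0 → |(a : ℝ)| ≤ (p : ℝ) ^ δ → 1 ≤ b →
      (b : ℝ) ≤ (p : ℝ) ^ δ → (b : ℝ) * Y ^ 2 ≤ (p : ℝ) ^ 2 →
      c * Y ^ 2 / (p * Real.log p ^ 2) ≤
        #((Icc 1 ⌊Y⌋₊ ×ˢ Icc 1 ⌊Y⌋₊).filter (fun t : ℕ × ℕ => t.1.Prime ∧ t.2.Prime ∧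
          (p : ℤ) ∣ (b : ℤ) * t.1 * t.2 - a))

/-- the result -/
def st_F4 : Prop := ∃ η δ c C : ℝ, 0 < η ∧ 0 < δ ∧ 0 < c ∧ 0 < C ∧ ∀ X : ℝ, 2 ≤ X →
  ∃ E : Finset ℕ, (#E : ℝ) ≤ C * X ^ (1 - δ) ∧
    ∀ p : ℕ, p.Prime → (p : ℝ) ≤ X → p ∉ E → ∀ (Y : ℝ) (a b : ℤ),
      (p : ℝ) ^ (1 - η) ≤ Y → Y ≤ p → a ≠ 0 → b ≠ 0 → |(a : ℝ)| ≤ (p : ℝ) ^ δ →
      |(b : ℝ)| ≤ (p : ℝ) ^ δ → |(b : ℝ)| * Y ^ 2 ≤ (p : ℝ) ^ 2 →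
      c * Y ^ 2 / (p * Real.log p ^ 2) ≤
        #((Icc 1 ⌊Y⌋₊ ×ˢ Icc 1 ⌊Y⌋₊).filter (fun t : ℕ × ℕ => t.1.Prime ∧ t.2.Prime ∧
          (p : ℤ) ∣ b * t.1 * t.2 - a))

end Pool.Agent.QQA
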