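import Pool.Agent.QQA.LDefs
import Pool.Agent.QQA.Defs

/-!
# [QQA] the statements of the rows that involve exponential sums
-/

set_option autoImplicit false

namespace Pool.Agent.QQA

open Finset Pool.Agent.EPK

/-- the level of distribution -/
def st_LD : Prop := ∀ ε : ℝ, 0 < ε → ∃ C : ℝ, 1 ≤ C ∧ ∀ (p : ℕ) [Fact p.Prime] (V z D : ℕ)
    (x : ZMod p) (γ : ℕ → ℝ), (γ = gP V ∨ γ = gQ z V) → x ≠ 0 → 100 ≤ V → p ≤ V ^ 2 → wn V < p →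
    2 ≤ z → p ≤ 16 * z ^ 4 → 1 ≤ D → 2 * D < p →
    ∑ d ∈ Icc 1 D, |AG p γ x (wn V) d - AG p γ x V d - tot V γ * ((wn V : ℝ) - V) / p / d| ≤
      C * (p : ℝ) ^ ε * ((D : ℝ) ^ (1 / 2 : ℝ) * (p : ℝ) ^ (15 / 16 : ℝ) + D * (p : ℝ) ^ (7 / 8 : ℝ))

def st_C1 : Prop := ∀ (p : ℕ) [Fact p.Prime] (a : ℤ) (b V : ℕ) (γ φ : ℕ → ℝ), ¬ (p : ℤ) ∣ a →
  ¬ p ∣ b → wn V < p → NN p a b V γ φ = ∑ n ∈ II V,
    γ n * (if rr p ((a : ZMod p) / (b : ZMod p)) n ∈ II V then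
      φ (rr p ((a : ZMod p) / (b : ZMod p)) n) else 0)

def st_C2 : Prop := ∀ (p : ℕ) [Fact p.Prime] (a : ℤ) (b V D : ℕ) (γ θ : ℕ → ℝ), ¬ (p : ℤ) ∣ a →
  ¬ p ∣ b → wn V < p → (∀ n, n ∉ II V → γ n = 0) → (∀ d, D < d → θ d = 0) →
  NN p a b V γ (fun l => ∑ d ∈ l.divisors, θ d) = ∑ d ∈ Icc 1 D,
    θ d * (AG p γ ((a : ZMod p) / (b : ZMod p)) (wn V) d - AG p γ ((a : ZMod p) / (b : ZMod p)) V d)

end Pool.Agent.QQA
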