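import Pool.Agent.QQA.Defs

set_option autoImplicit false

namespace Pool.Agent.QQA

open Finset

theorem B1_mono {y₀ y₁ l : ℕ} (h : y₀ ≤ y₁) (hr : Rg y₁ l) : Rg y₀ l :=
  fun q hq hd => lt_of_le_of_lt h (hr q hq hd)

/-- a prime factor of `l` different from `q ∣ l` divides `l / q` -/
theorem B1_dvd {l q r : ℕ} (hq : q.Prime) (hr : r.Prime) (hql : q ∣ l) (hrl : r ∣ l) (hne : r ≠ q) : r ∣ l / q := by
  obtain ⟨m, rfl⟩ := hql
  rw [Nat.mul_div_cancel_left m hq.pos]
  rcases (Nat.Prime.dvd_mul hr).1 hrl with h | h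
  · exact absurd ((Nat.prime_dvd_prime_iff_eq hr hq).1 h) hne
  · exact h

theorem R_B1 : st_B1 := by
  intro y₀ y₁ l hy hl
  by_cases h1 : Rg y₁ l
  · have h0 := B1_mono hy h1
    have hs : ∑ q ∈ (Ioc y₀ y₁).filter Nat.Prime, (if q ∣ l ∧ Rg (q - 1) (l / q) then (1 : ℝ) else 0) = 0 := by
      refine Finset.sum_eq_zero (fun q hq => ?_)
      rw [Finset.mem_filter, Finset.mem_Ioc] at hq
      rw [if_neg]
      rintro ⟨hd, -⟩
      have := h1 q hq.2 hd
      omega
    rw [hs]
    unfold ro
    rw [if_pos h0, if_pos h1, sub_self]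
  · by_cases h0 : Rg y₀ l
    · have hl1 : l ≠ 1 := by
        rintro rfl
        refine h1 (fun q hq hd => ?_)
        exact absurd (Nat.dvd_one.1 hd) hq.one_lt.ne'
      have hmp : (Nat.minFac l).Prime := Nat.minFac_prime hl1
      have hml : Nat.minFac l ∣ l := Nat.minFac_dvd l
      have hm0 : y₀ < Nat.minFac l := h0 _ hmp hml
      have hm1 : Nat.minFac l ≤ y₁ := by
        by_contra hc
        refine h1 (fun q hq hd => ?_)
        have := Nat.minFac_le_of_dvd hq.two_le hd
        omega
      have hs : ∑ q ∈ (Ioc y₀ y₁).filter Nat.Prime, (if q ∣ l ∧ Rg (q - 1) (l / q) then (1 : ℝ) else 0) = 1 := by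
        rw [Finset.sum_eq_single (Nat.minFac l)]
        · rw [if_pos]
          refine ⟨hml, fun r hr hd => ?_⟩
          have h2 : r ∣ l := hd.trans (Nat.div_dvd_of_dvd hml)
          have h3 := Nat.minFac_le_of_dvd hr.two_le h2
          have h4 := hmp.pos
          omega
        · intro q hq hne
          rw [Finset.mem_filter, Finset.mem_Ioc] at hq
          rw [if_neg]
          rintro ⟨hd, hr⟩
          have h2 := B1_dvd hq.2 hmp hd hml (Ne.symm hne)
          have h3 := hr _ hmp h2
          have h4 := Nat.minFac_le_of_dvd hq.2.two_le hd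
          omega
        · intro hn
          refine absurd ?_ hn
          rw [Finset.mem_filter, Finset.mem_Ioc]
          exact ⟨⟨hm0, hm1⟩, hmp⟩
      rw [hs]
      unfold ro
      rw [if_pos h0, if_neg h1, sub_zero]
    · have hs : ∑ q ∈ (Ioc y₀ y₁).filter Nat.Prime, (if q ∣ l ∧ Rg (q - 1) (l / q) then (1 : ℝ) else 0) = 0 := by
        refine Finset.sum_eq_zero (fun q hq => ?_)
        rw [Finset.mem_filter, Finset.mem_Ioc] at hq
        rw [if_neg]
        rintro ⟨hd, hr⟩
        refine h0 (fun r hrp hrl => ?_)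
        by_contra hc
        have hne : r ≠ q := by omega
        have h2 := hr r hrp (B1_dvd hq.2 hrp hd hrl hne)
        omega
      rw [hs]
      unfold ro
      rw [if_neg h0, if_neg h1, sub_zero]

end Pool.Agent.QQA
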