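import Pool.Agent.QQA.Defs

set_option autoImplicit false

namespace Pool.Agent.QQA

open Finset

theorem B2_tele (u : ℕ → ℕ) (g : ℕ → ℝ) (n : ℕ) (hu : ∀ i, i < n → u i ≤ u (i + 1)) (h0 : u 0 ≤ u n) :
    (∑ i ∈ range n, ∑ q ∈ Ioc (u i) (u (i + 1)), g q = ∑ q ∈ Ioc (u 0) (u n), g q) := by
  have key : ∀ m, m ≤ n → u 0 ≤ u m ∧ ∑ i ∈ range m, ∑ q ∈ Ioc (u i) (u (i + 1)), g q = ∑ q ∈ Ioc (u 0) (u m), g q := by
    intro m
    induction m with
    | zero => intro _; simp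
    | succ m ih =>
      intro hm
      obtain ⟨h1, h2⟩ := ih (by omega)
      have h3 := hu m (by omega)
      refine ⟨h1.trans h3, ?_⟩
      rw [Finset.sum_range_succ, h2, Finset.sum_Ioc_consecutive g h1 h3]
  exact (key n le_rfl).2

theorem B2_yy0 (T k : ℕ) : yy T k 0 = 2 ^ k := by
  unfold yy
  simp

theorem B2_yyT (T k : ℕ) (hT : 1 ≤ T) : yy T k T = 2 ^ (k + 1) := by
  unfold yy
  rw [Nat.mul_div_cancel_left _ (by omega), pow_succ]
  ring

theorem B2_yymono (T k i : ℕ) : yy T k i ≤ yy T k (i + 1) := by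
  unfold yy
  refine Nat.add_le_add_left (Nat.div_le_div_right ?_) _
  exact Nat.mul_le_mul_right _ (Nat.le_succ i)

theorem B2_cells (T k : ℕ) (hT : 1 ≤ T) (g : ℕ → ℝ) :
    ∑ i ∈ range T, ∑ q ∈ Ioc (yy T k i) (yy T k (i + 1)), g q = ∑ q ∈ Ioc (2 ^ k) (2 ^ (k + 1)), g q := by
  have h := B2_tele (yy T k) g T (fun i _ => B2_yymono T k i)
    (by rw [B2_yy0, B2_yyT T k hT]; exact Nat.pow_le_pow_right (by norm_num) (Nat.le_succ k))
  rw [B2_yy0, B2_yyT T k hT] at h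
  exact h

theorem R_B2 : st_B2 := by
  intro T K₀ K₁ hT hK f
  have hc : ∀ k i, ∑ q ∈ cell T k i, f q = ∑ q ∈ Ioc (yy T k i) (yy T k (i + 1)), if q.Prime then f q else 0 := by
    intro k i
    unfold cell
    rw [Finset.sum_filter]
  rw [Finset.sum_filter]
  simp only [hc]
  have h1 : ∀ k ∈ Ico K₀ K₁, ∑ i ∈ range T, ∑ q ∈ Ioc (yy T k i) (yy T k (i + 1)), (if q.Prime then f q else 0) =
      ∑ q ∈ Ioc (2 ^ k) (2 ^ (k + 1)), if q.Prime then f q else 0 := fun k _ => B2_cells T k hT _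
  rw [Finset.sum_congr rfl h1]
  induction K₁, hK using Nat.le_induction with
  | base => simp
  | succ n hn ih =>
    have h2 : (2 : ℕ) ^ K₀ ≤ 2 ^ n := Nat.pow_le_pow_right (by norm_num) hn
    have h3 : (2 : ℕ) ^ n ≤ 2 ^ (n + 1) := Nat.pow_le_pow_right (by norm_num) (Nat.le_succ n)
    rw [Finset.sum_Ico_succ_top hn, ← ih (fun k _ => B2_cells T k hT _), Finset.sum_Ioc_consecutive _ h2 h3]

end Pool.Agent.QQA
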