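import Pool.Agent.QQA.Defs

set_option autoImplicit false

namespace Pool.Agent.QQA

open Finset

theorem R_B3 : st_B3 := by
  intro T k i V q hq
  unfold cell at hq
  rw [Finset.mem_filter, Finset.mem_Ioc] at hq
  obtain ⟨⟨h1, h2⟩, hp⟩ := hq
  constructor
  · intro y hy
    unfold LC at hy
    unfold AAs
    rw [Finset.mem_filter] at hy ⊢
    obtain ⟨ha, hb, hc, hd⟩ := hy
    refine ⟨ha, ?_, ?_, ?_⟩
    · exact lt_of_lt_of_le hb (Nat.mul_le_mul_right y h1.le)
    · exact le_trans (Nat.mul_le_mul_right y h2) hc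
    · intro r hr hry
      have := hd r hr hry
      omega
  · intro y hy
    unfold AAs at hy
    unfold UC
    rw [Finset.mem_filter] at hy ⊢
    obtain ⟨ha, hb, hc, hd⟩ := hy
    refine ⟨ha, ?_, ?_, ?_⟩
    · exact lt_of_lt_of_le hb (Nat.mul_le_mul_right y h2)
    · exact le_trans (Nat.mul_le_mul_right y h1.le) hc
    · intro r hr hry
      have := hd r hr hry
      omega

end Pool.Agent.QQA
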