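import Pool.Agent.QQA.Defs

set_option autoImplicit false

namespace Pool.Agent.QQA

open Finset

theorem B4_reindex (V q : ℕ) (hq : 1 ≤ q) (F : ℕ → ℝ) :
    ∑ l ∈ II V, (if q ∣ l ∧ Rg (q - 1) (l / q) then F l else 0) = ∑ y ∈ AAs V q, F (q * y) := by
  classical
  rw [← Finset.sum_filter]
  symm
  refine Finset.sum_bij (fun y _ => q * y) ?_ ?_ ?_ ?_
  · intro y hy
    obtain ⟨hy1, hy2, hy3, hy4⟩ := Finset.mem_filter.mp hy
    refine Finset.mem_filter.mpr ⟨?_, Dvd.intro _ rfl, ?_⟩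
    · exact Finset.mem_Ioc.mpr ⟨hy2, hy3⟩
    · rw [Nat.mul_div_cancel_left _ (by omega)]
      exact hy4
  · intro y _ y' _ h
    exact Nat.eq_of_mul_eq_mul_left (by omega) h
  · intro l hl
    obtain ⟨hl1, ⟨y, rfl⟩, hl3⟩ := Finset.mem_filter.mp hl
    have hl2 := Finset.mem_Ioc.mp hl1
    rw [Nat.mul_div_cancel_left _ (by omega)] at hl3
    have hy1 : 1 ≤ y := by
      rcases Nat.eq_zero_or_pos y with h | h
      · rw [h] at hl2; omega
      · exact h
    have hy2 : y ≤ wn V := le_trans (Nat.le_mul_of_pos_left y (by omega)) hl2.2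
    exact ⟨y, Finset.mem_filter.mpr ⟨Finset.mem_Icc.mpr ⟨hy1, hy2⟩, hl2.1, hl2.2, hl3⟩, rfl⟩
  · intro y _
    rfl

theorem R_B4 (h1 : st_B1) : st_B4 := by
  intro p a b V γ y₀ y₁ hy
  have hl1 : ∀ l ∈ II V, 1 ≤ l := fun l hl => by
    have := (Finset.mem_Ioc.mp hl).1
    omega
  have hqp : ∀ q ∈ (Ioc y₀ y₁).filter Nat.Prime, 1 ≤ q := fun q hq =>
    (Finset.mem_filter.mp hq).2.one_lt.le
  constructor
  · unfold NN
    rw [← Finset.sum_sub_distrib]
    have e1 : ∀ n ∈ II V, (∑ l ∈ II V, ch p a b n l * γ n * ro y₀ l - ∑ l ∈ II V, ch p a b n l * γ n * ro y₁ l)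
        = ∑ q ∈ (Ioc y₀ y₁).filter Nat.Prime, ∑ y ∈ AAs V q, ch p a b n (q * y) * γ n := by
      intro n _
      rw [← Finset.sum_sub_distrib]
      have e2 : ∀ l ∈ II V, ch p a b n l * γ n * ro y₀ l - ch p a b n l * γ n * ro y₁ l =
          ∑ q ∈ (Ioc y₀ y₁).filter Nat.Prime,
            (if q ∣ l ∧ Rg (q - 1) (l / q) then ch p a b n l * γ n else 0) := by
        intro l hl
        rw [← mul_sub, h1 y₀ y₁ l hy (hl1 l hl), Finset.mul_sum]
        refine Finset.sum_congr rfl (fun q _ => ?_)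
        split_ifs <;> ring
      rw [Finset.sum_congr rfl e2, Finset.sum_comm]
      refine Finset.sum_congr rfl (fun q hq => ?_)
      exact B4_reindex V q (hqp q hq) (fun l => ch p a b n l * γ n)
    rw [Finset.sum_congr rfl e1, Finset.sum_comm]
    refine Finset.sum_congr rfl (fun q _ => ?_)
    rfl
  · unfold tot
    rw [← Finset.sum_sub_distrib]
    have e2 : ∀ l ∈ II V, ro y₀ l - ro y₁ l =
        ∑ q ∈ (Ioc y₀ y₁).filter Nat.Prime, (if q ∣ l ∧ Rg (q - 1) (l / q) then (1 : ℝ) else 0) :=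
      fun l hl => h1 y₀ y₁ l hy (hl1 l hl)
    rw [Finset.sum_congr rfl e2, Finset.sum_comm]
    refine Finset.sum_congr rfl (fun q hq => ?_)
    rw [B4_reindex V q (hqp q hq) (fun _ => (1 : ℝ))]
    simp

end Pool.Agent.QQA
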