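import Pool.Agent.QQA.Defs

set_option autoImplicit false

namespace Pool.Agent.QQA

open Finset

theorem B5_A (W N₁ N₂ : ℕ) (h1 : 1 ≤ N₁) (h12 : N₁ ≤ N₂) :
    ((#(Ioc (W / N₂) (W / N₁)) : ℕ) : ℝ) ≤ (W : ℝ) * ((N₂ : ℝ) - N₁) / (N₁ * N₂) + 1 := by
  have h2 : 1 ≤ N₂ := le_trans h1 h12
  have hN1 : (0 : ℝ) < N₁ := by exact_mod_cast h1
  have hN2 : (0 : ℝ) < N₂ := by exact_mod_cast h2
  rw [Nat.card_Ioc]
  have hle : W / N₂ ≤ W / N₁ := Nat.div_le_div_left h12 h1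
  rw [Nat.cast_sub hle]
  have e1 : ((W / N₁ : ℕ) : ℝ) ≤ (W : ℝ) / N₁ := Nat.cast_div_le
  have e2 : (W : ℝ) / N₂ ≤ ((W / N₂ : ℕ) : ℝ) + 1 := by
    rw [div_le_iff₀ hN2]
    have h3 : W < (W / N₂ + 1) * N₂ := by
      have := Nat.lt_succ_self (W / N₂)
      exact (Nat.div_lt_iff_lt_mul h2).mp this
    have h4 : (W : ℝ) < ((W / N₂ : ℕ) + 1) * N₂ := by exact_mod_cast h3
    linarith
  have e3 : (W : ℝ) * ((N₂ : ℝ) - N₁) / (N₁ * N₂) = (W : ℝ) / N₁ - W / N₂ := by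
    field_simp
  rw [e3]
  linarith

theorem B5_h (T k i : ℕ) (hT : 1 ≤ T) (hTk : T ≤ 2 ^ k) :
    2 ^ k ≤ yy T k i ∧ yy T k i ≤ yy T k (i + 1) ∧
      (yy T k (i + 1) : ℝ) - yy T k i ≤ 2 * 2 ^ k / T := by
  have hT0 : (0 : ℝ) < T := by exact_mod_cast hT
  refine ⟨?_, ?_, ?_⟩
  · exact Nat.le_add_right _ _
  · unfold yy
    have : i * 2 ^ k / T ≤ (i + 1) * 2 ^ k / T :=
      Nat.div_le_div_right (Nat.mul_le_mul_right _ (by omega))
    exact Nat.add_le_add_left this _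
  · unfold yy
    push_cast
    have e1 : (((i + 1) * 2 ^ k / T : ℕ) : ℝ) ≤ ((i : ℝ) + 1) * 2 ^ k / T := by
      have := @Nat.cast_div_le ℝ _ _ _ ((i + 1) * 2 ^ k) T
      push_cast at this
      exact this
    have e2 : (i : ℝ) * 2 ^ k / T ≤ ((i * 2 ^ k / T : ℕ) : ℝ) + 1 := by
      rw [div_le_iff₀ hT0]
      have h3 : i * 2 ^ k < (i * 2 ^ k / T + 1) * T :=
        (Nat.div_lt_iff_lt_mul (by omega)).mp (Nat.lt_succ_self _)
      have h4 : (i : ℝ) * 2 ^ k < ((i * 2 ^ k / T : ℕ) + 1) * T := by exact_mod_cast h3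
      linarith
    have e3 : (1 : ℝ) ≤ 2 ^ k / T := by
      rw [le_div_iff₀ hT0, one_mul]
      exact_mod_cast hTk
    have e4 : ((i : ℝ) + 1) * 2 ^ k / T = (i : ℝ) * 2 ^ k / T + 2 ^ k / T := by ring
    have e5 : (2 : ℝ) * 2 ^ k / T = 2 ^ k / T + 2 ^ k / T := by ring
    rw [e5]
    linarith

theorem B5_cover (V N₁ N₂ : ℕ) (h1 : 1 ≤ N₁) (h12 : N₁ ≤ N₂) :
    UC V N₁ N₂ ⊆ LC V N₁ N₂ ∪ (Ioc (V / N₂) (V / N₁) ∪ (Ioc (wn V / N₂) (wn V / N₁) ∪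
      (Ioc N₁ N₂).biUnion (fun r => (Ioc 0 (wn V / N₁)).filter (fun y => r ∣ y)))) := by
  classical
  intro y hy
  have h2 : 1 ≤ N₂ := le_trans h1 h12
  obtain ⟨hy1, hy2, hy3, hy4⟩ := Finset.mem_filter.mp hy
  have hy0 := Finset.mem_Icc.mp hy1
  rw [Finset.mem_union, Finset.mem_union, Finset.mem_union]
  by_cases c1 : N₁ * y ≤ V
  · right; left
    rw [Finset.mem_Ioc]
    refine ⟨(Nat.div_lt_iff_lt_mul h2).mpr (by rw [mul_comm]; exact hy2), ?_⟩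
    exact (Nat.le_div_iff_mul_le h1).mpr (by rw [mul_comm]; exact c1)
  · by_cases c2 : wn V < N₂ * y
    · right; right; left
      rw [Finset.mem_Ioc]
      refine ⟨(Nat.div_lt_iff_lt_mul h2).mpr (by rw [mul_comm]; exact c2), ?_⟩
      exact (Nat.le_div_iff_mul_le h1).mpr (by rw [mul_comm]; exact hy3)
    · by_cases c3 : Rg N₂ y
      · left
        exact Finset.mem_filter.mpr ⟨hy1, by omega, by omega, c3⟩
      · right; right; right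
        unfold Rg at c3
        push Not at c3
        obtain ⟨q, hq, hqy, hqN⟩ := c3
        rw [Finset.mem_biUnion]
        refine ⟨q, Finset.mem_Ioc.mpr ⟨hy4 q hq hqy, hqN⟩, Finset.mem_filter.mpr ⟨?_, hqy⟩⟩
        rw [Finset.mem_Ioc]
        exact ⟨by omega, (Nat.le_div_iff_mul_le h1).mpr (by rw [mul_comm]; exact hy3)⟩

theorem B5_wn (V : ℕ) : (wn V : ℝ) ≤ 11 / 10 * V := by
  unfold wn
  have := @Nat.cast_div_le ℝ _ _ _ V 10
  push_cast at this ⊢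
  linarith

theorem B5_C (W N₁ N₂ : ℕ) (h1 : 1 ≤ N₁) (h12 : N₁ ≤ N₂) :
    ((#((Ioc N₁ N₂).biUnion (fun r => (Ioc 0 (W / N₁)).filter (fun y => r ∣ y))) : ℕ) : ℝ) ≤
      ((N₂ : ℝ) - N₁) * ((W : ℝ) / N₁ / N₁) := by
  classical
  have hN1 : (0 : ℝ) < N₁ := by exact_mod_cast h1
  have e1 : #((Ioc N₁ N₂).biUnion (fun r => (Ioc 0 (W / N₁)).filter (fun y => r ∣ y))) ≤
      ∑ r ∈ Ioc N₁ N₂, (W / N₁ / N₁) := by
    refine (Finset.card_biUnion_le).trans (Finset.sum_le_sum (fun r hr => ?_))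
    rw [Nat.Ioc_filter_dvd_card_eq_div]
    exact Nat.div_le_div_left (Finset.mem_Ioc.mp hr).1.le h1
  have e2 : ((∑ r ∈ Ioc N₁ N₂, (W / N₁ / N₁) : ℕ) : ℝ) = ((N₂ : ℝ) - N₁) * ((W / N₁ / N₁ : ℕ) : ℝ) := by
    rw [Finset.sum_const, Nat.card_Ioc, smul_eq_mul, Nat.cast_mul, Nat.cast_sub h12]
  have e3 : ((W / N₁ / N₁ : ℕ) : ℝ) ≤ (W : ℝ) / N₁ / N₁ := by
    refine (@Nat.cast_div_le ℝ _ _ _ (W / N₁) N₁).trans ?_
    exact div_le_div_of_nonneg_right Nat.cast_div_le hN1.le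
  have e4 : (0 : ℝ) ≤ (N₂ : ℝ) - N₁ := by
    have : (N₁ : ℝ) ≤ N₂ := by exact_mod_cast h12
    linarith
  calc ((#((Ioc N₁ N₂).biUnion (fun r => (Ioc 0 (W / N₁)).filter (fun y => r ∣ y))) : ℕ) : ℝ)
      ≤ ((∑ r ∈ Ioc N₁ N₂, (W / N₁ / N₁) : ℕ) : ℝ) := by exact_mod_cast e1
    _ = ((N₂ : ℝ) - N₁) * ((W / N₁ / N₁ : ℕ) : ℝ) := e2
    _ ≤ _ := mul_le_mul_of_nonneg_left e3 e4

theorem B5_one (T k i V : ℕ) (hT : 1 ≤ T) (hTk : T ≤ 2 ^ k) :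
    (#(cell T k i) : ℝ) * ((#(UC V (yy T k i) (yy T k (i + 1))) : ℝ)
        - #(LC V (yy T k i) (yy T k (i + 1)))) ≤
      (2 * 2 ^ k / T) * (64 / 10 * V / (T * 2 ^ k) + 2) := by
  classical
  obtain ⟨ha, hb, hc⟩ := B5_h T k i hT hTk
  set N₁ := yy T k i with hN1
  set N₂ := yy T k (i + 1) with hN2
  set P : ℝ := 2 ^ k with hP
  have hP0 : 0 < P := by rw [hP]; positivity
  have hT0 : (0 : ℝ) < T := by exact_mod_cast hT
  have h1 : 1 ≤ N₁ := le_trans Nat.one_le_two_pow ha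
  have hN1r : P ≤ N₁ := by rw [hP]; exact_mod_cast ha
  have hN12 : (N₁ : ℝ) ≤ N₂ := by exact_mod_cast hb
  have hN2r : P ≤ N₂ := le_trans hN1r hN12
  have hN10 : (0 : ℝ) < N₁ := lt_of_lt_of_le hP0 hN1r
  have hN20 : (0 : ℝ) < N₂ := lt_of_lt_of_le hP0 hN2r
  have hV0 : (0 : ℝ) ≤ V := Nat.cast_nonneg V
  have hcell : (#(cell T k i) : ℝ) ≤ 2 * P / T := by
    have : #(cell T k i) ≤ N₂ - N₁ := by
      unfold cell
      refine (Finset.card_filter_le _ _).trans ?_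
      rw [Nat.card_Ioc]
    have h3 : (#(cell T k i) : ℝ) ≤ ((N₂ - N₁ : ℕ) : ℝ) := by exact_mod_cast this
    rw [Nat.cast_sub hb] at h3
    exact h3.trans hc
  have hd0 : (0 : ℝ) ≤ (N₂ : ℝ) - N₁ := by linarith
  have hdiff : (#(UC V N₁ N₂) : ℝ) - #(LC V N₁ N₂) ≤ 64 / 10 * V / (T * P) + 2 := by
    have hcov := Finset.card_le_card (B5_cover V N₁ N₂ h1 hb)
    have h4 := hcov.trans (Finset.card_union_le _ _)
    have h5 := h4.trans (Nat.add_le_add_left (Finset.card_union_le _ _) _)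
    have h6 := h5.trans (Nat.add_le_add_left (Nat.add_le_add_left (Finset.card_union_le _ _) _) _)
    have h7 : (#(UC V N₁ N₂) : ℝ) ≤ (#(LC V N₁ N₂) : ℝ) + (((#(Ioc (V / N₂) (V / N₁)) : ℕ) : ℝ) +
        (((#(Ioc (wn V / N₂) (wn V / N₁)) : ℕ) : ℝ) +
        ((#((Ioc N₁ N₂).biUnion (fun r => (Ioc 0 (wn V / N₁)).filter (fun y => r ∣ y))) : ℕ) : ℝ))) := by
      exact_mod_cast h6
    have hA := B5_A V N₁ N₂ h1 hb
    have hB := B5_A (wn V) N₁ N₂ h1 hb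
    have hC := B5_C (wn V) N₁ N₂ h1 hb
    have hw := B5_wn V
    have hw0 : (0 : ℝ) ≤ wn V := Nat.cast_nonneg _
    have hPP : P * P ≤ N₁ * N₂ := mul_le_mul hN1r hN2r hP0.le hN10.le
    have hPP' : P * P ≤ N₁ * N₁ := mul_le_mul hN1r hN1r hP0.le hN10.le
    have key : ∀ W : ℝ, 0 ≤ W → W * ((N₂ : ℝ) - N₁) / (N₁ * N₂) ≤ 2 * W / (T * P) := by
      intro W hW
      calc W * ((N₂ : ℝ) - N₁) / (N₁ * N₂) ≤ W * (2 * P / T) / (P * P) :=
            div_le_div₀ (by positivity) (mul_le_mul_of_nonneg_left hc hW) (by positivity) hPP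
        _ = 2 * W / (T * P) := by field_simp
    have key2 : ((N₂ : ℝ) - N₁) * ((wn V : ℝ) / N₁ / N₁) ≤ 2 * (wn V : ℝ) / (T * P) := by
      have : ((N₂ : ℝ) - N₁) * ((wn V : ℝ) / N₁ / N₁) = (wn V : ℝ) * ((N₂ : ℝ) - N₁) / (N₁ * N₁) := by
        field_simp
      rw [this]
      calc (wn V : ℝ) * ((N₂ : ℝ) - N₁) / (N₁ * N₁) ≤ (wn V : ℝ) * (2 * P / T) / (P * P) :=
            div_le_div₀ (by positivity) (mul_le_mul_of_nonneg_left hc hw0) (by positivity) hPP'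
        _ = 2 * (wn V : ℝ) / (T * P) := by field_simp
    have k1 := key V hV0
    have k2 := key (wn V) hw0
    have k3 : 2 * (wn V : ℝ) / (T * P) ≤ 2 * (11 / 10 * V) / (T * P) :=
      div_le_div_of_nonneg_right (by linarith) (by positivity)
    have k4 : 64 / 10 * (V : ℝ) / (T * P) = 2 * V / (T * P) + 2 * (11 / 10 * V) / (T * P)
        + 2 * (11 / 10 * V) / (T * P) := by ring
    rw [k4]
    linarith
  have hB0 : (0 : ℝ) ≤ 64 / 10 * V / (T * P) + 2 := by positivity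
  have hc0 : (0 : ℝ) ≤ (#(cell T k i) : ℝ) := Nat.cast_nonneg _
  calc (#(cell T k i) : ℝ) * ((#(UC V N₁ N₂) : ℝ) - #(LC V N₁ N₂))
      ≤ (#(cell T k i) : ℝ) * (64 / 10 * V / (T * P) + 2) := mul_le_mul_of_nonneg_left hdiff hc0
    _ ≤ (2 * P / T) * (64 / 10 * V / (T * P) + 2) := mul_le_mul_of_nonneg_right hcell hB0

theorem R_B5 : st_B5 := by
  intro T K₀ K₁ V hT hTK hK _
  have hT0 : (0 : ℝ) < T := by
    have : 0 < T := by omega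
    exact_mod_cast this
  have h1 : ∀ k ∈ Ico K₀ K₁, ∑ i ∈ range T, (#(cell T k i) : ℝ) *
      ((#(UC V (yy T k i) (yy T k (i + 1))) : ℝ) - #(LC V (yy T k i) (yy T k (i + 1)))) ≤
      128 / 10 * V / T + 4 * 2 ^ k := by
    intro k hk
    have hTk : T ≤ 2 ^ k := le_trans hTK (Nat.pow_le_pow_right (by norm_num) (Finset.mem_Ico.mp hk).1)
    have h2 : ∀ i ∈ range T, (#(cell T k i) : ℝ) *
      ((#(UC V (yy T k i) (yy T k (i + 1))) : ℝ) - #(LC V (yy T k i) (yy T k (i + 1)))) ≤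
      (2 * 2 ^ k / T) * (64 / 10 * V / (T * 2 ^ k) + 2) :=
      fun i _ => B5_one T k i V (by omega) hTk
    refine (Finset.sum_le_sum h2).trans ?_
    rw [Finset.sum_const, Finset.card_range, nsmul_eq_mul]
    apply le_of_eq
    field_simp
    ring
  refine (Finset.sum_le_sum h1).trans ?_
  rw [Finset.sum_add_distrib, Finset.sum_const, Nat.card_Ico, nsmul_eq_mul, ← Finset.mul_sum]
  have h3 : ∑ k ∈ Ico K₀ K₁, (2 : ℝ) ^ k ≤ 2 ^ K₁ := by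
    have h4 : ∑ k ∈ Ico K₀ K₁, (2 : ℝ) ^ k ≤ ∑ k ∈ range K₁, (2 : ℝ) ^ k := by
      apply Finset.sum_le_sum_of_subset_of_nonneg
      · intro k hk
        exact Finset.mem_range.mpr (Finset.mem_Ico.mp hk).2
      · intro k _ _
        positivity
    have h5 : ∑ k ∈ range K₁, (2 : ℝ) ^ k = 2 ^ K₁ - 1 := by
      rw [geom_sum_eq (by norm_num)]
      norm_num
    linarith
  have h6 : ((K₁ - K₀ : ℕ) : ℝ) ≤ K₁ := by
    exact_mod_cast Nat.sub_le K₁ K₀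
  have h7 : (0 : ℝ) ≤ 128 / 10 * V / T := by positivity
  have h8 : ((K₁ - K₀ : ℕ) : ℝ) * (128 / 10 * V / T) ≤ K₁ * (128 / 10 * V / T) :=
    mul_le_mul_of_nonneg_right h6 h7
  have h9 : (K₁ : ℝ) * (128 / 10 * V / T) = 128 / 10 * ((K₁ : ℝ) * V / T) := by ring
  have h10 : (0 : ℝ) ≤ (K₁ : ℝ) * V / T := by positivity
  have h11 : (0 : ℝ) ≤ (2 : ℝ) ^ K₁ := by positivity
  nlinarith

end Pool.Agent.QQA
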