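import Pool.Agent.QQA.Defs

set_option autoImplicit false

namespace Pool.Agent.QQA

open Finset

/-- the coefficients of the products -/
noncomputable def B6_al (b : ℕ) (γ : ℕ → ℝ) (A S : Finset ℕ) (m : ℕ) : ℝ :=
  ∑ t ∈ A ×ˢ S, if b * t.1 * t.2 = m then γ t.1 else 0

lemma B6_swap {b : ℕ} {γ : ℕ → ℝ} {A S R : Finset ℕ}
    (h : ∀ n ∈ A, ∀ y ∈ S, b * n * y ∈ R) (G : ℕ → ℝ) :
    ∑ m ∈ R, B6_al b γ A S m * G m = ∑ n ∈ A, ∑ y ∈ S, γ n * G (b * n * y) := by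
  unfold B6_al
  simp_rw [Finset.sum_mul]
  rw [Finset.sum_comm, Finset.sum_product]
  refine Finset.sum_congr rfl fun n hn => Finset.sum_congr rfl fun y hy => ?_
  rw [Finset.sum_eq_single (b * n * y)]
  · simp
  · intro m _ hm
    rw [if_neg (fun h => hm h.symm), zero_mul]
  · intro hm
    exact absurd (h n hn y hy) hm

lemma B6_nonneg {b : ℕ} {γ : ℕ → ℝ} {A S : Finset ℕ} (hγ : ∀ n, 0 ≤ γ n ∧ γ n ≤ 3) (m : ℕ) :
    0 ≤ B6_al b γ A S m := by
  unfold B6_al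
  refine Finset.sum_nonneg fun t _ => ?_
  split_ifs
  · exact (hγ _).1
  · exact le_rfl

lemma B6_le {b : ℕ} {γ : ℕ → ℝ} {A S : Finset ℕ} (hγ : ∀ n, 0 ≤ γ n ∧ γ n ≤ 3) {m : ℕ}
    (hm : 1 ≤ m) : B6_al b γ A S m ≤ 3 * (m.divisors.card : ℝ) := by
  have h1 : B6_al b γ A S m ≤ 3 * (#((A ×ˢ S).filter (fun t => b * t.1 * t.2 = m)) : ℝ) := by
    unfold B6_al
    rw [← Finset.sum_filter]
    calc ∑ t ∈ (A ×ˢ S).filter (fun t => b * t.1 * t.2 = m), γ t.1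
        ≤ ∑ _t ∈ (A ×ˢ S).filter (fun t => b * t.1 * t.2 = m), (3 : ℝ) :=
          Finset.sum_le_sum fun t _ => (hγ _).2
      _ = _ := by rw [Finset.sum_const, nsmul_eq_mul]; ring
  have h2 : #((A ×ˢ S).filter (fun t => b * t.1 * t.2 = m)) ≤ m.divisors.card := by
    refine Finset.card_le_card_of_injOn Prod.fst ?_ ?_
    · intro t ht
      have ht' := (Finset.mem_filter.1 (Finset.mem_coe.1 ht)).2
      rw [Finset.mem_coe, Nat.mem_divisors]
      exact ⟨⟨b * t.2, by rw [← ht']; ring⟩, by omega⟩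
    · intro t ht t' ht' he
      have e1 := (Finset.mem_filter.1 (Finset.mem_coe.1 ht)).2
      have e2 := (Finset.mem_filter.1 (Finset.mem_coe.1 ht')).2
      have hpos : 0 < b * t.1 := by
        rcases Nat.eq_zero_or_pos (b * t.1) with h | h
        · rw [h, zero_mul] at e1; omega
        · exact h
      have e3 : b * t.1 * t.2 = b * t.1 * t'.2 := by
        rw [e1, he, e2]
      exact Prod.ext he (Nat.eq_of_mul_eq_mul_left hpos e3)
  have h3 : (#((A ×ˢ S).filter (fun t => b * t.1 * t.2 = m)) : ℝ) ≤ (m.divisors.card : ℝ) := by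
    exact_mod_cast h2
  linarith

/-- the difference of one cell as a sum over the pairs -/
lemma B6_er (p : ℕ) (a : ℤ) (b V : ℕ) (γ : ℕ → ℝ) (Q S : Finset ℕ) :
    ∑ q ∈ Q, cc p a b V γ q S - tot V γ * #Q * #S / p =
      ∑ n ∈ II V, ∑ y ∈ S, γ n * ∑ q ∈ Q,
        ((if (p : ℤ) ∣ ((b * n * y : ℕ) : ℤ) * q - a then (1 : ℝ) else 0) - 1 / (p : ℝ)) := by
  have h1 : ∑ q ∈ Q, cc p a b V γ q S = ∑ n ∈ II V, ∑ y ∈ S, γ n * ∑ q ∈ Q,
      (if (p : ℤ) ∣ ((b * n * y : ℕ) : ℤ) * q - a then (1 : ℝ) else 0) := by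
    unfold cc
    rw [Finset.sum_comm]
    refine Finset.sum_congr rfl fun n _ => ?_
    rw [Finset.sum_comm]
    refine Finset.sum_congr rfl fun y _ => ?_
    rw [Finset.mul_sum]
    refine Finset.sum_congr rfl fun q _ => ?_
    unfold ch
    have e : (b : ℤ) * n * ((q * y : ℕ) : ℤ) - a = ((b * n * y : ℕ) : ℤ) * q - a := by
      push_cast; ring
    rw [e]; ring
  have h2 : tot V γ * #Q * #S / p = ∑ n ∈ II V, ∑ _y ∈ S, γ n * ∑ _q ∈ Q, (1 / (p : ℝ)) := by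
    unfold tot
    simp only [Finset.sum_const, nsmul_eq_mul]
    rw [Finset.sum_mul, Finset.sum_mul, Finset.sum_div]
    refine Finset.sum_congr rfl fun n _ => ?_
    ring
  rw [h1, h2, ← Finset.sum_sub_distrib]
  refine Finset.sum_congr rfl fun n _ => ?_
  rw [← Finset.sum_sub_distrib]
  refine Finset.sum_congr rfl fun y _ => ?_
  rw [← mul_sub, ← Finset.sum_sub_distrib]

lemma B6_yy {T k i : ℕ} (hT : 10 ≤ T) (hTk : T ≤ 2 ^ k) (hi : i < T) :
    2 ^ k ≤ yy T k i ∧ yy T k i ≤ yy T k (i + 1) ∧ yy T k (i + 1) ≤ 2 * 2 ^ k ∧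
      5 * yy T k (i + 1) ≤ 6 * yy T k i := by
  have hT0 : 0 < T := by omega
  unfold yy
  refine ⟨Nat.le_add_right _ _, ?_, ?_, ?_⟩
  · exact Nat.add_le_add_left (Nat.div_le_div_right (Nat.mul_le_mul_right _ (Nat.le_succ i))) _
  · have h1 : (i + 1) * 2 ^ k / T ≤ T * 2 ^ k / T :=
      Nat.div_le_div_right (Nat.mul_le_mul_right _ hi)
    rw [Nat.mul_div_cancel_left _ hT0] at h1
    omega
  · -- the difference of the quotients
    have h1 : (i + 1) * 2 ^ k / T ≤ i * 2 ^ k / T + 2 ^ k / T + 1 := by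
      rw [add_mul, one_mul]
      have := Nat.add_div (a := i * 2 ^ k) (b := 2 ^ k) hT0
      rw [this]
      split_ifs <;> omega
    have h2 : 2 ^ k / T * T ≤ 2 ^ k := Nat.div_mul_le_self _ _
    have h3 : 1 ≤ 2 ^ k / T := (Nat.one_le_div_iff hT0).2 hTk
    have h4 : 2 ^ k / T * 10 ≤ 2 ^ k := (Nat.mul_le_mul_left _ hT).trans h2
    clear h2
    generalize (i + 1) * 2 ^ k / T = f at *
    generalize i * 2 ^ k / T = d at *
    generalize 2 ^ k / T = e at *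
    generalize 2 ^ k = b at *
    omega

theorem R_B6 (h0 : st_TIIA) (ht : st_tau) : st_B6 := by
  intro e he0 he1
  obtain ⟨η₀, δ₀, C₀, hη₀, hδ₀, hC₀, H⟩ := h0 e he0 he1
  obtain ⟨Cτ, hCτ, hτ⟩ := ht (δ₀ / 4) (by positivity)
  set η : ℝ := min (η₀ / 4) (1 / 4) with hη
  have hη1 : 0 < η := lt_min (by positivity) (by norm_num)
  have hη2 : η ≤ η₀ / 4 := min_le_left _ _
  have hη3 : η ≤ 1 / 4 := min_le_right _ _
  refine ⟨η, δ₀ / 2, 3 * Cτ * (2 : ℝ) ^ (δ₀ / 4) * C₀, hη1, by positivity, by positivity,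
    max 16 ⌈(4 : ℝ) ^ (2 / η₀)⌉₊, ?_⟩
  intro X T k i V b a γ S hX hT hTk hi hXe hkX hV hb hbV ha haX hγ hS
  have hX16 : 16 ≤ X := (le_max_left _ _).trans hX
  have hX16' : (16 : ℝ) ≤ X := by exact_mod_cast hX16
  have hX1 : (1 : ℝ) ≤ X := by linarith
  have hX0 : (0 : ℝ) < X := by linarith
  have hX4 : (4 : ℝ) ≤ (X : ℝ) ^ (η₀ / 2) := by
    have h1 : (4 : ℝ) ^ (2 / η₀) ≤ X :=
      (Nat.le_ceil _).trans (by exact_mod_cast (le_max_right _ _).trans hX)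
    have h2 : ((4 : ℝ) ^ (2 / η₀)) ^ (η₀ / 2) ≤ (X : ℝ) ^ (η₀ / 2) :=
      Real.rpow_le_rpow (by positivity) h1 (by positivity)
    rw [← Real.rpow_mul (by norm_num)] at h2
    have h3 : 2 / η₀ * (η₀ / 2) = 1 := by field_simp
    rwa [h3, Real.rpow_one] at h2
  obtain ⟨hN1, hN12, hN2, hN56⟩ := B6_yy hT hTk hi
  set N₁ := yy T k i with hN₁
  set N₂ := yy T k (i + 1) with hN₂
  set N := 2 ^ k with hN
  have hNpos : 0 < N := by rw [hN]; positivity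
  have hN2pos : 0 < N₂ := by omega
  set M := b * V ^ 2 / N₂ with hM
  -- sizes
  have hV2 : (X : ℝ) ^ (2 - 2 * η) ≤ (V : ℝ) ^ 2 := by
    have h1 : ((X : ℝ) ^ (1 - η)) ^ 2 ≤ (V : ℝ) ^ 2 := by
      gcongr
    have h2 : ((X : ℝ) ^ (1 - η)) ^ 2 = (X : ℝ) ^ (2 - 2 * η) := by
      rw [← Real.rpow_natCast, ← Real.rpow_mul hX0.le]
      congr 1
      push_cast; ring
    rwa [h2] at h1
  have hX32 : 4 * (X : ℝ) ≤ (X : ℝ) ^ (2 - 2 * η) := by
    have h1 : (X : ℝ) ^ (3 / 2 : ℝ) ≤ (X : ℝ) ^ (2 - 2 * η) :=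
      Real.rpow_le_rpow_of_exponent_le hX1 (by linarith)
    have h2 : (X : ℝ) ^ (3 / 2 : ℝ) = X * √X := by
      rw [show (3 / 2 : ℝ) = 1 + 1 / 2 by norm_num, Real.rpow_add hX0, Real.rpow_one,
        Real.sqrt_eq_rpow]
    have h3 : (4 : ℝ) ≤ √X := by
      apply Real.le_sqrt_of_sq_le
      linarith
    rw [h2] at h1
    nlinarith
  have hbV2 : (V : ℝ) ^ 2 ≤ (b : ℝ) * (V : ℝ) ^ 2 := by
    have : (1 : ℝ) ≤ b := by exact_mod_cast hb
    nlinarith [sq_nonneg (V : ℝ)]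
  have hkX' : (2 : ℝ) ^ (k + 1) ≤ X := by
    refine hkX.trans ?_
    calc (X : ℝ) ^ (1 / 3 - e) ≤ (X : ℝ) ^ (1 : ℝ) :=
          Real.rpow_le_rpow_of_exponent_le hX1 (by linarith)
      _ = X := Real.rpow_one _
  have h2N : 2 * N ≤ X := by
    have : ((2 * N : ℕ) : ℝ) ≤ X := by
      push_cast [hN]
      rw [pow_succ] at hkX'
      linarith
    exact_mod_cast this
  have hbV4 : 4 * X ≤ b * V ^ 2 := by
    have : ((4 * X : ℕ) : ℝ) ≤ ((b * V ^ 2 : ℕ) : ℝ) := by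
      push_cast
      linarith
    exact_mod_cast this
  -- the products
  have hmem : ∀ n ∈ II V, ∀ y ∈ S, b * n * y ∈ Ioc M (2 * M) := by
    intro n hn y hy
    have hn' := Finset.mem_Ioc.1 hn
    have hy' := (Finset.mem_filter.1 (hS hy)).2
    have hwn : 10 * wn V ≤ 11 * V := by unfold wn; omega
    have hn2 : 10 * n ≤ 11 * V := (Nat.mul_le_mul_left _ hn'.2).trans hwn
    have hy2 : 10 * (N₁ * y) ≤ 11 * V := (Nat.mul_le_mul_left _ hy'.2.1).trans hwn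
    rw [Finset.mem_Ioc]
    constructor
    · rw [hM]
      apply Nat.div_lt_of_lt_mul
      have h1 : V * V < n * (N₂ * y) := Nat.mul_lt_mul'' hn'.1 hy'.1
      calc b * V ^ 2 = b * (V * V) := by ring
        _ < b * (n * (N₂ * y)) := Nat.mul_lt_mul_of_pos_left h1 hb
        _ = N₂ * (b * n * y) := by ring
    · have h1 : (10 * n) * (10 * (N₁ * y)) ≤ (11 * V) * (11 * V) := Nat.mul_le_mul hn2 hy2
      have h2 : 100 * (N₁ * (b * n * y)) ≤ 121 * (b * V ^ 2) := by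
        have := Nat.mul_le_mul_left b h1
        nlinarith
      have h3 : 5 * N₂ * (b * n * y) ≤ 6 * N₁ * (b * n * y) := Nat.mul_le_mul_right _ hN56
      have h4 : b * V ^ 2 < N₂ * (M + 1) := by
        rw [hM]; exact Nat.lt_mul_div_succ _ hN2pos
      -- 500 N₂ w ≤ 600 N₁ w ≤ 726 b V ^ 2
      have h5 : 500 * (N₂ * (b * n * y)) ≤ 726 * (b * V ^ 2) := by nlinarith
      have h6 : 500 * (N₂ * (b * n * y)) ≤ 500 * (N₂ * (2 * M)) := by
        -- 726 B ≤ 1000 N₂ M where B < N₂ (M + 1) and N₂ ≤ X, B ≥ 4 X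
        have h7 : 4 * N₂ ≤ b * V ^ 2 := by omega
        have h8 : N₂ * (M + 1) = N₂ * M + N₂ := by ring
        have h9 : 500 * (N₂ * (2 * M)) = 1000 * (N₂ * M) := by ring
        omega
      exact Nat.le_of_mul_le_mul_left (Nat.le_of_mul_le_mul_left h6 (by norm_num)) hN2pos
  have hMX : M ≤ X ^ 2 := (Nat.div_le_self _ _).trans hbV
  -- the bound of the coefficients
  set A₀ : ℝ := 3 * Cτ * (2 : ℝ) ^ (δ₀ / 4) * (X : ℝ) ^ (δ₀ / 2) with hA₀
  have hA₀pos : 0 < A₀ := by rw [hA₀]; positivity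
  have hal : ∀ m ∈ Ioc M (2 * M), B6_al b γ (II V) S m ≤ A₀ := by
    intro m hm
    have hm' := Finset.mem_Ioc.1 hm
    have hm1 : 1 ≤ m := by omega
    refine (B6_le hγ hm1).trans ?_
    have h1 := hτ m hm1
    have h2 : (m : ℝ) ^ (δ₀ / 4) ≤ (2 * (X : ℝ) ^ 2) ^ (δ₀ / 4) := by
      apply Real.rpow_le_rpow (by positivity) _ (by positivity)
      have : m ≤ 2 * X ^ 2 := by omega
      exact_mod_cast this
    have h3 : (2 * (X : ℝ) ^ 2) ^ (δ₀ / 4) = (2 : ℝ) ^ (δ₀ / 4) * (X : ℝ) ^ (δ₀ / 2) := by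
      rw [Real.mul_rpow (by norm_num) (by positivity), ← Real.rpow_natCast, ← Real.rpow_mul hX0.le]
      congr 2
      push_cast; ring
    rw [h3] at h2
    calc 3 * (m.divisors.card : ℝ) ≤ 3 * (Cτ * (m : ℝ) ^ (δ₀ / 4)) := by linarith
      _ ≤ 3 * (Cτ * ((2 : ℝ) ^ (δ₀ / 4) * (X : ℝ) ^ (δ₀ / 2))) := by gcongr
      _ = A₀ := by rw [hA₀]; ring
  -- real sizes
  have hN2r : (N₂ : ℝ) ≤ 2 * N := by exact_mod_cast hN2
  have hN2posr : (0 : ℝ) < N₂ := by exact_mod_cast hN2pos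
  have hNposr : (0 : ℝ) < N := by exact_mod_cast hNpos
  have hMN : (M : ℝ) * N ≤ (b : ℝ) * (V : ℝ) ^ 2 := by
    have h1 : M * N ≤ b * V ^ 2 := by
      calc M * N ≤ M * N₂ := Nat.mul_le_mul_left _ (by omega)
        _ ≤ b * V ^ 2 := Nat.div_mul_le_self _ _
    exact_mod_cast h1
  have hMN2 : (M : ℝ) * N ≤ (X : ℝ) ^ 2 := by
    refine hMN.trans ?_
    exact_mod_cast hbV
  have hMNl : (X : ℝ) ^ (2 - η₀) ≤ (M : ℝ) * N := by
    have h1 : b * V ^ 2 < N₂ * (M + 1) := by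
      rw [hM]; exact Nat.lt_mul_div_succ _ hN2pos
    have h2 : N₂ * (M + 1) ≤ 2 * N * (M + 1) := Nat.mul_le_mul_right _ hN2
    have h3 : b * V ^ 2 ≤ 2 * (M * N) + 2 * N := by
      have : 2 * N * (M + 1) = 2 * (M * N) + 2 * N := by ring
      omega
    have h4 : b * V ^ 2 ≤ 4 * (M * N) := by omega
    have h5 : ((b : ℝ) * (V : ℝ) ^ 2) ≤ 4 * ((M : ℝ) * N) := by exact_mod_cast h4
    have h6 : (X : ℝ) ^ (2 - 2 * η) ≤ 4 * ((M : ℝ) * N) := (hV2.trans hbV2).trans h5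
    have h7 : (X : ℝ) ^ (2 - η₀ / 2) ≤ (X : ℝ) ^ (2 - 2 * η) :=
      Real.rpow_le_rpow_of_exponent_le hX1 (by linarith)
    have h8 : (X : ℝ) ^ (2 - η₀ / 2) = (X : ℝ) ^ (η₀ / 2) * (X : ℝ) ^ (2 - η₀) := by
      rw [← Real.rpow_add hX0]; congr 1; ring
    have h9 : 4 * (X : ℝ) ^ (2 - η₀) ≤ (X : ℝ) ^ (η₀ / 2) * (X : ℝ) ^ (2 - η₀) := by
      gcongr
    linarith
  -- the Type II estimate
  set α : ℕ → ℝ := fun m => if m ∈ Ioc M (2 * M) then B6_al b γ (II V) S m / A₀ else 0 with hα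
  set β : ℕ → ℝ := fun q => if q ∈ cell T k i then 1 else 0 with hβ
  have hest := H X N M (by omega) (by rw [hN]; push_cast; exact hXe)
    (by
      rw [hN]; push_cast
      refine le_trans ?_ hkX
      rw [pow_succ]
      have : (0 : ℝ) < 2 ^ k := by positivity
      linarith) hMNl hMN2 a ha
    (haX.trans (Real.rpow_le_rpow_of_exponent_le hX1 (by linarith))) α β
    (by
      intro m
      simp only [hα]
      split_ifs with hm
      · rw [abs_of_nonneg (div_nonneg (B6_nonneg hγ m) hA₀pos.le)]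
        exact (div_le_one hA₀pos).2 (hal m hm)
      · simp)
    (by
      intro q
      simp only [hβ]
      split_ifs <;> simp)
    (by
      intro q hq
      simp only [hβ]
      rw [if_neg]
      intro hq'
      exact hq (Finset.mem_filter.1 hq').2)
  have hsub : cell T k i ⊆ Ioc N (2 * N) := by
    intro q hq
    have hq' := Finset.mem_Ioc.1 (Finset.mem_filter.1 hq).1
    rw [Finset.mem_Ioc]
    constructor
    · exact lt_of_le_of_lt hN1 hq'.1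
    · exact hq'.2.trans hN2
  have hid : ∀ p : ℕ, ER p a b V γ T k i S = A₀ * |∑ m ∈ Ioc M (2 * M), ∑ n ∈ Ioc N (2 * N),
            α m * β n * ((if (p : ℤ) ∣ (m : ℤ) * n - a then 1 else 0) - 1 / (p : ℝ))| := by
    intro p
    have h1 : ∑ m ∈ Ioc M (2 * M), ∑ n ∈ Ioc N (2 * N),
            α m * β n * ((if (p : ℤ) ∣ (m : ℤ) * n - a then (1 : ℝ) else 0) - 1 / (p : ℝ))
        = (1 / A₀) * ∑ m ∈ Ioc M (2 * M), B6_al b γ (II V) S m * ∑ q ∈ cell T k i,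
          ((if (p : ℤ) ∣ (m : ℤ) * q - a then (1 : ℝ) else 0) - 1 / (p : ℝ)) := by
      rw [Finset.mul_sum]
      refine Finset.sum_congr rfl fun m hm => ?_
      have e1 : ∑ n ∈ Ioc N (2 * N),
            α m * β n * ((if (p : ℤ) ∣ (m : ℤ) * n - a then (1 : ℝ) else 0) - 1 / (p : ℝ))
          = ∑ n ∈ cell T k i,
            α m * β n * ((if (p : ℤ) ∣ (m : ℤ) * n - a then (1 : ℝ) else 0) - 1 / (p : ℝ)) := by
        symm
        refine Finset.sum_subset hsub fun q _ hq => ?_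
        simp only [hβ]
        rw [if_neg hq]; ring
      rw [e1, Finset.mul_sum, Finset.mul_sum]
      refine Finset.sum_congr rfl fun q hq => ?_
      simp only [hα, hβ]
      rw [if_pos hm, if_pos hq]
      ring
    rw [h1, B6_swap hmem (fun m => ∑ q ∈ cell T k i,
          ((if (p : ℤ) ∣ (m : ℤ) * q - a then (1 : ℝ) else 0) - 1 / (p : ℝ))), abs_mul,
      abs_of_pos (by positivity : 0 < 1 / A₀), ← mul_assoc, mul_one_div_cancel hA₀pos.ne',
      one_mul]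
    unfold ER
    rw [B6_er]
  calc ∑ p ∈ (Ioc X (2 * X)).filter Nat.Prime, ER p a b V γ T k i S
      = A₀ * ∑ p ∈ (Ioc X (2 * X)).filter Nat.Prime, |∑ m ∈ Ioc M (2 * M), ∑ n ∈ Ioc N (2 * N),
            α m * β n * ((if (p : ℤ) ∣ (m : ℤ) * n - a then 1 else 0) - 1 / (p : ℝ))| := by
        rw [Finset.mul_sum]
        exact Finset.sum_congr rfl fun p _ => hid p
    _ ≤ A₀ * (C₀ * (X : ℝ) ^ (1 - δ₀) * ((M : ℝ) * N) / X) := by gcongr
    _ ≤ A₀ * (C₀ * (X : ℝ) ^ (1 - δ₀) * ((b : ℝ) * (V : ℝ) ^ 2) / X) := by gcongr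
    _ = 3 * Cτ * (2 : ℝ) ^ (δ₀ / 4) * C₀ * (X : ℝ) ^ (-(δ₀ / 2)) * ((b : ℝ) * (V : ℝ) ^ 2) := by
        have e1 : (X : ℝ) ^ (δ₀ / 2) * (X : ℝ) ^ (1 - δ₀) = (X : ℝ) ^ (-(δ₀ / 2)) * X := by
          rw [← Real.rpow_add hX0, ← Real.rpow_add_one hX0.ne']
          congr 1; ring
        rw [hA₀]
        calc 3 * Cτ * (2 : ℝ) ^ (δ₀ / 4) * (X : ℝ) ^ (δ₀ / 2)
              * (C₀ * (X : ℝ) ^ (1 - δ₀) * ((b : ℝ) * (V : ℝ) ^ 2) / X)
            = 3 * Cτ * (2 : ℝ) ^ (δ₀ / 4) * C₀ * ((X : ℝ) ^ (δ₀ / 2) * (X : ℝ) ^ (1 - δ₀))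
              * ((b : ℝ) * (V : ℝ) ^ 2) / X := by ring
          _ = _ := by rw [e1]; field_simp

end Pool.Agent.QQA
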