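import Pool.Agent.QQA.Defs

set_option autoImplicit false

namespace Pool.Agent.QQA

open Finset

lemma B7_ch_nonneg (p : ℕ) (a : ℤ) (b n l : ℕ) : 0 ≤ ch p a b n l := by
  unfold ch
  split_ifs <;> norm_num

lemma B7_tot_nonneg (V : ℕ) (γ : ℕ → ℝ) (hγ : ∀ n, 0 ≤ γ n) : 0 ≤ tot V γ := by
  unfold tot
  exact sum_nonneg fun n _ => hγ n

lemma B7_cc_mono (p : ℕ) (a : ℤ) (b V : ℕ) (γ : ℕ → ℝ) (q : ℕ) (hγ : ∀ n, 0 ≤ γ n)
    {S S' : Finset ℕ} (h : S ⊆ S') : cc p a b V γ q S ≤ cc p a b V γ q S' := by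
  unfold cc
  exact sum_le_sum fun n _ => sum_le_sum_of_subset_of_nonneg h fun y _ _ =>
    mul_nonneg (B7_ch_nonneg _ _ _ _ _) (hγ n)

lemma B7_cell (h3 : st_B3) (p : ℕ) (a : ℤ) (b V : ℕ) (γ : ℕ → ℝ) (hγ : ∀ n, 0 ≤ γ n)
    (T k i : ℕ) :
    |∑ q ∈ cell T k i, (cc p a b V γ q (AAs V q) - tot V γ * (#(AAs V q) : ℝ) / p)| ≤
      (ER p a b V γ T k i (LC V (yy T k i) (yy T k (i + 1))) +
        ER p a b V γ T k i (UC V (yy T k i) (yy T k (i + 1)))) +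
      tot V γ / p * ((#(cell T k i) : ℝ) *
        ((#(UC V (yy T k i) (yy T k (i + 1))) : ℝ) - #(LC V (yy T k i) (yy T k (i + 1))))) := by
  set L := LC V (yy T k i) (yy T k (i + 1)) with hL
  set U := UC V (yy T k i) (yy T k (i + 1)) with hU
  have hg := B7_tot_nonneg V γ hγ
  have hp : (0 : ℝ) ≤ p := Nat.cast_nonneg p
  set g := tot V γ with hgdef
  -- pointwise bounds
  have hup : ∀ q ∈ cell T k i, cc p a b V γ q (AAs V q) - g * (#(AAs V q) : ℝ) / p ≤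
      cc p a b V γ q U - g * (#L : ℝ) / p := by
    intro q hq
    obtain ⟨h1, h2⟩ := h3 T k i V q hq
    have h4 : (#L : ℝ) ≤ #(AAs V q) := by exact_mod_cast card_le_card h1
    have h5 : g * (#L : ℝ) / p ≤ g * (#(AAs V q) : ℝ) / p :=
      div_le_div_of_nonneg_right (mul_le_mul_of_nonneg_left h4 hg) hp
    have h6 := B7_cc_mono p a b V γ q hγ h2
    linarith
  have hlo : ∀ q ∈ cell T k i, cc p a b V γ q L - g * (#U : ℝ) / p ≤
      cc p a b V γ q (AAs V q) - g * (#(AAs V q) : ℝ) / p := by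
    intro q hq
    obtain ⟨h1, h2⟩ := h3 T k i V q hq
    have h4 : (#(AAs V q) : ℝ) ≤ #U := by exact_mod_cast card_le_card h2
    have h5 : g * (#(AAs V q) : ℝ) / p ≤ g * (#U : ℝ) / p :=
      div_le_div_of_nonneg_right (mul_le_mul_of_nonneg_left h4 hg) hp
    have h6 := B7_cc_mono p a b V γ q hγ h1
    linarith
  have hup' := sum_le_sum hup
  have hlo' := sum_le_sum hlo
  rw [sum_sub_distrib (fun q => cc p a b V γ q U) (fun _ => g * (#L : ℝ) / p), sum_const,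
    nsmul_eq_mul] at hup'
  rw [sum_sub_distrib (fun q => cc p a b V γ q L) (fun _ => g * (#U : ℝ) / p), sum_const,
    nsmul_eq_mul] at hlo'
  have hEL : |∑ q ∈ cell T k i, cc p a b V γ q L - g * #(cell T k i) * #L / p| =
      ER p a b V γ T k i L := rfl
  have hEU : |∑ q ∈ cell T k i, cc p a b V γ q U - g * #(cell T k i) * #U / p| =
      ER p a b V γ T k i U := rfl
  have hL1 := abs_le.1 hEL.le
  have hU1 := abs_le.1 hEU.le
  have hEL0 : 0 ≤ ER p a b V γ T k i L := by rw [← hEL]; exact abs_nonneg _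
  have hEU0 : 0 ≤ ER p a b V γ T k i U := by rw [← hEU]; exact abs_nonneg _
  have e1 : (#(cell T k i) : ℝ) * (g * (#L : ℝ) / p) =
      g * #(cell T k i) * #U / p - g / p * ((#(cell T k i) : ℝ) * ((#U : ℝ) - #L)) := by ring
  have e2 : (#(cell T k i) : ℝ) * (g * (#U : ℝ) / p) =
      g * #(cell T k i) * #L / p + g / p * ((#(cell T k i) : ℝ) * ((#U : ℝ) - #L)) := by ring
  rw [e1] at hup'
  rw [e2] at hlo'
  rw [abs_le]
  constructor
  · linarith [hL1.1, hL1.2, hU1.1, hU1.2]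
  · linarith [hL1.1, hL1.2, hU1.1, hU1.2]

theorem R_B7 (h2 : st_B2) (h3 : st_B3) (h4 : st_B4) (h5 : st_B5) : st_B7 := by
  intro p a b V γ T K₀ K₁ hp hT hTK hK hV hγ
  have hpow : 2 ^ K₀ ≤ 2 ^ K₁ := Nat.pow_le_pow_right (by norm_num) hK
  obtain ⟨hN, ht⟩ := h4 p a b V γ (2 ^ K₀) (2 ^ K₁) hpow
  have hg := B7_tot_nonneg V γ hγ
  have hp0 : (0 : ℝ) ≤ p := Nat.cast_nonneg p
  have e1 : NN p a b V γ (ro (2 ^ K₀)) - NN p a b V γ (ro (2 ^ K₁)) -
      tot V γ * (tot V (ro (2 ^ K₀)) - tot V (ro (2 ^ K₁))) / p =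
      ∑ q ∈ (Ioc (2 ^ K₀) (2 ^ K₁)).filter Nat.Prime,
        (cc p a b V γ q (AAs V q) - tot V γ * (#(AAs V q) : ℝ) / p) := by
    rw [hN, ht, sum_sub_distrib, ← sum_div, ← mul_sum]
  rw [e1, h2 T K₀ K₁ (by omega) hK]
  refine (abs_sum_le_sum_abs _ _).trans ?_
  refine (sum_le_sum fun k _ => (abs_sum_le_sum_abs _ _).trans
    (sum_le_sum fun i _ => B7_cell h3 p a b V γ hγ T k i)).trans ?_
  simp only [sum_add_distrib]
  rw [← sum_add_distrib]
  have h6 : ∑ k ∈ Ico K₀ K₁, ∑ i ∈ range T, tot V γ / p * ((#(cell T k i) : ℝ) *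
        ((#(UC V (yy T k i) (yy T k (i + 1))) : ℝ) - #(LC V (yy T k i) (yy T k (i + 1))))) =
      tot V γ / p * ∑ k ∈ Ico K₀ K₁, ∑ i ∈ range T, ((#(cell T k i) : ℝ) *
        ((#(UC V (yy T k i) (yy T k (i + 1))) : ℝ) - #(LC V (yy T k i) (yy T k (i + 1))))) := by
    simp only [mul_sum]
  rw [h6, sum_add_distrib]
  have h7 := mul_le_mul_of_nonneg_left (h5 T K₀ K₁ V hT hTK hK hV)
    (show 0 ≤ tot V γ / p from div_nonneg hg hp0)
  linarith

end Pool.Agent.QQA
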