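import Pool.Agent.QQA.Defs

set_option autoImplicit false

namespace Pool.Agent.QQA

open Finset

theorem B8_yy (T k i : ℕ) : yy T k i ≤ yy T k (i + 1) := by
  unfold yy
  have : i * 2 ^ k / T ≤ (i + 1) * 2 ^ k / T :=
    Nat.div_le_div_right (Nat.mul_le_mul_right _ (Nat.le_succ i))
  omega

theorem B8_LC (V N₁ N₂ : ℕ) (h : N₁ ≤ N₂) : LC V N₁ N₂ ⊆ UC V N₁ N₂ := by
  intro y hy
  unfold LC at hy
  unfold UC
  rw [mem_filter] at hy ⊢
  obtain ⟨h1, h2, h3, h4⟩ := hy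
  refine ⟨h1, lt_of_lt_of_le h2 (Nat.mul_le_mul_right _ h),
    le_trans (Nat.mul_le_mul_right _ h) h3, ?_⟩
  intro q hq hqy
  exact lt_of_le_of_lt h (h4 q hq hqy)

theorem B8_tot (V : ℕ) (γ : ℕ → ℝ) (h : ∀ n, 0 ≤ γ n ∧ γ n ≤ 3) : tot V γ ≤ V := by
  unfold tot
  calc ∑ n ∈ II V, γ n ≤ ∑ n ∈ II V, (3:ℝ) := sum_le_sum (fun n _ => (h n).2)
    _ = (#(II V) : ℝ) * 3 := by rw [sum_const, nsmul_eq_mul]
    _ = ((V / 10 : ℕ) : ℝ) * 3 := by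
        have : #(II V) = V / 10 := by unfold II wn; rw [Nat.card_Ioc]; omega
        rw [this]
    _ ≤ V := by
        have h1 : V / 10 * 3 ≤ V := by omega
        exact_mod_cast h1

theorem B8_tot0 (V : ℕ) (γ : ℕ → ℝ) (h : ∀ n, 0 ≤ γ n ∧ γ n ≤ 3) : 0 ≤ tot V γ := by
  unfold tot
  exact sum_nonneg (fun n _ => (h n).1)

theorem B8_markov (s : Finset ℕ) (f : ℕ → ℝ) (hf : ∀ p, 0 ≤ f p) (t M : ℝ) (ht : 0 < t)
    (hM : ∑ p ∈ s, f p ≤ M) : (#(s.filter (fun p => t < f p)) : ℝ) ≤ M / t := by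
  rw [le_div_iff₀ ht]
  calc (#(s.filter (fun p => t < f p)) : ℝ) * t = ∑ p ∈ s.filter (fun p => t < f p), t := by
        rw [sum_const, nsmul_eq_mul]
    _ ≤ ∑ p ∈ s.filter (fun p => t < f p), f p :=
        sum_le_sum (fun p hp => le_of_lt (mem_filter.1 hp).2)
    _ ≤ ∑ p ∈ s, f p := sum_le_sum_of_subset_of_nonneg (filter_subset _ _) (fun p _ _ => hf p)
    _ ≤ M := hM

theorem B8_union {ι : Type} (J : Finset ι) (F : ι → Finset ℕ) (M : ℝ)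
    (h : ∀ j ∈ J, (#(F j) : ℝ) ≤ M) : (#(J.biUnion F) : ℝ) ≤ #J * M := by
  calc (#(J.biUnion F) : ℝ) ≤ ((∑ j ∈ J, #(F j) : ℕ) : ℝ) := by exact_mod_cast card_biUnion_le
    _ = ∑ j ∈ J, (#(F j) : ℝ) := by push_cast; rfl
    _ ≤ ∑ j ∈ J, M := sum_le_sum h
    _ = #J * M := by rw [sum_const, nsmul_eq_mul]

/-- the two sets of a cell -/
noncomputable def B8_S (V T k i : ℕ) (s : Bool) : Finset ℕ :=
  if s then UC V (yy T k i) (yy T k (i + 1)) else LC V (yy T k i) (yy T k (i + 1))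

theorem B8_S_sub (V T k i : ℕ) (s : Bool) : B8_S V T k i s ⊆ UC V (yy T k i) (yy T k (i + 1)) := by
  unfold B8_S
  split
  · exact Subset.refl _
  · exact B8_LC _ _ _ (B8_yy T k i)

/-- the exceptional primes of one cell -/
noncomputable def B8_F (X V T : ℕ) (γ : ℕ → ℝ) (t : ℝ) (j : ℤ × ℕ × ℕ × ℕ × Bool) : Finset ℕ :=
  ((Ioc X (2 * X)).filter Nat.Prime).filter (fun p =>
    t < ER p j.1 j.2.1 V γ T j.2.2.1 j.2.2.2.1 (B8_S V T j.2.2.1 j.2.2.2.1 j.2.2.2.2))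

/-- the set of the parameters -/
noncomputable def B8_J (X V T K₀ K₁ A : ℕ) : Finset (ℤ × ℕ × ℕ × ℕ × Bool) :=
  ((Icc (-(A : ℤ)) A) ×ˢ (Icc 1 A) ×ˢ (Ico K₀ K₁) ×ˢ (range T) ×ˢ (univ : Finset Bool)).filter
    (fun j => j.1 ≠ 0 ∧ j.2.1 * V ^ 2 ≤ X ^ 2)

theorem B8_J_card (X V T K₀ K₁ A : ℕ) :
    #(B8_J X V T K₀ K₁ A) ≤ (2 * A + 1) * (A * (K₁ * (T * 2))) := by
  unfold B8_J
  refine le_trans (card_filter_le _ _) ?_
  rw [card_product, card_product, card_product, card_product]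
  have h1 : #(Icc (-(A : ℤ)) A) = 2 * A + 1 := by
    rw [Int.card_Icc]; omega
  have h2 : #(Icc 1 A) = A := by rw [Nat.card_Icc]; omega
  have h3 : #(Ico K₀ K₁) ≤ K₁ := by rw [Nat.card_Ico]; omega
  have h4 : #(univ : Finset Bool) = 2 := by simp
  rw [h1, h2, card_range, h4]
  exact Nat.mul_le_mul_left _ (Nat.mul_le_mul_left _ (Nat.mul_le_mul_right _ h3))

theorem B8_J_mem (X V T K₀ K₁ A : ℕ) (a : ℤ) (b k i : ℕ) (s : Bool) (ha0 : a ≠ 0)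
    (ha : a.natAbs ≤ A) (hb1 : 1 ≤ b) (hb : b ≤ A) (hbV : b * V ^ 2 ≤ X ^ 2)
    (hk : k ∈ Ico K₀ K₁) (hi : i ∈ range T) : (a, b, k, i, s) ∈ B8_J X V T K₀ K₁ A := by
  unfold B8_J
  rw [mem_filter]
  refine ⟨?_, ha0, hbV⟩
  simp only [mem_product, mem_Icc, mem_univ, and_true]
  refine ⟨⟨by omega, by omega⟩, ⟨hb1, hb⟩, hk, hi⟩

theorem B8_ER0 (p : ℕ) (a : ℤ) (b V : ℕ) (γ : ℕ → ℝ) (T k i : ℕ) (S : Finset ℕ) :
    0 ≤ ER p a b V γ T k i S := by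
  unfold ER; exact abs_nonneg _

/-- the sum over the cells -/
theorem B8_sum (p : ℕ) (a : ℤ) (b V : ℕ) (γ : ℕ → ℝ) (T K₀ K₁ : ℕ) (t : ℝ) (ht : 0 ≤ t)
    (h : ∀ k ∈ Ico K₀ K₁, ∀ i ∈ range T, ∀ s : Bool, ER p a b V γ T k i (B8_S V T k i s) ≤ t) :
    ∑ k ∈ Ico K₀ K₁, ∑ i ∈ range T, (ER p a b V γ T k i (LC V (yy T k i) (yy T k (i + 1))) +
      ER p a b V γ T k i (UC V (yy T k i) (yy T k (i + 1)))) ≤ (K₁ : ℝ) * (T * (2 * t)) := by
  have h1 : ∀ k ∈ Ico K₀ K₁, ∑ i ∈ range T,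
      (ER p a b V γ T k i (LC V (yy T k i) (yy T k (i + 1))) +
      ER p a b V γ T k i (UC V (yy T k i) (yy T k (i + 1)))) ≤ (T * (2 * t) : ℝ) := by
    intro k hk
    calc ∑ i ∈ range T,
      (ER p a b V γ T k i (LC V (yy T k i) (yy T k (i + 1))) +
      ER p a b V γ T k i (UC V (yy T k i) (yy T k (i + 1)))) ≤ ∑ i ∈ range T, (2 * t) := by
          apply sum_le_sum
          intro i hi
          have e1 := h k hk i hi false
          have e2 := h k hk i hi true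
          simp only [B8_S, Bool.false_eq_true, if_false, if_true] at e1 e2
          linarith
      _ = (T * (2 * t) : ℝ) := by rw [sum_const, card_range, nsmul_eq_mul]
  calc _ ≤ ∑ k ∈ Ico K₀ K₁, (T * (2 * t) : ℝ) := sum_le_sum h1
    _ = (#(Ico K₀ K₁) : ℝ) * (T * (2 * t)) := by rw [sum_const, nsmul_eq_mul]
    _ ≤ (K₁ : ℝ) * (T * (2 * t)) := by
        have h3 : #(Ico K₀ K₁) ≤ K₁ := by rw [Nat.card_Ico]; omega
        have h4 : (#(Ico K₀ K₁) : ℝ) ≤ K₁ := by exact_mod_cast h3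
        exact mul_le_mul_of_nonneg_right h4 (by positivity)

/-- the final numeric inequality -/
theorem B8_fin (x V u T K P t τ p : ℝ) (hx : 0 < x) (hV : 0 < V) (hu : 10 ≤ u)
    (hT1 : u ^ 4 ≤ T) (hT2 : T ≤ 2 * u ^ 4) (hK0 : 0 ≤ K) (hK : K ≤ u) (hP : P * u ^ 3 ≤ V)
    (hP0 : 0 ≤ P) (ht : t * u ^ 8 * x = V ^ 2) (hτ : τ ≤ V) (hp : x < p) :
    K * (T * (2 * t)) + τ / p * (20 * (K * V / T + P)) ≤ V ^ 2 / (x * u) := by
  have hu0 : 0 < u := by linarith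
  have hT0 : 0 < T := lt_of_lt_of_le (by positivity) hT1
  have ht' : t = V ^ 2 / (u ^ 8 * x) := by
    rw [eq_div_iff (by positivity)]; linarith [ht]
  have ht0 : 0 ≤ t := by rw [ht']; positivity
  have h1 : K * (T * (2 * t)) ≤ 4 * (V ^ 2 / (x * u ^ 3)) := by
    calc K * (T * (2 * t)) ≤ u * (2 * u ^ 4 * (2 * t)) := by
          apply mul_le_mul hK _ (by positivity) hu0.le
          exact mul_le_mul_of_nonneg_right hT2 (by positivity)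
      _ = 4 * (V ^ 2 / (x * u ^ 3)) := by
          rw [ht']; field_simp; ring
  have h2 : K * V / T ≤ V / u ^ 3 := by
    calc K * V / T ≤ u * V / u ^ 4 := by
          apply div_le_div₀ (by positivity) (mul_le_mul_of_nonneg_right hK hV.le)
            (by positivity) hT1
      _ = V / u ^ 3 := by field_simp
  have h3 : P ≤ V / u ^ 3 := by rw [le_div_iff₀ (by positivity)]; exact hP
  have h4 : τ / p ≤ V / x := div_le_div₀ hV.le hτ hx hp.le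
  have hp0 : 0 < p := lt_trans hx hp
  have h5 : τ / p * (20 * (K * V / T + P)) ≤ V / x * (20 * (V / u ^ 3 + V / u ^ 3)) := by
    apply mul_le_mul h4 _ (by positivity) (by positivity)
    apply mul_le_mul_of_nonneg_left _ (by norm_num)
    exact add_le_add h2 h3
  have h6 : V / x * (20 * (V / u ^ 3 + V / u ^ 3)) = 40 * (V ^ 2 / (x * u ^ 3)) := by
    field_simp; ring
  have h7 : 44 * (V ^ 2 / (x * u ^ 3)) ≤ V ^ 2 / (x * u) := by
    have h8 : V ^ 2 / (x * u) = u ^ 2 * (V ^ 2 / (x * u ^ 3)) := by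
      field_simp
    rw [h8]
    apply mul_le_mul_of_nonneg_right _ (by positivity)
    nlinarith
  linarith

theorem B8_cnt (C x u D N A K T B E : ℝ) (hC : 0 < C) (hx : 0 < x) (hu : 10 ≤ u)
    (hN : N ≤ (2 * A + 1) * (A * (K * (T * 2)))) (hA0 : 0 ≤ A) (hA : A ≤ u) (hK0 : 0 ≤ K)
    (hK : K ≤ u) (hT0 : 0 ≤ T) (hT : T ≤ 2 * u ^ 4) (hE : E = D * u ^ 9 * x * C)
    (hD : D * u ^ 64 ≤ 1) (hD0 : 0 ≤ D) (hB : B ≤ N * E) : B ≤ 12 * C * (x / u) := by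
  have hu0 : 0 < u := by linarith
  have hN' : N ≤ 12 * u ^ 7 := by
    calc N ≤ (2 * A + 1) * (A * (K * (T * 2))) := hN
      _ ≤ (3 * u) * (u * (u * (2 * u ^ 4 * 2))) := by
          have h1 : 2 * A + 1 ≤ 3 * u := by linarith
          gcongr
      _ = 12 * u ^ 7 := by ring
  have hE0 : 0 ≤ E := by rw [hE]; positivity
  calc B ≤ N * E := hB
    _ ≤ 12 * u ^ 7 * E := mul_le_mul_of_nonneg_right hN' hE0
    _ = 12 * C * x * (D * u ^ 64) * (1 / u ^ 48) := by rw [hE]; field_simp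
    _ ≤ 12 * C * x * 1 * (1 / u) := by
        have h2 : 1 / u ^ 48 ≤ 1 / u := by
          apply one_div_le_one_div_of_le hu0
          calc u = u ^ 1 := (pow_one u).symm
            _ ≤ u ^ 48 := pow_le_pow_right₀ (by linarith) (by norm_num)
        gcongr
    _ = 12 * C * (x / u) := by ring

theorem R_B8 (h6 : st_B6) (h7 : st_B7) : st_B8 := by
  intro e he he6
  obtain ⟨η6, δ6, C6, hη6, hδ6, hC6, X6, H6⟩ := h6 e he (by linarith)
  obtain ⟨d, hd0, hde, hdδ, hdη⟩ : ∃ d : ℝ, 0 < d ∧ 64 * d ≤ e ∧ 64 * d ≤ δ6 ∧ 64 * d ≤ η6 := by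
    have h0 : 0 < min e (min δ6 η6) := lt_min he (lt_min hδ6 hη6)
    refine ⟨min e (min δ6 η6) / 64, by positivity, ?_, ?_, ?_⟩
    · have := min_le_left e (min δ6 η6); linarith
    · have h1 := min_le_right e (min δ6 η6); have h2 := min_le_left δ6 η6; linarith
    · have h1 := min_le_right e (min δ6 η6); have h2 := min_le_right δ6 η6; linarith
  have hη : 0 < min η6 (1/2) := lt_min hη6 (by norm_num)
  obtain ⟨X1, HX1⟩ : ∃ X1 : ℕ, ∀ X : ℕ, X1 ≤ X → max 10 (4 / d) ≤ (X : ℝ) ^ (d / 2) := by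
    have h1 := (tendsto_rpow_atTop (by positivity : 0 < d / 2)).comp
      (tendsto_natCast_atTop_atTop (R := ℝ))
    obtain ⟨X1, h⟩ := Filter.eventually_atTop.1 (h1.eventually_ge_atTop (max 10 (4 / d)))
    exact ⟨X1, fun X hX => h X hX⟩
  refine ⟨min η6 (1/2), d, 12 * C6, hη, hd0, by positivity, max X6 (max X1 2), ?_⟩
  intro X K₀ K₁ V γ hX hK0 hK01 hK1 hV hVX hγ
  have hX6 : X6 ≤ X := le_trans (le_max_left _ _) hX
  have hX1 : X1 ≤ X := le_trans (le_trans (le_max_left _ _) (le_max_right _ _)) hX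
  have hX2 : 2 ≤ X := le_trans (le_trans (le_max_right _ _) (le_max_right _ _)) hX
  have hx2 : (2:ℝ) ≤ X := by exact_mod_cast hX2
  have hx1 : (1:ℝ) ≤ X := by linarith
  have hx0 : (0:ℝ) < X := by linarith
  obtain ⟨u, hu⟩ : ∃ u : ℝ, u = (X:ℝ) ^ d := ⟨_, rfl⟩
  have hbig := HX1 X hX1
  have hbig10 : (10:ℝ) ≤ (X:ℝ) ^ (d / 2) := le_trans (le_max_left _ _) hbig
  have hbigd : 4 / d ≤ (X:ℝ) ^ (d / 2) := le_trans (le_max_right _ _) hbig
  have huu : u = (X:ℝ) ^ (d / 2) * (X:ℝ) ^ (d / 2) := by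
    rw [hu, ← Real.rpow_add hx0]; ring_nf
  have hu10 : 10 ≤ u := by rw [huu]; nlinarith
  have hu0 : 0 < u := by linarith
  have hpow : ∀ n : ℕ, u ^ n = (X:ℝ) ^ (d * n) := by
    intro n; rw [hu, ← Real.rpow_natCast, ← Real.rpow_mul hx0.le]
  have hVr : (X:ℝ) ^ (1 - η6) ≤ V :=
    le_trans (Real.rpow_le_rpow_of_exponent_le hx1 (by linarith [min_le_left η6 (1/2)])) hV
  have hVh : (X:ℝ) ^ (1 / 2 : ℝ) ≤ V :=
    le_trans (Real.rpow_le_rpow_of_exponent_le hx1 (by linarith [min_le_right η6 (1/2)])) hV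
  have hV0 : (0:ℝ) < V := lt_of_lt_of_le (by positivity) hVh
  obtain ⟨T, hTdef⟩ : ∃ T : ℕ, T = ⌈u ^ 4⌉₊ := ⟨_, rfl⟩
  have hT1 : u ^ 4 ≤ T := by rw [hTdef]; exact Nat.le_ceil _
  have hu4 : u ≤ u ^ 4 := by
    calc u = u ^ 1 := (pow_one u).symm
      _ ≤ u ^ 4 := pow_le_pow_right₀ (by linarith) (by norm_num)
  have hT2 : (T:ℝ) ≤ 2 * u ^ 4 := by
    have h1 := Nat.ceil_lt_add_one (by positivity : 0 ≤ u ^ 4)
    rw [hTdef]; linarith
  have hT10 : 10 ≤ T := by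
    have h1 : (10:ℝ) ≤ T := by linarith
    exact_mod_cast h1
  have hTK : T ≤ 2 ^ K₀ := by
    have h1 : (T:ℝ) ≤ 2 ^ K₀ := by
      calc (T:ℝ) ≤ 2 * u ^ 4 := hT2
        _ ≤ u * u ^ 4 := mul_le_mul_of_nonneg_right (by linarith) (by positivity)
        _ = u ^ 5 := by ring
        _ = (X:ℝ) ^ (d * (5:ℕ)) := hpow 5
        _ ≤ (X:ℝ) ^ e := Real.rpow_le_rpow_of_exponent_le hx1 (by push_cast; linarith)
        _ ≤ 2 ^ K₀ := hK0
    exact_mod_cast h1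
  have hK1u : (K₁:ℝ) ≤ u := by
    have h1 : (2:ℝ) ^ K₁ ≤ X := by
      calc (2:ℝ) ^ K₁ ≤ (X:ℝ) ^ (1 / 3 - e) := hK1
        _ ≤ (X:ℝ) ^ (1:ℝ) := Real.rpow_le_rpow_of_exponent_le hx1 (by linarith)
        _ = X := Real.rpow_one _
    have h2 : (K₁:ℝ) * Real.log 2 ≤ Real.log X := by
      rw [← Real.log_pow]; exact Real.log_le_log (by positivity) h1
    have h3 : (1/2:ℝ) ≤ Real.log 2 := by linarith [Real.log_two_gt_d9]
    have h4 : Real.log X ≤ (X:ℝ) ^ (d / 2) / (d / 2) := Real.log_le_rpow_div hx0.le (by positivity)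
    have h5 : (X:ℝ) ^ (d / 2) / (d / 2) = (4 / d) * (X:ℝ) ^ (d / 2) / 2 := by field_simp; ring
    have h6 : (4 / d) * (X:ℝ) ^ (d / 2) ≤ u := by
      rw [huu]; exact mul_le_mul_of_nonneg_right hbigd (by positivity)
    have h7 : (K₁:ℝ) * (1/2) ≤ (K₁:ℝ) * Real.log 2 :=
      mul_le_mul_of_nonneg_left h3 (Nat.cast_nonneg _)
    linarith
  have hPV : (2:ℝ) ^ K₁ * u ^ 3 ≤ V := by
    calc (2:ℝ) ^ K₁ * u ^ 3 ≤ (X:ℝ) ^ (1 / 3 - e) * (X:ℝ) ^ (d * (3:ℕ)) := by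
          rw [hpow 3]; exact mul_le_mul_of_nonneg_right hK1 (by positivity)
      _ = (X:ℝ) ^ (1 / 3 - e + d * (3:ℕ)) := (Real.rpow_add hx0 _ _).symm
      _ ≤ (X:ℝ) ^ (1 / 2 : ℝ) :=
          Real.rpow_le_rpow_of_exponent_le hx1 (by push_cast; linarith)
      _ ≤ V := hVh
  have hPV2 : 2 ^ K₁ ≤ V := by
    have h1 : (2:ℝ) ^ K₁ ≤ V := by
      have h2 : (2:ℝ) ^ K₁ * 1 ≤ (2:ℝ) ^ K₁ * u ^ 3 :=
        mul_le_mul_of_nonneg_left (one_le_pow₀ (by linarith)) (by positivity)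
      linarith
    exact_mod_cast h1
  obtain ⟨t, ht⟩ : ∃ t : ℝ, t = (V:ℝ) ^ 2 / (u ^ 8 * X) := ⟨_, rfl⟩
  have ht0 : 0 < t := by rw [ht]; positivity
  have htt : t * u ^ 8 * X = (V:ℝ) ^ 2 := by rw [ht]; field_simp
  obtain ⟨A, hA⟩ : ∃ A : ℕ, A = ⌊u⌋₊ := ⟨_, rfl⟩
  have hAu : (A:ℝ) ≤ u := by rw [hA]; exact Nat.floor_le hu0.le
  have hdη' : (X:ℝ) ^ d ≤ (X:ℝ) ^ η6 := Real.rpow_le_rpow_of_exponent_le hx1 (by linarith)
  have hF : ∀ j ∈ B8_J X V T K₀ K₁ A,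
      (#(B8_F X V T γ t j) : ℝ) ≤ (X:ℝ) ^ (-δ6) * u ^ 9 * X * C6 := by
    intro j hj
    obtain ⟨a, b, k, i, s⟩ := j
    unfold B8_J at hj
    rw [mem_filter] at hj
    simp only [mem_product, mem_Icc, mem_Ico, mem_range, mem_univ, and_true] at hj
    obtain ⟨⟨⟨ha1, ha2⟩, ⟨hb1, hb2⟩, ⟨hk1, hk2⟩, hi⟩, ha0, hbV⟩ := hj
    have haR : |(a:ℝ)| ≤ A := by
      rw [abs_le]
      constructor
      · exact_mod_cast ha1
      · exact_mod_cast ha2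
    have hbR : (b:ℝ) ≤ u := le_trans (by exact_mod_cast hb2) hAu
    have hk2' : (2:ℝ) ^ (k + 1) ≤ (X:ℝ) ^ (1 / 3 - e) :=
      le_trans (pow_le_pow_right₀ (by norm_num) hk2) hK1
    have hk1' : (X:ℝ) ^ e ≤ 2 ^ k := le_trans hK0 (pow_le_pow_right₀ (by norm_num) hk1)
    have hTk : T ≤ 2 ^ k := le_trans hTK (Nat.pow_le_pow_right (by norm_num) hk1)
    have haη : |(a:ℝ)| ≤ (X:ℝ) ^ η6 := by
      refine le_trans haR (le_trans hAu ?_)
      rw [hu]; exact hdη'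
    have h1 := H6 X T k i V b a γ (B8_S V T k i s) hX6 hT10 hTk hi hk1' hk2' hVr hb1 hbV ha0 haη hγ
      (B8_S_sub V T k i s)
    have h2 := B8_markov ((Ioc X (2 * X)).filter Nat.Prime)
      (fun p => ER p a b V γ T k i (B8_S V T k i s)) (fun p => B8_ER0 p a b V γ T k i _) t _ ht0 h1
    refine le_trans h2 ?_
    rw [div_le_iff₀ ht0]
    calc C6 * (X:ℝ) ^ (-δ6) * ((b:ℝ) * (V:ℝ) ^ 2)
        ≤ C6 * (X:ℝ) ^ (-δ6) * (u * (V:ℝ) ^ 2) := by gcongr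
      _ = (X:ℝ) ^ (-δ6) * u ^ 9 * X * C6 * t := by rw [← htt]; ring
  have hJ : (#(B8_J X V T K₀ K₁ A) : ℝ) ≤ (2 * (A:ℝ) + 1) * ((A:ℝ) * ((K₁:ℝ) * ((T:ℝ) * 2))) := by
    exact_mod_cast B8_J_card X V T K₀ K₁ A
  have hxd : (X:ℝ) ^ (1 - d) = X / u := by
    rw [Real.rpow_sub hx0, Real.rpow_one, hu]
  have hxd' : (X:ℝ) ^ (-1 - d) = 1 / (X * u) := by
    rw [Real.rpow_sub hx0, Real.rpow_neg_one, hu]; field_simp
  have hD : (X:ℝ) ^ (-δ6) * u ^ 64 ≤ 1 := by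
    rw [hpow 64, ← Real.rpow_add hx0]
    calc (X:ℝ) ^ (-δ6 + d * (64:ℕ)) ≤ (X:ℝ) ^ (0:ℝ) :=
          Real.rpow_le_rpow_of_exponent_le hx1 (by push_cast; linarith)
      _ = 1 := Real.rpow_zero _
  refine ⟨(B8_J X V T K₀ K₁ A).biUnion (B8_F X V T γ t), ?_, ?_⟩
  · rw [hxd]
    exact B8_cnt C6 X u ((X:ℝ) ^ (-δ6)) _ A K₁ T _ _ hC6 hx0 hu10 hJ (Nat.cast_nonneg _) hAu
      (Nat.cast_nonneg _) hK1u (Nat.cast_nonneg _) hT2 rfl hD (by positivity)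
      (B8_union _ _ _ hF)
  · intro p hp hXp hp2 hbad a b ha0 ha hb1 hb hbV
    have hxp : (X:ℝ) < p := by exact_mod_cast hXp
    have haA : a.natAbs ≤ A := by
      rw [hA]
      apply Nat.le_floor
      rw [hu]
      refine le_trans (le_of_eq ?_) ha
      rw [Nat.cast_natAbs, Int.cast_abs]
    have hbA : b ≤ A := by
      rw [hA]
      apply Nat.le_floor
      rw [hu]
      exact hb
    have hER : ∀ k ∈ Ico K₀ K₁, ∀ i ∈ range T, ∀ s : Bool,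
        ER p a b V γ T k i (B8_S V T k i s) ≤ t := by
      intro k hk i hi s
      by_contra hcon
      rw [not_le] at hcon
      apply hbad
      rw [mem_biUnion]
      refine ⟨(a, b, k, i, s), B8_J_mem X V T K₀ K₁ A a b k i s ha0 haA hb1 hbA hbV hk hi, ?_⟩
      unfold B8_F
      rw [mem_filter, mem_filter, mem_Ioc]
      exact ⟨⟨⟨hXp, hp2⟩, hp⟩, hcon⟩
    have h1 := h7 p a b V γ T K₀ K₁ hp.one_lt.le (by omega) hTK hK01 hPV2 (fun n => (hγ n).1)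
    refine le_trans h1 ?_
    have h2 := B8_sum p a b V γ T K₀ K₁ t ht0.le hER
    have h3 := B8_fin X V u T K₁ (2 ^ K₁) t (tot V γ) p hx0 hV0 hu10 hT1 hT2 (Nat.cast_nonneg _)
      hK1u hPV (by positivity) htt (B8_tot V γ hγ) hxp
    rw [hxd']
    have h4 : (V:ℝ) ^ 2 * (1 / (X * u)) = (V:ℝ) ^ 2 / (X * u) := by ring
    rw [h4]
    refine le_trans ?_ h3
    exact add_le_add h2 (le_refl _)

end Pool.Agent.QQA
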