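import Pool.Agent.QQA.DefsL

set_option autoImplicit false

namespace Pool.Agent.QQA

open Finset Pool.Agent.EPK

lemma C12_mem {V n : ℕ} : n ∈ II V ↔ V < n ∧ n ≤ wn V := by
  unfold II
  exact mem_Ioc

lemma C12_le (V : ℕ) : V ≤ wn V := by
  unfold wn
  omega

lemma C12_iff (p : ℕ) [Fact p.Prime] (a : ℤ) (b n l : ℕ) (hb : ¬ p ∣ b) (hn : 1 ≤ n)
    (hnp : n < p) (hl : l < p) :
    (p : ℤ) ∣ (b : ℤ) * n * l - a ↔ l = rr p ((a : ZMod p) / (b : ZMod p)) n := by
  have hb0 : (b : ZMod p) ≠ 0 := by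
    rw [Ne, ZMod.natCast_eq_zero_iff]
    exact hb
  have hn0 : (n : ZMod p) ≠ 0 := by
    rw [Ne, ZMod.natCast_eq_zero_iff]
    intro h
    have := Nat.le_of_dvd (by omega) h
    omega
  rw [← ZMod.intCast_zmod_eq_zero_iff_dvd]
  push_cast
  have h1 : (b : ZMod p) * n * l - a = 0 ↔
      (l : ZMod p) = (a : ZMod p) / (b : ZMod p) * ((n : ZMod p))⁻¹ := by
    rw [sub_eq_zero]
    constructor
    · intro h
      rw [← h]
      field_simp
    · intro h
      rw [h]
      field_simp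
  rw [h1]
  unfold rr
  constructor
  · intro h
    rw [← h, ZMod.val_natCast_of_lt hl]
  · intro h
    rw [h, ZMod.natCast_zmod_val]

theorem R_C1 : st_C1 := by
  intro p _ a b V γ φ _ hb hV
  unfold NN
  refine sum_congr rfl fun n hn => ?_
  rw [C12_mem] at hn
  have h1 : ∀ l ∈ II V, ch p a b n l * γ n * φ l =
      if l = rr p ((a : ZMod p) / (b : ZMod p)) n then γ n * φ l else 0 := by
    intro l hl
    rw [C12_mem] at hl
    have h2 := C12_iff p a b n l hb (by omega) (by omega) (by omega)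
    unfold ch
    by_cases h : (p : ℤ) ∣ (b : ℤ) * n * l - a
    · rw [if_pos h, if_pos (h2.1 h), one_mul]
    · rw [if_neg h, if_neg (fun h' => h (h2.2 h')), zero_mul, zero_mul]
  rw [sum_congr rfl h1, sum_ite_eq' (II V) (rr p ((a : ZMod p) / (b : ZMod p)) n)]
  split_ifs with h3
  · rfl
  · rw [mul_zero]

theorem R_C2 (h1 : st_C1) : st_C2 := by
  intro p hp a b V D γ θ ha hb hV hγ hθ
  rw [h1 p a b V γ _ ha hb hV]
  set x : ZMod p := (a : ZMod p) / (b : ZMod p) with hx
  -- the sum over the divisors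
  have hdiv : ∀ m : ℕ, 1 ≤ m → ∑ d ∈ m.divisors, θ d =
      ∑ d ∈ Icc 1 D, (if d ∣ m then θ d else 0) := by
    intro m hm
    rw [← sum_filter]
    symm
    apply sum_subset
    · intro d hd
      rw [mem_filter, mem_Icc] at hd
      rw [Nat.mem_divisors]
      exact ⟨hd.2, by omega⟩
    · intro d hd hd'
      rw [Nat.mem_divisors] at hd
      rw [mem_filter, mem_Icc] at hd'
      apply hθ
      have hd1 : 1 ≤ d := Nat.pos_of_dvd_of_pos hd.1 (by omega)
      by_contra hcon
      exact hd' ⟨⟨hd1, by omega⟩, hd.1⟩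
  have hleft : ∀ n ∈ II V, γ n * (if rr p x n ∈ II V then ∑ d ∈ (rr p x n).divisors, θ d else 0) =
      ∑ d ∈ Icc 1 D, θ d * (if d ∣ rr p x n ∧ rr p x n ∈ II V then γ n else 0) := by
    intro n _
    by_cases h : rr p x n ∈ II V
    · rw [if_pos h]
      have h2 := C12_mem.1 h
      rw [hdiv _ (by omega), mul_sum]
      refine sum_congr rfl fun d _ => ?_
      by_cases h3 : d ∣ rr p x n
      · rw [if_pos h3, if_pos ⟨h3, h⟩, mul_comm]
      · rw [if_neg h3, if_neg (fun h4 => h3 h4.1), mul_zero, mul_zero]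
    · rw [if_neg h, mul_zero]
      symm
      apply sum_eq_zero
      intro d _
      rw [if_neg (fun h4 => h h4.2), mul_zero]
  rw [sum_congr rfl hleft, sum_comm]
  refine sum_congr rfl fun d _ => ?_
  rw [← mul_sum]
  congr 1
  -- the difference of the two counts
  unfold AG
  rw [sum_filter, sum_filter, ← sum_sub_distrib]
  have hsub : II V ⊆ Icc 1 (p - 1) := by
    intro n hn
    rw [C12_mem] at hn
    rw [mem_Icc]
    omega
  have hwn := C12_le V
  rw [← sum_subset hsub]
  · refine sum_congr rfl fun n _ => ?_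
    by_cases h3 : d ∣ rr p x n
    · by_cases h4 : rr p x n ≤ V
      · rw [if_neg (fun h5 => by have := C12_mem.1 h5.2; omega), if_pos ⟨h3, by omega⟩,
          if_pos ⟨h3, h4⟩, sub_self]
      · by_cases h5 : rr p x n ≤ wn V
        · rw [if_pos ⟨h3, C12_mem.2 ⟨by omega, h5⟩⟩, if_pos ⟨h3, h5⟩,
            if_neg (fun h6 => h4 h6.2), sub_zero]
        · rw [if_neg (fun h6 => h5 (C12_mem.1 h6.2).2), if_neg (fun h6 => h5 h6.2),
            if_neg (fun h6 => h4 h6.2), sub_zero]
    · rw [if_neg (fun h6 => h3 h6.1), if_neg (fun h6 => h3 h6.1), if_neg (fun h6 => h3 h6.1),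
        sub_zero]
  · intro n _ hn
    rw [hγ n hn]
    simp

end Pool.Agent.QQA
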