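import Pool.Agent.QQA.Defs

set_option autoImplicit false

namespace Pool.Agent.QQA

open Finset

/-- the function `1 / n` -/
noncomputable def C4_f : ℕ →* ℝ where
  toFun n := (n : ℝ)⁻¹
  map_one' := by simp
  map_mul' m n := by
    push_cast
    rw [mul_inv]

theorem C4_harm (N : ℕ) :
    ∑ n ∈ Icc 1 N, (n : ℝ)⁻¹ ≤ ∏ q ∈ Nat.primesBelow (N + 1), (1 - (q : ℝ)⁻¹)⁻¹ := by
  have h1 : ∀ {p : ℕ}, p.Prime → ‖C4_f p‖ < 1 := by
    intro p hp
    show ‖(p : ℝ)⁻¹‖ < 1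
    rw [Real.norm_eq_abs, abs_of_nonneg (by positivity)]
    have : (1 : ℝ) < p := by exact_mod_cast hp.one_lt
    exact inv_lt_one_of_one_lt₀ this
  have h2 := (EulerProduct.summable_and_hasSum_smoothNumbers_prod_primesBelow_geometric
    (f := C4_f) h1 (N + 1)).2
  have hmem : ∀ n ∈ Icc 1 N, n ∈ (N + 1).smoothNumbers := by
    intro n hn
    rw [mem_Icc] at hn
    rw [Nat.mem_smoothNumbers]
    refine ⟨by omega, fun p hp => ?_⟩
    have := Nat.le_of_mem_primeFactorsList hp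
    omega
  have h3 : ∑ n ∈ Icc 1 N, (n : ℝ)⁻¹ =
      ∑ n ∈ (Icc 1 N).attach, C4_f ((⟨n.1, hmem n.1 n.2⟩ : (N + 1).smoothNumbers) : ℕ) := by
    rw [← Finset.sum_attach]
    rfl
  rw [h3]
  have hinj : Function.Injective
      (fun n : {x // x ∈ Icc 1 N} => (⟨n.1, hmem n.1 n.2⟩ : (N + 1).smoothNumbers)) := by
    intro x y hxy
    apply Subtype.ext
    have := congrArg (fun z : (N + 1).smoothNumbers => (z : ℕ)) hxy
    exact this
  have h4 : ∑ n ∈ (Icc 1 N).attach, C4_f ((⟨n.1, hmem n.1 n.2⟩ : (N + 1).smoothNumbers) : ℕ) =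
      ∑ m ∈ (Icc 1 N).attach.map ⟨_, hinj⟩, C4_f (m : ℕ) := by
    rw [Finset.sum_map]
    rfl
  rw [h4]
  exact sum_le_hasSum _ (fun m _ => by
    show 0 ≤ ((m : ℕ) : ℝ)⁻¹
    positivity) h2

theorem C4_log (N : ℕ) : Real.log (N + 1 : ℕ) ≤ ∑ n ∈ Icc 1 N, (n : ℝ)⁻¹ := by
  have h := log_add_one_le_harmonic N
  rw [harmonic_eq_sum_Icc] at h
  push_cast at h ⊢
  exact h

theorem R_C4 : st_C4 := by
  refine ⟨1 / Real.log 2, by
    have := Real.log_pos (by norm_num : (1 : ℝ) < 2)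
    positivity, fun K hK => ?_⟩
  have hl2 := Real.log_pos (by norm_num : (1 : ℝ) < 2)
  have hK' : (0 : ℝ) < K := by exact_mod_cast hK
  have e1 : PK K = (∏ q ∈ Nat.primesBelow (2 ^ K + 1), (1 - (q : ℝ)⁻¹)⁻¹)⁻¹ := by
    unfold PK
    rw [← Finset.prod_inv_distrib]
    have hset : (Icc 1 (2 ^ K)).filter Nat.Prime = Nat.primesBelow (2 ^ K + 1) := by
      ext q
      rw [mem_filter, mem_Icc, Nat.mem_primesBelow]
      constructor
      · rintro ⟨⟨_, h2⟩, h3⟩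
        exact ⟨by omega, h3⟩
      · rintro ⟨h1, h2⟩
        exact ⟨⟨h2.one_lt.le, by omega⟩, h2⟩
    rw [hset]
    apply Finset.prod_congr rfl
    intro q _
    rw [inv_inv, one_div]
  have h2 : (K : ℝ) * Real.log 2 ≤ ∏ q ∈ Nat.primesBelow (2 ^ K + 1), (1 - (q : ℝ)⁻¹)⁻¹ := by
    refine le_trans ?_ (C4_harm (2 ^ K))
    refine le_trans ?_ (C4_log (2 ^ K))
    rw [← Real.log_pow]
    apply Real.log_le_log (by positivity)
    push_cast
    linarith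
  rw [e1]
  have h3 : (0 : ℝ) < K * Real.log 2 := by positivity
  calc (∏ q ∈ Nat.primesBelow (2 ^ K + 1), (1 - (q : ℝ)⁻¹)⁻¹)⁻¹ ≤ ((K : ℝ) * Real.log 2)⁻¹ :=
        inv_anti₀ h3 h2
    _ = 1 / Real.log 2 / K := by
        field_simp

end Pool.Agent.QQA
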