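import Pool.Agent.QQA.DefsL

set_option autoImplicit false

namespace Pool.Agent.QQA

open Finset Pool.Agent.EPK

theorem C6_large (M θ : ℝ) (hθ : 0 < θ) : ∃ X₀ : ℕ, ∀ X : ℕ, X₀ ≤ X → M ≤ (X : ℝ) ^ θ := by
  have h := tendsto_natCast_atTop_atTop.eventually ((tendsto_rpow_atTop hθ).eventually_ge_atTop M)
  exact Filter.eventually_atTop.1 h

/-- the number of multiples in the window -/
theorem C6_count (V d : ℕ) (hd : 1 ≤ d) :
    |(#((II V).filter (fun l => d ∣ l)) : ℝ) - ((wn V : ℝ) - V) / d| ≤ 1 := by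
  have hVW : V ≤ wn V := by unfold wn; omega
  have h1 : #((Ioc 0 (wn V)).filter (fun l => d ∣ l)) =
      #((Ioc 0 V).filter (fun l => d ∣ l)) + #((Ioc V (wn V)).filter (fun l => d ∣ l)) := by
    rw [Finset.card_filter, Finset.card_filter, Finset.card_filter]
    exact (Finset.sum_Ioc_consecutive _ (Nat.zero_le V) hVW).symm
  rw [Nat.Ioc_filter_dvd_card_eq_div, Nat.Ioc_filter_dvd_card_eq_div] at h1
  unfold II
  have h2 : (#((Ioc V (wn V)).filter (fun l => d ∣ l)) : ℝ) = ((wn V / d : ℕ) : ℝ) - ((V / d : ℕ) : ℝ) := by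
    rw [h1]
    push_cast
    ring
  rw [h2]
  have hdR : (0 : ℝ) < d := by exact_mod_cast hd
  have key : ∀ n : ℕ, ((n / d : ℕ) : ℝ) ≤ (n : ℝ) / d ∧ (n : ℝ) / d < ((n / d : ℕ) : ℝ) + 1 := by
    intro n
    refine ⟨Nat.cast_div_le, ?_⟩
    rw [div_lt_iff₀ hdR]
    have := Nat.lt_div_mul_add (a := n) hd
    have h3 : (n : ℝ) < ((n / d * d + d : ℕ) : ℝ) := by exact_mod_cast this
    push_cast at h3 ⊢
    linarith
  obtain ⟨a1, a2⟩ := key (wn V)
  obtain ⟨b1, b2⟩ := key V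
  have e : ((wn V : ℝ) - V) / d = (wn V : ℝ) / d - (V : ℝ) / d := by ring
  rw [e, abs_le]
  constructor <;> linarith

theorem C6_div (l D : ℕ) (hl : l ≠ 0) (θ : ℕ → ℝ) (hθ : ∀ d, D < d → θ d = 0) :
    ∑ d ∈ l.divisors, θ d = ∑ d ∈ Icc 1 D, (if d ∣ l then θ d else 0) := by
  rw [← Finset.sum_filter]
  symm
  apply Finset.sum_subset
  · intro d hd
    rw [mem_filter] at hd
    rw [Nat.mem_divisors]
    exact ⟨hd.2, hl⟩
  · intro d hd hd'
    rw [Nat.mem_divisors] at hd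
    rw [mem_filter, mem_Icc] at hd'
    apply hθ
    by_contra hcon
    push Not at hcon
    exact hd' ⟨⟨Nat.pos_of_dvd_of_pos hd.1 (Nat.pos_of_ne_zero hl), hcon⟩, hd.1⟩

theorem C6_tot (V D : ℕ) (θ : ℕ → ℝ) (hθ : ∀ d, D < d → θ d = 0) (hθ1 : ∀ d, |θ d| ≤ 1) :
    |∑ l ∈ II V, ∑ d ∈ l.divisors, θ d - ((wn V : ℝ) - V) * ∑ d ∈ Icc 1 D, θ d / d| ≤ D := by
  have h1 : ∑ l ∈ II V, ∑ d ∈ l.divisors, θ d =
      ∑ d ∈ Icc 1 D, θ d * #((II V).filter (fun l => d ∣ l)) := by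
    have h2 : ∑ l ∈ II V, ∑ d ∈ l.divisors, θ d =
        ∑ l ∈ II V, ∑ d ∈ Icc 1 D, (if d ∣ l then θ d else 0) := by
      apply Finset.sum_congr rfl
      intro l hl
      unfold II at hl
      rw [mem_Ioc] at hl
      exact C6_div l D (by omega) θ hθ
    rw [h2, Finset.sum_comm]
    apply Finset.sum_congr rfl
    intro d _
    rw [← Finset.sum_filter, Finset.sum_const, nsmul_eq_mul, mul_comm]
  rw [h1, Finset.mul_sum, ← Finset.sum_sub_distrib]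
  refine (Finset.abs_sum_le_sum_abs _ _).trans ?_
  calc ∑ d ∈ Icc 1 D, |θ d * #((II V).filter (fun l => d ∣ l)) - ((wn V : ℝ) - V) * (θ d / d)| ≤
        ∑ _d ∈ Icc 1 D, (1 : ℝ) := by
        apply Finset.sum_le_sum
        intro d hd
        rw [mem_Icc] at hd
        have e : θ d * #((II V).filter (fun l => d ∣ l)) - ((wn V : ℝ) - V) * (θ d / d) =
            θ d * ((#((II V).filter (fun l => d ∣ l)) : ℝ) - ((wn V : ℝ) - V) / d) := by ring
        rw [e, abs_mul]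
        calc _ ≤ (1 : ℝ) * 1 := mul_le_mul (hθ1 d) (C6_count V d hd.1) (abs_nonneg _) (by norm_num)
          _ = 1 := one_mul 1
    _ = D := by simp

theorem C6_mono (p : ℕ) (a : ℤ) (b V : ℕ) (γ φ₁ φ₂ : ℕ → ℝ) (hγ : ∀ n, 0 ≤ γ n)
    (h : ∀ l ∈ II V, φ₁ l ≤ φ₂ l) : NN p a b V γ φ₁ ≤ NN p a b V γ φ₂ := by
  unfold NN
  apply Finset.sum_le_sum
  intro n _
  apply Finset.sum_le_sum
  intro l hl
  have hch : 0 ≤ ch p a b n l := by
    unfold ch
    split_ifs <;> norm_num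
  exact mul_le_mul_of_nonneg_left (h l hl) (mul_nonneg hch (hγ n))

theorem C6_NN (h2 : st_C2) (p : ℕ) [Fact p.Prime] (a : ℤ) (b V D : ℕ) (γ θ : ℕ → ℝ)
    (ha : ¬ (p : ℤ) ∣ a) (hb : ¬ p ∣ b) (hW : wn V < p) (hγ : ∀ n, n ∉ II V → γ n = 0)
    (hθ : ∀ d, D < d → θ d = 0) (hθ1 : ∀ d, |θ d| ≤ 1) (E : ℝ)
    (hE : ∑ d ∈ Icc 1 D, |AG p γ ((a : ZMod p) / (b : ZMod p)) (wn V) d -
      AG p γ ((a : ZMod p) / (b : ZMod p)) V d - tot V γ * ((wn V : ℝ) - V) / p / d| ≤ E) :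
    |NN p a b V γ (fun l => ∑ d ∈ l.divisors, θ d) -
      tot V γ * ((wn V : ℝ) - V) / p * ∑ d ∈ Icc 1 D, θ d / d| ≤ E := by
  rw [h2 p a b V D γ θ ha hb hW hγ hθ, Finset.mul_sum, ← Finset.sum_sub_distrib]
  refine (Finset.abs_sum_le_sum_abs _ _).trans (le_trans ?_ hE)
  apply Finset.sum_le_sum
  intro d _
  have e : θ d * (AG p γ ((a : ZMod p) / (b : ZMod p)) (wn V) d -
      AG p γ ((a : ZMod p) / (b : ZMod p)) V d) - tot V γ * ((wn V : ℝ) - V) / p * (θ d / d) =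
      θ d * (AG p γ ((a : ZMod p) / (b : ZMod p)) (wn V) d -
      AG p γ ((a : ZMod p) / (b : ZMod p)) V d - tot V γ * ((wn V : ℝ) - V) / p / d) := by ring
  rw [e, abs_mul]
  calc _ ≤ 1 * |AG p γ ((a : ZMod p) / (b : ZMod p)) (wn V) d -
      AG p γ ((a : ZMod p) / (b : ZMod p)) V d - tot V γ * ((wn V : ℝ) - V) / p / d| :=
        mul_le_mul_of_nonneg_right (hθ1 d) (abs_nonneg _)
    _ = _ := one_mul _

theorem C6_gP (V n : ℕ) : 0 ≤ gP V n ∧ gP V n ≤ 3 := by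
  unfold gP
  split_ifs with h
  · unfold II at h
    rw [mem_Ioc] at h
    have h1 : 0 ≤ Real.log (wn V) := Real.log_natCast_nonneg _
    refine ⟨div_nonneg ArithmeticFunction.vonMangoldt_nonneg h1, ?_⟩
    have h2 : ArithmeticFunction.vonMangoldt n ≤ Real.log (wn V) := by
      refine ArithmeticFunction.vonMangoldt_le_log.trans ?_
      apply Real.log_le_log
      · exact_mod_cast (show 0 < n by omega)
      · exact_mod_cast h.2
    exact (div_le_one_of_le₀ h2 h1).trans (by norm_num)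
  · norm_num

theorem C6_gQ (z V n : ℕ) (hz : wn V < z ^ 4) : 0 ≤ gQ z V n ∧ gQ z V n ≤ 3 := by
  unfold gQ
  split_ifs with h
  · refine ⟨Finset.sum_nonneg (fun q _ => by split_ifs <;> norm_num), ?_⟩
    unfold II at h
    rw [mem_Ioc] at h
    obtain ⟨S, hS⟩ : ∃ S, S = ((Ioc z (Nat.sqrt (wn V))).filter Nat.Prime).filter
      (fun q => q ∣ n ∧ Rg z (n / q)) := ⟨_, rfl⟩
    have e1 : ∑ q ∈ (Ioc z (Nat.sqrt (wn V))).filter Nat.Prime,
        (if q ∣ n ∧ Rg z (n / q) then (1 : ℝ) else 0) = #S := by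
      rw [hS, ← Finset.sum_filter, Finset.sum_const, nsmul_eq_mul, mul_one]
    rw [e1]
    have hn0 : 0 < n := by omega
    have h1 : z ^ #S ≤ ∏ q ∈ S, q := by
      rw [← Finset.prod_const]
      apply Finset.prod_le_prod'
      intro q hq
      rw [hS, mem_filter, mem_filter, mem_Ioc] at hq
      omega
    have h2 : ∏ q ∈ S, q ∣ n := by
      apply Finset.prod_primes_dvd
      · intro q hq
        rw [hS, mem_filter, mem_filter] at hq
        exact hq.1.2.prime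
      · intro q hq
        rw [hS, mem_filter] at hq
        exact hq.2.1
    have h3 : z ^ #S < z ^ 4 := lt_of_le_of_lt (h1.trans ((Nat.le_of_dvd hn0 h2).trans h.2)) hz
    have hz1 : 1 ≤ z := by
      rcases Nat.eq_zero_or_pos z with h0 | h0
      · subst h0
        simp at hz
      · exact h0
    have h4 : #S < 4 := by
      by_contra hcon
      push Not at hcon
      exact absurd (Nat.pow_le_pow_right hz1 hcon) (by omega)
    have h5 : #S ≤ 3 := by omega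
    exact_mod_cast h5
  · norm_num

theorem C6_alg (N t R P w K S₀ S₁ dl E D : ℝ) (ht : 0 ≤ t) (hP : 0 < P) (hw : 0 ≤ w)
    (h1 : N ≤ t * w / P * S₁ + E) (h2 : t * w / P * S₀ - E ≤ N) (hS1 : S₁ ≤ (1 + dl) * K)
    (hS0 : (1 - dl) * K ≤ S₀) (h3 : R ≤ w * S₁ + D) (h4 : w * S₀ - D ≤ R) :
    |N - t * R / P| ≤ t / P * (2 * dl * w * K + D) + E := by
  have htP : 0 ≤ t / P := div_nonneg ht hP.le
  have htwP : 0 ≤ t * w / P := div_nonneg (mul_nonneg ht hw) hP.le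
  have a1 := mul_le_mul_of_nonneg_left hS1 htwP
  have a0 := mul_le_mul_of_nonneg_left hS0 htwP
  have b1 := mul_le_mul_of_nonneg_left h3 htP
  have b0 := mul_le_mul_of_nonneg_left h4 htP
  have e1 : t / P * R = t * R / P := by ring
  have e2 : t / P * (w * S₁ + D) = t * w / P * S₁ + t / P * D := by ring
  have e3 : t / P * (w * S₀ - D) = t * w / P * S₀ - t / P * D := by ring
  have e4 : t / P * (2 * dl * w * K + D) = 2 * (t * w / P * (dl * K)) + t / P * D := by ring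
  have e5 : t * w / P * ((1 + dl) * K) = t * w / P * K + t * w / P * (dl * K) := by ring
  have e6 : t * w / P * ((1 - dl) * K) = t * w / P * K - t * w / P * (dl * K) := by ring
  rw [e1, e2] at b1
  rw [e1, e3] at b0
  rw [e5] at a1
  rw [e6] at a0
  rw [e4, abs_le]
  constructor <;> linarith

theorem C6_rp (X : ℝ) (hX : 1 ≤ X) (M a b : ℝ) (hM : M ≤ X ^ (1 / 100 : ℝ)) (hab : a + 1 / 100 ≤ b) :
    M * X ^ a ≤ X ^ b := by
  have hX0 : 0 < X := by linarith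
  calc M * X ^ a ≤ X ^ (1 / 100 : ℝ) * X ^ a := mul_le_mul_of_nonneg_right hM (Real.rpow_nonneg hX0.le _)
    _ = X ^ (1 / 100 + a) := (Real.rpow_add hX0 _ _).symm
    _ ≤ X ^ b := Real.rpow_le_rpow_of_exponent_le hX (by linarith)

theorem R_C6 (hLD : st_LD) (h2 : st_C2) (hFL : st_FL) (h4 : st_C4) : st_C6 := by
  intro κ e₁ hκ he1
  obtain ⟨dl, hdl0, hdlt, hF⟩ := hFL
  obtain ⟨C₄, hC4, hPK⟩ := h4
  obtain ⟨C, hC1, hL⟩ := hLD (1 / 1000) (by norm_num)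
  -- the choice of bb
  obtain ⟨bb, hbb1, hbb2, hbb3⟩ : ∃ bb : ℕ, 1 ≤ bb ∧ 1 / e₁ ≤ bb ∧
      128 * C₄ * ((bb : ℝ) * dl bb) ≤ κ := by
    have t1 : ∀ᶠ b : ℕ in Filter.atTop, (b : ℝ) * dl b < κ / (128 * C₄) :=
      hdlt.eventually_lt_const (by positivity)
    have t2 : ∀ᶠ b : ℕ in Filter.atTop, 1 / e₁ ≤ (b : ℝ) :=
      tendsto_natCast_atTop_atTop.eventually_ge_atTop _
    obtain ⟨bb, u1, u2, u3⟩ := (t1.and (t2.and (Filter.eventually_ge_atTop 1))).exists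
    refine ⟨bb, u3, u2, ?_⟩
    rw [lt_div_iff₀ (by positivity)] at u1
    linarith
  obtain ⟨J, hJ⟩ : ∃ J : ℕ, J = 4 * bb + 6 := ⟨_, rfl⟩
  have hJR : (J : ℝ) = 4 * bb + 6 := by rw [hJ]; push_cast; ring
  have hbbR : (1 : ℝ) ≤ bb := by exact_mod_cast hbb1
  have hJ0 : (0 : ℝ) < J := by rw [hJR]; positivity
  obtain ⟨e, he⟩ : ∃ e : ℝ, e = 1 / (64 * J) := ⟨_, rfl⟩
  have he0 : 0 < e := by rw [he]; positivity
  have heJ : e * J = 1 / 64 := by
    rw [he]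
    field_simp
  have hee1 : e ≤ e₁ := by
    rw [he, div_le_iff₀ (by positivity)]
    rw [div_le_iff₀ he1] at hbb2
    have : (bb : ℝ) * e₁ ≤ e₁ * (64 * J) := by
      rw [mul_comm]
      apply mul_le_mul_of_nonneg_left _ he1.le
      rw [hJR]
      linarith
    linarith
  have hdlκ : dl bb * C₄ / (5 * e) ≤ κ := by
    have t1 : dl bb * C₄ / (5 * e) = 64 / 5 * C₄ * (dl bb * J) := by
      rw [he]
      field_simp
    rw [t1]
    have t2 : dl bb * J ≤ 10 * (bb * dl bb) := by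
      rw [hJR]
      have := mul_le_mul_of_nonneg_left hbbR (hdl0 bb)
      linarith
    have t3 : 64 / 5 * C₄ * (dl bb * J) ≤ 64 / 5 * C₄ * (10 * (bb * dl bb)) :=
      mul_le_mul_of_nonneg_left t2 (by positivity)
    linarith
  obtain ⟨B, hB⟩ : ∃ B : ℝ, B = 2 ^ J := ⟨_, rfl⟩
  have hB1 : 1 ≤ B := by rw [hB]; exact one_le_pow₀ (by norm_num)
  obtain ⟨X₀, hX₀⟩ := C6_large (100 + 32 * C * B) (1 / 100) (by norm_num)
  refine ⟨e, he0, hee1, X₀ + 3, ?_⟩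
  intro X p K₀ V z b a γ hX hp hXp hpX hK0a hK0b hV1 hVX hWp hz ha hb hγ
  haveI : Fact p.Prime := ⟨hp⟩
  have q := hX₀ X (by omega)
  have hX3 : (3 : ℝ) ≤ X := by exact_mod_cast (show 3 ≤ X by omega)
  have hX1 : (1 : ℝ) ≤ X := by linarith
  have hX0 : (0 : ℝ) < X := by linarith
  have hCB : 1 ≤ C * B := by nlinarith
  have hpR1 : (X : ℝ) < p := by exact_mod_cast hXp
  have hpR2 : (p : ℝ) ≤ 2 * X := by exact_mod_cast hpX
  have hpR0 : (0 : ℝ) < p := by linarith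
  have hVW : V ≤ wn V := by unfold wn; omega
  have hVWR : (V : ℝ) ≤ wn V := by exact_mod_cast hVW
  -- consequences of X being large
  have c100 : 100 ≤ (X : ℝ) ^ (1 / 100 : ℝ) := by linarith
  have hV100 : 100 ≤ V := by
    have t1 : (100 : ℝ) ≤ V := c100.trans
      ((Real.rpow_le_rpow_of_exponent_le hX1 (by norm_num)).trans hV1)
    exact_mod_cast t1
  have hVR0 : (0 : ℝ) < V := by exact_mod_cast (show 0 < V by omega)
  have hpV : p ≤ V ^ 2 := by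
    have t1 : (p : ℝ) ≤ (V : ℝ) ^ 2 := by
      calc (p : ℝ) ≤ 2 * X := hpR2
        _ = 2 * (X : ℝ) ^ (1 : ℝ) := by rw [Real.rpow_one]
        _ ≤ (X : ℝ) ^ (9 / 10 * 2 : ℝ) := C6_rp X hX1 2 1 _ (by linarith) (by norm_num)
        _ = ((X : ℝ) ^ (9 / 10 : ℝ)) ^ 2 := by
            rw [Real.rpow_mul hX0.le]
            exact Real.rpow_natCast _ 2
        _ ≤ (V : ℝ) ^ 2 := pow_le_pow_left₀ (Real.rpow_nonneg hX0.le _) hV1 2
    exact_mod_cast t1
  have hz2 : 2 ≤ z := by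
    have t1 : (2 : ℝ) ≤ z := by
      have := c100.trans ((Real.rpow_le_rpow_of_exponent_le hX1 (by norm_num : (1 / 100 : ℝ) ≤ 3 / 10)).trans hz)
      linarith
    exact_mod_cast t1
  have hpz : p ≤ z ^ 4 := by
    have t1 : (p : ℝ) ≤ (z : ℝ) ^ 4 := by
      calc (p : ℝ) ≤ 2 * X := hpR2
        _ = 2 * (X : ℝ) ^ (1 : ℝ) := by rw [Real.rpow_one]
        _ ≤ (X : ℝ) ^ (3 / 10 * 4 : ℝ) := C6_rp X hX1 2 1 _ (by linarith) (by norm_num)
        _ = ((X : ℝ) ^ (3 / 10 : ℝ)) ^ 4 := by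
            rw [Real.rpow_mul hX0.le]
            exact Real.rpow_natCast _ 4
        _ ≤ (z : ℝ) ^ 4 := pow_le_pow_left₀ (Real.rpow_nonneg hX0.le _) hz 4
    exact_mod_cast t1
  have hWz : wn V < z ^ 4 := lt_of_lt_of_le hWp hpz
  -- the weights
  have hγ3 : ∀ n, 0 ≤ γ n ∧ γ n ≤ 3 := by
    intro n
    rcases hγ with rfl | rfl
    · exact C6_gP V n
    · exact C6_gQ z V n hWz
  have hγs : ∀ n, n ∉ II V → γ n = 0 := by
    intro n hn
    rcases hγ with rfl | rfl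
    · unfold gP
      rw [if_neg hn]
    · unfold gQ
      rw [if_neg hn]
  have ht0 : 0 ≤ tot V γ := Finset.sum_nonneg (fun n _ => (hγ3 n).1)
  obtain ⟨w, hw⟩ : ∃ w : ℝ, w = (wn V : ℝ) - V := ⟨_, rfl⟩
  have hw0 : 0 ≤ w := by rw [hw]; linarith
  have hw1 : w ≤ V / 10 := by
    rw [hw]
    have : ((10 * wn V : ℕ) : ℝ) ≤ ((11 * V : ℕ) : ℝ) := by
      apply Nat.cast_le.2
      unfold wn
      omega
    push_cast at this
    linarith
  have htw : tot V γ ≤ p := by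
    have t1 : tot V γ ≤ 3 * w := by
      unfold tot
      calc ∑ n ∈ II V, γ n ≤ ∑ _n ∈ II V, (3 : ℝ) := Finset.sum_le_sum (fun n _ => (hγ3 n).2)
        _ = 3 * w := by
            rw [Finset.sum_const, nsmul_eq_mul]
            unfold II
            rw [Nat.card_Ioc, Nat.cast_sub hVW, ← hw]
            ring
    have t2 : (V : ℝ) ≤ X := by exact_mod_cast hVX
    linarith
  have htP : tot V γ / p ≤ 1 := (div_le_one hpR0).2 htw
  have htP0 : 0 ≤ tot V γ / p := div_nonneg ht0 hpR0.le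
  -- the level
  obtain ⟨θp, θm, hp1, hm1, hp0, hm0, hpl, hml, hps, hms⟩ := hF bb K₀
  rw [← hJ] at hp0 hm0 hps hms
  obtain ⟨D, hD⟩ : ∃ D : ℕ, D = 2 ^ (K₀ * J) := ⟨_, rfl⟩
  rw [← hD] at hp0 hm0 hps hms
  have hD1 : 1 ≤ D := by rw [hD]; exact Nat.one_le_two_pow
  have hDR1 : (1 : ℝ) ≤ D := by exact_mod_cast hD1
  have hDR : (D : ℝ) ≤ B * (X : ℝ) ^ (1 / 64 : ℝ) := by
    have t1 : (D : ℝ) = (2 ^ K₀) ^ J := by
      rw [hD]
      push_cast
      rw [pow_mul]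
    rw [t1]
    calc ((2 : ℝ) ^ K₀) ^ J ≤ (2 * (X : ℝ) ^ e) ^ J := pow_le_pow_left₀ (by positivity) hK0b J
      _ = B * (X : ℝ) ^ (1 / 64 : ℝ) := by
          rw [mul_pow, ← hB, ← Real.rpow_natCast ((X : ℝ) ^ e) J, ← Real.rpow_mul hX0.le, heJ]
  have hBq : 32 * (C * B) ≤ (X : ℝ) ^ (1 / 100 : ℝ) := by linarith
  have hBCB : B ≤ C * B := by nlinarith
  have hD4 : (D : ℝ) ≤ (X : ℝ) ^ (24 / 25 : ℝ) / 4 := by
    have t1 : (4 * B) * (X : ℝ) ^ (1 / 64 : ℝ) ≤ (X : ℝ) ^ (24 / 25 : ℝ) :=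
      C6_rp X hX1 _ _ _ (by linarith) (by norm_num)
    linarith
  have h2D : 2 * D < p := by
    have t1 : (2 : ℝ) * D < p := by
      have t2 : (2 * B) * (X : ℝ) ^ (1 / 64 : ℝ) ≤ (X : ℝ) ^ (1 : ℝ) :=
        C6_rp X hX1 _ _ _ (by linarith) (by norm_num)
      rw [Real.rpow_one] at t2
      linarith
    exact_mod_cast t1
  -- the residue
  have hx : (a : ZMod p) / (b : ZMod p) ≠ 0 := by
    apply div_ne_zero
    · intro h
      exact ha ((ZMod.intCast_zmod_eq_zero_iff_dvd a p).1 h)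
    · intro h
      exact hb ((ZMod.natCast_eq_zero_iff b p).1 h)
  obtain ⟨E, hE⟩ : ∃ E : ℝ, E = (X : ℝ) ^ (24 / 25 : ℝ) / 4 := ⟨_, rfl⟩
  have hLe := hL p V z D ((a : ZMod p) / (b : ZMod p)) γ hγ hx hV100 hpV hWp hz2
    (by omega) hD1 h2D
  have hErr : ∑ d ∈ Icc 1 D, |AG p γ ((a : ZMod p) / (b : ZMod p)) (wn V) d -
      AG p γ ((a : ZMod p) / (b : ZMod p)) V d - tot V γ * ((wn V : ℝ) - V) / p / d| ≤ E := by
    refine hLe.trans ?_
    have pw : ∀ θ : ℝ, 0 ≤ θ → θ ≤ 1 → (p : ℝ) ^ θ ≤ 2 * (X : ℝ) ^ θ := by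
      intro θ h0 h1
      calc (p : ℝ) ^ θ ≤ (2 * (X : ℝ)) ^ θ := Real.rpow_le_rpow hpR0.le hpR2 h0
        _ = (2 : ℝ) ^ θ * (X : ℝ) ^ θ := Real.mul_rpow (by norm_num) hX0.le
        _ ≤ 2 * (X : ℝ) ^ θ := by
            apply mul_le_mul_of_nonneg_right _ (Real.rpow_nonneg hX0.le _)
            calc (2 : ℝ) ^ θ ≤ (2 : ℝ) ^ (1 : ℝ) := Real.rpow_le_rpow_of_exponent_le (by norm_num) h1
              _ = 2 := Real.rpow_one 2
    have d1 : (D : ℝ) ^ (1 / 2 : ℝ) ≤ B * (X : ℝ) ^ (1 / 128 : ℝ) := by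
      calc (D : ℝ) ^ (1 / 2 : ℝ) ≤ (B * (X : ℝ) ^ (1 / 64 : ℝ)) ^ (1 / 2 : ℝ) :=
            Real.rpow_le_rpow (by positivity) hDR (by norm_num)
        _ = B ^ (1 / 2 : ℝ) * ((X : ℝ) ^ (1 / 64 : ℝ)) ^ (1 / 2 : ℝ) :=
            Real.mul_rpow (by linarith) (Real.rpow_nonneg hX0.le _)
        _ = B ^ (1 / 2 : ℝ) * (X : ℝ) ^ (1 / 128 : ℝ) := by
            rw [← Real.rpow_mul hX0.le]
            norm_num
        _ ≤ B * (X : ℝ) ^ (1 / 128 : ℝ) := by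
            apply mul_le_mul_of_nonneg_right _ (Real.rpow_nonneg hX0.le _)
            calc B ^ (1 / 2 : ℝ) ≤ B ^ (1 : ℝ) := Real.rpow_le_rpow_of_exponent_le hB1 (by norm_num)
              _ = B := Real.rpow_one B
    have d2 : (D : ℝ) ^ (1 / 2 : ℝ) * (p : ℝ) ^ (15 / 16 : ℝ) ≤
        2 * B * (X : ℝ) ^ (1 / 128 + 15 / 16 : ℝ) := by
      calc (D : ℝ) ^ (1 / 2 : ℝ) * (p : ℝ) ^ (15 / 16 : ℝ) ≤
            (B * (X : ℝ) ^ (1 / 128 : ℝ)) * (2 * (X : ℝ) ^ (15 / 16 : ℝ)) :=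
            mul_le_mul d1 (pw _ (by norm_num) (by norm_num)) (by positivity) (by positivity)
        _ = 2 * B * (X : ℝ) ^ (1 / 128 + 15 / 16 : ℝ) := by
            rw [Real.rpow_add hX0]
            ring
    have d3 : (D : ℝ) * (p : ℝ) ^ (7 / 8 : ℝ) ≤ 2 * B * (X : ℝ) ^ (1 / 128 + 15 / 16 : ℝ) := by
      calc (D : ℝ) * (p : ℝ) ^ (7 / 8 : ℝ) ≤
            (B * (X : ℝ) ^ (1 / 64 : ℝ)) * (2 * (X : ℝ) ^ (7 / 8 : ℝ)) :=
            mul_le_mul hDR (pw _ (by norm_num) (by norm_num)) (by positivity) (by positivity)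
        _ = 2 * B * (X : ℝ) ^ (1 / 64 + 7 / 8 : ℝ) := by
            rw [Real.rpow_add hX0]
            ring
        _ ≤ 2 * B * (X : ℝ) ^ (1 / 128 + 15 / 16 : ℝ) := by
            apply mul_le_mul_of_nonneg_left _ (by positivity)
            exact Real.rpow_le_rpow_of_exponent_le hX1 (by norm_num)
    have d4 : (D : ℝ) ^ (1 / 2 : ℝ) * (p : ℝ) ^ (15 / 16 : ℝ) + (D : ℝ) * (p : ℝ) ^ (7 / 8 : ℝ) ≤
        4 * B * (X : ℝ) ^ (1 / 128 + 15 / 16 : ℝ) := by linarith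
    calc C * (p : ℝ) ^ (1 / 1000 : ℝ) *
          ((D : ℝ) ^ (1 / 2 : ℝ) * (p : ℝ) ^ (15 / 16 : ℝ) + (D : ℝ) * (p : ℝ) ^ (7 / 8 : ℝ)) ≤
          C * (2 * (X : ℝ) ^ (1 / 1000 : ℝ)) * (4 * B * (X : ℝ) ^ (1 / 128 + 15 / 16 : ℝ)) := by
          apply mul_le_mul _ d4 (by positivity) (by positivity)
          exact mul_le_mul_of_nonneg_left (pw _ (by norm_num) (by norm_num)) (by linarith)
      _ = (8 * (C * B)) * ((X : ℝ) ^ (1 / 1000 : ℝ) * (X : ℝ) ^ (1 / 128 + 15 / 16 : ℝ)) := by ring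
      _ = (8 * (C * B)) * (X : ℝ) ^ (1 / 1000 + (1 / 128 + 15 / 16) : ℝ) := by
          rw [← Real.rpow_add hX0]
      _ ≤ E := by
          rw [hE, le_div_iff₀ (by norm_num)]
          calc (8 * (C * B)) * (X : ℝ) ^ (1 / 1000 + (1 / 128 + 15 / 16) : ℝ) * 4 =
                (32 * (C * B)) * (X : ℝ) ^ (1 / 1000 + (1 / 128 + 15 / 16) : ℝ) := by ring
            _ ≤ _ := C6_rp X hX1 _ _ _ hBq (by norm_num)
  -- the sieve
  have nP := C6_NN h2 p a b V D γ θp ha hb hWp hγs hp0 hp1 E hErr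
  have nM := C6_NN h2 p a b V D γ θm ha hb hWp hγs hm0 hm1 E hErr
  have tP := C6_tot V D θp hp0 hp1
  have tM := C6_tot V D θm hm0 hm1
  have hl0 : ∀ l ∈ II V, l ≠ 0 := by
    intro l hl
    unfold II at hl
    rw [mem_Ioc] at hl
    omega
  have mP := C6_mono p a b V γ (ro (2 ^ K₀)) (fun l => ∑ d ∈ l.divisors, θp d) (fun n => (hγ3 n).1)
    (fun l hl => hpl l (hl0 l hl))
  have mM := C6_mono p a b V γ (fun l => ∑ d ∈ l.divisors, θm d) (ro (2 ^ K₀)) (fun n => (hγ3 n).1)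
    (fun l hl => hml l (hl0 l hl))
  have sP : tot V (ro (2 ^ K₀)) ≤ ∑ l ∈ II V, ∑ d ∈ l.divisors, θp d :=
    Finset.sum_le_sum (fun l hl => hpl l (hl0 l hl))
  have sM : ∑ l ∈ II V, ∑ d ∈ l.divisors, θm d ≤ tot V (ro (2 ^ K₀)) :=
    Finset.sum_le_sum (fun l hl => hml l (hl0 l hl))
  rw [← hw] at nP nM tP tM
  have alg := C6_alg (NN p a b V γ (ro (2 ^ K₀))) (tot V γ) (tot V (ro (2 ^ K₀))) p w (PK K₀)
    (∑ d ∈ Icc 1 D, θm d / d) (∑ d ∈ Icc 1 D, θp d / d) (dl bb) E D ht0 hpR0 hw0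
    (by linarith [(abs_le.1 nP).2]) (by linarith [(abs_le.1 nM).1]) hps hms
    (by linarith [(abs_le.1 tP).2]) (by linarith [(abs_le.1 tM).1])
  refine alg.trans ?_
  -- the size of the main error
  have hLpos : 0 < Real.log X := Real.log_pos (by linarith)
  have hK0 : e * Real.log X ≤ K₀ := by
    have t1 := Real.log_le_log (Real.rpow_pos_of_pos hX0 _) hK0a
    rw [Real.log_rpow hX0, Real.log_pow] at t1
    have t2 := Real.log_two_lt_d9
    have t3 : (0 : ℝ) ≤ K₀ := Nat.cast_nonneg _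
    nlinarith
  have heL : 0 < e * Real.log X := mul_pos he0 hLpos
  have hK0pos : (0 : ℝ) < K₀ := by linarith
  have hK01 : 1 ≤ K₀ := by exact_mod_cast (show 0 < K₀ by exact_mod_cast hK0pos)
  have hPK' : PK K₀ ≤ C₄ / (e * Real.log X) :=
    (hPK K₀ hK01).trans (div_le_div_of_nonneg_left hC4.le heL hK0)
  have m1 : 2 * dl bb * w * PK K₀ ≤ κ * V / Real.log X := by
    calc 2 * dl bb * w * PK K₀ ≤ 2 * dl bb * w * (C₄ / (e * Real.log X)) :=
          mul_le_mul_of_nonneg_left hPK' (by have := hdl0 bb; positivity)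
      _ ≤ 2 * dl bb * (V / 10) * (C₄ / (e * Real.log X)) := by
          apply mul_le_mul_of_nonneg_right _ (by positivity)
          exact mul_le_mul_of_nonneg_left hw1 (by have := hdl0 bb; positivity)
      _ = dl bb * C₄ / (5 * e) * (V / Real.log X) := by
          field_simp
          ring
      _ ≤ κ * (V / Real.log X) := mul_le_mul_of_nonneg_right hdlκ (by positivity)
      _ = κ * V / Real.log X := by ring
  have m2 : tot V γ / p * (2 * dl bb * w * PK K₀ + D) ≤ κ * V * tot V γ / (p * Real.log X) + D := by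
    rw [mul_add]
    apply add_le_add
    · calc tot V γ / p * (2 * dl bb * w * PK K₀) ≤ tot V γ / p * (κ * V / Real.log X) :=
            mul_le_mul_of_nonneg_left m1 htP0
        _ = κ * V * tot V γ / (p * Real.log X) := by
            field_simp
    · calc tot V γ / p * D ≤ 1 * D := mul_le_mul_of_nonneg_right htP (by linarith)
        _ = D := one_mul _
  have hXp : 0 ≤ (X : ℝ) ^ (24 / 25 : ℝ) := Real.rpow_nonneg hX0.le _
  rw [hE]
  linarith

end Pool.Agent.QQA
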