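import Pool.Agent.QQA.Defs

set_option autoImplicit false

namespace Pool.Agent.QQA

open Finset

theorem F01_gP (V n : ℕ) : 0 ≤ gP V n ∧ gP V n ≤ 1 := by
  unfold gP
  split_ifs with h
  · have h' := Finset.mem_Ioc.1 (show n ∈ Ioc V (wn V) from h)
    have hw : wn V = V + V / 10 := rfl
    have h2 : 1 < wn V := by omega
    have hlog : 0 < Real.log (wn V) := Real.log_pos (by exact_mod_cast h2)
    refine ⟨div_nonneg ArithmeticFunction.vonMangoldt_nonneg hlog.le, ?_⟩
    rw [div_le_one hlog]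
    refine ArithmeticFunction.vonMangoldt_le_log.trans ?_
    apply Real.log_le_log
    · exact_mod_cast (by omega : 0 < n)
    · exact_mod_cast h'.2
  · simp

theorem F01_gQ_nonneg (z V n : ℕ) : 0 ≤ gQ z V n := by
  unfold gQ
  split_ifs with h
  · apply Finset.sum_nonneg
    intro q _
    split_ifs <;> norm_num
  · exact le_rfl

theorem F01_gQ_le (z V n : ℕ) (hz : wn V < z ^ 4) : gQ z V n ≤ 3 := by
  unfold gQ
  split_ifs with h
  · have h' := Finset.mem_Ioc.1 (show n ∈ Ioc V (wn V) from h)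
    have hn : 0 < n := by omega
    set Q : Finset ℕ := (Ioc z (Nat.sqrt (wn V))).filter Nat.Prime with hQ
    have h1 : ∑ q ∈ Q, (if q ∣ n ∧ Rg z (n / q) then (1 : ℝ) else 0) ≤
        ∑ q ∈ Q, (if q ∣ n then (1 : ℝ) else 0) := by
      apply Finset.sum_le_sum
      intro q _
      split_ifs with h3 h4 h4
      · exact le_rfl
      · exact absurd h3.1 h4
      · norm_num
      · exact le_rfl
    refine h1.trans ?_
    rw [Finset.sum_boole]
    set R : Finset ℕ := Q.filter (fun q => q ∣ n) with hR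
    have hmem : ∀ q ∈ R, q.Prime ∧ z < q ∧ q ∣ n := by
      intro q hq
      rw [hR, Finset.mem_filter, hQ, Finset.mem_filter, Finset.mem_Ioc] at hq
      exact ⟨hq.1.2, hq.1.1.1, hq.2⟩
    have hdvd : ∏ q ∈ R, q ∣ n := by
      apply Finset.prod_primes_dvd
      · intro q hq
        exact (hmem q hq).1.prime
      · intro q hq
        exact (hmem q hq).2.2
    have hle : ∏ q ∈ R, q ≤ n := Nat.le_of_dvd hn hdvd
    have hpow : z ^ (#R) ≤ ∏ q ∈ R, q := by
      rw [← Finset.prod_const]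
      apply Finset.prod_le_prod'
      intro q hq
      exact (hmem q hq).2.1.le
    have hz1 : 1 < z ∨ z ≤ 1 := by omega
    have hlt : z ^ (#R) < z ^ 4 := by omega
    have hz2 : 1 < z := by
      rcases hz1 with h5 | h5
      · exact h5
      · exfalso
        have h6 : z ^ 4 ≤ 1 := Nat.pow_le_one_iff (by norm_num) |>.2 h5
        omega
    have hcard : #R < 4 := (Nat.pow_lt_pow_iff_right hz2).1 hlt
    exact_mod_cast (by omega : #R ≤ 3)
  · norm_num

theorem R_F0 : st_F0 :=
  ⟨F01_gP, fun z V n hz => ⟨F01_gQ_nonneg z V n, F01_gQ_le z V n hz⟩⟩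

/-- proper prime powers -/
def F01_PP (n : ℕ) : Prop := ∃ q k : ℕ, q.Prime ∧ 2 ≤ k ∧ q ^ k = n

noncomputable instance F01_dec (n : ℕ) : Decidable (F01_PP n) := Classical.propDecidable _

noncomputable def F01_pp (n : ℕ) : ℝ := if F01_PP n then 1 else 0

noncomputable def F01_P (n : ℕ) : ℝ := if n.Prime then 1 else 0

theorem F01_pp_nonneg (n : ℕ) : 0 ≤ F01_pp n := by
  unfold F01_pp
  split_ifs <;> norm_num

theorem F01_P_nonneg (n : ℕ) : 0 ≤ F01_P n := by
  unfold F01_P
  split_ifs <;> norm_num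

theorem F01_P_le (n : ℕ) : F01_P n ≤ 1 := by
  unfold F01_P
  split_ifs <;> norm_num

theorem F01_ch_nonneg (p : ℕ) (a : ℤ) (b n l : ℕ) : 0 ≤ ch p a b n l := by
  unfold ch
  split_ifs <;> norm_num

theorem F01_ch_symm (p : ℕ) (a : ℤ) (b n l : ℕ) : ch p a b n l = ch p a b l n := by
  unfold ch
  rw [mul_right_comm]

theorem F01_gP_le (V n : ℕ) : gP V n ≤ F01_P n + F01_pp n := by
  by_cases hp : IsPrimePow n
  · obtain ⟨q, k, hq, hk, hn⟩ := (isPrimePow_nat_iff n).1 hp
    have h1 : 1 ≤ F01_P n + F01_pp n := by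
      rcases (show k = 1 ∨ 2 ≤ k by omega) with h | h
      · have : n.Prime := by
          rw [← hn, h, pow_one]
          exact hq
        have h2 : F01_P n = 1 := if_pos this
        have := F01_pp_nonneg n
        linarith
      · have h2 : F01_pp n = 1 := if_pos ⟨q, k, hq, h, hn⟩
        have := F01_P_nonneg n
        linarith
    exact (F01_gP V n).2.trans h1
  · have h0 : gP V n = 0 := by
      unfold gP
      split_ifs
      · rw [ArithmeticFunction.vonMangoldt_eq_zero_iff.2 hp, zero_div]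
      · rfl
    rw [h0]
    exact add_nonneg (F01_P_nonneg n) (F01_pp_nonneg n)

theorem F01_count (V : ℕ) :
    ∑ n ∈ II V, F01_pp n ≤ Real.sqrt (wn V) * Nat.log 2 (wn V) := by
  unfold F01_pp
  rw [Finset.sum_boole]
  set N := wn V with hN
  have hsub : (II V).filter F01_PP ⊆
      (Icc 1 (Nat.sqrt N) ×ˢ Icc 1 (Nat.log 2 N)).image (fun t : ℕ × ℕ => t.1 ^ t.2) := by
    intro n hn
    rw [Finset.mem_filter] at hn
    obtain ⟨hn1, q, k, hq, hk, hqk⟩ := hn
    have hn2 := Finset.mem_Ioc.1 (show n ∈ Ioc V (wn V) from hn1)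
    have hnN : n ≤ N := hn2.2
    rw [Finset.mem_image]
    refine ⟨(q, k), ?_, hqk⟩
    rw [Finset.mem_product, Finset.mem_Icc, Finset.mem_Icc]
    have h1 : q ^ 2 ≤ n := by
      rw [← hqk]
      exact Nat.pow_le_pow_right hq.pos hk
    have h2 : 2 ^ k ≤ n := by
      rw [← hqk]
      exact Nat.pow_le_pow_left hq.two_le k
    refine ⟨⟨hq.one_le, ?_⟩, ⟨by omega, ?_⟩⟩
    · rw [Nat.le_sqrt]
      nlinarith
    · apply Nat.le_log_of_pow_le (by norm_num)
      exact h2.trans hnN
  have hc := (Finset.card_le_card hsub).trans Finset.card_image_le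
  rw [Finset.card_product, Nat.card_Icc, Nat.card_Icc] at hc
  have hc2 : #((II V).filter F01_PP) ≤ Nat.sqrt N * Nat.log 2 N := by
    simpa using hc
  have hc3 : ((#((II V).filter F01_PP) : ℕ) : ℝ) ≤ (Nat.sqrt N : ℝ) * Nat.log 2 N := by
    exact_mod_cast hc2
  refine hc3.trans ?_
  apply mul_le_mul_of_nonneg_right _ (Nat.cast_nonneg _)
  exact Real.nat_sqrt_le_real_sqrt

theorem F01_ch_sum {p : ℕ} (hp : p.Prime) {a : ℤ} (ha : ¬ (p : ℤ) ∣ a) (b : ℕ) {V : ℕ}
    (hV : wn V < p) (n : ℕ) : ∑ l ∈ II V, ch p a b n l ≤ 1 := by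
  unfold ch
  rw [Finset.sum_boole]
  have h : #((II V).filter (fun l : ℕ => (p : ℤ) ∣ (b : ℤ) * n * (l : ℤ) - a)) ≤ 1 := by
    rw [Finset.card_le_one]
    intro l hl l' hl'
    rw [Finset.mem_filter] at hl hl'
    have h1 := Finset.mem_Ioc.1 (show l ∈ Ioc V (wn V) from hl.1)
    have h2 := Finset.mem_Ioc.1 (show l' ∈ Ioc V (wn V) from hl'.1)
    have h3 : (p : ℤ) ∣ ((b : ℤ) * n) * ((l : ℤ) - l') := by
      have := dvd_sub hl.2 hl'.2
      have e : (b : ℤ) * n * l - a - ((b : ℤ) * n * l' - a) = ((b : ℤ) * n) * ((l : ℤ) - l') := by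
        ring
      rwa [e] at this
    have hpi : Prime (p : ℤ) := Nat.prime_iff_prime_int.1 hp
    rcases hpi.dvd_or_dvd h3 with h4 | h4
    · exfalso
      apply ha
      have h5 : (p : ℤ) ∣ (b : ℤ) * n * l := Dvd.dvd.mul_right h4 _
      have := dvd_sub h5 hl.2
      rwa [sub_sub_cancel] at this
    · have h5 : (l : ℤ) - l' = 0 := by
        apply Int.eq_zero_of_abs_lt_dvd h4
        rw [abs_lt]
        constructor <;> omega
      omega
  exact_mod_cast h

theorem F01_ch_sum' {p : ℕ} (hp : p.Prime) {a : ℤ} (ha : ¬ (p : ℤ) ∣ a) (b : ℕ) {V : ℕ}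
    (hV : wn V < p) (l : ℕ) : ∑ n ∈ II V, ch p a b n l ≤ 1 := by
  have := F01_ch_sum hp ha b hV l
  simpa only [F01_ch_symm p a b] using this

theorem F01_ro (z V l : ℕ) (hV : 2 ≤ V) (hl : l ∈ II V) : ro z l ≤ F01_P l + gQ z V l := by
  unfold ro
  split_ifs with h
  · have h1 := Finset.mem_Ioc.1 (show l ∈ Ioc V (wn V) from hl)
    by_cases hp : l.Prime
    · have h2 : F01_P l = 1 := if_pos hp
      have := F01_gQ_nonneg z V l
      linarith
    · have h2 : 1 ≤ gQ z V l := by
        unfold gQ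
        rw [if_pos hl]
        set q := l.minFac with hq
        have hqp : q.Prime := Nat.minFac_prime (by omega)
        have hqd : q ∣ l := Nat.minFac_dvd l
        have hqz : z < q := h q hqp hqd
        have hq2 : q ^ 2 ≤ l := Nat.minFac_sq_le_self (by omega) hp
        have hmem : q ∈ (Ioc z (Nat.sqrt (wn V))).filter Nat.Prime := by
          rw [Finset.mem_filter, Finset.mem_Ioc]
          refine ⟨⟨hqz, ?_⟩, hqp⟩
          rw [Nat.le_sqrt]
          nlinarith [h1.2]
        have hcond : q ∣ l ∧ Rg z (l / q) := by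
          refine ⟨hqd, ?_⟩
          intro r hr hrd
          exact h r hr (hrd.trans (Nat.div_dvd_of_dvd hqd))
        have := Finset.single_le_sum
          (f := fun q => if q ∣ l ∧ Rg z (l / q) then (1 : ℝ) else 0)
          (fun i _ => by split_ifs <;> norm_num) hmem
        simpa only [if_pos hcond] using this
      have := F01_P_nonneg l
      linarith
  · exact add_nonneg (F01_P_nonneg l) (F01_gQ_nonneg z V l)

theorem F01_P_ro (z V l : ℕ) (hz : z ≤ V) (hl : l ∈ II V) : F01_P l ≤ ro z l := by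
  have h1 := Finset.mem_Ioc.1 (show l ∈ Ioc V (wn V) from hl)
  unfold F01_P ro
  split_ifs with h h2 h2
  · exact le_rfl
  · exfalso
    apply h2
    intro q hq hql
    rw [(Nat.prime_dvd_prime_iff_eq hq h).1 hql]
    omega
  · norm_num
  · exact le_rfl

theorem F01_Qc (p : ℕ) (a : ℤ) (b V : ℕ) :
    ∑ n ∈ II V, ∑ l ∈ II V, ch p a b n l * F01_P n * F01_P l = (Qc p a b V : ℝ) := by
  have h : ∀ n l : ℕ, ch p a b n l * F01_P n * F01_P l =
      if (n.Prime ∧ l.Prime ∧ (p : ℤ) ∣ (b : ℤ) * n * l - a) then (1 : ℝ) else 0 := by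
    intro n l
    unfold ch F01_P
    by_cases h1 : n.Prime <;> by_cases h2 : l.Prime <;>
      by_cases h3 : (p : ℤ) ∣ (b : ℤ) * n * l - a <;> simp [h1, h2, h3]
  simp only [h]
  rw [← Finset.sum_product' (II V) (II V) (fun n l => if (n.Prime ∧ l.Prime ∧
    (p : ℤ) ∣ (b : ℤ) * n * l - a) then (1 : ℝ) else 0), Finset.sum_boole]
  rfl

theorem R_F1 (h0 : st_F0) : st_F1 := by
  intro p a b V z hp hV ha hb hz hzV hV2 hz4
  set S : ℝ := ∑ n ∈ II V, F01_pp n with hS
  have hSle : S ≤ Real.sqrt (wn V) * Nat.log 2 (wn V) := F01_count V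
  have hgP := h0.1 V
  have hgQ := fun n => h0.2 z V n hz4
  -- first step
  have s1 : NN p a b V (gP V) (ro z) ≤
      ∑ n ∈ II V, ∑ l ∈ II V, ch p a b n l * gP V n * F01_P l +
      ∑ n ∈ II V, ∑ l ∈ II V, ch p a b n l * gP V n * gQ z V l := by
    unfold NN
    rw [← Finset.sum_add_distrib]
    apply Finset.sum_le_sum
    intro n _
    rw [← Finset.sum_add_distrib]
    apply Finset.sum_le_sum
    intro l hl
    rw [← mul_add]
    exact mul_le_mul_of_nonneg_left (F01_ro z V l hV2 hl)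
      (mul_nonneg (F01_ch_nonneg p a b n l) (hgP n).1)
  have s2 : ∑ n ∈ II V, ∑ l ∈ II V, ch p a b n l * gP V n * F01_P l ≤ Qc p a b V + S := by
    rw [← F01_Qc p a b V, hS, ← Finset.sum_add_distrib]
    apply Finset.sum_le_sum
    intro n _
    have e1 : ∑ l ∈ II V, ch p a b n l * gP V n * F01_P l ≤
        ∑ l ∈ II V, (ch p a b n l * F01_P n * F01_P l + ch p a b n l * F01_pp n) := by
      apply Finset.sum_le_sum
      intro l _
      have h1 : ch p a b n l * gP V n * F01_P l ≤
          ch p a b n l * (F01_P n + F01_pp n) * F01_P l :=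
        mul_le_mul_of_nonneg_right (mul_le_mul_of_nonneg_left (F01_gP_le V n)
          (F01_ch_nonneg p a b n l)) (F01_P_nonneg l)
      have h2 : ch p a b n l * F01_pp n * F01_P l ≤ ch p a b n l * F01_pp n * 1 :=
        mul_le_mul_of_nonneg_left (F01_P_le l)
          (mul_nonneg (F01_ch_nonneg p a b n l) (F01_pp_nonneg n))
      have h3 : ch p a b n l * (F01_P n + F01_pp n) * F01_P l =
        ch p a b n l * F01_P n * F01_P l + ch p a b n l * F01_pp n * F01_P l := by ring
      linarith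
    refine e1.trans ?_
    rw [Finset.sum_add_distrib, ← Finset.sum_mul]
    have h4 := mul_le_mul_of_nonneg_right (F01_ch_sum hp ha b hV n) (F01_pp_nonneg n)
    linarith
  have s3 : ∑ n ∈ II V, ∑ l ∈ II V, ch p a b n l * gP V n * gQ z V l =
      ∑ n ∈ II V, ∑ l ∈ II V, ch p a b n l * gQ z V n * gP V l := by
    rw [Finset.sum_comm]
    apply Finset.sum_congr rfl
    intro n _
    apply Finset.sum_congr rfl
    intro l _
    rw [F01_ch_symm p a b l n]
    ring
  have s4 : ∑ n ∈ II V, ∑ l ∈ II V, ch p a b n l * gQ z V n * gP V l ≤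
      NN p a b V (gQ z V) (ro z) + 3 * S := by
    have e1 : ∑ n ∈ II V, ∑ l ∈ II V, ch p a b n l * gQ z V n * gP V l ≤
        ∑ n ∈ II V, ∑ l ∈ II V, (ch p a b n l * gQ z V n * ro z l +
          3 * (ch p a b n l * F01_pp l)) := by
      apply Finset.sum_le_sum
      intro n _
      apply Finset.sum_le_sum
      intro l hl
      have h1 : gP V l ≤ ro z l + F01_pp l := by
        have := F01_gP_le V l
        have := F01_P_ro z V l hzV hl
        linarith
      have h2 : ch p a b n l * gQ z V n * gP V l ≤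
          ch p a b n l * gQ z V n * (ro z l + F01_pp l) :=
        mul_le_mul_of_nonneg_left h1 (mul_nonneg (F01_ch_nonneg p a b n l) (hgQ n).1)
      have h3 : ch p a b n l * gQ z V n * F01_pp l ≤ ch p a b n l * 3 * F01_pp l :=
        mul_le_mul_of_nonneg_right (mul_le_mul_of_nonneg_left (hgQ n).2
          (F01_ch_nonneg p a b n l)) (F01_pp_nonneg l)
      have h4 : ch p a b n l * gQ z V n * (ro z l + F01_pp l) =
        ch p a b n l * gQ z V n * ro z l + ch p a b n l * gQ z V n * F01_pp l := by ring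
      have h5 : ch p a b n l * 3 * F01_pp l = 3 * (ch p a b n l * F01_pp l) := by ring
      linarith
    refine e1.trans ?_
    have e2 : ∑ n ∈ II V, ∑ l ∈ II V, (ch p a b n l * gQ z V n * ro z l +
          3 * (ch p a b n l * F01_pp l)) = NN p a b V (gQ z V) (ro z) +
          3 * ∑ n ∈ II V, ∑ l ∈ II V, ch p a b n l * F01_pp l := by
      unfold NN
      rw [Finset.mul_sum, ← Finset.sum_add_distrib]
      apply Finset.sum_congr rfl
      intro n _
      rw [Finset.mul_sum, ← Finset.sum_add_distrib]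
    rw [e2]
    have e3 : ∑ n ∈ II V, ∑ l ∈ II V, ch p a b n l * F01_pp l ≤ S := by
      rw [Finset.sum_comm, hS]
      apply Finset.sum_le_sum
      intro l _
      rw [← Finset.sum_mul]
      have h4 := mul_le_mul_of_nonneg_right (F01_ch_sum' hp ha b hV l) (F01_pp_nonneg l)
      linarith
    linarith
  rw [s3] at s1
  have : 4 * Real.sqrt (wn V) * Nat.log 2 (wn V) =
    4 * (Real.sqrt (wn V) * Nat.log 2 (wn V)) := by ring
  rw [this]
  linarith

end Pool.Agent.QQA
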