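import Pool.Agent.QQA.Defs

set_option autoImplicit false

namespace Pool.Agent.QQA

open Finset

theorem F2_ev (M θ : ℝ) (hθ : 0 < θ) :
    ∀ᶠ x : ℝ in Filter.atTop, M * (1 + Real.log x) ^ 2 ≤ x ^ θ := by
  have h1 : Filter.Tendsto (fun x : ℝ => x ^ (θ / 2)) Filter.atTop Filter.atTop :=
    tendsto_rpow_atTop (by linarith)
  filter_upwards [h1.eventually_ge_atTop (|M| * (1 + 4 / θ) ^ 2), Filter.eventually_ge_atTop (1 : ℝ)]
    with x hx hx1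
  have hx0 : (0 : ℝ) < x := by linarith
  have h2 : Real.log x ≤ x ^ (θ / 4) / (θ / 4) := Real.log_le_rpow_div hx0.le (by linarith)
  have h3 : 0 ≤ Real.log x := Real.log_nonneg hx1
  have h4 : 1 ≤ x ^ (θ / 4) := Real.one_le_rpow hx1 (by linarith)
  have h5 : 1 + Real.log x ≤ (1 + 4 / θ) * x ^ (θ / 4) := by
    have h6 : x ^ (θ / 4) / (θ / 4) = 4 / θ * x ^ (θ / 4) := by
      rw [div_div_eq_mul_div]
      ring
    rw [h6] at h2
    linarith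
  have h7 : (x ^ (θ / 4)) ^ 2 = x ^ (θ / 2) := by
    rw [← Real.rpow_natCast (x ^ (θ / 4)) 2, ← Real.rpow_mul hx0.le]
    congr 1
    push_cast
    ring
  calc M * (1 + Real.log x) ^ 2 ≤ |M| * ((1 + 4 / θ) * x ^ (θ / 4)) ^ 2 :=
        mul_le_mul (le_abs_self M) (pow_le_pow_left₀ (by linarith) h5 2) (by positivity) (abs_nonneg _)
    _ = |M| * (1 + 4 / θ) ^ 2 * x ^ (θ / 2) := by
        rw [mul_pow, h7]
        ring
    _ ≤ x ^ (θ / 2) * x ^ (θ / 2) := mul_le_mul_of_nonneg_right hx (Real.rpow_nonneg hx0.le _)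
    _ = x ^ θ := by
        rw [← Real.rpow_add hx0]
        congr 1
        ring

theorem F2_nat (M θ : ℝ) (hθ : 0 < θ) :
    ∃ X₀ : ℕ, ∀ X : ℕ, X₀ ≤ X → M * (1 + Real.log X) ^ 2 ≤ (X : ℝ) ^ θ := by
  have h := tendsto_natCast_atTop_atTop.eventually (F2_ev M θ hθ)
  exact Filter.eventually_atTop.1 h

theorem F2_nat1 (M θ : ℝ) (hM : 0 ≤ M) (hθ : 0 < θ) :
    ∃ X₀ : ℕ, ∀ X : ℕ, X₀ ≤ X → M ≤ (X : ℝ) ^ θ := by
  obtain ⟨X₀, h⟩ := F2_nat M θ hθ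
  refine ⟨X₀ + 1, fun X hX => ?_⟩
  have h1 := h X (by omega)
  have h2 : (1 : ℝ) ≤ X := by exact_mod_cast (show 1 ≤ X by omega)
  have h3 : 0 ≤ Real.log X := Real.log_nonneg h2
  refine le_trans ?_ h1
  have h4 : (1 : ℝ) ≤ (1 + Real.log X) ^ 2 := by
    apply one_le_pow₀
    linarith
  calc M = M * 1 := (mul_one M).symm
    _ ≤ _ := mul_le_mul_of_nonneg_left h4 hM

theorem F2_alg (c₁ κ V P X L tP tQ R Q NP NQ u₁ u₂ E : ℝ) (hc : 0 < c₁) (hκ : κ = c₁ ^ 2 / 200)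
    (hV : 0 < V) (hX : 0 < X) (hL : 0 < L) (hP1 : X < P) (hP2 : P ≤ 2 * X)
    (hNP : |NP - tP * R / P| ≤ u₁ + (κ * V * tP / (P * L) + u₂))
    (hNQ : |NQ - tQ * R / P| ≤ u₁ + (κ * V * tQ / (P * L) + u₂))
    (hF : NP - NQ ≤ Q + E) (h1 : c₁ * V / L ≤ tP - tQ) (h2 : 0 ≤ tQ) (h3 : tP ≤ 12 * V / L)
    (h4 : c₁ * V / (2 * L) ≤ R) (g1 : u₁ ≤ c₁ ^ 2 / 100 * (V ^ 2 / (X * L ^ 2)))
    (g2 : u₂ ≤ c₁ ^ 2 / 200 * (V ^ 2 / (X * L ^ 2))) (g3 : E ≤ u₂) :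
    c₁ ^ 2 / 10 * V ^ 2 / (X * L ^ 2) ≤ Q := by
  have hP : 0 < P := by linarith
  have hκ0 : 0 < κ := by rw [hκ]; positivity
  have hcL : 0 < c₁ * V / L := by positivity
  have a1 : c₁ ^ 2 / 2 * (V ^ 2 / (P * L ^ 2)) ≤ (tP - tQ) * R / P := by
    have e1 : c₁ ^ 2 / 2 * (V ^ 2 / (P * L ^ 2)) = (c₁ * V / L) * (c₁ * V / (2 * L)) / P := by
      field_simp
    rw [e1]
    apply div_le_div_of_nonneg_right _ hP.le
    exact mul_le_mul h1 h4 (by positivity) (by linarith)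
  have a2 : ∀ t : ℝ, t ≤ 12 * V / L → κ * V * t / (P * L) ≤ 12 * κ * (V ^ 2 / (P * L ^ 2)) := by
    intro t ht
    have e1 : 12 * κ * (V ^ 2 / (P * L ^ 2)) = κ * V * (12 * V / L) / (P * L) := by
      field_simp
    rw [e1]
    apply div_le_div_of_nonneg_right _ (by positivity)
    exact mul_le_mul_of_nonneg_left ht (by positivity)
  have a3 : 1 / 2 * (V ^ 2 / (X * L ^ 2)) ≤ V ^ 2 / (P * L ^ 2) := by
    have e1 : 1 / 2 * (V ^ 2 / (X * L ^ 2)) = V ^ 2 / (2 * X * L ^ 2) := by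
      field_simp
    rw [e1]
    apply div_le_div_of_nonneg_left (by positivity) (by positivity)
    exact mul_le_mul_of_nonneg_right hP2 (by positivity)
  have b1 := (abs_le.1 hNP).1
  have b2 := (abs_le.1 hNQ).2
  have c1 := a2 tP h3
  have c2 := a2 tQ (by linarith)
  have e2 : (tP - tQ) * R / P = tP * R / P - tQ * R / P := by ring
  rw [e2] at a1
  have e3 : c₁ ^ 2 / 10 * V ^ 2 / (X * L ^ 2) = c₁ ^ 2 / 10 * (V ^ 2 / (X * L ^ 2)) := by ring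
  rw [e3]
  obtain ⟨G, hG⟩ : ∃ G, G = V ^ 2 / (X * L ^ 2) := ⟨_, rfl⟩
  obtain ⟨H, hH⟩ : ∃ H, H = V ^ 2 / (P * L ^ 2) := ⟨_, rfl⟩
  rw [← hG] at a3 g1 g2 ⊢
  rw [← hH] at a1 a3 c1 c2
  have d1 : 12 * κ * H = 3 / 50 * (c₁ ^ 2 * H) := by rw [hκ]; ring
  rw [d1] at c1 c2
  have d2 : 1 / 2 * (c₁ ^ 2 * G) ≤ c₁ ^ 2 * H := by
    have := mul_le_mul_of_nonneg_left a3 (sq_nonneg c₁)
    linarith
  have d3 : 0 ≤ c₁ ^ 2 * G := by
    rw [hG]
    positivity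
  have f1 : c₁ ^ 2 / 2 * H = 1 / 2 * (c₁ ^ 2 * H) := by ring
  have f2 : c₁ ^ 2 / 100 * G = 1 / 100 * (c₁ ^ 2 * G) := by ring
  have f3 : c₁ ^ 2 / 200 * G = 1 / 200 * (c₁ ^ 2 * G) := by ring
  have f4 : c₁ ^ 2 / 10 * G = 1 / 10 * (c₁ ^ 2 * G) := by ring
  rw [f1] at a1
  rw [f2] at g1
  rw [f3] at g2
  rw [f4]
  linarith

/-- the prime powers in the window are mostly primes -/
theorem F2_R (V z : ℕ) (hz : z ≤ V) (hV : 2 ≤ V) :
    tot V (gP V) ≤ tot V (ro z) + 2 * Real.sqrt (wn V) := by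
  have hVW : V ≤ wn V := by unfold wn; omega
  have hW2 : (2 : ℝ) ≤ wn V := by exact_mod_cast hV.trans hVW
  have hlog : 0 < Real.log (wn V) := Real.log_pos (by linarith)
  have h1 : tot V (gP V) = (∑ n ∈ II V, ArithmeticFunction.vonMangoldt n) / Real.log (wn V) := by
    unfold tot
    rw [Finset.sum_div]
    apply Finset.sum_congr rfl
    intro n hn
    unfold gP
    rw [if_pos hn]
  have h2 : ∑ n ∈ II V, ArithmeticFunction.vonMangoldt n =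
      ∑ n ∈ (II V).filter Nat.Prime, ArithmeticFunction.vonMangoldt n +
      ∑ n ∈ (II V).filter (fun n => ¬ n.Prime), ArithmeticFunction.vonMangoldt n :=
    (Finset.sum_filter_add_sum_filter_not _ _ _).symm
  have h3 : ∑ n ∈ (II V).filter Nat.Prime, ArithmeticFunction.vonMangoldt n ≤
      tot V (ro z) * Real.log (wn V) := by
    unfold tot
    rw [Finset.sum_mul, Finset.sum_filter]
    apply Finset.sum_le_sum
    intro n hn
    have hn' := hn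
    unfold II at hn'
    rw [mem_Ioc] at hn'
    have hro : 0 ≤ ro z n * Real.log (wn V) := by
      unfold ro
      split_ifs <;> simp [hlog.le]
    split_ifs with hp
    · have hr : ro z n = 1 := by
        unfold ro
        rw [if_pos]
        intro q hq hqn
        rw [(Nat.prime_dvd_prime_iff_eq hq hp).1 hqn]
        omega
      rw [hr, one_mul, ArithmeticFunction.vonMangoldt_apply_prime hp]
      apply Real.log_le_log
      · exact_mod_cast hp.pos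
      · exact_mod_cast hn'.2
    · exact hro
  have h4 : ∑ n ∈ (II V).filter (fun n => ¬ n.Prime), ArithmeticFunction.vonMangoldt n ≤
      2 * Real.sqrt (wn V) * Real.log (wn V) := by
    refine le_trans ?_ (Chebyshev.psi_sub_theta_le (x := (wn V : ℝ)) (by linarith))
    rw [Chebyshev.psi_sub_theta_eq_sum_not_prime, Nat.floor_natCast]
    apply Finset.sum_le_sum_of_subset_of_nonneg
    · intro n hn
      rw [mem_filter] at hn ⊢
      unfold II at hn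
      rw [mem_Ioc] at hn ⊢
      exact ⟨⟨by omega, hn.1.2⟩, hn.2⟩
    · intro n _ _
      exact ArithmeticFunction.vonMangoldt_nonneg
  rw [h1, div_le_iff₀ hlog, h2]
  calc _ ≤ tot V (ro z) * Real.log (wn V) + 2 * Real.sqrt (wn V) * Real.log (wn V) := add_le_add h3 h4
    _ = _ := by ring

theorem F2_tP (V : ℕ) (hV : 2 ≤ V) :
    tot V (gP V) ≤ (Real.log 4 + 4) * wn V / Real.log (wn V) := by
  have hVW : V ≤ wn V := by unfold wn; omega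
  have hW2 : (2 : ℝ) ≤ wn V := by exact_mod_cast hV.trans hVW
  have hlog : 0 < Real.log (wn V) := Real.log_pos (by linarith)
  have h1 : tot V (gP V) = (∑ n ∈ II V, ArithmeticFunction.vonMangoldt n) / Real.log (wn V) := by
    unfold tot
    rw [Finset.sum_div]
    apply Finset.sum_congr rfl
    intro n hn
    unfold gP
    rw [if_pos hn]
  rw [h1]
  apply div_le_div_of_nonneg_right _ hlog.le
  refine le_trans ?_ (Chebyshev.psi_le_const_mul_self (x := (wn V : ℝ)) (by linarith))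
  unfold Chebyshev.psi
  rw [Nat.floor_natCast]
  apply Finset.sum_le_sum_of_subset_of_nonneg
  · intro n hn
    unfold II at hn
    rw [mem_Ioc] at hn ⊢
    exact ⟨by omega, hn.2⟩
  · intro n _ _
    exact ArithmeticFunction.vonMangoldt_nonneg

theorem F2_pow (y : ℝ) (hy : 1 ≤ y) : ∃ K : ℕ, (2 : ℝ) ^ K ≤ y ∧ y < 2 ^ (K + 1) :=
  exists_nat_pow_near hy (by norm_num)

theorem F2_log4 : Real.log 4 ≤ 14 / 10 := by
  have h : (4 : ℝ) = 2 ^ 2 := by norm_num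
  rw [h, Real.log_pow]
  have := Real.log_two_lt_d9
  push_cast
  linarith

theorem F2_sq (L : ℝ) (h : 0 ≤ L) : L ≤ (1 + L) ^ 2 := by nlinarith

theorem F2_sq8 (L : ℝ) (h : 0 ≤ L) : 8 * L ≤ 8 * (1 + L) ^ 2 := by nlinarith

theorem F2_lg (k l w L : ℝ) (h0 : 0 ≤ k) (hl : 0.6931471803 < l) (h1 : k * l ≤ w) (h2 : w ≤ L) : k ≤ 2 * L := by
  nlinarith

theorem R_F2 (h8 : st_B8) (h6 : st_C6) (h5 : st_M5) (h0 : st_F0) (h1 : st_F1) : st_F2 := by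
  obtain ⟨c₁, A, hc, hA, XM, hM⟩ := h5
  obtain ⟨κ, hκ⟩ : ∃ κ, κ = c₁ ^ 2 / 200 := ⟨_, rfl⟩
  have hκ0 : 0 < κ := by rw [hκ]; positivity
  obtain ⟨e, he, he1, XC, hC6⟩ := h6 κ (1 / 20000) hκ0 (by norm_num)
  obtain ⟨η₈, δ₈, C₈, hη8, hδ8, hC8, X8, hB⟩ := h8 e he (by linarith)
  obtain ⟨η, hη⟩ : ∃ η, η = min η₈ (1 / 10000) / 2 := ⟨_, rfl⟩
  have hη0 : 0 < η := by
    rw [hη]
    have : 0 < min η₈ (1 / 10000 : ℝ) := lt_min hη8 (by norm_num)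
    linarith
  have hη1 : 2 * η ≤ η₈ := by
    rw [hη]
    have := min_le_left η₈ (1 / 10000 : ℝ)
    linarith
  have hη2 : 2 * η ≤ 1 / 10000 := by
    rw [hη]
    have := min_le_right η₈ (1 / 10000 : ℝ)
    linarith
  obtain ⟨Y1, hY1⟩ := F2_nat1 4 (1 / 4) (by norm_num) (by norm_num)
  obtain ⟨Y2, hY2⟩ := F2_nat1 2 (1 / 20000) (by norm_num) (by norm_num)
  obtain ⟨Y3, hY3⟩ := F2_nat1 A η hA.le hη0
  obtain ⟨Y4, hY4⟩ := F2_nat (100 / c₁ ^ 2) δ₈ hδ8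
  obtain ⟨Y5, hY5⟩ := F2_nat (200 / c₁ ^ 2) (1 / 50) (by norm_num)
  obtain ⟨Y6, hY6⟩ := F2_nat 8 (23 / 50) (by norm_num)
  obtain ⟨Y7, hY7⟩ := F2_nat (4 / c₁) (49 / 100) (by norm_num)
  refine ⟨η, min δ₈ (1 / 2), c₁ ^ 2 / 10, 2 * C₈, A, hη0, lt_min hδ8 (by norm_num), by positivity,
    by positivity, hA, XM + XC + X8 + Y1 + Y2 + Y3 + Y4 + Y5 + Y6 + Y7 + 100, ?_⟩
  intro X s hX hXs hsX
  have hX100 : (100 : ℝ) ≤ X := by exact_mod_cast (show 100 ≤ X by omega)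
  have hX0 : (0 : ℝ) < X := by linarith
  have hX1 : (1 : ℝ) ≤ X := by linarith
  have q1 := hY1 X (by omega)
  have q2 := hY2 X (by omega)
  have q3 := hY3 X (by omega)
  have q4 := hY4 X (by omega)
  have q5 := hY5 X (by omega)
  have q6 := hY6 X (by omega)
  have q7 := hY7 X (by omega)
  have hL1 : 1 ≤ Real.log X := by
    rw [← Real.log_exp 1]
    apply Real.log_le_log (Real.exp_pos 1)
    have := Real.exp_one_lt_d9
    linarith
  obtain ⟨L, hL⟩ : ∃ L, L = Real.log X := ⟨_, rfl⟩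
  rw [← hL] at q4 q5 q6 q7 hL1
  have hsX' : (2 : ℝ) ^ s ≤ X := by exact_mod_cast hsX
  -- the powers of two
  obtain ⟨K₀', hK0a, hK0b⟩ := F2_pow ((X : ℝ) ^ e) (Real.one_le_rpow hX1 he.le)
  obtain ⟨K₁, hK1a, hK1b⟩ := F2_pow ((X : ℝ) ^ (1 / 3 - e)) (Real.one_le_rpow hX1 (by linarith))
  obtain ⟨K₀, hK0⟩ : ∃ K₀, K₀ = K₀' + 1 := ⟨_, rfl⟩
  rw [← hK0] at hK0b
  have hK0c : (2 : ℝ) ^ K₀ ≤ 2 * (X : ℝ) ^ e := by
    rw [hK0, pow_succ]
    linarith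
  have hK01 : K₀ ≤ K₁ := by
    have t1 : (4 : ℝ) * (X : ℝ) ^ e ≤ (X : ℝ) ^ (1 / 3 - e) := by
      calc (4 : ℝ) * (X : ℝ) ^ e ≤ (X : ℝ) ^ (1 / 4 : ℝ) * (X : ℝ) ^ e :=
            mul_le_mul_of_nonneg_right q1 (Real.rpow_nonneg hX0.le _)
        _ = (X : ℝ) ^ (1 / 4 + e) := (Real.rpow_add hX0 _ _).symm
        _ ≤ (X : ℝ) ^ (1 / 3 - e) := Real.rpow_le_rpow_of_exponent_le hX1 (by linarith)
    have t2 : (2 : ℝ) ^ K₀ < 2 ^ K₁ := by
      rw [pow_succ] at hK1b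
      have : (0 : ℝ) < (X : ℝ) ^ e := Real.rpow_pos_of_pos hX0 _
      linarith
    exact ((pow_lt_pow_iff_right₀ (by norm_num : (1 : ℝ) < 2)).1 t2).le
  obtain ⟨z, hz⟩ : ∃ z : ℕ, z = 2 ^ K₁ := ⟨_, rfl⟩
  have hzR : (z : ℝ) = 2 ^ K₁ := by rw [hz]; push_cast; rfl
  have hz1 : (X : ℝ) ^ (1 / 3 - 1 / 10000 : ℝ) ≤ z := by
    have t1 : 2 * (X : ℝ) ^ (1 / 3 - 1 / 10000 : ℝ) ≤ (X : ℝ) ^ (1 / 3 - e) := by
      calc 2 * (X : ℝ) ^ (1 / 3 - 1 / 10000 : ℝ) ≤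
            (X : ℝ) ^ (1 / 20000 : ℝ) * (X : ℝ) ^ (1 / 3 - 1 / 10000 : ℝ) :=
            mul_le_mul_of_nonneg_right q2 (Real.rpow_nonneg hX0.le _)
        _ = (X : ℝ) ^ (1 / 20000 + (1 / 3 - 1 / 10000) : ℝ) := (Real.rpow_add hX0 _ _).symm
        _ ≤ (X : ℝ) ^ (1 / 3 - e) := Real.rpow_le_rpow_of_exponent_le hX1 (by linarith)
    rw [hzR]
    rw [pow_succ] at hK1b
    linarith
  have hz2 : (X : ℝ) ^ (3 / 10 : ℝ) ≤ z :=
    (Real.rpow_le_rpow_of_exponent_le hX1 (by norm_num)).trans hz1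
  have hz4 : X < z ^ 4 := by
    have t1 : (X : ℝ) < (z : ℝ) ^ 4 := by
      calc (X : ℝ) = (X : ℝ) ^ (1 : ℝ) := (Real.rpow_one _).symm
        _ < (X : ℝ) ^ ((3 / 10 : ℝ) * 4) := Real.rpow_lt_rpow_of_exponent_lt (by linarith) (by norm_num)
        _ = ((X : ℝ) ^ (3 / 10 : ℝ)) ^ 4 := by
            rw [Real.rpow_mul hX0.le]
            exact Real.rpow_natCast _ 4
        _ ≤ (z : ℝ) ^ 4 := pow_le_pow_left₀ (Real.rpow_nonneg hX0.le _) hz2 4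
    exact_mod_cast t1
  -- the window
  obtain ⟨V, hV1, hV2, hV3⟩ := hM X (2 ^ s) z (by omega) (by
    push_cast
    refine le_trans ?_ hXs
    exact Real.rpow_le_rpow_of_exponent_le hX1 (by linarith)) hsX hz1
  push_cast at hV1
  have hV4 : (X : ℝ) ^ (1 - 2 * η) ≤ V := by
    have t1 : A * (X : ℝ) ^ (1 - 2 * η) ≤ A * V := by
      calc A * (X : ℝ) ^ (1 - 2 * η) ≤ (X : ℝ) ^ η * (X : ℝ) ^ (1 - 2 * η) :=
            mul_le_mul_of_nonneg_right q3 (Real.rpow_nonneg hX0.le _)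
        _ = (X : ℝ) ^ (η + (1 - 2 * η)) := (Real.rpow_add hX0 _ _).symm
        _ = (X : ℝ) ^ (1 - η) := by
            congr 1
            ring
        _ ≤ A * V := hXs.trans hV1
    exact le_of_mul_le_mul_left t1 hA
  have hV5 : (X : ℝ) ^ (99 / 100 : ℝ) ≤ V :=
    (Real.rpow_le_rpow_of_exponent_le hX1 (by linarith)).trans hV4
  have hVW : V ≤ wn V := by unfold wn; omega
  have hWX : wn V ≤ X := hV2.trans hsX
  have hVX : V ≤ X := hVW.trans hWX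
  have hzV : z ≤ V := by
    have t1 : (z : ℝ) ≤ V := by
      rw [hzR]
      refine hK1a.trans (le_trans ?_ hV5)
      exact Real.rpow_le_rpow_of_exponent_le hX1 (by linarith)
    exact_mod_cast t1
  have hVR10 : (10 : ℝ) ≤ V := by
    refine le_trans ?_ hV5
    calc (10 : ℝ) ≤ (X : ℝ) ^ (1 / 2 : ℝ) := by
          rw [← Real.sqrt_eq_rpow]
          apply Real.le_sqrt_of_sq_le
          linarith
      _ ≤ (X : ℝ) ^ (99 / 100 : ℝ) := Real.rpow_le_rpow_of_exponent_le hX1 (by norm_num)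
  have hV10 : 10 ≤ V := by exact_mod_cast hVR10
  have hz1' : 1 ≤ z := by rw [hz]; exact Nat.one_le_two_pow
  have hWz : wn V < z ^ 4 := lt_of_le_of_lt hWX hz4
  have hgP : ∀ n, 0 ≤ gP V n ∧ gP V n ≤ 3 := fun n => ⟨(h0.1 V n).1, by linarith [(h0.1 V n).2]⟩
  have hgQ : ∀ n, 0 ≤ gQ z V n ∧ gQ z V n ≤ 3 := fun n => h0.2 z V n hWz
  have hVη : (X : ℝ) ^ (1 - η₈) ≤ V :=
    (Real.rpow_le_rpow_of_exponent_le hX1 (by linarith)).trans hV4
  obtain ⟨B1, hB1, hB1'⟩ := hB X K₀ K₁ V (gP V) (by omega) hK0b.le hK01 hK1a hVη hVX hgP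
  obtain ⟨B2, hB2, hB2'⟩ := hB X K₀ K₁ V (gQ z V) (by omega) hK0b.le hK01 hK1a hVη hVX hgQ
  refine ⟨V, hV1, hV2, B1 ∪ B2, ?_, ?_⟩
  · have t1 : (#(B1 ∪ B2) : ℝ) ≤ #B1 + #B2 := by exact_mod_cast Finset.card_union_le B1 B2
    have t2 : (X : ℝ) ^ (1 - δ₈) ≤ (X : ℝ) ^ (1 - min δ₈ (1 / 2)) :=
      Real.rpow_le_rpow_of_exponent_le hX1 (by linarith [min_le_left δ₈ (1 / 2 : ℝ)])
    have t3 : C₈ * (X : ℝ) ^ (1 - δ₈) ≤ C₈ * (X : ℝ) ^ (1 - min δ₈ (1 / 2)) :=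
      mul_le_mul_of_nonneg_left t2 hC8.le
    linarith
  intro p hp hXp hpX hpB a b ha ha' hb hb' hbV
  rw [mem_union, not_or] at hpB
  have hpR1 : (X : ℝ) < p := by exact_mod_cast hXp
  have hpR2 : (p : ℝ) ≤ 2 * X := by exact_mod_cast hpX
  have hδX : (X : ℝ) ^ (min δ₈ (1 / 2)) ≤ X := by
    calc (X : ℝ) ^ (min δ₈ (1 / 2)) ≤ (X : ℝ) ^ (1 : ℝ) :=
          Real.rpow_le_rpow_of_exponent_le hX1 (by linarith [min_le_right δ₈ (1 / 2 : ℝ)])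
      _ = X := Real.rpow_one _
  have hδ8X : (X : ℝ) ^ (min δ₈ (1 / 2)) ≤ (X : ℝ) ^ δ₈ :=
    Real.rpow_le_rpow_of_exponent_le hX1 (min_le_left _ _)
  have hpa : ¬ (p : ℤ) ∣ a := by
    intro hd
    have t1 : |a| < p := by
      have : |(a : ℝ)| < p := lt_of_le_of_lt (ha'.trans hδX) hpR1
      exact_mod_cast this
    exact ha (Int.eq_zero_of_abs_lt_dvd hd t1)
  have hpb : ¬ p ∣ b := by
    intro hd
    have t1 : b < p := by
      have : (b : ℝ) < p := lt_of_le_of_lt (hb'.trans hδX) hpR1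
      exact_mod_cast this
    exact absurd (Nat.le_of_dvd (by omega) hd) (by omega)
  have hWp : wn V < p := lt_of_le_of_lt hWX hXp
  have r1 := hB1' p hp hXp hpX hpB.1 a b ha (ha'.trans hδ8X) hb (hb'.trans hδ8X) hbV
  have r2 := hB2' p hp hXp hpX hpB.2 a b ha (ha'.trans hδ8X) hb (hb'.trans hδ8X) hbV
  have hV910 : (X : ℝ) ^ (9 / 10 : ℝ) ≤ V :=
    (Real.rpow_le_rpow_of_exponent_le hX1 (by norm_num)).trans hV5
  have s1 := hC6 X p K₀ V z b a (gP V) (by omega) hp hXp hpX hK0b.le hK0c hV910 hVX hWp hz2 hpa hpb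
    (Or.inl rfl)
  have s2 := hC6 X p K₀ V z b a (gQ z V) (by omega) hp hXp hpX hK0b.le hK0c hV910 hVX hWp hz2 hpa hpb
    (Or.inr rfl)
  have f1 := h1 p a b V z hp hWp hpa hpb hz1' hzV (by omega) hWz
  rw [← hz] at r1 r2
  rw [← hL] at s1 s2 hV3 ⊢
  have hL0 : 0 < L := by linarith
  have hVR : (0 : ℝ) < V := by linarith
  have hP0 : (0 : ℝ) < p := by linarith
  -- the size of the window
  have hWR : (wn V : ℝ) ≤ 11 / 10 * V := by
    have : ((10 * wn V : ℕ) : ℝ) ≤ ((11 * V : ℕ) : ℝ) := by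
      apply Nat.cast_le.2
      unfold wn
      omega
    push_cast at this
    linarith
  have hWR' : (wn V : ℝ) ≤ X := by exact_mod_cast hWX
  have hVWR : (V : ℝ) ≤ wn V := by exact_mod_cast hVW
  have hlogW : 99 / 100 * L ≤ Real.log (wn V) := by
    rw [hL, ← Real.log_rpow hX0]
    exact Real.log_le_log (Real.rpow_pos_of_pos hX0 _) (hV5.trans hVWR)
  have hlogW' : Real.log (wn V) ≤ L := by
    rw [hL]
    exact Real.log_le_log (by linarith) hWR'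
  have htQ : 0 ≤ tot V (gQ z V) := Finset.sum_nonneg (fun n _ => (hgQ n).1)
  have htP : tot V (gP V) ≤ 12 * V / L := by
    refine (F2_tP V (by omega)).trans ?_
    have hl : 0 < Real.log (wn V) := by linarith
    rw [div_le_div_iff₀ hl hL0]
    have t1 : (Real.log 4 + 4) * wn V ≤ 54 / 10 * (11 / 10 * V) := by
      apply mul_le_mul _ hWR (by positivity) (by norm_num)
      linarith [F2_log4]
    calc (Real.log 4 + 4) * wn V * L ≤ 54 / 10 * (11 / 10 * V) * L :=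
          mul_le_mul_of_nonneg_right t1 hL0.le
      _ ≤ 12 * V * (99 / 100 * L) := by
          have : 0 < V * L := by positivity
          linarith
      _ ≤ 12 * V * Real.log (wn V) := mul_le_mul_of_nonneg_left hlogW (by positivity)
  have hsqrt : Real.sqrt (wn V) ≤ (X : ℝ) ^ (1 / 2 : ℝ) := by
    rw [← Real.sqrt_eq_rpow]
    exact Real.sqrt_le_sqrt hWR'
  have hR : c₁ * V / (2 * L) ≤ tot V (ro z) := by
    have t1 := F2_R V z hzV (by omega)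
    have t2 : 2 * (X : ℝ) ^ (1 / 2 : ℝ) ≤ c₁ * V / (2 * L) := by
      rw [le_div_iff₀ (by linarith)]
      have t3 : 4 * L ≤ c₁ * (X : ℝ) ^ (49 / 100 : ℝ) := by
        have t4 : 4 / c₁ * L ≤ 4 / c₁ * (1 + L) ^ 2 := by
          apply mul_le_mul_of_nonneg_left _ (by positivity)
          exact F2_sq L (le_trans zero_le_one hL1)
        have t5 := t4.trans q7
        have t6 := mul_le_mul_of_nonneg_left t5 hc.le
        have t7 : c₁ * (4 / c₁ * L) = 4 * L := by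
          field_simp
        linarith
      calc 2 * (X : ℝ) ^ (1 / 2 : ℝ) * (2 * L) = (4 * L) * (X : ℝ) ^ (1 / 2 : ℝ) := by ring
        _ ≤ (c₁ * (X : ℝ) ^ (49 / 100 : ℝ)) * (X : ℝ) ^ (1 / 2 : ℝ) :=
            mul_le_mul_of_nonneg_right t3 (Real.rpow_nonneg hX0.le _)
        _ = c₁ * (X : ℝ) ^ (99 / 100 : ℝ) := by
            rw [mul_assoc, ← Real.rpow_add hX0]
            norm_num
        _ ≤ c₁ * V := mul_le_mul_of_nonneg_left hV5 hc.le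
    have t3 : c₁ * V / L = c₁ * V / (2 * L) + c₁ * V / (2 * L) := by
      field_simp
      ring
    linarith
  -- the errors
  have hVsq : (X : ℝ) ^ (49 / 50 : ℝ) ≤ (V : ℝ) ^ 2 / X := by
    rw [le_div_iff₀ hX0]
    calc (X : ℝ) ^ (49 / 50 : ℝ) * X = (X : ℝ) ^ (49 / 50 : ℝ) * (X : ℝ) ^ (1 : ℝ) := by
          rw [Real.rpow_one]
      _ = ((X : ℝ) ^ (99 / 100 : ℝ)) ^ 2 := by
          rw [← Real.rpow_add hX0, ← Real.rpow_natCast ((X : ℝ) ^ (99 / 100 : ℝ)) 2, ← Real.rpow_mul hX0.le]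
          norm_num
      _ ≤ (V : ℝ) ^ 2 := pow_le_pow_left₀ (Real.rpow_nonneg hX0.le _) hV5 2
  have hL2 : L ^ 2 ≤ (1 + L) ^ 2 := pow_le_pow_left₀ hL0.le (by linarith) 2
  have g1 : (V : ℝ) ^ 2 * (X : ℝ) ^ (-1 - δ₈) ≤ c₁ ^ 2 / 100 * ((V : ℝ) ^ 2 / (X * L ^ 2)) := by
    have t1 : (X : ℝ) ^ (-1 - δ₈) = 1 / (X * (X : ℝ) ^ δ₈) := by
      have t2 : (-1 - δ₈ : ℝ) = -(1 + δ₈) := by ring
      rw [t2, Real.rpow_neg hX0.le, Real.rpow_add hX0, Real.rpow_one, one_div]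
    have t3 : 100 / c₁ ^ 2 * L ^ 2 ≤ (X : ℝ) ^ δ₈ :=
      (mul_le_mul_of_nonneg_left hL2 (by positivity)).trans q4
    have t4 : c₁ ^ 2 / 100 * ((V : ℝ) ^ 2 / (X * L ^ 2)) =
        (V : ℝ) ^ 2 * (1 / (X * (100 / c₁ ^ 2 * L ^ 2))) := by
      field_simp
    rw [t1, t4]
    apply mul_le_mul_of_nonneg_left _ (by positivity)
    apply div_le_div_of_nonneg_left (by norm_num) (by positivity)
    exact mul_le_mul_of_nonneg_left t3 hX0.le
  have g2 : (X : ℝ) ^ (24 / 25 : ℝ) ≤ c₁ ^ 2 / 200 * ((V : ℝ) ^ 2 / (X * L ^ 2)) := by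
    have t3 : 200 / c₁ ^ 2 * L ^ 2 ≤ (X : ℝ) ^ (1 / 50 : ℝ) :=
      (mul_le_mul_of_nonneg_left hL2 (by positivity)).trans q5
    have t4 : (X : ℝ) ^ (24 / 25 : ℝ) * (200 / c₁ ^ 2 * L ^ 2) ≤ (V : ℝ) ^ 2 / X := by
      calc (X : ℝ) ^ (24 / 25 : ℝ) * (200 / c₁ ^ 2 * L ^ 2) ≤
            (X : ℝ) ^ (24 / 25 : ℝ) * (X : ℝ) ^ (1 / 50 : ℝ) :=
            mul_le_mul_of_nonneg_left t3 (Real.rpow_nonneg hX0.le _)
        _ = (X : ℝ) ^ (49 / 50 : ℝ) := by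
            rw [← Real.rpow_add hX0]
            norm_num
        _ ≤ _ := hVsq
    have t5 : c₁ ^ 2 / 200 * ((V : ℝ) ^ 2 / (X * L ^ 2)) =
        ((V : ℝ) ^ 2 / X) / (200 / c₁ ^ 2 * L ^ 2) := by
      field_simp
    rw [t5, le_div_iff₀ (by positivity)]
    exact t4
  have g3 : 4 * Real.sqrt (wn V) * (Nat.log 2 (wn V) : ℝ) ≤ (X : ℝ) ^ (24 / 25 : ℝ) := by
    have t1 : (Nat.log 2 (wn V) : ℝ) ≤ 2 * L := by
      have t2 : (2 : ℝ) ^ (Nat.log 2 (wn V)) ≤ wn V := by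
        exact_mod_cast Nat.pow_log_le_self 2 (by omega)
      have t3 := Real.log_le_log (by positivity) t2
      rw [Real.log_pow] at t3
      have t4 := Real.log_two_gt_d9
      have t5 : (0 : ℝ) ≤ Nat.log 2 (wn V) := Nat.cast_nonneg _
      exact F2_lg _ _ _ _ t5 t4 t3 hlogW'
    have t2 : 8 * L ≤ (X : ℝ) ^ (23 / 50 : ℝ) := by
      refine le_trans ?_ q6
      exact F2_sq8 L (le_trans zero_le_one hL1)
    calc 4 * Real.sqrt (wn V) * (Nat.log 2 (wn V) : ℝ) ≤ 4 * (X : ℝ) ^ (1 / 2 : ℝ) * (2 * L) := by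
          apply mul_le_mul _ t1 (Nat.cast_nonneg _) (by positivity)
          linarith
      _ = (8 * L) * (X : ℝ) ^ (1 / 2 : ℝ) := by ring
      _ ≤ (X : ℝ) ^ (23 / 50 : ℝ) * (X : ℝ) ^ (1 / 2 : ℝ) :=
          mul_le_mul_of_nonneg_right t2 (Real.rpow_nonneg hX0.le _)
      _ = (X : ℝ) ^ (24 / 25 : ℝ) := by
          rw [← Real.rpow_add hX0]
          norm_num
  have key : ∀ γ : ℕ → ℝ, |NN p a b V γ (ro (2 ^ K₀)) - NN p a b V γ (ro z) -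
        tot V γ * (tot V (ro (2 ^ K₀)) - tot V (ro z)) / p| ≤ (V : ℝ) ^ 2 * (X : ℝ) ^ (-1 - δ₈) →
      |NN p a b V γ (ro (2 ^ K₀)) - tot V γ * tot V (ro (2 ^ K₀)) / p| ≤
        κ * V * tot V γ / (p * L) + (X : ℝ) ^ (24 / 25 : ℝ) →
      |NN p a b V γ (ro z) - tot V γ * tot V (ro z) / p| ≤
        (V : ℝ) ^ 2 * (X : ℝ) ^ (-1 - δ₈) + (κ * V * tot V γ / (p * L) + (X : ℝ) ^ (24 / 25 : ℝ)) := by
    intro γ k1 k2
    have k3 : NN p a b V γ (ro z) - tot V γ * tot V (ro z) / p =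
        (NN p a b V γ (ro (2 ^ K₀)) - tot V γ * tot V (ro (2 ^ K₀)) / p) -
        (NN p a b V γ (ro (2 ^ K₀)) - NN p a b V γ (ro z) -
        tot V γ * (tot V (ro (2 ^ K₀)) - tot V (ro z)) / p) := by ring
    rw [k3]
    refine (abs_sub _ _).trans ?_
    linarith
  exact F2_alg c₁ κ V p X L _ _ _ _ _ _ _ _ _ hc hκ hVR hX0 hL0 hpR1 hpR2 (key _ r1 s1) (key _ r2 s2)
    f1 hV3 htQ htP hR g1 g2 g3

end Pool.Agent.QQA
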