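import Pool.Agent.QQA.Defs

set_option autoImplicit false

namespace Pool.Agent.QQA

open Finset

theorem F4_geom (r : ℝ) (hr : 5 / 4 ≤ r) (L : ℕ) : ∑ j ∈ range (L + 1), r ^ j ≤ 5 * r ^ L := by
  induction L with
  | zero => simp
  | succ L ih =>
    rw [Finset.sum_range_succ]
    have h0 : 0 ≤ r ^ L := by positivity
    have h1 : r ^ (L + 1) = r ^ L * r := pow_succ r L
    nlinarith

theorem R_F4 (h3 : st_F3) : st_F4 := by
  obtain ⟨η, δ, c, C, hη, hδ, hc, hC, X₀, H⟩ := h3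
  choose Bd hBd using H
  set δ' := min δ (1 / 2) with hδ'
  have hd1 : 0 < δ' := lt_min hδ (by norm_num)
  have hd2 : δ' ≤ δ := min_le_left _ _
  have hd3 : δ' ≤ 1 / 2 := min_le_right _ _
  refine ⟨η, δ', c, 2 * X₀ + 5 * C, hη, hd1, hc, by positivity, fun X hX => ?_⟩
  classical
  set L := Nat.log 2 ⌊X⌋₊ with hL
  set B : ℕ → Finset ℕ := fun j => if h : X₀ ≤ 2 ^ j then Bd (2 ^ j) h else ∅ with hB
  refine ⟨Icc 1 (2 * X₀) ∪ (range (L + 1)).biUnion B, ?_, ?_⟩
  · have hX1 : 1 ≤ X := by linarith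
    have hXp : (1 : ℝ) ≤ X ^ (1 - δ') := Real.one_le_rpow hX1 (by linarith)
    have hfl : ⌊X⌋₊ ≠ 0 := by
      have : 2 ≤ ⌊X⌋₊ := Nat.le_floor (by exact_mod_cast hX)
      omega
    have hLX : ((2 : ℝ) ^ L) ≤ X := by
      have h1 : 2 ^ L ≤ ⌊X⌋₊ := Nat.pow_log_le_self 2 hfl
      calc ((2 : ℝ) ^ L) = ((2 ^ L : ℕ) : ℝ) := by push_cast; rfl
        _ ≤ (⌊X⌋₊ : ℝ) := by exact_mod_cast h1
        _ ≤ X := Nat.floor_le (by linarith)
    have hBj : ∀ j, (#(B j) : ℝ) ≤ C * ((2 : ℝ) ^ (1 - δ')) ^ j := by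
      intro j
      have e : ((2 : ℝ) ^ (1 - δ')) ^ j = ((2 ^ j : ℕ) : ℝ) ^ (1 - δ') := by
        push_cast
        rw [← Real.rpow_natCast, ← Real.rpow_mul (by norm_num), ← Real.rpow_natCast,
          ← Real.rpow_mul (by norm_num), mul_comm]
      by_cases h : X₀ ≤ 2 ^ j
      · have h1 := (hBd (2 ^ j) h).1
        have h2 : B j = Bd (2 ^ j) h := by
          simp only [hB]
          rw [dif_pos h]
        rw [h2, e]
        refine h1.trans ?_
        apply mul_le_mul_of_nonneg_left _ hC.le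
        apply Real.rpow_le_rpow_of_exponent_le
        · have : 1 ≤ 2 ^ j := Nat.one_le_two_pow
          exact_mod_cast this
        · linarith
      · have h2 : B j = ∅ := by
          simp only [hB]
          rw [dif_neg h]
        rw [h2]
        simp only [card_empty, Nat.cast_zero]
        positivity
    have hr : (5 / 4 : ℝ) ≤ (2 : ℝ) ^ (1 - δ') := by
      have h1 : (2 : ℝ) ^ (1 / 2 : ℝ) ≤ (2 : ℝ) ^ (1 - δ') :=
        Real.rpow_le_rpow_of_exponent_le (by norm_num) (by linarith)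
      have h2 : (5 / 4 : ℝ) ≤ (2 : ℝ) ^ (1 / 2 : ℝ) := by
        rw [← Real.sqrt_eq_rpow]
        apply Real.le_sqrt_of_sq_le
        norm_num
      linarith
    calc (#(Icc 1 (2 * X₀) ∪ (range (L + 1)).biUnion B) : ℝ)
        ≤ (#(Icc 1 (2 * X₀)) : ℝ) + (#((range (L + 1)).biUnion B) : ℝ) := by
          exact_mod_cast card_union_le _ _
      _ ≤ (2 * X₀ : ℝ) + ∑ j ∈ range (L + 1), (#(B j) : ℝ) := by
          apply add_le_add
          · rw [Nat.card_Icc]
            push_cast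
            simp
          · exact_mod_cast card_biUnion_le
      _ ≤ (2 * X₀ : ℝ) + ∑ j ∈ range (L + 1), C * ((2 : ℝ) ^ (1 - δ')) ^ j := by
          apply add_le_add le_rfl
          exact Finset.sum_le_sum fun j _ => hBj j
      _ = (2 * X₀ : ℝ) + C * ∑ j ∈ range (L + 1), ((2 : ℝ) ^ (1 - δ')) ^ j := by
          rw [Finset.mul_sum]
      _ ≤ (2 * X₀ : ℝ) + C * (5 * ((2 : ℝ) ^ (1 - δ')) ^ L) := by
          apply add_le_add le_rfl
          exact mul_le_mul_of_nonneg_left (F4_geom _ hr L) hC.le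
      _ ≤ (2 * X₀ : ℝ) * X ^ (1 - δ') + C * (5 * X ^ (1 - δ')) := by
          apply add_le_add
          · have : (0 : ℝ) ≤ 2 * X₀ := by positivity
            nlinarith
          · apply mul_le_mul_of_nonneg_left _ hC.le
            apply mul_le_mul_of_nonneg_left _ (by norm_num)
            have e : ((2 : ℝ) ^ (1 - δ')) ^ L = ((2 : ℝ) ^ L) ^ (1 - δ') := by
              rw [← Real.rpow_natCast, ← Real.rpow_mul (by norm_num), ← Real.rpow_natCast,
                ← Real.rpow_mul (by norm_num), mul_comm]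
            rw [e]
            exact Real.rpow_le_rpow (by positivity) hLX (by linarith)
      _ = (2 * X₀ + 5 * C) * X ^ (1 - δ') := by ring
  · intro p hp hpX hpE Y a b hY1 hY2 ha hb ha2 hb2 hbY
    rw [mem_union, not_or] at hpE
    obtain ⟨hp1, hp2⟩ := hpE
    have hp2' := hp.two_le
    have hpX₀ : 2 * X₀ < p := by
      by_contra hc
      exact hp1 (mem_Icc.2 ⟨by omega, by omega⟩)
    set j := Nat.log 2 (p - 1) with hj
    have hj1 : 2 ^ j ≤ p - 1 := Nat.pow_log_le_self 2 (by omega)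
    have hj2 : p - 1 < 2 ^ (j + 1) := Nat.lt_pow_succ_log_self (by norm_num) _
    have hj3 : 2 ^ j < p := by omega
    have hj4 : p ≤ 2 * 2 ^ j := by
      rw [pow_succ] at hj2
      omega
    have hj5 : X₀ ≤ 2 ^ j := by omega
    have hfl : 2 ^ j ≤ ⌊X⌋₊ := by
      apply Nat.le_floor
      have : ((2 ^ j : ℕ) : ℝ) ≤ (p : ℝ) := by exact_mod_cast hj3.le
      exact this.trans hpX
    have hjL : j ∈ range (L + 1) := by
      rw [mem_range]
      have : j ≤ L := by
        rw [hL]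
        exact Nat.le_log_of_pow_le (by norm_num) hfl
      omega
    have hpB : p ∉ Bd (2 ^ j) hj5 := by
      intro hc
      apply hp2
      rw [mem_biUnion]
      refine ⟨j, hjL, ?_⟩
      simp only [hB]
      rw [dif_pos hj5]
      exact hc
    have hp1r : (1 : ℝ) ≤ p := by exact_mod_cast (by omega : 1 ≤ p)
    have hpow : (p : ℝ) ^ δ' ≤ (p : ℝ) ^ δ := Real.rpow_le_rpow_of_exponent_le hp1r hd2
    have key : ∀ a' : ℤ, a' ≠ 0 → |(a' : ℝ)| = |(a : ℝ)| →
        c * Y ^ 2 / (p * Real.log p ^ 2) ≤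
        #((Icc 1 ⌊Y⌋₊ ×ˢ Icc 1 ⌊Y⌋₊).filter (fun t : ℕ × ℕ => t.1.Prime ∧ t.2.Prime ∧
          (p : ℤ) ∣ (b.natAbs : ℤ) * t.1 * t.2 - a')) := by
      intro a' h0 h1
      have hbn : ((b.natAbs : ℕ) : ℝ) = |(b : ℝ)| := by
        rw [Nat.cast_natAbs]
        push_cast
        rfl
      refine (hBd (2 ^ j) hj5).2 p hp hj3 hj4 hpB Y a' b.natAbs hY1 hY2 h0 ?_ ?_ ?_ ?_
      · rw [h1]
        exact ha2.trans hpow
      · have := Int.natAbs_pos.2 hb
        omega
      · rw [hbn]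
        exact hb2.trans hpow
      · rw [hbn]
        exact hbY
    rcases lt_or_gt_of_ne hb with hneg | hpos
    · have h1 := key (-a) (neg_ne_zero.2 ha) (by push_cast; rw [abs_neg])
      have e : ∀ t : ℕ × ℕ, ((p : ℤ) ∣ (b.natAbs : ℤ) * t.1 * t.2 - (-a)) ↔
          ((p : ℤ) ∣ b * t.1 * t.2 - a) := by
        intro t
        have h2 : (b.natAbs : ℤ) = -b := by omega
        rw [h2, show (-b : ℤ) * t.1 * t.2 - (-a) = -(b * t.1 * t.2 - a) by ring, dvd_neg]
      simp only [e] at h1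
      exact h1
    · have h1 := key a ha rfl
      have h2 : (b.natAbs : ℤ) = b := by omega
      rw [h2] at h1
      exact h1

end Pool.Agent.QQA
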