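import Pool.Agent.QQA.Defs
import Pool.Agent.PTWB.FW

set_option autoImplicit false

namespace Pool.Agent.QQA

open Finset

/-- the primes up to `2 ^ K` -/
def FL_P (K : ℕ) : Finset ℕ := (Icc 1 (2 ^ K)).filter Nat.Prime

lemma FL_mem {K p : ℕ} (h : p ∈ FL_P K) : p.Prime ∧ p ≤ 2 ^ K := by
  unfold FL_P at h
  rw [mem_filter, mem_Icc] at h
  exact ⟨h.2, h.1.2⟩

lemma FL_mem' {K p : ℕ} (hp : p.Prime) (h : p ≤ 2 ^ K) : p ∈ FL_P K := by
  unfold FL_P
  rw [mem_filter, mem_Icc]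
  exact ⟨⟨hp.one_lt.le, h⟩, hp⟩

lemma FL_ro (K l : ℕ) : ro (2 ^ K) l = if ∀ p ∈ FL_P K, ¬ p ∣ l then (1 : ℝ) else 0 := by
  unfold ro
  have h1 : Rg (2 ^ K) l ↔ ∀ p ∈ FL_P K, ¬ p ∣ l := by
    constructor
    · intro h p hp hpl
      have h2 := h p (FL_mem hp).1 hpl
      have h3 := (FL_mem hp).2
      omega
    · intro h q hq hql
      by_contra hcon
      exact h q (FL_mem' hq (by omega)) hql
  by_cases h : Rg (2 ^ K) l
  · rw [if_pos h, if_pos (h1.1 h)]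
  · rw [if_neg h, if_neg (fun h' => h (h1.2 h'))]

lemma FL_Dn (K : ℕ) : PTWB.Dn 1 (FL_P K) (fun p => 1 / (p : ℝ)) := by
  refine ⟨fun p _ => by positivity, fun p hp => ?_, fun p _ => le_rfl⟩
  have h1 : (2 : ℝ) ≤ p := by exact_mod_cast (FL_mem hp).1.two_le
  exact one_div_le_one_div_of_le (by norm_num) h1

lemma FL_prod_ne (K : ℕ) : ∏ p ∈ FL_P K, p ≠ 0 := by
  rw [Finset.prod_ne_zero_iff]
  intro p hp
  exact (FL_mem hp).1.ne_zero

/-- the density sum as a sum over an interval -/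
lemma FL_sum (K D : ℕ) (θ : ℕ → ℝ) (h : ∀ d, θ d ≠ 0 → d ∣ ∏ p ∈ FL_P K, p ∧ d ≤ D) :
    ∑ d ∈ (∏ p ∈ FL_P K, p).divisors, θ d * ∏ p ∈ d.primeFactors, (1 / (p : ℝ)) =
      ∑ d ∈ Icc 1 D, θ d / d := by
  have hsq : Squarefree (∏ p ∈ FL_P K, p) := PTWB.sqf_prod fun p hp => (FL_mem hp).1
  have h1 : ∀ d ∈ (∏ p ∈ FL_P K, p).divisors,
      θ d * ∏ p ∈ d.primeFactors, (1 / (p : ℝ)) = θ d / d := by
    intro d hd
    have hd1 := Nat.dvd_of_mem_divisors hd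
    have hd2 : Squarefree d := hsq.squarefree_of_dvd hd1
    have h2 : ∏ p ∈ d.primeFactors, (1 / (p : ℝ)) = 1 / (d : ℝ) := by
      rw [prod_div_distrib, prod_const_one, ← Nat.cast_prod, Nat.prod_primeFactors_of_squarefree hd2]
    rw [h2, mul_one_div]
  rw [sum_congr rfl h1]
  have h3 : ∑ d ∈ (∏ p ∈ FL_P K, p).divisors, θ d / d =
      ∑ d ∈ (∏ p ∈ FL_P K, p).divisors.filter (fun d => d ≤ D), θ d / d := by
    symm
    apply sum_filter_of_ne
    intro d _ hd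
    refine (h d ?_).2
    intro h0
    apply hd
    rw [h0, zero_div]
  have h4 : ∑ d ∈ Icc 1 D, θ d / d =
      ∑ d ∈ (Icc 1 D).filter (fun d => d ∣ ∏ p ∈ FL_P K, p), θ d / d := by
    symm
    apply sum_filter_of_ne
    intro d _ hd
    refine (h d ?_).1
    intro h0
    apply hd
    rw [h0, zero_div]
  rw [h3, h4]
  refine sum_congr ?_ fun _ _ => rfl
  ext d
  rw [mem_filter, mem_filter, Nat.mem_divisors, mem_Icc]
  constructor
  · rintro ⟨⟨h5, _⟩, h6⟩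
    exact ⟨⟨Nat.pos_of_dvd_of_pos h5 (Nat.pos_of_ne_zero (FL_prod_ne K)), h6⟩, h5⟩
  · rintro ⟨⟨_, h6⟩, h5⟩
    exact ⟨⟨h5, FL_prod_ne K⟩, h6⟩

theorem R_FL : st_FL := by
  refine ⟨PTWB.del 1, PTWB.del_nonneg zero_le_one, ?_, fun b K => ?_⟩
  · have h := PTWB.del_tendsto (κ := 1) zero_le_one 1
    simpa only [pow_one] using h
  · obtain ⟨θp, θm, h⟩ := PTWB.flw_b 1 zero_le_one b K (FL_P K) fun p hp => FL_mem hp
    refine ⟨θp, θm, h.absp, h.absm, ?_, ?_, ?_, ?_, ?_, ?_⟩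
    · intro d hd
      by_contra h0
      have := (h.suppp d h0).2
      omega
    · intro d hd
      by_contra h0
      have := (h.suppm d h0).2
      omega
    · intro l hl
      rw [FL_ro]
      exact h.up l hl
    · intro l hl
      rw [FL_ro]
      exact h.lo l hl
    · have h1 := h.gp1 _ (FL_Dn K)
      rw [FL_sum K _ θp h.suppp] at h1
      exact h1
    · have h1 := h.gm0 _ (FL_Dn K)
      rw [FL_sum K _ θm h.suppm] at h1
      exact h1

end Pool.Agent.QQA
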