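import Pool.Agent.QQA.LD3a
import Pool.Agent.EPK.D3

/-!
# [QQA-LD3b] bilinear sums: the Type II bound
-/

set_option autoImplicit false

namespace Pool.Agent.QQA

open Finset Pool.Agent.MP_2f88e5_nt Pool.Agent.EPK

/-- the number of dyadic blocks -/
theorem qblocks (U W : ℕ) (hU : 1 ≤ U) : ∃ n : ℕ, W ≤ 2 ^ n * U ∧ (∀ i < n, 2 ^ i * U < W) ∧
    ∀ p : ℝ, (W : ℝ) ≤ p → 1 ≤ p → (n : ℝ) ≤ 2 * (3 + Real.log p) := by
  classical
  have hex : ∃ n, W ≤ 2 ^ n * U := by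
    refine ⟨W, ?_⟩
    have h1 : W ≤ 2 ^ W := (Nat.lt_two_pow_self).le
    calc W ≤ 2 ^ W * 1 := by rw [mul_one]; exact h1
      _ ≤ 2 ^ W * U := Nat.mul_le_mul_left _ hU
  refine ⟨Nat.find hex, Nat.find_spec hex, fun i hi => ?_, ?_⟩
  · exact not_le.1 (Nat.find_min hex hi)
  · intro p hWp hp
    have hlogp : 0 ≤ Real.log p := Real.log_nonneg hp
    rcases Nat.eq_zero_or_pos (Nat.find hex) with h0 | h0
    · rw [h0]
      push_cast
      linarith
    · have h1 := not_le.1 (Nat.find_min hex (show Nat.find hex - 1 < Nat.find hex by omega))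
      set n := Nat.find hex with hn
      have h2 : 2 ^ (n - 1) ≤ W := by
        have : 2 ^ (n - 1) * 1 ≤ 2 ^ (n - 1) * U := Nat.mul_le_mul_left _ hU
        omega
      have h3 : (2 : ℝ) ^ (n - 1) ≤ p := le_trans (by exact_mod_cast h2) hWp
      have h4 : ((n - 1 : ℕ) : ℝ) * Real.log 2 ≤ Real.log p := by
        rw [← Real.log_pow]
        exact Real.log_le_log (by positivity) h3
      have h5 : ((n - 1 : ℕ) : ℝ) = (n : ℝ) - 1 := by
        rw [Nat.cast_sub h0, Nat.cast_one]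
      rw [h5] at h4
      have h6 : (0.69 : ℝ) < Real.log 2 := lt_trans (by norm_num) Real.log_two_gt_d9
      have h7 : (0 : ℝ) ≤ (n : ℝ) - 1 := by
        have : (1 : ℝ) ≤ n := by exact_mod_cast h0
        linarith
      nlinarith

/-- splitting an interval into dyadic blocks -/
theorem qsum_blocks (U : ℕ) (G : ℕ → ℂ) (n : ℕ) :
    ∑ m ∈ Ioc U (2 ^ n * U), G m = ∑ i ∈ range n, ∑ m ∈ Ioc (2 ^ i * U) (2 * (2 ^ i * U)), G m := by
  induction n with
  | zero => simp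
  | succ n ih =>
    rw [sum_range_succ, ← ih]
    have h1 : 2 ^ (n + 1) * U = 2 * (2 ^ n * U) := by rw [pow_succ]; ring
    have h2 : U ≤ 2 ^ n * U := Nat.le_mul_of_pos_left U (by positivity)
    rw [h1]
    rw [Finset.sum_Ioc_consecutive G h2 (by omega)]

/-- [D3b] The Type II bound for `m ∈ (U, W]`.

Proof. `(U, W]` is covered by the blocks `(2^i U, 2^(i+1) U]` with `2^i U < W` (there are at most `1 + log p / log 2 ≤
2 (3 + log p)` of them); replace `α` by `α 1_{(U, W]}` (`BBN p α β Y U W = ∑_i BB p (α 1_{m ≤ W}) β (2^i U) (2^(i+1) U)`: consecutive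
intervals, e.g. induction on the number of blocks or `Finset.sum_Ioc_consecutive`-type lemmas), triangle
inequality, `typeII_block'` with `M = 2^i U < W`: `2 ≤ U ≤ M`, `p^(1/4) ≤ 2 U ≤ 2 M`, `M ≤ W ≤ √p`, `4 M < 4 W ≤ p`. -/
theorem typeIIN (p : ℕ) [Fact p.Prime] (Y H D U W : ℕ) (hY : Y < p) (hH : H < p) (hD : D < p)
    (hU : 2 ≤ U) (hUp : (p : ℝ) ^ (1 / 4 : ℝ) ≤ 2 * U) (hW : 4 * W ≤ p)
    (hW2 : (W : ℝ) ≤ (p : ℝ) ^ (1 / 2 : ℝ)) (T : ℝ) (hT : TauLE (16 * p ^ 4) T)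
    (x : ZMod p) (hx : x ≠ 0) (α β : ℕ → ℂ) (B : ℝ) (hB : 0 ≤ B) (hα : ∀ m, ‖α m‖ ≤ B)
    (hβ : ∀ k, ‖β k‖ ≤ B) :
    ∑ h ∈ Icc 1 H, ∑ d ∈ Icc 1 D, ‖BBN p α β Y U W (hd p x h d)‖ ≤
      30 * B ^ 2 * T * (3 + Real.log p) ^ 2 *
        (((H * D : ℕ) : ℝ) ^ (3 / 4 : ℝ) * (p : ℝ) ^ (15 / 16 : ℝ) +
          ((H * D : ℕ) : ℝ) * (p : ℝ) ^ (7 / 8 : ℝ)) := by
  classical
  have hprime : p.Prime := Fact.out
  have hp0 : (0 : ℝ) < p := by exact_mod_cast hprime.pos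
  have hp1 : (1 : ℝ) ≤ p := by exact_mod_cast hprime.one_le
  have hT1 : 1 ≤ T := by
    have h1 : 1 ≤ 16 * p ^ 4 := by
      have := Nat.one_le_pow 4 p hprime.one_le
      omega
    simpa using hT 1 le_rfl h1
  have hlog : 0 ≤ Real.log p := Real.log_nonneg hp1
  obtain ⟨n, hn1, hn2, hn3⟩ := qblocks U W (by omega)
  have hnp := hn3 p (by
    have : W ≤ p := by omega
    exact_mod_cast this) hp1
  set Q : ℝ := ((H * D : ℕ) : ℝ) with hQ
  have hQ0 : 0 ≤ Q := Nat.cast_nonneg _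
  set E : ℝ := Q ^ (3 / 4 : ℝ) * (p : ℝ) ^ (15 / 16 : ℝ) + Q * (p : ℝ) ^ (7 / 8 : ℝ) with hE
  have hE0 : 0 ≤ E := by positivity
  set α' : ℕ → ℂ := fun m => if m ≤ W then α m else 0 with hα'
  have hα'B : ∀ m, ‖α' m‖ ≤ B := by
    intro m
    rw [hα']
    dsimp only
    split_ifs
    · exact hα m
    · rw [norm_zero]; exact hB
  have hsplit : ∀ a : ZMod p, BBN p α β Y U W a =
      ∑ i ∈ range n, BBN p α' β Y (2 ^ i * U) (2 * (2 ^ i * U)) a := by
    intro a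
    have h1 := qsum_blocks U (fun m => ∑ k ∈ Icc 1 (Y / m),
      α' m * β k * ea p (a * ((m : ZMod p) * (k : ZMod p))⁻¹)) n
    have h2 : BBN p α β Y U W a = ∑ m ∈ Ioc U (2 ^ n * U), ∑ k ∈ Icc 1 (Y / m),
      α' m * β k * ea p (a * ((m : ZMod p) * (k : ZMod p))⁻¹) := by
      have hsub : Ioc U W ⊆ Ioc U (2 ^ n * U) := Finset.Ioc_subset_Ioc_right hn1
      rw [← Finset.sum_subset hsub]
      · rw [BBN]
        refine sum_congr rfl fun m hm => ?_
        rw [mem_Ioc] at hm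
        have : α' m = α m := by
          rw [hα']
          dsimp only
          rw [if_pos hm.2]
        rw [this]
      · intro m hm hm2
        rw [mem_Ioc] at hm hm2
        have : α' m = 0 := by
          rw [hα']
          dsimp only
          rw [if_neg (by
            intro h
            exact hm2 ⟨hm.1, h⟩)]
        rw [this]
        simp
    rw [h2, h1]
    rfl
  have hblock : ∀ i ∈ range n,
      ∑ h ∈ Icc 1 H, ∑ d ∈ Icc 1 D, ‖BBN p α' β Y (2 ^ i * U) (2 * (2 ^ i * U)) (hd p x h d)‖ ≤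
      15 * B ^ 2 * T * (3 + Real.log p) * E := by
    intro i hi
    have hi' := hn2 i (mem_range.1 hi)
    have hUM : U ≤ 2 ^ i * U := Nat.le_mul_of_pos_left U (by positivity)
    have hUM' : (U : ℝ) ≤ ((2 ^ i * U : ℕ) : ℝ) := by exact_mod_cast hUM
    refine typeII_blockN' p Y H D (2 ^ i * U) hY hH hD (by omega) (by omega) ?_ ?_ T hT x hx α' β B hB
      hα'B hβ
    · linarith
    · have : ((2 ^ i * U : ℕ) : ℝ) ≤ W := by exact_mod_cast hi'.le
      linarith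
  calc ∑ h ∈ Icc 1 H, ∑ d ∈ Icc 1 D, ‖BBN p α β Y U W (hd p x h d)‖ ≤
      ∑ h ∈ Icc 1 H, ∑ d ∈ Icc 1 D, ∑ i ∈ range n,
        ‖BBN p α' β Y (2 ^ i * U) (2 * (2 ^ i * U)) (hd p x h d)‖ := by
        refine sum_le_sum fun h _ => sum_le_sum fun d _ => ?_
        rw [hsplit]
        exact norm_sum_le _ _
    _ = ∑ i ∈ range n, ∑ h ∈ Icc 1 H, ∑ d ∈ Icc 1 D,
        ‖BBN p α' β Y (2 ^ i * U) (2 * (2 ^ i * U)) (hd p x h d)‖ := by
        symm
        rw [sum_comm]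
        refine sum_congr rfl fun h _ => ?_
        rw [sum_comm]
    _ ≤ ∑ i ∈ range n, 15 * B ^ 2 * T * (3 + Real.log p) * E := sum_le_sum hblock
    _ = (n : ℝ) * (15 * B ^ 2 * T * (3 + Real.log p) * E) := by
        rw [sum_const, card_range, nsmul_eq_mul]
    _ ≤ (2 * (3 + Real.log p)) * (15 * B ^ 2 * T * (3 + Real.log p) * E) :=
        mul_le_mul_of_nonneg_right hnp (by positivity)
    _ = 30 * B ^ 2 * T * (3 + Real.log p) ^ 2 * E := by ring

end Pool.Agent.QQA
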