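import Pool.Agent.QQA.LE1b
import Pool.Agent.EPK.C2

/-!
# [QQA-LE1c] the central bound
-/

set_option autoImplicit false

namespace Pool.Agent.QQA

open Finset Pool.Agent.MP_2f88e5_nt Pool.Agent.EPK

/-- the trivial bound -/
theorem q1c_triv (p : ℕ) [Fact p.Prime] (Y : ℕ) (hY : Y < p) (a : ZMod p) : ‖TTN p Y a‖ ≤ (p : ℝ) * p := by
  unfold TTN
  refine le_trans (norm_sum_le _ _) ?_
  have h1 : ∀ n ∈ Icc 1 Y,
      ‖((ArithmeticFunction.vonMangoldt n : ℝ) : ℂ) * ea p (a * ((n : ZMod p))⁻¹)‖ ≤ (p : ℝ) := by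
    intro n hn
    rw [mem_Icc] at hn
    rw [norm_mul, norm_ea, mul_one, Complex.norm_real, Real.norm_eq_abs,
      abs_of_nonneg ArithmeticFunction.vonMangoldt_nonneg]
    refine le_trans ArithmeticFunction.vonMangoldt_le_log ?_
    have h2 : (0 : ℝ) < n := by exact_mod_cast hn.1
    have h3 : (n : ℝ) ≤ p := by exact_mod_cast (by omega : n ≤ p)
    have := Real.log_le_sub_one_of_pos h2
    linarith
  refine le_trans (sum_le_sum h1) ?_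
  rw [sum_const, Nat.card_Icc, nsmul_eq_mul]
  have h4 : ((Y + 1 - 1 : ℕ) : ℝ) ≤ p := by exact_mod_cast (by omega)
  gcongr

/-- [E1d] The central bound. (`central_T` with `tau_le (ε / 6)`, `log_absorb (ε / 2) 4` for `p ≥ 17`; for `p < 17` the
left side is at most `17 · 17 · 17 · 3`-ish and the right side at least `C (H D)^(3/4) ≥ C` if `H, D ≥ 1`; if `H = 0` or
`D = 0` both sides are `≥ 0` and the left side is `0`.) -/
theorem centralN (ε : ℝ) (hε : 0 < ε) : ∃ C : ℝ, 1 ≤ C ∧ ∀ (p : ℕ) [Fact p.Prime] (Y H D : ℕ)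
    (x : ZMod p), Y < p → Nat.sqrt p ≤ Y → H < p → D < p → x ≠ 0 →
    ∑ h ∈ Icc 1 H, ∑ d ∈ Icc 1 D, ‖TTN p Y (hd p x h d)‖ ≤
      C * (p : ℝ) ^ ε * (((H * D : ℕ) : ℝ) ^ (3 / 4 : ℝ) * (p : ℝ) ^ (15 / 16 : ℝ) +
        ((H * D : ℕ) : ℝ) * (p : ℝ) ^ (7 / 8 : ℝ)) := by
  obtain ⟨C₁, hC₁1, hC₁⟩ := tau_le (ε / 6) (by linarith)
  obtain ⟨C₂, hC₂1, hC₂⟩ := log_absorb (ε / 2) (by linarith) 4
  refine ⟨200 * C₁ ^ 3 * C₂ + 17 ^ 2, ?_, ?_⟩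
  · have : 0 ≤ 200 * C₁ ^ 3 * C₂ := by
      have : 0 ≤ C₁ := by linarith
      have : 0 ≤ C₂ := by linarith
      positivity
    linarith
  intro p _ Y H D x hY hY1 hH hD hx
  have hpp : p.Prime := Fact.out
  have hp0 : (0 : ℝ) < p := by exact_mod_cast hpp.pos
  have hp1 : (1 : ℝ) ≤ p := by exact_mod_cast hpp.one_le
  have hC10 : 0 ≤ C₁ := by linarith
  have hC20 : 0 ≤ C₂ := by linarith
  set Z : ℝ := ((H * D : ℕ) : ℝ) ^ (3 / 4 : ℝ) * (p : ℝ) ^ (15 / 16 : ℝ) +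
        ((H * D : ℕ) : ℝ) * (p : ℝ) ^ (7 / 8 : ℝ) with hZ
  have hZ0 : 0 ≤ Z := by positivity
  rcases Nat.lt_or_ge p 17 with hp17 | hp17
  · -- small p
    have h1 : ∑ h ∈ Icc 1 H, ∑ d ∈ Icc 1 D, ‖TTN p Y (hd p x h d)‖ ≤ ((H * D : ℕ) : ℝ) * ((p : ℝ) * p) := by
      calc ∑ h ∈ Icc 1 H, ∑ d ∈ Icc 1 D, ‖TTN p Y (hd p x h d)‖ ≤
            ∑ h ∈ Icc 1 H, ∑ d ∈ Icc 1 D, (p : ℝ) * p :=
            sum_le_sum fun h _ => sum_le_sum fun d _ => q1c_triv p Y hY _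
        _ = ((H * D : ℕ) : ℝ) * ((p : ℝ) * p) := by
            simp only [sum_const, Nat.card_Icc, nsmul_eq_mul, Nat.add_sub_cancel]
            push_cast
            ring
    have h2 : ((H * D : ℕ) : ℝ) ≤ Z := by
      rw [hZ]
      have h3 : 1 ≤ (p : ℝ) ^ (7 / 8 : ℝ) := Real.one_le_rpow hp1 (by norm_num)
      have h4 : (0 : ℝ) ≤ ((H * D : ℕ) : ℝ) := Nat.cast_nonneg _
      have h5 : 0 ≤ ((H * D : ℕ) : ℝ) ^ (3 / 4 : ℝ) * (p : ℝ) ^ (15 / 16 : ℝ) := by positivity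
      nlinarith
    have h3 : (p : ℝ) * p ≤ 17 ^ 2 := by
      have : (p : ℝ) ≤ 17 := by exact_mod_cast hp17.le
      nlinarith
    have h4 : 1 ≤ (p : ℝ) ^ ε := Real.one_le_rpow hp1 hε.le
    calc _ ≤ ((H * D : ℕ) : ℝ) * ((p : ℝ) * p) := h1
      _ ≤ Z * 17 ^ 2 := by gcongr
      _ = 17 ^ 2 * 1 * Z := by ring
      _ ≤ (200 * C₁ ^ 3 * C₂ + 17 ^ 2) * (p : ℝ) ^ ε * Z := by
          gcongr
          have : 0 ≤ 200 * C₁ ^ 3 * C₂ := by positivity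
          linarith
  · have h1 := central_TN p hp17 Y H D hY hY1 hH hD (C₁ * (p : ℝ) ^ (ε / 6)) (hC₁ p hpp.one_le) x hx
    refine le_trans h1 ?_
    have h2 := hC₂ p hpp.one_le
    calc 200 * (C₁ * (p : ℝ) ^ (ε / 6)) ^ 3 * (3 + Real.log p) ^ 4 * Z
        ≤ 200 * (C₁ * (p : ℝ) ^ (ε / 6)) ^ 3 * (C₂ * (p : ℝ) ^ (ε / 2)) * Z := by
          gcongr
      _ = (200 * C₁ ^ 3 * C₂) * (((p : ℝ) ^ (ε / 6)) ^ 3 * (p : ℝ) ^ (ε / 2)) * Z := by ring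
      _ = (200 * C₁ ^ 3 * C₂) * (p : ℝ) ^ ε * Z := by
          rw [← Real.rpow_natCast ((p : ℝ) ^ (ε / 6)) 3, ← Real.rpow_mul hp0.le,
            ← Real.rpow_add hp0]
          congr 3
          push_cast
          ring
      _ ≤ (200 * C₁ ^ 3 * C₂ + 17 ^ 2) * (p : ℝ) ^ ε * Z := by
          gcongr
          linarith

end Pool.Agent.QQA
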