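import Pool.Agent.EPK.D0

/-!
# [QQA-LDefs] exponential sums over reciprocals with a cutoff: definitions
-/

set_option autoImplicit false

namespace Pool.Agent.QQA

open Finset Pool.Agent.MP_2f88e5_nt Pool.Agent.EPK

/-- bilinear sums with the cutoff `m k ≤ N` -/
noncomputable def BBN (p : ℕ) [Fact p.Prime] (α β : ℕ → ℂ) (N U W : ℕ) (a : ZMod p) : ℂ :=
  ∑ m ∈ Ioc U W, ∑ k ∈ Icc 1 (N / m),
    α m * β k * ea p (a * ((m : ZMod p) * (k : ZMod p))⁻¹)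

/-- the sum over the prime powers up to `N` -/
noncomputable def TTN (p : ℕ) [Fact p.Prime] (N : ℕ) (a : ZMod p) : ℂ :=
  ∑ n ∈ Icc 1 N, ((ArithmeticFunction.vonMangoldt n : ℝ) : ℂ) * ea p (a * ((n : ZMod p))⁻¹)

/-- the exponential sum with the weights `γ` -/
noncomputable def SG (p : ℕ) [Fact p.Prime] (γ : ℕ → ℝ) (a : ZMod p) : ℂ :=
  ∑ n ∈ Icc 1 (p - 1), ((γ n : ℝ) : ℂ) * ea p (a * ((n : ZMod p))⁻¹)

/-- the number (with the weights `γ`) of the `n < p` with `x / n ≤ Y` divisible by `d` -/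
noncomputable def AG (p : ℕ) [Fact p.Prime] (γ : ℕ → ℝ) (x : ZMod p) (Y d : ℕ) : ℝ :=
  ∑ n ∈ (Icc 1 (p - 1)).filter (fun n => d ∣ rr p x n ∧ rr p x n ≤ Y), γ n

/-- the sum of the weights -/
noncomputable def PG (p : ℕ) (γ : ℕ → ℝ) : ℝ := ∑ n ∈ Icc 1 (p - 1), γ n

end Pool.Agent.QQA
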