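import Pool.Agent.QQA.DefsL
import Pool.Agent.QQA.LE3
import Pool.Agent.QQA.LE1c
import Pool.Agent.QQA.LD3

/-!
# [QQA-LD] the level of distribution in the window
-/

set_option autoImplicit false

namespace Pool.Agent.QQA

open Finset Pool.Agent.MP_2f88e5_nt Pool.Agent.EPK

theorem LD_II_sub {V p : ℕ} (h : wn V < p) : II V ⊆ Icc 1 (p - 1) := by
  intro n hn
  rw [II, mem_Ioc] at hn
  rw [mem_Icc]
  omega

theorem LD_SG {p : ℕ} [Fact p.Prime] {V : ℕ} (h : wn V < p) (γ : ℕ → ℝ) (hγ : ∀ n, n ∉ II V → γ n = 0)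
    (a : ZMod p) : SG p γ a = ∑ n ∈ II V, ((γ n : ℝ) : ℂ) * ea p (a * ((n : ZMod p))⁻¹) := by
  unfold SG
  symm
  refine sum_subset (LD_II_sub h) fun n _ hn => ?_
  rw [hγ n hn]
  simp

theorem LD_PG {p V : ℕ} (h : wn V < p) (γ : ℕ → ℝ) (hγ : ∀ n, n ∉ II V → γ n = 0) :
    PG p γ = tot V γ := by
  unfold PG tot
  symm
  exact sum_subset (LD_II_sub h) fun n _ hn => hγ n hn

theorem LD_gP_off (V n : ℕ) (hn : n ∉ II V) : gP V n = 0 := by
  unfold gP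
  rw [if_neg hn]

theorem LD_gQ_off (z V n : ℕ) (hn : n ∉ II V) : gQ z V n = 0 := by
  unfold gQ
  rw [if_neg hn]

theorem LD_P {p : ℕ} [Fact p.Prime] {V : ℕ} (h : wn V < p) (a : ZMod p) :
    SG p (gP V) a = (TTN p (wn V) a - TTN p V a) / ((Real.log (wn V) : ℝ) : ℂ) := by
  rw [LD_SG h _ (LD_gP_off V)]
  have h1 : TTN p (wn V) a - TTN p V a =
      ∑ n ∈ II V, ((ArithmeticFunction.vonMangoldt n : ℝ) : ℂ) * ea p (a * ((n : ZMod p))⁻¹) := by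
    unfold TTN II
    have hI : ∀ N : ℕ, Icc 1 N = Ioc 0 N := by
      intro N; ext x; simp [Nat.succ_le_iff]
    rw [hI, hI, sub_eq_iff_eq_add, add_comm]
    rw [Finset.sum_Ioc_consecutive _ (Nat.zero_le V) (by unfold wn; omega)]
  rw [h1, sum_div]
  refine sum_congr rfl fun n hn => ?_
  unfold gP
  rw [if_pos hn]
  push_cast
  ring

/-- the indicator function of the primes -/
noncomputable def LDa (m : ℕ) : ℂ := if m.Prime then 1 else 0

/-- the indicator function of the rough numbers -/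
noncomputable def LDb (z k : ℕ) : ℂ := if Rg z k then 1 else 0

theorem LD_Q {p : ℕ} [Fact p.Prime] {V z : ℕ} (h : wn V < p) (a : ZMod p) :
    SG p (gQ z V) a = BBN p LDa (LDb z) (wn V) z (Nat.sqrt (wn V)) a -
      BBN p LDa (LDb z) V z (Nat.sqrt (wn V)) a := by
  rw [LD_SG h _ (LD_gQ_off z V)]
  unfold BBN
  rw [← sum_sub_distrib]
  have h1 : ∀ n ∈ II V, ((gQ z V n : ℝ) : ℂ) * ea p (a * ((n : ZMod p))⁻¹) =
      ∑ m ∈ Ioc z (Nat.sqrt (wn V)), if m ∣ n then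
        LDa m * LDb z (n / m) * ea p (a * ((n : ZMod p))⁻¹) else 0 := by
    intro n hn
    unfold gQ
    rw [if_pos hn, sum_filter]
    push_cast
    rw [sum_mul]
    refine sum_congr rfl fun m _ => ?_
    unfold LDa LDb
    by_cases h1 : m.Prime <;> by_cases h2 : m ∣ n <;> by_cases h3 : Rg z (n / m) <;> simp [h1, h2, h3]
  rw [sum_congr rfl h1, sum_comm]
  refine sum_congr rfl fun m hm => ?_
  rw [mem_Ioc] at hm
  have hm0 : 0 < m := by omega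
  have hI : ∀ N : ℕ, Icc 1 N = Ioc 0 N := by
    intro N; ext x; simp [Nat.succ_le_iff]
  have hVw : V ≤ wn V := by unfold wn; omega
  rw [hI, hI, eq_sub_iff_add_eq, add_comm, ← Finset.sum_Ioc_consecutive _ (Nat.zero_le (V / m))
    (Nat.div_le_div_right hVw)]
  congr 1
  rw [← sum_filter]
  symm
  refine sum_bij (fun k _ => m * k) ?_ ?_ ?_ ?_
  · intro k hk
    rw [mem_Ioc] at hk
    rw [mem_filter, II, mem_Ioc]
    have e1 : V < m * k := by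
      have := (Nat.div_lt_iff_lt_mul hm0).1 hk.1
      rwa [mul_comm]
    have e2 : m * k ≤ wn V := by
      have := (Nat.le_div_iff_mul_le hm0).1 hk.2
      rwa [mul_comm]
    exact ⟨⟨e1, e2⟩, Dvd.intro _ rfl⟩
  · intro k _ k' _ hkk
    exact Nat.eq_of_mul_eq_mul_left hm0 hkk
  · intro n hn
    rw [mem_filter, II, mem_Ioc] at hn
    obtain ⟨⟨h1, h2⟩, k, rfl⟩ := hn
    refine ⟨k, ?_, rfl⟩
    rw [mem_Ioc]
    constructor
    · rw [Nat.div_lt_iff_lt_mul hm0, mul_comm]; exact h1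
    · rw [Nat.le_div_iff_mul_le hm0, mul_comm]; exact h2
  · intro k _
    rw [Nat.mul_div_cancel_left _ hm0]
    push_cast
    rfl

theorem LD_card {z n : ℕ} (hn : 1 ≤ n) (s : Finset ℕ) (hs : ∀ q ∈ s, q.Prime ∧ z < q ∧ q ∣ n) :
    z ^ #s ≤ n := by
  have h1 : ∏ q ∈ s, q ∣ n := by
    refine Finset.prod_primes_dvd n (fun q hq => (hs q hq).1.prime) fun q hq => (hs q hq).2.2
  calc z ^ #s = ∏ _q ∈ s, z := by rw [prod_const]
    _ ≤ ∏ q ∈ s, q := prod_le_prod' fun q hq => (hs q hq).2.1.le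
    _ ≤ n := Nat.le_of_dvd hn h1

theorem LD_gP_le (V n : ℕ) : 0 ≤ gP V n ∧ gP V n ≤ 1 := by
  unfold gP
  split_ifs with h
  · rw [II, mem_Ioc] at h
    have hV : 10 ≤ V := by
      unfold wn at h
      omega
    have h1 : (1 : ℝ) < wn V := by
      have : 1 < wn V := by unfold wn; omega
      exact_mod_cast this
    have h2 := Real.log_pos h1
    refine ⟨div_nonneg ArithmeticFunction.vonMangoldt_nonneg h2.le, ?_⟩
    rw [div_le_one h2]
    refine le_trans ArithmeticFunction.vonMangoldt_le_log (Real.log_le_log ?_ ?_)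
    · exact_mod_cast (by omega : 0 < n)
    · exact_mod_cast h.2
  · norm_num

theorem LD_gQ_le {z V n k : ℕ} (hz : 2 ≤ z) (h : wn V < z ^ k) : 0 ≤ gQ z V n ∧ gQ z V n ≤ k := by
  unfold gQ
  split_ifs with hn
  · rw [II, mem_Ioc] at hn
    have h0 : ∑ q ∈ (Ioc z (Nat.sqrt (wn V))).filter Nat.Prime, (if q ∣ n ∧ Rg z (n / q) then (1 : ℝ) else 0) ≤
        ∑ q ∈ (Ioc z (Nat.sqrt (wn V))).filter Nat.Prime, (if q ∣ n then (1 : ℝ) else 0) := by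
      refine sum_le_sum fun q _ => ?_
      by_cases h1 : q ∣ n
      · by_cases h2 : Rg z (n / q) <;> simp [h1, h2]
      · simp [h1]
    refine ⟨sum_nonneg fun q _ => by split_ifs <;> norm_num, h0.trans ?_⟩
    rw [← sum_filter, sum_const, nsmul_eq_mul, mul_one]
    have h1 := LD_card (z := z) (n := n) (by omega) ((((Ioc z (Nat.sqrt (wn V))).filter Nat.Prime)).filter (fun q => q ∣ n))
      (fun q hq => by
        rw [mem_filter, mem_filter, mem_Ioc] at hq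
        exact ⟨hq.1.2, hq.1.1.1, hq.2⟩)
    have h2 := (Nat.pow_lt_pow_iff_right (by omega : 1 < z)).1 (lt_of_le_of_lt h1 (lt_of_le_of_lt hn.2 h))
    exact_mod_cast h2.le
  · norm_num

theorem LD_tot {p V z : ℕ} (h : wn V < p) (hz : 2 ≤ z) (hpz : p ≤ 16 * z ^ 4) (γ : ℕ → ℝ)
    (hγ : γ = gP V ∨ γ = gQ z V) : |tot V γ| ≤ p := by
  have hb : ∀ n, 0 ≤ γ n ∧ γ n ≤ 8 := by
    intro n
    rcases hγ with rfl | rfl
    · have := LD_gP_le V n
      exact ⟨this.1, by linarith [this.2]⟩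
    · have h1 : wn V < z ^ 8 := by
        calc wn V < p := h
          _ ≤ 16 * z ^ 4 := hpz
          _ = 2 ^ 4 * z ^ 4 := by norm_num
          _ ≤ z ^ 4 * z ^ 4 := Nat.mul_le_mul_right _ (Nat.pow_le_pow_left hz 4)
          _ = z ^ 8 := by ring
      have := LD_gQ_le (n := n) hz h1
      exact_mod_cast this
  unfold tot
  rw [abs_of_nonneg (sum_nonneg fun n _ => (hb n).1)]
  calc ∑ n ∈ II V, γ n ≤ ∑ _n ∈ II V, (8 : ℝ) := sum_le_sum fun n _ => (hb n).2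
    _ = ((8 * (V / 10) : ℕ) : ℝ) := by
        rw [sum_const, nsmul_eq_mul]
        unfold II wn
        rw [Nat.card_Ioc, Nat.add_sub_cancel_left]
        push_cast
        ring
    _ ≤ p := by
        unfold wn at h
        exact_mod_cast (by omega : 8 * (V / 10) ≤ p)

/-- the average over the moduli of the exponential sums -/
theorem LD_central (ε : ℝ) (hε : 0 < ε) : ∃ C : ℝ, 1 ≤ C ∧ ∀ (p : ℕ) [Fact p.Prime] (V z : ℕ)
    (x : ZMod p) (γ : ℕ → ℝ), (γ = gP V ∨ γ = gQ z V) → x ≠ 0 → 100 ≤ V → p ≤ V ^ 2 → wn V < p →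
    2 ≤ z → p ≤ 16 * z ^ 4 → ∀ H D : ℕ, H < p → D < p →
    ∑ h ∈ Icc 1 H, ∑ d ∈ Icc 1 D, ‖SG p γ (hd p x h d)‖ ≤
      C * (p : ℝ) ^ ε * (((H * D : ℕ) : ℝ) ^ (3 / 4 : ℝ) * (p : ℝ) ^ (15 / 16 : ℝ) +
        ((H * D : ℕ) : ℝ) * (p : ℝ) ^ (7 / 8 : ℝ)) := by
  obtain ⟨C₁, hC₁, h₁⟩ := centralN ε hε
  obtain ⟨C₂, hC₂, h₂⟩ := tau_le (ε / 2) (by linarith)
  obtain ⟨C₃, hC₃, h₃⟩ := log_absorb (ε / 2) (by linarith) 2
  refine ⟨2 * C₁ + 60 * C₂ * C₃, by nlinarith, ?_⟩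
  intro p _ V z x γ hγ hx hV hpV hwp hz hpz H D hH hD
  have hpp : p.Prime := Fact.out
  have hp0 : (0 : ℝ) < p := by exact_mod_cast hpp.pos
  have hVw : V ≤ wn V := by unfold wn; omega
  have hsq : Nat.sqrt p ≤ V := by
    have := Nat.sqrt_le_sqrt hpV
    rwa [Nat.sqrt_eq'] at this
  set R : ℝ := ((H * D : ℕ) : ℝ) ^ (3 / 4 : ℝ) * (p : ℝ) ^ (15 / 16 : ℝ) +
    ((H * D : ℕ) : ℝ) * (p : ℝ) ^ (7 / 8 : ℝ) with hR
  have hR0 : 0 ≤ R := by positivity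
  have hpe : 0 < (p : ℝ) ^ ε := Real.rpow_pos_of_pos hp0 _
  rcases hγ with rfl | rfl
  · have e1 := h₁ p (wn V) H D x hwp (hsq.trans hVw) hH hD hx
    have e2 := h₁ p V H D x (lt_of_le_of_lt hVw hwp) hsq hH hD hx
    have hl : 1 ≤ Real.log (wn V) := by
      rw [Real.le_log_iff_exp_le (by exact_mod_cast (by omega : 0 < wn V))]
      have h3 := Real.exp_one_lt_d9
      have h4 : (100 : ℝ) ≤ wn V := by exact_mod_cast hV.trans hVw
      linarith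
    have e3 : ∀ h d : ℕ, ‖SG p (gP V) (hd p x h d)‖ ≤
        ‖TTN p (wn V) (hd p x h d)‖ + ‖TTN p V (hd p x h d)‖ := by
      intro h d
      rw [LD_P hwp, norm_div, Complex.norm_real, Real.norm_of_nonneg (by linarith : 0 ≤ Real.log (wn V))]
      refine le_trans (div_le_self (norm_nonneg _) hl) (norm_sub_le _ _)
    calc ∑ h ∈ Icc 1 H, ∑ d ∈ Icc 1 D, ‖SG p (gP V) (hd p x h d)‖
        ≤ ∑ h ∈ Icc 1 H, ∑ d ∈ Icc 1 D, (‖TTN p (wn V) (hd p x h d)‖ + ‖TTN p V (hd p x h d)‖) :=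
          sum_le_sum fun h _ => sum_le_sum fun d _ => e3 h d
      _ = (∑ h ∈ Icc 1 H, ∑ d ∈ Icc 1 D, ‖TTN p (wn V) (hd p x h d)‖) +
            ∑ h ∈ Icc 1 H, ∑ d ∈ Icc 1 D, ‖TTN p V (hd p x h d)‖ := by
          simp only [sum_add_distrib]
      _ ≤ C₁ * (p : ℝ) ^ ε * R + C₁ * (p : ℝ) ^ ε * R := add_le_add e1 e2
      _ = 2 * C₁ * ((p : ℝ) ^ ε * R) := by ring
      _ ≤ (2 * C₁ + 60 * C₂ * C₃) * ((p : ℝ) ^ ε * R) := by
          refine mul_le_mul_of_nonneg_right ?_ (by positivity)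
          nlinarith
      _ = _ := by ring
  · set W := Nat.sqrt (wn V) with hW
    have hW1 : W ^ 2 ≤ wn V := Nat.sqrt_le' _
    have hW10 : 10 ≤ W := by
      rw [hW, Nat.le_sqrt']
      omega
    have hW4 : 4 * W ≤ p := by nlinarith
    have hW2 : (W : ℝ) ≤ (p : ℝ) ^ (1 / 2 : ℝ) := by
      rw [← Real.sqrt_eq_rpow]
      refine Real.le_sqrt_of_sq_le ?_
      exact_mod_cast (by omega : W ^ 2 ≤ p)
    have hzp : (p : ℝ) ^ (1 / 4 : ℝ) ≤ 2 * z := by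
      have e1 : (p : ℝ) ≤ (2 * (z : ℝ)) ^ (4 : ℕ) := by
        have : (p : ℝ) ≤ ((16 * z ^ 4 : ℕ) : ℝ) := by exact_mod_cast hpz
        push_cast at this
        nlinarith
      calc (p : ℝ) ^ (1 / 4 : ℝ) ≤ ((2 * (z : ℝ)) ^ (4 : ℕ)) ^ (1 / 4 : ℝ) :=
            Real.rpow_le_rpow hp0.le e1 (by norm_num)
        _ = 2 * z := by
            rw [← Real.rpow_natCast, ← Real.rpow_mul (by positivity)]
            norm_num
    have ha : ∀ m, ‖LDa m‖ ≤ (1 : ℝ) := by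
      intro m; unfold LDa; split_ifs <;> simp
    have hb : ∀ k, ‖LDb z k‖ ≤ (1 : ℝ) := by
      intro k; unfold LDb; split_ifs <;> simp
    have e1 := typeIIN p (wn V) H D z W hwp hH hD hz hzp hW4 hW2 _ (h₂ p hpp.one_le) x hx LDa (LDb z) 1
      zero_le_one ha hb
    have e2 := typeIIN p V H D z W (lt_of_le_of_lt hVw hwp) hH hD hz hzp hW4 hW2 _ (h₂ p hpp.one_le) x hx
      LDa (LDb z) 1 zero_le_one ha hb
    have e4 := h₃ p hpp.one_le
    have e5 : 30 * (1 : ℝ) ^ 2 * (C₂ * (p : ℝ) ^ (ε / 2)) * (3 + Real.log p) ^ 2 ≤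
        30 * C₂ * C₃ * (p : ℝ) ^ ε := by
      have e6 : (p : ℝ) ^ ε = (p : ℝ) ^ (ε / 2) * (p : ℝ) ^ (ε / 2) := by
        rw [← Real.rpow_add hp0]; ring_nf
      have e7 : 0 < (p : ℝ) ^ (ε / 2) := Real.rpow_pos_of_pos hp0 _
      rw [e6]
      calc 30 * (1 : ℝ) ^ 2 * (C₂ * (p : ℝ) ^ (ε / 2)) * (3 + Real.log p) ^ 2
          = 30 * C₂ * (p : ℝ) ^ (ε / 2) * (3 + Real.log p) ^ 2 := by ring
        _ ≤ 30 * C₂ * (p : ℝ) ^ (ε / 2) * (C₃ * (p : ℝ) ^ (ε / 2)) :=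
            mul_le_mul_of_nonneg_left e4 (by positivity)
        _ = _ := by ring
    have e8 : ∀ Y' : ℕ, Y' = wn V ∨ Y' = V →
        ∑ h ∈ Icc 1 H, ∑ d ∈ Icc 1 D, ‖BBN p LDa (LDb z) Y' z W (hd p x h d)‖ ≤
          30 * C₂ * C₃ * (p : ℝ) ^ ε * R := by
      intro Y' hY'
      rcases hY' with rfl | rfl
      · exact e1.trans (mul_le_mul_of_nonneg_right e5 hR0)
      · exact e2.trans (mul_le_mul_of_nonneg_right e5 hR0)
    have e3 : ∀ h d : ℕ, ‖SG p (gQ z V) (hd p x h d)‖ ≤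
        ‖BBN p LDa (LDb z) (wn V) z W (hd p x h d)‖ + ‖BBN p LDa (LDb z) V z W (hd p x h d)‖ := by
      intro h d
      rw [LD_Q hwp]
      exact norm_sub_le _ _
    calc ∑ h ∈ Icc 1 H, ∑ d ∈ Icc 1 D, ‖SG p (gQ z V) (hd p x h d)‖
        ≤ ∑ h ∈ Icc 1 H, ∑ d ∈ Icc 1 D, (‖BBN p LDa (LDb z) (wn V) z W (hd p x h d)‖ +
            ‖BBN p LDa (LDb z) V z W (hd p x h d)‖) :=
          sum_le_sum fun h _ => sum_le_sum fun d _ => e3 h d
      _ = (∑ h ∈ Icc 1 H, ∑ d ∈ Icc 1 D, ‖BBN p LDa (LDb z) (wn V) z W (hd p x h d)‖) +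
            ∑ h ∈ Icc 1 H, ∑ d ∈ Icc 1 D, ‖BBN p LDa (LDb z) V z W (hd p x h d)‖ := by
          simp only [sum_add_distrib]
      _ ≤ 30 * C₂ * C₃ * (p : ℝ) ^ ε * R + 30 * C₂ * C₃ * (p : ℝ) ^ ε * R :=
          add_le_add (e8 _ (Or.inl rfl)) (e8 _ (Or.inr rfl))
      _ = 60 * C₂ * C₃ * ((p : ℝ) ^ ε * R) := by ring
      _ ≤ (2 * C₁ + 60 * C₂ * C₃) * ((p : ℝ) ^ ε * R) := by
          refine mul_le_mul_of_nonneg_right ?_ (by positivity)
          linarith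
      _ = _ := by ring

theorem R_LD : st_LD := by
  intro ε hε
  obtain ⟨C₁, hC₁, h₁⟩ := LD_central (ε / 2) (by linarith)
  obtain ⟨C₂, hC₂, h₂⟩ := levelG (ε / 2) (by linarith)
  refine ⟨2 * C₁ * C₂, by nlinarith, ?_⟩
  intro p _ V z D x γ hγ hx hV hpV hwp hz hpz hD hDp
  have hpp : p.Prime := Fact.out
  have hp0 : (0 : ℝ) < p := by exact_mod_cast hpp.pos
  have hp1 : (1 : ℝ) ≤ p := by exact_mod_cast hpp.one_le
  have hVw : V ≤ wn V := by unfold wn; omega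
  have hoff : ∀ n, n ∉ II V → γ n = 0 := by
    rcases hγ with rfl | rfl
    · exact LD_gP_off V
    · exact LD_gQ_off z V
  have hPG := LD_PG hwp γ hoff
  have hA : 1 ≤ C₁ * (p : ℝ) ^ (ε / 2) := by
    have := Real.one_le_rpow hp1 (by linarith : 0 ≤ ε / 2)
    nlinarith
  have hcen := h₁ p V z x γ hγ hx hV hpV hwp hz hpz
  have hPA : |PG p γ| ≤ 6 * (C₁ * (p : ℝ) ^ (ε / 2)) * p := by
    rw [hPG]
    refine (LD_tot hwp hz hpz γ hγ).trans ?_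
    nlinarith
  have hlev : ∀ Y : ℕ, Y < p → ∑ d ∈ Icc 1 D, |AG p γ x Y d - PG p γ * (Y / p) / d| ≤
      C₂ * (C₁ * (p : ℝ) ^ (ε / 2)) * (p : ℝ) ^ (ε / 2) *
        ((D : ℝ) ^ (1 / 2 : ℝ) * (p : ℝ) ^ (15 / 16 : ℝ) + D * (p : ℝ) ^ (7 / 8 : ℝ)) := by
    intro Y hY
    refine (h₂ p Y D x γ _ (by omega) hY hD hDp hx hA hcen hPA).trans ?_
    refine mul_le_mul_of_nonneg_left ?_ (by positivity)
    have h3 : ((Y : ℝ) / p) ^ (1 / 4 : ℝ) ≤ 1 := by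
      refine Real.rpow_le_one (by positivity) ?_ (by norm_num)
      rw [div_le_one hp0]
      exact_mod_cast hY.le
    have h4 : (D : ℝ) ^ (1 / 2 : ℝ) * ((Y : ℝ) / p) ^ (1 / 4 : ℝ) ≤ (D : ℝ) ^ (1 / 2 : ℝ) :=
      mul_le_of_le_one_right (by positivity) h3
    have h5 := mul_le_mul_of_nonneg_right h4 (by positivity : 0 ≤ (p : ℝ) ^ (15 / 16 : ℝ))
    linarith
  have e1 := hlev (wn V) hwp
  have e2 := hlev V (lt_of_le_of_lt hVw hwp)
  calc ∑ d ∈ Icc 1 D, |AG p γ x (wn V) d - AG p γ x V d - tot V γ * ((wn V : ℝ) - V) / p / d|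
      ≤ ∑ d ∈ Icc 1 D, (|AG p γ x (wn V) d - PG p γ * ((wn V : ℕ) / p) / d| +
          |AG p γ x V d - PG p γ * (V / p) / d|) := by
        refine sum_le_sum fun d _ => ?_
        have e3 : AG p γ x (wn V) d - AG p γ x V d - tot V γ * ((wn V : ℝ) - V) / p / d =
            (AG p γ x (wn V) d - PG p γ * ((wn V : ℕ) / p) / d) - (AG p γ x V d - PG p γ * (V / p) / d) := by
          rw [hPG]
          ring
        rw [e3]
        exact abs_sub _ _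
    _ = ∑ d ∈ Icc 1 D, |AG p γ x (wn V) d - PG p γ * ((wn V : ℕ) / p) / d| +
          ∑ d ∈ Icc 1 D, |AG p γ x V d - PG p γ * (V / p) / d| := sum_add_distrib
    _ ≤ _ := add_le_add e1 e2
    _ = 2 * C₁ * C₂ * ((p : ℝ) ^ (ε / 2) * (p : ℝ) ^ (ε / 2)) *
        ((D : ℝ) ^ (1 / 2 : ℝ) * (p : ℝ) ^ (15 / 16 : ℝ) + D * (p : ℝ) ^ (7 / 8 : ℝ)) := by ring
    _ = _ := by
        rw [← Real.rpow_add hp0]
        ring_nf

end Pool.Agent.QQA
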