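import Pool.Agent.QQA.Defs

set_option autoImplicit false

namespace Pool.Agent.QQA

open Finset

theorem M12_wn_ge (v : ℕ) : v ≤ wn v := Nat.le_add_right _ _

theorem M12_wn_lo (v : ℕ) (hv : 100 ≤ v) : (21 / 20 : ℝ) * v ≤ wn v := by
  have h1 : 21 * v ≤ 20 * wn v := by
    unfold wn
    omega
  have h2 : (21 : ℝ) * v ≤ 20 * (wn v : ℝ) := by exact_mod_cast h1
  linarith

theorem M12_wn_hi (v : ℕ) : (wn v : ℝ) ≤ (11 / 10 : ℝ) * v := by
  have h1 : 10 * wn v ≤ 11 * v := by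
    unfold wn
    omega
  have h2 : (10 : ℝ) * (wn v : ℝ) ≤ 11 * v := by exact_mod_cast h1
  linarith

theorem M12_succ (v₀ j : ℕ) : vv v₀ (j + 1) = wn (vv v₀ j) := by
  unfold vv
  exact Function.iterate_succ_apply' wn j v₀

theorem M12_mono (v₀ : ℕ) : Monotone (vv v₀) := by
  apply monotone_nat_of_le_succ
  intro j
  rw [M12_succ]
  exact M12_wn_ge _

theorem M12_ge (v₀ j : ℕ) : v₀ ≤ vv v₀ j := by
  have h := M12_mono v₀ (Nat.zero_le j)
  exact h

theorem M12_tel (v₀ J : ℕ) (f : ℕ → ℝ) :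
    ∑ j ∈ range J, ∑ n ∈ II (vv v₀ j), f n = ∑ n ∈ Ioc v₀ (vv v₀ J), f n := by
  induction J with
  | zero =>
    have h0 : vv v₀ 0 = v₀ := rfl
    rw [Finset.sum_range_zero, h0, Finset.Ioc_self, Finset.sum_empty]
  | succ J ih =>
    rw [Finset.sum_range_succ, ih]
    have h4 : Ioc v₀ (vv v₀ (J + 1)) = Ioc v₀ (vv v₀ J) ∪ II (vv v₀ J) := by
      have h5 := M12_ge v₀ J
      have h6 := M12_wn_ge (vv v₀ J)
      rw [M12_succ]
      ext n
      simp only [II, Finset.mem_union, Finset.mem_Ioc]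
      omega
    rw [h4]
    symm
    apply Finset.sum_union
    rw [Finset.disjoint_left]
    intro n hn hn2
    rw [Finset.mem_Ioc] at hn
    simp only [II, Finset.mem_Ioc] at hn2
    omega

theorem R_M1 : st_M1 := by
  intro v₀ J hv
  refine ⟨?_, ?_, M12_tel v₀ J⟩
  · induction J with
    | zero =>
      have h0 : vv v₀ 0 = v₀ := rfl
      rw [h0, pow_zero, one_mul]
    | succ J ih =>
      rw [M12_succ]
      have h1 := M12_wn_lo (vv v₀ J) (hv.trans (M12_ge v₀ J))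
      calc (21 / 20 : ℝ) ^ (J + 1) * v₀ = 21 / 20 * ((21 / 20 : ℝ) ^ J * v₀) := by ring
        _ ≤ 21 / 20 * (vv v₀ J : ℝ) := mul_le_mul_of_nonneg_left ih (by norm_num)
        _ ≤ _ := h1
  · induction J with
    | zero =>
      have h0 : vv v₀ 0 = v₀ := rfl
      rw [h0, pow_zero, one_mul]
    | succ J ih =>
      rw [M12_succ]
      have h1 := M12_wn_hi (vv v₀ J)
      calc (wn (vv v₀ J) : ℝ) ≤ 11 / 10 * (vv v₀ J : ℝ) := h1
        _ ≤ 11 / 10 * ((11 / 10 : ℝ) ^ J * v₀) := mul_le_mul_of_nonneg_left ih (by norm_num)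
        _ = (11 / 10 : ℝ) ^ (J + 1) * v₀ := by ring

theorem M12_int (hm : st_Mertens) {x y : ℕ} (hx : 1 ≤ x) (hxy : x ≤ y) :
    Real.log y - Real.log x - 2 * (Real.log 4 + 4) ≤
      ∑ n ∈ Ioc x y, ArithmeticFunction.vonMangoldt n / (n : ℝ) := by
  have h1 := abs_le.mp (hm y (hx.trans hxy))
  have h2 := abs_le.mp (hm x hx)
  have h3 : ∑ n ∈ Icc 1 y, ArithmeticFunction.vonMangoldt n / (n : ℝ) =
      ∑ n ∈ Icc 1 x, ArithmeticFunction.vonMangoldt n / (n : ℝ) +
        ∑ n ∈ Ioc x y, ArithmeticFunction.vonMangoldt n / (n : ℝ) := by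
    have h4 : Icc 1 y = Icc 1 x ∪ Ioc x y := by
      ext n
      simp only [Finset.mem_union, Finset.mem_Icc, Finset.mem_Ioc]
      omega
    rw [h4]
    apply Finset.sum_union
    rw [Finset.disjoint_left]
    intro n hn hn2
    rw [Finset.mem_Icc] at hn
    rw [Finset.mem_Ioc] at hn2
    omega
  linarith [h1.1, h2.2]

theorem M12_log4 : 2 * (Real.log 4 + 4) ≤ 12 := by
  have h1 : Real.log 4 = 2 * Real.log 2 := by
    rw [show (4 : ℝ) = 2 ^ (2 : ℕ) by norm_num, Real.log_pow]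
    norm_num
  have h2 := Real.log_two_lt_d9
  rw [h1]
  norm_num at h2 ⊢
  linarith

theorem R_M2 (hm : st_Mertens) (h1 : st_M1) : st_M2 := by
  intro v₀ J hv
  have hJ : v₀ ≤ vv v₀ J := M12_ge v₀ J
  have hv0 : (0 : ℝ) < v₀ := by
    have : 0 < v₀ := by omega
    exact_mod_cast this
  have hvJ : (1 : ℝ) < (vv v₀ J : ℝ) := by
    have : 1 < vv v₀ J := by omega
    exact_mod_cast this
  have hlog : 0 < Real.log (vv v₀ J : ℝ) := Real.log_pos hvJ
  have hterm : ∀ j ∈ range J, ∑ n ∈ II (vv v₀ j),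
      (1 / Real.log (vv v₀ J : ℝ)) * (ArithmeticFunction.vonMangoldt n / (n : ℝ)) ≤
      tot (vv v₀ j) (gP (vv v₀ j)) / (vv v₀ j : ℝ) := by
    intro j hj
    rw [Finset.mem_range] at hj
    unfold tot
    rw [Finset.sum_div]
    apply Finset.sum_le_sum
    intro n hn
    unfold gP
    rw [if_pos hn]
    have hvj : v₀ ≤ vv v₀ j := M12_ge v₀ j
    have hn2 : vv v₀ j < n := by
      simp only [II, Finset.mem_Ioc] at hn
      exact hn.1
    have hw : wn (vv v₀ j) ≤ vv v₀ J := by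
      rw [← M12_succ]
      exact M12_mono v₀ hj
    have hw1 : 1 < wn (vv v₀ j) := by
      have := M12_wn_ge (vv v₀ j)
      omega
    have hw1R : (1 : ℝ) < (wn (vv v₀ j) : ℝ) := by exact_mod_cast hw1
    have hlw : 0 < Real.log (wn (vv v₀ j) : ℝ) := Real.log_pos hw1R
    have hll : Real.log (wn (vv v₀ j) : ℝ) ≤ Real.log (vv v₀ J : ℝ) :=
      Real.log_le_log (by linarith) (by exact_mod_cast hw)
    have hL : 0 ≤ ArithmeticFunction.vonMangoldt n := ArithmeticFunction.vonMangoldt_nonneg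
    have hvjR : (0 : ℝ) < (vv v₀ j : ℝ) := by
      have : 0 < vv v₀ j := by omega
      exact_mod_cast this
    have hnR : (vv v₀ j : ℝ) ≤ n := by exact_mod_cast hn2.le
    calc (1 / Real.log (vv v₀ J : ℝ)) * (ArithmeticFunction.vonMangoldt n / (n : ℝ)) =
        ArithmeticFunction.vonMangoldt n / (Real.log (vv v₀ J : ℝ) * n) := by
          rw [one_div_mul_eq_div, div_div, mul_comm (n : ℝ)]
      _ ≤ ArithmeticFunction.vonMangoldt n / (Real.log (wn (vv v₀ j) : ℝ) * (vv v₀ j : ℝ)) := by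
          apply div_le_div_of_nonneg_left hL (by positivity)
          exact mul_le_mul hll hnR hvjR.le hlog.le
      _ = ArithmeticFunction.vonMangoldt n / Real.log (wn (vv v₀ j) : ℝ) / (vv v₀ j : ℝ) := by
          rw [div_div]
  have hsum := Finset.sum_le_sum hterm
  rw [(h1 v₀ J hv).2.2 (fun n => (1 / Real.log (vv v₀ J : ℝ)) *
    (ArithmeticFunction.vonMangoldt n / (n : ℝ))), ← Finset.mul_sum] at hsum
  refine le_trans ?_ hsum
  rw [one_div_mul_eq_div]
  apply div_le_div_of_nonneg_right _ hlog.le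
  have h2 := M12_int hm (x := v₀) (y := vv v₀ J) (by omega) hJ
  rw [Real.log_div (by linarith) hv0.ne']
  linarith [M12_log4]

end Pool.Agent.QQA
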