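import Pool.Agent.QQA.Defs

set_option autoImplicit false

namespace Pool.Agent.QQA

open Finset

/-- the sum of `Λ(n) / n` over an interval -/
theorem M3_int (hm : st_Mertens) {x y : ℕ} (hx : 1 ≤ x) (hxy : x ≤ y) :
    ∑ n ∈ Ioc x y, ArithmeticFunction.vonMangoldt n / (n : ℝ) ≤
      Real.log y - Real.log x + 2 * (Real.log 4 + 4) := by
  have h1 := abs_le.mp (hm y (hx.trans hxy))
  have h2 := abs_le.mp (hm x hx)
  have h3 : ∑ n ∈ Icc 1 y, ArithmeticFunction.vonMangoldt n / (n : ℝ) =
      ∑ n ∈ Icc 1 x, ArithmeticFunction.vonMangoldt n / (n : ℝ) +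
        ∑ n ∈ Ioc x y, ArithmeticFunction.vonMangoldt n / (n : ℝ) := by
    have h4 : Icc 1 y = Icc 1 x ∪ Ioc x y := by
      ext n
      simp only [Finset.mem_union, Finset.mem_Icc, Finset.mem_Ioc]
      omega
    rw [h4]
    apply Finset.sum_union
    rw [Finset.disjoint_left]
    intro n hn hn2
    rw [Finset.mem_Icc] at hn
    rw [Finset.mem_Ioc] at hn2
    omega
  linarith [h1.2, h2.1]

theorem M3_log4 : 2 * (Real.log 4 + 4) + Real.log 2 ≤ 12 := by
  have h1 : Real.log 4 = 2 * Real.log 2 := by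
    rw [show (4 : ℝ) = 2 ^ (2 : ℕ) by norm_num, Real.log_pow]
    norm_num
  have h2 := Real.log_two_lt_d9
  rw [h1]
  norm_num at h2 ⊢
  linarith

/-- the reciprocals of the primes of a set inside an interval -/
theorem M3_primes (hm : st_Mertens) {x y : ℕ} (hx : 1 ≤ x) (hxy : x ≤ y) (L : ℝ) (hL : 0 < L)
    (S : Finset ℕ) (hS : S ⊆ Ioc x y) (hS2 : ∀ m ∈ S, m.Prime) (hS3 : ∀ m ∈ S, L ≤ Real.log m) :
    ∑ m ∈ S, 1 / (m : ℝ) ≤ (Real.log y - Real.log x + 2 * (Real.log 4 + 4)) / L := by
  rw [le_div_iff₀ hL, Finset.sum_mul]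
  have h1 : ∑ m ∈ S, 1 / (m : ℝ) * L ≤
      ∑ m ∈ S, ArithmeticFunction.vonMangoldt m / (m : ℝ) := by
    apply Finset.sum_le_sum
    intro m hmS
    rw [ArithmeticFunction.vonMangoldt_apply_prime (hS2 m hmS), one_div_mul_eq_div]
    exact div_le_div_of_nonneg_right (hS3 m hmS) (Nat.cast_nonneg m)
  have h2 : ∑ m ∈ S, ArithmeticFunction.vonMangoldt m / (m : ℝ) ≤
      ∑ m ∈ Ioc x y, ArithmeticFunction.vonMangoldt m / (m : ℝ) :=
    Finset.sum_le_sum_of_subset_of_nonneg hS
      (fun m _ _ => div_nonneg ArithmeticFunction.vonMangoldt_nonneg (Nat.cast_nonneg m))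
  exact (h1.trans h2).trans (M3_int hm hx hxy)

theorem R_M3 (hm : st_Mertens) : st_M3 := by
  constructor
  · intro q v₀ v₁ hq hqv h01
    have hqR : (0 : ℝ) < q := by exact_mod_cast hq
    have hv0 : (0 : ℝ) < v₀ := by
      have : 0 < v₀ := by omega
      exact_mod_cast this
    have hv1 : (0 : ℝ) < v₁ := by
      have : 0 < v₁ := by omega
      exact_mod_cast this
    have h2q : (2 : ℝ) ≤ (v₀ : ℝ) / q := by
      rw [le_div_iff₀ hqR]
      exact_mod_cast hqv
    have hlog : 0 < Real.log ((v₀ : ℝ) / q) := Real.log_pos (by linarith)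
    have hx2 : 2 ≤ v₀ / q := by
      rw [Nat.le_div_iff_mul_le hq]
      exact hqv
    have hxy : v₀ / q ≤ v₁ / q := Nat.div_le_div_right h01
    have hmain := M3_primes hm (x := v₀ / q) (y := v₁ / q) (by omega) hxy
      (Real.log ((v₀ : ℝ) / q)) hlog
      ((Icc 1 v₁).filter (fun m => m.Prime ∧ v₀ < q * m ∧ q * m ≤ v₁)) (by
        intro m hmS
        rw [Finset.mem_filter] at hmS
        obtain ⟨_, _, h3, h4⟩ := hmS
        rw [Finset.mem_Ioc]
        constructor
        · rw [Nat.div_lt_iff_lt_mul hq, mul_comm]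
          exact h3
        · rw [Nat.le_div_iff_mul_le hq, mul_comm]
          exact h4) (by
        intro m hmS
        rw [Finset.mem_filter] at hmS
        exact hmS.2.1) (by
        intro m hmS
        rw [Finset.mem_filter] at hmS
        apply Real.log_le_log (by linarith)
        rw [div_le_iff₀ hqR]
        have : v₀ ≤ m * q := by
          rw [mul_comm]
          exact hmS.2.2.1.le
        exact_mod_cast this)
    have hSP : SP q v₀ v₁ = ∑ m ∈ (Icc 1 v₁).filter (fun m => m.Prime ∧ v₀ < q * m ∧ q * m ≤ v₁),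
        1 / (m : ℝ) := rfl
    rw [hSP]
    refine hmain.trans ?_
    apply div_le_div_of_nonneg_right _ hlog.le
    -- logarithms of the end points
    have hy : Real.log ((v₁ / q : ℕ) : ℝ) ≤ Real.log ((v₁ : ℝ) / q) := by
      apply Real.log_le_log
      · have : 0 < v₁ / q := by omega
        exact_mod_cast this
      · exact Nat.cast_div_le
    have hx : Real.log ((v₀ : ℝ) / q / 2) ≤ Real.log ((v₀ / q : ℕ) : ℝ) := by
      apply Real.log_le_log (by positivity)
      have h5 : (v₀ : ℝ) < (q : ℝ) * ((v₀ / q : ℕ) : ℝ) + q := by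
        have h6 : q * (v₀ / q) + v₀ % q = v₀ := Nat.div_add_mod v₀ q
        have h7 : v₀ % q < q := Nat.mod_lt _ hq
        have h8 : v₀ < q * (v₀ / q) + q := by omega
        exact_mod_cast h8
      have h9 : (v₀ : ℝ) / q < ((v₀ / q : ℕ) : ℝ) + 1 := by
        rw [div_lt_iff₀ hqR]
        linarith
      have h10 : (2 : ℝ) ≤ ((v₀ / q : ℕ) : ℝ) := by exact_mod_cast hx2
      linarith
    rw [Real.log_div hv1.ne' hqR.ne'] at hy
    rw [Real.log_div (by positivity) (by norm_num), Real.log_div hv0.ne' hqR.ne'] at hx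
    rw [Real.log_div hv1.ne' hv0.ne']
    linarith [M3_log4]
  · intro x y hx hxy
    have hxR : (0 : ℝ) < x := by
      have : 0 < x := by omega
      exact_mod_cast this
    have hyR : (0 : ℝ) < y := by
      have : 0 < y := by omega
      exact_mod_cast this
    have hx1 : (1 : ℝ) < x := by
      have : 1 < x := by omega
      exact_mod_cast this
    have hlog : 0 < Real.log (x : ℝ) := Real.log_pos hx1
    have hmain := M3_primes hm (x := x) (y := y) (by omega) hxy (Real.log (x : ℝ)) hlog
      ((Ioc x y).filter Nat.Prime) (Finset.filter_subset _ _) (by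
        intro m hmS
        rw [Finset.mem_filter] at hmS
        exact hmS.2) (by
        intro m hmS
        rw [Finset.mem_filter, Finset.mem_Ioc] at hmS
        apply Real.log_le_log hxR
        exact_mod_cast hmS.1.1.le)
    refine hmain.trans ?_
    apply div_le_div_of_nonneg_right _ hlog.le
    rw [Real.log_div hyR.ne' hxR.ne']
    have h2 : 0 ≤ Real.log 2 := Real.log_nonneg (by norm_num)
    linarith [M3_log4]

end Pool.Agent.QQA
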