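import Pool.Agent.QQA.Defs

set_option autoImplicit false

namespace Pool.Agent.QQA

open Finset

theorem M4_le_of_log {a b : ℕ} (hb : 0 < b) (h : Real.log a ≤ Real.log b) : a ≤ b := by
  rcases Nat.eq_zero_or_pos a with h0 | h0
  · omega
  · have ha : (0 : ℝ) < a := by exact_mod_cast h0
    have hb' : (0 : ℝ) < b := by exact_mod_cast hb
    exact_mod_cast (Real.log_le_log_iff ha hb').1 h

theorem M4_lt_of_log {a b : ℕ} (hb : 0 < b) (h : Real.log a < Real.log b) : a < b := by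
  rcases Nat.eq_zero_or_pos a with h0 | h0
  · omega
  · have ha : (0 : ℝ) < a := by exact_mod_cast h0
    have hb' : (0 : ℝ) < b := by exact_mod_cast hb
    exact_mod_cast (Real.log_lt_log_iff ha hb').1 h

theorem M4_div {a b a' b' : ℝ} (hb' : 0 < b') (hab : a ≤ a') (hbb : b' ≤ b) (ha' : 0 ≤ a') : a / b ≤ a' / b' := by
  have hb : 0 < b := lt_of_lt_of_le hb' hbb
  calc a / b ≤ a' / b := div_le_div_of_nonneg_right hab hb.le
    _ ≤ a' / b' := div_le_div_of_nonneg_left ha' hb' hbb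

/-- sum of the reciprocals of the primes in terms of logarithms -/
theorem M4_recip (h3 : st_M3) {x y : ℕ} {lx ly c : ℝ} (hlx : 1 ≤ lx) (h1 : lx ≤ Real.log x) (h2 : Real.log y ≤ ly)
    (hc : 0 ≤ c) (hxy : ly - lx + 12 ≤ c * lx) :
    ∑ q ∈ (Ioc x y).filter Nat.Prime, 1 / (q : ℝ) ≤ c := by
  rcases Nat.lt_or_ge y x with h | h
  · rw [Finset.Ioc_eq_empty (by omega), Finset.filter_empty, Finset.sum_empty]
    exact hc
  · have hx2 : 2 ≤ x := by
      by_contra hcon
      have : x = 0 ∨ x = 1 := by omega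
      rcases this with rfl | rfl
      · simp at h1; linarith
      · simp at h1; linarith
    have hx0 : (0 : ℝ) < x := by exact_mod_cast (by omega : 0 < x)
    have hy0 : (0 : ℝ) < y := by exact_mod_cast (by omega : 0 < y)
    have hxy' : Real.log x ≤ Real.log y := Real.log_le_log hx0 (by exact_mod_cast h)
    refine (h3.2 x y hx2 h).trans ?_
    rw [Real.log_div hy0.ne' hx0.ne', div_le_iff₀ (by linarith)]
    have : c * lx ≤ c * Real.log x := mul_le_mul_of_nonneg_left h1 hc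
    linarith

theorem R_M4 (h3 : st_M3) (h4 : st_M4a) : st_M4 := by
  obtain ⟨X₀, hX₀⟩ : ∃ X₀ : ℕ, ∀ X : ℕ, X₀ ≤ X → (10 : ℝ) ^ 7 ≤ Real.log X := by
    have h := (Real.tendsto_log_atTop.comp tendsto_natCast_atTop_atTop).eventually_ge_atTop ((10 : ℝ) ^ 7)
    exact Filter.eventually_atTop.1 h
  refine ⟨X₀, fun X z v₀ v₁ hX hz hv hvv hv1 => ?_⟩
  have hl := hX₀ X hX
  set l := Real.log X with hldef
  have hXpos : 0 < X := by
    rcases Nat.eq_zero_or_pos X with h | h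
    · rw [hldef, h] at hl
      norm_num at hl
    · exact h
  have hXr : (0 : ℝ) < X := by exact_mod_cast hXpos
  -- logarithms of z, v₀
  have hlz : (1 / 3 - 1 / 10000) * l ≤ Real.log z := by
    have := Real.log_le_log (Real.rpow_pos_of_pos hXr _) hz
    rwa [Real.log_rpow hXr] at this
  have hlv : (1 - 2 / 10000) * l ≤ Real.log v₀ := by
    have := Real.log_le_log (Real.rpow_pos_of_pos hXr _) hv
    rwa [Real.log_rpow hXr] at this
  have hzpos : 0 < z := by
    have : (0 : ℝ) < z := lt_of_lt_of_le (Real.rpow_pos_of_pos hXr _) hz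
    exact_mod_cast this
  have hvpos : 0 < v₀ := by
    have : (0 : ℝ) < v₀ := lt_of_lt_of_le (Real.rpow_pos_of_pos hXr _) hv
    exact_mod_cast this
  have hzr : (0 : ℝ) < z := by exact_mod_cast hzpos
  have hvr : (0 : ℝ) < v₀ := by exact_mod_cast hvpos
  have hv1r : (0 : ℝ) < v₁ := by exact_mod_cast (lt_of_lt_of_le hvpos hvv)
  set L := Real.log ((v₁ : ℝ) / v₀) with hLdef
  have hL : 0 ≤ L := Real.log_nonneg (by rw [le_div_iff₀ hvr, one_mul]; exact_mod_cast hvv)
  have hl0 : (0 : ℝ) < l := by linarith [show (0 : ℝ) < 10 ^ 7 by norm_num]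
  have hl7 : (10000000 : ℝ) ≤ l := by linarith [show (10 : ℝ) ^ 7 = 10000000 by norm_num]
  have hlog2 : Real.log 2 ≤ 1 := by linarith [Real.log_two_lt_d9]
  -- X < z ^ 4
  have hXz : X < z ^ 4 := by
    apply M4_lt_of_log (pow_pos hzpos 4)
    rw [Nat.cast_pow, Real.log_pow]
    push_cast
    linarith
  set s := Nat.sqrt X with hs
  have hsX : s * s ≤ X := Nat.sqrt_le X
  have hlogs : ∀ q : ℕ, 0 < q → q ≤ s → Real.log q ≤ l / 2 := by
    intro q hq hqs
    have h1 : q * q ≤ X := (Nat.mul_le_mul hqs hqs).trans hsX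
    have hq0 : (0 : ℝ) < q := by exact_mod_cast hq
    have h2 : Real.log ((q : ℝ) * q) ≤ l := Real.log_le_log (by positivity) (by exact_mod_cast h1)
    rw [Real.log_mul hq0.ne' hq0.ne'] at h2
    linarith
  have hlogr : ∀ r : ℕ, 0 < r → r ≤ X / z ^ 2 → Real.log r ≤ (1 / 3 + 2 / 10000) * l := by
    intro r hr hrX
    have h1 : r * z ^ 2 ≤ X := (Nat.le_div_iff_mul_le (pow_pos hzpos 2)).1 hrX
    have hr0 : (0 : ℝ) < r := by exact_mod_cast hr
    have h2 : Real.log ((r : ℝ) * (z : ℝ) ^ 2) ≤ l := Real.log_le_log (by positivity) (by exact_mod_cast h1)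
    rw [Real.log_mul hr0.ne' (by positivity), Real.log_pow] at h2
    push_cast at h2
    linarith
  -- the bound for SP
  have hSP : ∀ (q : ℕ) (c : ℝ), 0 < q → 0 < c → Real.log q ≤ (1 - 2 / 10000 - c) * l → 1 / 10 ≤ c →
      SP q v₀ v₁ ≤ (L + 12) / (c * l) := by
    intro q c hq hc hlq hc10
    have hq0 : (0 : ℝ) < q := by exact_mod_cast hq
    have h2q : 2 * q ≤ v₀ := by
      apply M4_le_of_log hvpos
      push_cast
      rw [Real.log_mul two_ne_zero hq0.ne']
      nlinarith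
    have h1 := h3.1 q v₀ v₁ hq h2q hvv
    refine h1.trans (M4_div (by positivity) le_rfl ?_ (by linarith))
    rw [Real.log_div hvr.ne' hq0.ne']
    linarith
  -- swap
  have hswap : ∑ n ∈ Ioc v₀ v₁, (∑ q ∈ (Ioc z s).filter Nat.Prime,
      (if q ∣ n ∧ Rg z (n / q) then (1 : ℝ) else 0)) / n =
      ∑ q ∈ (Ioc z s).filter Nat.Prime, ∑ n ∈ Ioc v₀ v₁, (if q ∣ n ∧ Rg z (n / q) then (1 : ℝ) else 0) / n := by
    rw [Finset.sum_comm]
    exact Finset.sum_congr rfl fun n _ => Finset.sum_div _ _ _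
  rw [hswap]
  set w := ⌊(X : ℝ) ^ (5 / 12 : ℝ)⌋₊ with hw
  have hpw : (0 : ℝ) < (X : ℝ) ^ (5 / 12 : ℝ) := Real.rpow_pos_of_pos hXr _
  have hlogpw : Real.log ((X : ℝ) ^ (5 / 12 : ℝ)) = 5 / 12 * l := Real.log_rpow hXr _
  have hlogw1 : ∀ q : ℕ, 0 < q → q ≤ w → Real.log q ≤ 5 / 12 * l := by
    intro q hq hqw
    have hq0 : (0 : ℝ) < q := by exact_mod_cast hq
    have h1 : (q : ℝ) ≤ (X : ℝ) ^ (5 / 12 : ℝ) := (Nat.le_floor_iff hpw.le).1 hqw
    rw [← hlogpw]
    exact Real.log_le_log hq0 h1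
  have hlogw2 : 5 / 12 * l - 1 ≤ Real.log w := by
    have h2 : (2 : ℝ) ≤ (X : ℝ) ^ (5 / 12 : ℝ) := by
      rw [← Real.log_le_log_iff (by norm_num) hpw, hlogpw]
      linarith
    have h1 : (X : ℝ) ^ (5 / 12 : ℝ) / 2 ≤ w := by
      have := Nat.lt_floor_add_one ((X : ℝ) ^ (5 / 12 : ℝ))
      rw [← hw] at this
      linarith
    have h3 := Real.log_le_log (by positivity) h1
    rw [Real.log_div hpw.ne' two_ne_zero, hlogpw] at h3
    linarith
  have hlogw3 : Real.log w ≤ 5 / 12 * l := by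
    rcases Nat.eq_zero_or_pos w with h0 | h0
    · rw [h0, Nat.cast_zero, Real.log_zero]
      positivity
    · exact hlogw1 w h0 le_rfl
  have hlogs' : Real.log s ≤ l / 2 := by
    rcases Nat.eq_zero_or_pos s with h0 | h0
    · rw [h0, Nat.cast_zero, Real.log_zero]
      positivity
    · exact hlogs s h0 le_rfl
  have hlogXz : Real.log ((X / z ^ 2 : ℕ) : ℝ) ≤ (1 / 3 + 2 / 10000) * l := by
    rcases Nat.eq_zero_or_pos (X / z ^ 2) with h0 | h0
    · rw [h0, Nat.cast_zero, Real.log_zero]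
      positivity
    · exact hlogr _ h0 le_rfl
  -- the four sums
  have hA : ∑ q ∈ (Ioc z w).filter Nat.Prime, 1 / (q : ℝ) ≤ 0.2505 :=
    M4_recip h3 (lx := (1 / 3 - 1 / 10000) * l) (ly := 5 / 12 * l) (by linarith) hlz hlogw3 (by norm_num)
      (by norm_num; linarith)
  have hB : ∑ q ∈ (Ioc w s).filter Nat.Prime, 1 / (q : ℝ) ≤ 0.2001 :=
    M4_recip h3 (lx := 5 / 12 * l - 1) (ly := l / 2) (by linarith) hlogw2 hlogs' (by norm_num)
      (by norm_num; linarith)
  have hAll : ∑ q ∈ (Ioc z s).filter Nat.Prime, 1 / (q : ℝ) ≤ 0.5006 :=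
    M4_recip h3 (lx := (1 / 3 - 1 / 10000) * l) (ly := l / 2) (by linarith) hlz hlogs' (by norm_num)
      (by norm_num; linarith)
  have hR : ∑ r ∈ (Ioc z (X / z ^ 2)).filter Nat.Prime, 1 / (r : ℝ) ≤ 0.00095 :=
    M4_recip h3 (lx := (1 / 3 - 1 / 10000) * l) (ly := (1 / 3 + 2 / 10000) * l) (by linarith) hlz hlogXz (by norm_num)
      (by norm_num; linarith)
  set R := ∑ r ∈ (Ioc z (X / z ^ 2)).filter Nat.Prime, 1 / (r : ℝ) with hRdef
  have hR0 : 0 ≤ R := Finset.sum_nonneg fun r _ => by positivity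
  -- termwise
  have hterm : ∀ q ∈ (Ioc z s).filter Nat.Prime,
      ∑ n ∈ Ioc v₀ v₁, (if q ∣ n ∧ Rg z (n / q) then (1 : ℝ) else 0) / n ≤
      (if q ≤ w then 1 / (q : ℝ) * ((L + 12) / ((7 / 12 - 2 / 10000) * l)) else 0) +
      (if ¬ q ≤ w then 1 / (q : ℝ) * ((L + 12) / ((1 / 2 - 2 / 10000) * l)) else 0) +
      1 / (q : ℝ) * (R * ((L + 12) / (166 / 1000 * l))) := by
    intro q hq
    rw [Finset.mem_filter, Finset.mem_Ioc] at hq
    obtain ⟨⟨hzq, hqs⟩, hqp⟩ := hq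
    have hq0 : (0 : ℝ) < q := by exact_mod_cast hqp.pos
    have hlq := hlogs q hqp.pos hqs
    have hqv : q ≤ v₀ := by
      apply M4_le_of_log hvpos
      linarith
    refine (h4 X z v₀ v₁ q hzpos hXz hvv hv1 hzq hqp hqv).trans ?_
    have e1 : ∑ r ∈ (Ioc z (X / z ^ 2)).filter Nat.Prime, 1 / (r : ℝ) * SP (q * r) v₀ v₁ ≤
        R * ((L + 12) / (166 / 1000 * l)) := by
      rw [hRdef, Finset.sum_mul]
      refine Finset.sum_le_sum fun r hr => ?_
      rw [Finset.mem_filter, Finset.mem_Ioc] at hr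
      have hr0 : (0 : ℝ) < r := by exact_mod_cast hr.2.pos
      have hlr := hlogr r hr.2.pos hr.1.2
      refine mul_le_mul_of_nonneg_left ?_ (by positivity)
      refine hSP (q * r) (166 / 1000) (Nat.mul_pos hqp.pos hr.2.pos) (by norm_num) ?_ (by norm_num)
      push_cast
      rw [Real.log_mul hq0.ne' hr0.ne']
      linarith
    have e2 : 1 / (q : ℝ) * SP q v₀ v₁ ≤
        (if q ≤ w then 1 / (q : ℝ) * ((L + 12) / ((7 / 12 - 2 / 10000) * l)) else 0) +
        (if ¬ q ≤ w then 1 / (q : ℝ) * ((L + 12) / ((1 / 2 - 2 / 10000) * l)) else 0) := by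
      by_cases hqw : q ≤ w
      · rw [if_pos hqw, if_neg (not_not.2 hqw), add_zero]
        refine mul_le_mul_of_nonneg_left ?_ (by positivity)
        refine hSP q (7 / 12 - 2 / 10000) hqp.pos (by norm_num) ?_ (by norm_num)
        have := hlogw1 q hqp.pos hqw
        linarith
      · rw [if_neg hqw, if_pos hqw, zero_add]
        refine mul_le_mul_of_nonneg_left ?_ (by positivity)
        refine hSP q (1 / 2 - 2 / 10000) hqp.pos (by norm_num) ?_ (by norm_num)
        linarith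
    rw [mul_add]
    exact add_le_add e2 (mul_le_mul_of_nonneg_left e1 (by positivity))
  refine (Finset.sum_le_sum hterm).trans ?_
  rw [Finset.sum_add_distrib, Finset.sum_add_distrib, ← Finset.sum_filter, ← Finset.sum_filter, ← Finset.sum_mul,
    ← Finset.sum_mul, ← Finset.sum_mul]
  have g1 : ∑ q ∈ ((Ioc z s).filter Nat.Prime).filter (fun q => q ≤ w), 1 / (q : ℝ) ≤ 0.2505 := by
    refine (Finset.sum_le_sum_of_subset_of_nonneg ?_ (fun q _ _ => by positivity)).trans hA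
    intro q hq
    rw [Finset.mem_filter, Finset.mem_filter, Finset.mem_Ioc] at hq
    rw [Finset.mem_filter, Finset.mem_Ioc]
    exact ⟨⟨hq.1.1.1, hq.2⟩, hq.1.2⟩
  have g2 : ∑ q ∈ ((Ioc z s).filter Nat.Prime).filter (fun q => ¬ q ≤ w), 1 / (q : ℝ) ≤ 0.2001 := by
    refine (Finset.sum_le_sum_of_subset_of_nonneg ?_ (fun q _ _ => by positivity)).trans hB
    intro q hq
    rw [Finset.mem_filter, Finset.mem_filter, Finset.mem_Ioc] at hq
    rw [Finset.mem_filter, Finset.mem_Ioc]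
    exact ⟨⟨not_le.1 hq.2, hq.1.1.2⟩, hq.1.2⟩
  set Y := (L + 12) / l with hY
  have hY0 : 0 ≤ Y := by positivity
  have k1 : (L + 12) / ((7 / 12 - 2 / 10000) * l) = Y / (7 / 12 - 2 / 10000) := by
    rw [hY]; field_simp
  have k2 : (L + 12) / ((1 / 2 - 2 / 10000) * l) = Y / (1 / 2 - 2 / 10000) := by
    rw [hY]; field_simp
  have k3 : (L + 12) / (166 / 1000 * l) = Y / (166 / 1000) := by
    rw [hY]; field_simp
  have k4 : 84 / 100 * (L + 12) / l = 84 / 100 * Y := by rw [hY]; ring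
  rw [k1, k2, k3, k4]
  have m1 := mul_le_mul_of_nonneg_right g1 (show 0 ≤ Y / (7 / 12 - 2 / 10000) by
    apply div_nonneg hY0; norm_num)
  have m2 := mul_le_mul_of_nonneg_right g2 (show 0 ≤ Y / (1 / 2 - 2 / 10000) by
    apply div_nonneg hY0; norm_num)
  have m3 : (∑ q ∈ (Ioc z s).filter Nat.Prime, 1 / (q : ℝ)) * (R * (Y / (166 / 1000))) ≤ 0.5006 * (0.00095 * (Y / (166 / 1000))) := by
    apply mul_le_mul hAll _ (by positivity) (by norm_num)
    exact mul_le_mul_of_nonneg_right hR (by positivity)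
  have m4 : (0.2505 : ℝ) * (Y / (7 / 12 - 2 / 10000)) = (0.2505 / (7 / 12 - 2 / 10000)) * Y := by ring
  have m5 : (0.2001 : ℝ) * (Y / (1 / 2 - 2 / 10000)) = (0.2001 / (1 / 2 - 2 / 10000)) * Y := by ring
  have m6 : (0.5006 : ℝ) * (0.00095 * (Y / (166 / 1000))) = (0.5006 * 0.00095 / (166 / 1000)) * Y := by ring
  have n1 : (0.2505 / (7 / 12 - 2 / 10000) : ℝ) ≤ 0.4297 := by norm_num
  have n2 : (0.2001 / (1 / 2 - 2 / 10000) : ℝ) ≤ 0.4004 := by norm_num
  have n3 : (0.5006 * 0.00095 / (166 / 1000) : ℝ) ≤ 0.0029 := by norm_num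
  have o1 := mul_le_mul_of_nonneg_right n1 hY0
  have o2 := mul_le_mul_of_nonneg_right n2 hY0
  have o3 := mul_le_mul_of_nonneg_right n3 hY0
  rw [m4] at m1
  rw [m5] at m2
  rw [m6] at m3
  linarith

end Pool.Agent.QQA
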