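import Pool.Agent.QQA.Defs

set_option autoImplicit false

namespace Pool.Agent.QQA

open Finset

/-- if all the prime factors of `m > 1` exceed `z` then `z < m` -/
theorem M4a_lt {z m : ℕ} (h : Rg z m) (hm : 1 < m) : z < m := by
  have h1 : (Nat.minFac m).Prime := Nat.minFac_prime (by omega)
  have h2 := h _ h1 (Nat.minFac_dvd m)
  exact lt_of_lt_of_le h2 (Nat.minFac_le (by omega))

theorem M4a_dvd {z m d : ℕ} (h : Rg z m) (hd : d ∣ m) : Rg z d :=
  fun q hq hqd => h q hq (hqd.trans hd)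

/-- a rough number below `z^3` is a prime or a product of two primes -/
theorem M4a_split {z m : ℕ} (h : Rg z m) (hm : 1 < m) (hz : m < z ^ 3) :
    m.Prime ∨ ∃ r s : ℕ, r.Prime ∧ s.Prime ∧ z < r ∧ z < s ∧ m = r * s := by
  by_cases hp : m.Prime
  · exact Or.inl hp
  · right
    have h1 : (Nat.minFac m).Prime := Nat.minFac_prime (by omega)
    obtain ⟨s, hs⟩ := Nat.minFac_dvd m
    have hzr : z < Nat.minFac m := h _ h1 (Nat.minFac_dvd m)
    have hs0 : s ≠ 0 := by
      rintro rfl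
      omega
    have hs1 : s ≠ 1 := by
      rintro rfl
      apply hp
      rw [mul_one] at hs
      rw [hs]
      exact h1
    have hs2 : 1 < s := by omega
    have hsd : s ∣ m := ⟨Nat.minFac m, by rw [mul_comm]; exact hs⟩
    have hRs : Rg z s := M4a_dvd h hsd
    have hzs : z < s := M4a_lt hRs hs2
    refine ⟨Nat.minFac m, s, h1, ?_, hzr, hzs, hs⟩
    by_contra hsp
    have h2 : (Nat.minFac s).Prime := Nat.minFac_prime (by omega)
    obtain ⟨t, ht⟩ := Nat.minFac_dvd s
    have ht0 : t ≠ 0 := by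
      rintro rfl
      omega
    have ht1 : t ≠ 1 := by
      rintro rfl
      apply hsp
      rw [mul_one] at ht
      rw [ht]
      exact h2
    have htd : t ∣ s := ⟨Nat.minFac s, by rw [mul_comm]; exact ht⟩
    have hzt : z < t := M4a_lt (M4a_dvd hRs htd) (by omega)
    have hzr2 : z < Nat.minFac s := hRs _ h2 (Nat.minFac_dvd s)
    have h3 : z * z ≤ s := by
      rw [ht]
      exact Nat.mul_le_mul hzr2.le hzt.le
    have h4 : z * (z * z) ≤ m := by
      rw [hs]
      exact Nat.mul_le_mul hzr.le h3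
    have h5 : z ^ 3 = z * (z * z) := by ring
    omega

theorem R_M4a : st_M4a := by
  classical
  intro X z v₀ v₁ q hz hX h01 h1X hzq hq hqv
  have hq0 : 0 < q := hq.pos
  have hqR : (0 : ℝ) < q := by exact_mod_cast hq0
  set S : Finset ℕ := (Icc 1 v₁).filter (fun m => v₀ < q * m ∧ q * m ≤ v₁ ∧ Rg z m) with hS
  set S1 : Finset ℕ := (Icc 1 v₁).filter (fun m => m.Prime ∧ v₀ < q * m ∧ q * m ≤ v₁) with hS1
  set R : Finset ℕ := (Ioc z (X / z ^ 2)).filter Nat.Prime with hR
  set Tr : ℕ → Finset ℕ := fun r =>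
    (Icc 1 v₁).filter (fun m => m.Prime ∧ v₀ < q * r * m ∧ q * r * m ≤ v₁) with hTr
  -- the left side
  have hL : ∑ n ∈ Ioc v₀ v₁, (if q ∣ n ∧ Rg z (n / q) then (1 : ℝ) else 0) / n =
      ∑ m ∈ S, 1 / (q : ℝ) * (1 / (m : ℝ)) := by
    have h1 : ∑ n ∈ Ioc v₀ v₁, (if q ∣ n ∧ Rg z (n / q) then (1 : ℝ) else 0) / n =
        ∑ n ∈ (Ioc v₀ v₁).filter (fun n => q ∣ n ∧ Rg z (n / q)), 1 / (n : ℝ) := by
      rw [Finset.sum_filter]
      apply Finset.sum_congr rfl
      intro n _
      by_cases h : q ∣ n ∧ Rg z (n / q)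
      · rw [if_pos h, if_pos h]
      · rw [if_neg h, if_neg h, zero_div]
    rw [h1]
    apply Finset.sum_nbij' (fun n => n / q) (fun m => q * m)
    · intro n hn
      rw [Finset.mem_filter, Finset.mem_Ioc] at hn
      obtain ⟨⟨h2, h3⟩, ⟨k, hk⟩, h5⟩ := hn
      rw [hS, Finset.mem_filter, Finset.mem_Icc]
      subst hk
      rw [Nat.mul_div_cancel_left k hq0] at h5
      rw [Nat.mul_div_cancel_left k hq0]
      have hk0 : 0 < k := by
        rcases Nat.eq_zero_or_pos k with h | h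
        · subst h
          omega
        · exact h
      refine ⟨⟨hk0, ?_⟩, h2, h3, h5⟩
      calc k = 1 * k := (one_mul k).symm
        _ ≤ q * k := Nat.mul_le_mul_right k hq0
        _ ≤ v₁ := h3
    · intro m hm
      rw [hS, Finset.mem_filter, Finset.mem_Icc] at hm
      obtain ⟨⟨_, _⟩, h2, h3, h4⟩ := hm
      rw [Finset.mem_filter, Finset.mem_Ioc]
      refine ⟨⟨h2, h3⟩, Nat.dvd_mul_right q m, ?_⟩
      rw [Nat.mul_div_cancel_left m hq0]
      exact h4
    · intro n hn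
      rw [Finset.mem_filter] at hn
      exact Nat.mul_div_cancel' hn.2.1
    · intro m _
      exact Nat.mul_div_cancel_left m hq0
    · intro n hn
      rw [Finset.mem_filter] at hn
      obtain ⟨_, ⟨k, hk⟩, _⟩ := hn
      subst hk
      rw [Nat.mul_div_cancel_left k hq0]
      push_cast
      rw [one_div_mul_one_div]
  rw [hL, ← Finset.mul_sum]
  apply mul_le_mul_of_nonneg_left _ (by positivity)
  -- the right side as a sum over pairs
  set U : Finset ℕ := (R.sigma Tr).image (fun t => t.1 * t.2) with hU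
  have hsub : S ⊆ S1 ∪ U := by
    intro m hm
    rw [hS, Finset.mem_filter, Finset.mem_Icc] at hm
    obtain ⟨⟨hm1, hm2⟩, h2, h3, h4⟩ := hm
    have hm3 : 1 < m := by
      rcases Nat.lt_or_ge 1 m with h | h
      · exact h
      · exfalso
        have : q * m ≤ q * 1 := Nat.mul_le_mul_left q h
        omega
    have hz0 : 0 < z := hz
    have hmz : m < z ^ 3 := by
      by_contra hc
      have hc' : z ^ 3 ≤ m := not_lt.mp hc
      have h5 : z * z ^ 3 ≤ q * m := Nat.mul_le_mul hzq.le hc'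
      have h6 : z ^ 4 = z * z ^ 3 := by ring
      omega
    rcases M4a_split h4 hm3 hmz with hp | ⟨r, s, hr, hs, hzr, hzs, hrs⟩
    · rw [Finset.mem_union]
      left
      rw [hS1, Finset.mem_filter, Finset.mem_Icc]
      exact ⟨⟨hm1, hm2⟩, hp, h2, h3⟩
    · rw [Finset.mem_union]
      right
      rw [hU, Finset.mem_image]
      refine ⟨⟨r, s⟩, ?_, hrs.symm⟩
      rw [Finset.mem_sigma]
      have h6 : q * r * s = q * m := by rw [hrs, mul_assoc]
      refine ⟨?_, ?_⟩
      · rw [hR, Finset.mem_filter, Finset.mem_Ioc]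
        refine ⟨⟨hzr, ?_⟩, hr⟩
        rw [Nat.le_div_iff_mul_le (by positivity)]
        have h7 : r * z ^ 2 ≤ q * r * s := by
          calc r * z ^ 2 = z * r * z := by ring
            _ ≤ q * r * s := Nat.mul_le_mul (Nat.mul_le_mul_right r hzq.le) hzs.le
        exact (h7.trans (h6.le.trans h3)).trans h1X
      · rw [hTr, Finset.mem_filter, Finset.mem_Icc]
        refine ⟨⟨hs.pos, ?_⟩, hs, ?_, ?_⟩
        · show s ≤ v₁
          have h8 : 1 * s ≤ r * s := Nat.mul_le_mul_right s hr.pos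
          rw [one_mul, ← hrs] at h8
          omega
        · show v₀ < q * r * s
          omega
        · show q * r * s ≤ v₁
          omega
  have hA : ∑ m ∈ S, 1 / (m : ℝ) ≤ ∑ m ∈ S1 ∪ U, 1 / (m : ℝ) :=
    Finset.sum_le_sum_of_subset_of_nonneg hsub (fun m _ _ => by positivity)
  have hB : ∑ m ∈ S1 ∪ U, 1 / (m : ℝ) ≤ ∑ m ∈ S1, 1 / (m : ℝ) + ∑ m ∈ U, 1 / (m : ℝ) := by
    rw [← Finset.sum_union_inter]
    have h0 : 0 ≤ ∑ m ∈ S1 ∩ U, 1 / (m : ℝ) := Finset.sum_nonneg (fun m _ => by positivity)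
    linarith
  have hC : ∑ m ∈ U, 1 / (m : ℝ) ≤ ∑ t ∈ R.sigma Tr, 1 / ((t.1 * t.2 : ℕ) : ℝ) := by
    rw [← Finset.sum_fiberwise_of_maps_to (g := fun t : (_ : ℕ) × ℕ => t.1 * t.2)
      (t := U) (fun t ht => Finset.mem_image_of_mem _ ht)]
    apply Finset.sum_le_sum
    intro m hm
    rw [hU, Finset.mem_image] at hm
    obtain ⟨t, ht, rfl⟩ := hm
    have h9 : t ∈ (R.sigma Tr).filter (fun u => u.1 * u.2 = t.1 * t.2) := by
      rw [Finset.mem_filter]
      exact ⟨ht, rfl⟩
    exact Finset.single_le_sum (f := fun u : (_ : ℕ) × ℕ => 1 / ((u.1 * u.2 : ℕ) : ℝ))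
      (fun u _ => by positivity) h9
  have hD : ∑ t ∈ R.sigma Tr, 1 / ((t.1 * t.2 : ℕ) : ℝ) =
      ∑ r ∈ R, 1 / (r : ℝ) * SP (q * r) v₀ v₁ := by
    rw [Finset.sum_sigma]
    apply Finset.sum_congr rfl
    intro r _
    unfold SP
    rw [Finset.mul_sum]
    apply Finset.sum_congr rfl
    intro m _
    push_cast
    rw [one_div_mul_one_div]
  have hE : ∑ m ∈ S1, 1 / (m : ℝ) = SP q v₀ v₁ := rfl
  linarith

end Pool.Agent.QQA
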