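import Pool.Agent.QQA.Defs

set_option autoImplicit false

namespace Pool.Agent.QQA

open Finset

theorem M5_le_wn (V : ℕ) : V ≤ wn V := by
  unfold wn
  omega

theorem M5_succ (v₀ j : ℕ) : vv v₀ (j + 1) = wn (vv v₀ j) := Function.iterate_succ_apply' _ _ _

theorem M5_mono (v₀ : ℕ) : Monotone (vv v₀) :=
  monotone_nat_of_le_succ fun j => by
    rw [M5_succ]
    exact M5_le_wn _

theorem M5_zero (v₀ : ℕ) : vv v₀ 0 = v₀ := rfl

/-- the inner sum with the uniform range -/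
noncomputable def M5_S (X z n : ℕ) : ℝ := ∑ q ∈ (Ioc z (Nat.sqrt X)).filter Nat.Prime,
  (if q ∣ n ∧ Rg z (n / q) then (1 : ℝ) else 0)

theorem M5_S_nonneg (X z n : ℕ) : 0 ≤ M5_S X z n := by
  unfold M5_S
  refine Finset.sum_nonneg fun q _ => ?_
  split_ifs <;> norm_num

theorem M5_gQ (X z V : ℕ) (hV : 1 ≤ V) (hX : wn V ≤ X) :
    tot V (gQ z V) / V ≤ 11 / 10 * ∑ n ∈ II V, M5_S X z n / n := by
  unfold tot
  rw [Finset.sum_div, Finset.mul_sum]
  refine Finset.sum_le_sum fun n hn => ?_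
  have hn' := hn
  unfold II at hn'
  rw [Finset.mem_Ioc] at hn'
  have hV0 : (0 : ℝ) < V := by exact_mod_cast hV
  have hn0 : (0 : ℝ) < n := by exact_mod_cast (by omega : 0 < n)
  have hnV : (n : ℝ) ≤ 11 / 10 * V := by
    have h1 : n ≤ V + V / 10 := hn'.2
    have h2 : 10 * n ≤ 11 * V := by omega
    have h3 : (10 : ℝ) * n ≤ 11 * V := by exact_mod_cast h2
    linarith
  have h1 : gQ z V n ≤ M5_S X z n := by
    unfold gQ M5_S
    rw [if_pos hn]
    refine Finset.sum_le_sum_of_subset_of_nonneg ?_ (fun q _ _ => by split_ifs <;> norm_num)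
    intro q hq
    rw [Finset.mem_filter, Finset.mem_Ioc] at hq ⊢
    exact ⟨⟨hq.1.1, hq.1.2.trans (Nat.sqrt_le_sqrt hX)⟩, hq.2⟩
  have h2 := M5_S_nonneg X z n
  calc gQ z V n / V ≤ M5_S X z n / V := div_le_div_of_nonneg_right h1 hV0.le
    _ ≤ 11 / 10 * (M5_S X z n / n) := by
      rw [mul_div_assoc', div_le_div_iff₀ hV0 hn0]
      nlinarith [mul_le_mul_of_nonneg_left hnV h2]

theorem R_M5 (h1 : st_M1) (h2 : st_M2) (h4 : st_M4) : st_M5 := by
  obtain ⟨X₄, hX₄⟩ := h4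
  obtain ⟨J, hJ⟩ : ∃ J : ℕ, J = 21000 := ⟨_, rfl⟩
  have hJr : (J : ℝ) = 21000 := by rw [hJ]; norm_num
  obtain ⟨X₅, hX₅⟩ : ∃ X₀ : ℕ, ∀ X : ℕ, X₀ ≤ X → (1000000000 : ℝ) ≤ Real.log X := by
    have h := (Real.tendsto_log_atTop.comp tendsto_natCast_atTop_atTop).eventually_ge_atTop (1000000000 : ℝ)
    exact Filter.eventually_atTop.1 h
  refine ⟨1 / 1000, 2 ^ (J + 1), by norm_num, by positivity, max X₄ X₅, fun X Y z hX hXY hYX hz => ?_⟩
  have hl := hX₅ X ((le_max_right _ _).trans hX)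
  have hXm := (le_max_left _ _).trans hX
  clear hX₅ hX
  set l := Real.log X with hldef
  have hl0 : 0 < l := by linarith
  have hXpos : 0 < X := by
    rcases Nat.eq_zero_or_pos X with h | h
    · rw [hldef, h] at hl
      norm_num at hl
    · exact h
  have hXr : (0 : ℝ) < X := by exact_mod_cast hXpos
  have hYr : (0 : ℝ) < Y := lt_of_lt_of_le (Real.rpow_pos_of_pos hXr _) hXY
  have hlY : (1 - 1 / 10000) * l ≤ Real.log Y := by
    have := Real.log_le_log (Real.rpow_pos_of_pos hXr _) hXY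
    rwa [Real.log_rpow hXr] at this
  have hlog2 : Real.log 2 ≤ 1 := by linarith [Real.log_two_lt_d9]
  set v₀ := Y / 2 ^ J with hv₀
  have hdiv1 : v₀ * 2 ^ J ≤ Y := Nat.div_mul_le_self _ _
  have hdiv2 : Y < (v₀ + 1) * 2 ^ J := by
    have h3 : 0 < 2 ^ J := pow_pos (by norm_num) J
    exact (Nat.div_lt_iff_lt_mul h3).1 (Nat.lt_succ_self v₀)
  have hvpos : 0 < v₀ := by
    rcases Nat.eq_zero_or_pos v₀ with h | h
    · exfalso
      rw [h, zero_add, one_mul] at hdiv2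
      have h3 : (Y : ℝ) ≤ 2 ^ J := by exact_mod_cast hdiv2.le
      have h4 := Real.log_le_log hYr h3
      rw [Real.log_pow] at h4
      have h5 : (J : ℝ) * Real.log 2 ≤ J * 1 := mul_le_mul_of_nonneg_left hlog2 (Nat.cast_nonneg _)
      linarith
    · exact h
  have hvr : (0 : ℝ) < v₀ := by exact_mod_cast hvpos
  have hYA : (Y : ℝ) ≤ 2 ^ (J + 1) * v₀ := by
    have h3 : Y ≤ 2 ^ (J + 1) * v₀ := by
      refine hdiv2.le.trans ?_
      rw [pow_succ, mul_comm, mul_assoc]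
      exact Nat.mul_le_mul_left _ (by omega)
    exact_mod_cast h3
  have hlv : (1 - 2 / 10000) * l ≤ Real.log v₀ := by
    have h3 := Real.log_le_log hYr hYA
    rw [Real.log_mul (by positivity) hvr.ne', Real.log_pow] at h3
    have h5 : ((J + 1 : ℕ) : ℝ) * Real.log 2 ≤ ((J + 1 : ℕ) : ℝ) * 1 := mul_le_mul_of_nonneg_left hlog2 (Nat.cast_nonneg _)
    push_cast at h3 h5
    linarith
  have hv100 : 100 ≤ v₀ := by
    have h3 : Real.log (100 : ℝ) ≤ Real.log v₀ := by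
      have h4 : Real.log (100 : ℝ) ≤ 100 - 1 := Real.log_le_sub_one_of_pos (by norm_num)
      linarith
    have h5 := (Real.log_le_log_iff (by norm_num) hvr).1 h3
    exact_mod_cast h5
  have hXv : (X : ℝ) ^ (1 - 2 / 10000 : ℝ) ≤ v₀ := by
    rw [← Real.log_le_log_iff (Real.rpow_pos_of_pos hXr _) hvr, Real.log_rpow hXr]
    exact hlv
  obtain ⟨m1, m2, m3⟩ := h1 v₀ J hv100
  set v₁ := vv v₀ J with hv₁
  have hv1Y : v₁ ≤ Y := by
    have h3 : (v₁ : ℝ) ≤ Y := by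
      have h5 : ((11 / 10 : ℝ)) ^ J ≤ 2 ^ J := pow_le_pow_left₀ (by norm_num) (by norm_num) J
      have h6 : (v₀ : ℝ) * 2 ^ J ≤ Y := by exact_mod_cast hdiv1
      have h7 := mul_le_mul_of_nonneg_right h5 hvr.le
      linarith
    exact_mod_cast h3
  have hv01 : v₀ ≤ v₁ := M5_mono v₀ (Nat.zero_le J)
  have hv1r : (0 : ℝ) < v₁ := by exact_mod_cast (lt_of_lt_of_le hvpos hv01)
  have hlogv1 : Real.log v₁ ≤ l := Real.log_le_log hv1r (by exact_mod_cast hv1Y.trans hYX)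
  have hlogv1' : 0 < Real.log v₁ := by
    have h3 : Real.log v₀ ≤ Real.log v₁ := Real.log_le_log hvr (by exact_mod_cast hv01)
    linarith
  set L := Real.log ((v₁ : ℝ) / v₀) with hLdef
  have hL : 1000 ≤ L := by
    have h3 : (21 / 20 : ℝ) ^ J ≤ (v₁ : ℝ) / v₀ := by
      rw [le_div_iff₀ hvr]
      exact m1
    have h5 := Real.log_le_log (by positivity) h3
    rw [Real.log_pow] at h5
    have h6 : (1 / 21 : ℝ) ≤ Real.log (21 / 20) := by
      have := Real.one_sub_inv_le_log_of_pos (show (0 : ℝ) < 21 / 20 by norm_num)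
      norm_num at this ⊢
      exact this
    have h7 : (J : ℝ) * (1 / 21) ≤ J * Real.log (21 / 20) := mul_le_mul_of_nonneg_left h6 (Nat.cast_nonneg _)
    rw [hJr] at h7 h5
    linarith
  by_contra hcon
  push Not at hcon
  -- the claim fails for all the scales
  have hfail : ∀ j ∈ range J, tot (vv v₀ j) (gP (vv v₀ j)) / (vv v₀ j : ℝ) ≤
      11 / 10 * ∑ n ∈ II (vv v₀ j), M5_S X z n / n + 1 / 1000 / l := by
    intro j hj
    rw [Finset.mem_range] at hj
    have hVv : v₀ ≤ vv v₀ j := M5_mono v₀ (Nat.zero_le j)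
    have hwn : wn (vv v₀ j) ≤ Y := by
      rw [← M5_succ]
      exact (M5_mono v₀ (by omega : j + 1 ≤ J)).trans hv1Y
    have hV0 : (0 : ℝ) < (vv v₀ j : ℝ) := by exact_mod_cast (lt_of_lt_of_le hvpos hVv)
    have hYV : (Y : ℝ) ≤ 2 ^ (J + 1) * (vv v₀ j : ℝ) := by
      refine hYA.trans (mul_le_mul_of_nonneg_left ?_ (by positivity))
      exact_mod_cast hVv
    have h3 := hcon (vv v₀ j) hYV hwn
    have h5 := M5_gQ X z (vv v₀ j) (by omega) (hwn.trans hYX)
    have h6 : tot (vv v₀ j) (gP (vv v₀ j)) / (vv v₀ j : ℝ) ≤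
        tot (vv v₀ j) (gQ z (vv v₀ j)) / (vv v₀ j : ℝ) + 1 / 1000 / l := by
      have e1 : 1 / 1000 / l = (1 / 1000 * (vv v₀ j : ℝ) / l) / (vv v₀ j : ℝ) := by field_simp
      rw [e1, ← add_div]
      exact div_le_div_of_nonneg_right (by linarith) hV0.le
    linarith
  have hsum := Finset.sum_le_sum hfail
  rw [Finset.sum_add_distrib, ← Finset.mul_sum, m3, Finset.sum_const, Finset.card_range, nsmul_eq_mul] at hsum
  have hM2 := h2 v₀ J hv100
  have hM4 : ∑ n ∈ Ioc v₀ v₁, M5_S X z n / n ≤ 84 / 100 * (L + 12) / l :=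
    hX₄ X z v₀ v₁ hXm hz hXv hv01 (hv1Y.trans hYX)
  have hdiv : (L - 12) / l ≤ (L - 12) / Real.log v₁ := div_le_div_of_nonneg_left (by linarith) hlogv1' hlogv1
  have hfin : (L - 12) / l ≤ 11 / 10 * (84 / 100 * (L + 12) / l) + (J : ℝ) * (1 / 1000 / l) := by
    have hM2' : (L - 12) / Real.log v₁ ≤ ∑ j ∈ range J, tot (vv v₀ j) (gP (vv v₀ j)) / (vv v₀ j : ℝ) := hM2
    linarith
  rw [hJr] at hfin
  have hfin2 : L - 12 ≤ 11 / 10 * (84 / 100 * (L + 12)) + 21 := by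
    have e1 : 11 / 10 * (84 / 100 * (L + 12) / l) + (21000 : ℝ) * (1 / 1000 / l) =
        (11 / 10 * (84 / 100 * (L + 12)) + 21) / l := by
      field_simp
      ring
    rw [e1] at hfin
    exact (div_le_div_iff_of_pos_right hl0).1 hfin
  linarith

end Pool.Agent.QQA
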