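import Pool.Agent.TIA.T4
import Pool.Agent.GCN.H4
import Pool.Agent.Lib.helper69.DivisorBound
import Pool.Agent.QQA.R_B1
import Pool.Agent.QQA.R_B2
import Pool.Agent.QQA.R_B3
import Pool.Agent.QQA.R_B4
import Pool.Agent.QQA.R_B5
import Pool.Agent.QQA.R_B6
import Pool.Agent.QQA.R_B7
import Pool.Agent.QQA.R_B8
import Pool.Agent.QQA.R_C12
import Pool.Agent.QQA.R_C4
import Pool.Agent.QQA.R_C6
import Pool.Agent.QQA.R_F01
import Pool.Agent.QQA.R_F2
import Pool.Agent.QQA.R_F3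
import Pool.Agent.QQA.R_F4
import Pool.Agent.QQA.R_FL
import Pool.Agent.QQA.R_LD
import Pool.Agent.QQA.R_M12
import Pool.Agent.QQA.R_M3
import Pool.Agent.QQA.R_M4
import Pool.Agent.QQA.R_M4a
import Pool.Agent.QQA.R_M5

/-!
# [QQA] assembly
-/

set_option autoImplicit false

namespace Pool.Agent.QQA

theorem f_tiia : st_TIIA := fun e he he' => Pool.Agent.TIA.typeIIa e he he'

theorem f_tau : st_tau := fun ε hε => by
  obtain ⟨C, hC, h⟩ := Pool.Agent.Lib.helper69.card_divisors_le_rpow ε hε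
  exact ⟨C, lt_of_lt_of_le one_pos hC, fun n hn => h n hn⟩

theorem f_mertens : st_Mertens := fun N hN => GCN.h4_mertens N hN

theorem f_B8 : st_B8 := R_B8 (R_B6 f_tiia f_tau) (R_B7 R_B2 R_B3 (R_B4 R_B1) R_B5)

theorem f_C6 : st_C6 := R_C6 R_LD (R_C2 R_C1) R_FL R_C4

theorem f_M5 : st_M5 :=
  R_M5 R_M1 (R_M2 f_mertens R_M1) (R_M4 (R_M3 f_mertens) R_M4a)

theorem f_final : st_F4 := R_F4 (R_F3 (R_F2 f_B8 f_C6 f_M5 R_F0 (R_F1 R_F0)))

end Pool.Agent.QQA
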