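import Pool.Agent.EPK.V2
import Pool.Agent.QQA.LDefs

/-!
# [QQA-LV2b] Vaughan's identity for the sums `TT`
-/

set_option autoImplicit false

namespace Pool.Agent.QQA

open Finset Pool.Agent.MP_2f88e5_nt Pool.Agent.EPK

/-- the exponential in two variables -/
noncomputable def v2G (p : ℕ) [Fact p.Prime] (a : ZMod p) (m k : ℕ) : ℂ :=
  ea p (a * ((m : ZMod p) * (k : ZMod p))⁻¹)

theorem v2_term1 (p : ℕ) [Fact p.Prime] (a : ZMod p) (N U : ℕ) (hU : U ≤ N) :
    ∑ n ∈ Icc 1 N, (((if n ≤ U then ArithmeticFunction.vonMangoldt n else 0 : ℝ)) : ℂ) *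
      ea p (a * ((n : ZMod p))⁻¹) =
    ∑ n ∈ Icc 1 U, ((ArithmeticFunction.vonMangoldt n : ℝ) : ℂ) * ea p (a * ((n : ZMod p))⁻¹) := by
  have h1 : Icc 1 U = (Icc 1 N).filter (fun n => n ≤ U) := by
    ext n
    simp only [mem_filter, mem_Icc]
    omega
  rw [h1, sum_filter]
  refine sum_congr rfl fun n _ => ?_
  split_ifs <;> simp

theorem v2_term2 (p : ℕ) [Fact p.Prime] (a : ZMod p) (N U : ℕ) (hU : U ≤ N) :
    ∑ n ∈ Icc 1 N, ((∑ q ∈ (n.divisorsAntidiagonal).filter (fun q => q.1 ≤ U),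
        ((ArithmeticFunction.moebius q.1 : ℤ) : ℝ) * Real.log q.2 : ℝ) : ℂ) *
      ea p (a * ((n : ZMod p))⁻¹) =
    ∑ j ∈ Icc 2 N, (Real.log ((j : ℝ) / ((j : ℝ) - 1)) : ℂ) *
        LL p (fun m => ((ArithmeticFunction.moebius m : ℤ) : ℂ)) (fun _ => j - 1)
          (fun m => N / m) 1 U a := by
  have h1 : ∀ n ∈ Icc 1 N, ((∑ q ∈ (n.divisorsAntidiagonal).filter (fun q => q.1 ≤ U),
        ((ArithmeticFunction.moebius q.1 : ℤ) : ℝ) * Real.log q.2 : ℝ) : ℂ) *
      ea p (a * ((n : ZMod p))⁻¹) = ∑ q ∈ n.divisorsAntidiagonal,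
        (fun m k : ℕ => if m ≤ U then ((ArithmeticFunction.moebius m : ℤ) : ℂ) *
          ((Real.log k : ℝ) : ℂ) * v2G p a m k else 0) q.1 q.2 := by
    intro n _
    rw [sum_filter, Complex.ofReal_sum, sum_mul]
    refine sum_congr rfl fun q hq => ?_
    rw [Nat.mem_divisorsAntidiagonal] at hq
    rw [← hq.1]
    simp only [v2G]
    split_ifs <;> push_cast <;> simp
  rw [sum_congr rfl h1]
  refine (sum_antidiag N (fun m k : ℕ => if m ≤ U then ((ArithmeticFunction.moebius m : ℤ) : ℂ) *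
          ((Real.log k : ℝ) : ℂ) * v2G p a m k else 0)).trans ?_
  have h2 : ∑ m ∈ Icc 1 N, ∑ k ∈ Icc 1 (N / m),
      (fun m k : ℕ => if m ≤ U then ((ArithmeticFunction.moebius m : ℤ) : ℂ) *
          ((Real.log k : ℝ) : ℂ) * v2G p a m k else 0) m k =
      ∑ m ∈ Icc 1 U, ((ArithmeticFunction.moebius m : ℤ) : ℂ) *
        ∑ k ∈ Icc 1 (N / m), ((Real.log k : ℝ) : ℂ) * v2G p a m k := by
    have h3 : Icc 1 U = (Icc 1 N).filter (fun n => n ≤ U) := by
      ext n
      simp only [mem_filter, mem_Icc]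
      omega
    rw [h3, sum_filter]
    refine sum_congr rfl fun m _ => ?_
    by_cases hm : m ≤ U
    · simp only [hm, if_true]
      rw [mul_sum]
      refine sum_congr rfl fun k _ => ?_
      ring
    · simp only [hm, if_false, sum_const_zero]
  rw [h2]
  have h4 : ∀ m ∈ Icc 1 U, ((ArithmeticFunction.moebius m : ℤ) : ℂ) *
        ∑ k ∈ Icc 1 (N / m), ((Real.log k : ℝ) : ℂ) * v2G p a m k =
      ∑ j ∈ Icc 2 N, (Real.log ((j : ℝ) / ((j : ℝ) - 1)) : ℂ) *
        (((ArithmeticFunction.moebius m : ℤ) : ℂ) *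
          ∑ k ∈ Ioc (j - 1) (N / m), v2G p a m k) := by
    intro m _
    rw [log_abel (N / m) N (Nat.div_le_self _ _), mul_sum]
    refine sum_congr rfl fun j _ => ?_
    ring
  rw [sum_congr rfl h4, sum_comm]
  refine sum_congr rfl fun j _ => ?_
  rw [← mul_sum]
  rfl

theorem v2_term3 (p : ℕ) [Fact p.Prime] (a : ZMod p) (N U : ℕ) (hU : 1 ≤ U) (hU2 : U ^ 2 ≤ N) :
    ∑ n ∈ Icc 1 N, ((∑ q ∈ n.divisorsAntidiagonal, va U q.1 : ℝ) : ℂ) *
      ea p (a * ((n : ZMod p))⁻¹) =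
      LL p (fun m => (va U m : ℂ)) (fun _ => 0) (fun m => N / m) 1 U a +
      BBN p (fun m => (va U m : ℂ)) (fun _ => 1) N U (U ^ 2) a := by
  have h1 : ∀ n ∈ Icc 1 N, ((∑ q ∈ n.divisorsAntidiagonal, va U q.1 : ℝ) : ℂ) *
      ea p (a * ((n : ZMod p))⁻¹) = ∑ q ∈ n.divisorsAntidiagonal,
        (fun m k : ℕ => (va U m : ℂ) * v2G p a m k) q.1 q.2 := by
    intro n _
    rw [Complex.ofReal_sum, sum_mul]
    refine sum_congr rfl fun q hq => ?_
    rw [Nat.mem_divisorsAntidiagonal] at hq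
    rw [← hq.1]
    simp only [v2G]
    push_cast
    rfl
  rw [sum_congr rfl h1]
  refine (sum_antidiag N (fun m k : ℕ => (va U m : ℂ) * v2G p a m k)).trans ?_
  have hUU : U ≤ U ^ 2 := by nlinarith
  have h3 : Icc 1 N = Icc 1 U ∪ (Ioc U (U ^ 2) ∪ Ioc (U ^ 2) N) := by
    ext n
    simp only [mem_union, mem_Icc, mem_Ioc]
    omega
  have hd1 : Disjoint (Icc 1 U) (Ioc U (U ^ 2) ∪ Ioc (U ^ 2) N) := by
    rw [Finset.disjoint_left]
    intro n
    simp only [mem_union, mem_Icc, mem_Ioc]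
    omega
  have hd2 : Disjoint (Ioc U (U ^ 2)) (Ioc (U ^ 2) N) := by
    rw [Finset.disjoint_left]
    intro n
    simp only [mem_Ioc]
    omega
  rw [h3, sum_union hd1, sum_union hd2]
  have h4 : ∑ m ∈ Ioc (U ^ 2) N, ∑ k ∈ Icc 1 (N / m),
      (fun m k : ℕ => (va U m : ℂ) * v2G p a m k) m k = 0 := by
    refine sum_eq_zero fun m hm => sum_eq_zero fun k _ => ?_
    rw [mem_Ioc] at hm
    simp only [(va_vb U).2.1 m hm.1, Complex.ofReal_zero, zero_mul]
  rw [h4, add_zero]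
  congr 1
  · unfold LL
    refine sum_congr rfl fun m _ => ?_
    rw [mul_sum]
    rfl
  · unfold BBN
    refine sum_congr rfl fun m _ => sum_congr rfl fun k _ => ?_
    rw [mul_one]
    rfl

theorem v2_term4 (p : ℕ) [Fact p.Prime] (a : ZMod p) (N U W : ℕ) (hU : 1 ≤ U) (hUW : U ^ 2 ≤ W)
    (hW : W ≤ N) (hW2 : N < (W + 1) ^ 2) :
    ∑ n ∈ Icc 1 N, ((∑ q ∈ (n.divisorsAntidiagonal).filter (fun q => U < q.1),
        ArithmeticFunction.vonMangoldt q.1 * vb U q.2 : ℝ) : ℂ) *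
      ea p (a * ((n : ZMod p))⁻¹) =
      BBN p (fun m => ((ArithmeticFunction.vonMangoldt m : ℝ) : ℂ)) (fun k => (vb U k : ℂ)) N U W a +
      BBN p (fun k => (vb U k : ℂ))
        (fun m => if W < m then ((ArithmeticFunction.vonMangoldt m : ℝ) : ℂ) else 0) N U W a := by
  have h1 : ∀ n ∈ Icc 1 N, ((∑ q ∈ (n.divisorsAntidiagonal).filter (fun q => U < q.1),
        ArithmeticFunction.vonMangoldt q.1 * vb U q.2 : ℝ) : ℂ) *
      ea p (a * ((n : ZMod p))⁻¹) = ∑ q ∈ n.divisorsAntidiagonal,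
        (fun m k : ℕ => if U < m then ((ArithmeticFunction.vonMangoldt m : ℝ) : ℂ) *
          (vb U k : ℂ) * v2G p a m k else 0) q.1 q.2 := by
    intro n _
    rw [sum_filter, Complex.ofReal_sum, sum_mul]
    refine sum_congr rfl fun q hq => ?_
    rw [Nat.mem_divisorsAntidiagonal] at hq
    rw [← hq.1]
    simp only [v2G]
    split_ifs <;> push_cast <;> simp
  rw [sum_congr rfl h1]
  refine (sum_antidiag N (fun m k : ℕ => if U < m then ((ArithmeticFunction.vonMangoldt m : ℝ) : ℂ) *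
          (vb U k : ℂ) * v2G p a m k else 0)).trans ?_
  have hUU : U ≤ U ^ 2 := by nlinarith
  have h3 : Icc 1 N = Icc 1 U ∪ (Ioc U W ∪ Ioc W N) := by
    ext n
    simp only [mem_union, mem_Icc, mem_Ioc]
    omega
  have hd1 : Disjoint (Icc 1 U) (Ioc U W ∪ Ioc W N) := by
    rw [Finset.disjoint_left]
    intro n
    simp only [mem_union, mem_Icc, mem_Ioc]
    omega
  have hd2 : Disjoint (Ioc U W) (Ioc W N) := by
    rw [Finset.disjoint_left]
    intro n
    simp only [mem_Ioc]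
    omega
  rw [h3, sum_union hd1, sum_union hd2]
  have h4 : ∑ m ∈ Icc 1 U, ∑ k ∈ Icc 1 (N / m),
      (fun m k : ℕ => if U < m then ((ArithmeticFunction.vonMangoldt m : ℝ) : ℂ) *
          (vb U k : ℂ) * v2G p a m k else 0) m k = 0 := by
    refine sum_eq_zero fun m hm => sum_eq_zero fun k _ => ?_
    rw [mem_Icc] at hm
    simp only [if_neg (by omega : ¬ U < m)]
  rw [h4, zero_add]
  congr 1
  · unfold BBN
    refine sum_congr rfl fun m hm => sum_congr rfl fun k _ => ?_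
    rw [mem_Ioc] at hm
    simp only [if_pos hm.1]
    rfl
  · -- the exchanged part
    have h5 : ∀ m ∈ Ioc W N, ∑ k ∈ Icc 1 (N / m),
        (fun m k : ℕ => if U < m then ((ArithmeticFunction.vonMangoldt m : ℝ) : ℂ) *
          (vb U k : ℂ) * v2G p a m k else 0) m k =
        ∑ k ∈ Ioc U (N / m), ((ArithmeticFunction.vonMangoldt m : ℝ) : ℂ) *
          (vb U k : ℂ) * v2G p a m k := by
      intro m hm
      rw [mem_Ioc] at hm
      have h6 : Ioc U (N / m) ⊆ Icc 1 (N / m) := by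
        intro k
        simp only [mem_Ioc, mem_Icc]
        omega
      rw [← sum_subset h6]
      · refine sum_congr rfl fun k _ => ?_
        simp only [if_pos (by omega : U < m)]
      · intro k hk1 hk2
        rw [mem_Icc] at hk1
        rw [mem_Ioc] at hk2
        have : vb U k = 0 := (va_vb U).2.2.2 k (by omega)
        simp only [this, Complex.ofReal_zero, mul_zero, zero_mul, ite_self]
    rw [sum_congr rfl h5]
    unfold BBN
    have h7 : ∀ k ∈ Ioc U W, ∑ m ∈ Icc 1 (N / k), (vb U k : ℂ) *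
        (if W < m then ((ArithmeticFunction.vonMangoldt m : ℝ) : ℂ) else 0) *
          ea p (a * ((k : ZMod p) * (m : ZMod p))⁻¹) =
        ∑ m ∈ Ioc W (N / k), ((ArithmeticFunction.vonMangoldt m : ℝ) : ℂ) *
          (vb U k : ℂ) * v2G p a m k := by
      intro k hk
      have h6 : Ioc W (N / k) ⊆ Icc 1 (N / k) := by
        intro m
        simp only [mem_Ioc, mem_Icc]
        omega
      rw [← sum_subset h6]
      · refine sum_congr rfl fun m hm => ?_
        rw [mem_Ioc] at hm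
        rw [if_pos hm.1]
        unfold v2G
        rw [mul_comm (m : ZMod p) (k : ZMod p)]
        ring
      · intro m hm1 hm2
        rw [mem_Icc] at hm1
        rw [mem_Ioc] at hm2
        rw [if_neg (by omega), mul_zero, zero_mul]
    rw [sum_congr rfl h7]
    refine sum_comm' ?_
    intro m k
    simp only [mem_Ioc]
    constructor
    · rintro ⟨⟨h8, h9⟩, h10, h11⟩
      have hm0 : 0 < m := by omega
      have hk0 : 0 < k := by omega
      rw [Nat.le_div_iff_mul_le hm0] at h11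
      refine ⟨⟨h8, ?_⟩, h10, ?_⟩
      · rw [Nat.le_div_iff_mul_le hk0, mul_comm]
        exact h11
      · by_contra hcon
        have h12 : W + 1 ≤ k := by omega
        have h13 : (W + 1) * (W + 1) ≤ k * m := Nat.mul_le_mul h12 (by omega)
        nlinarith
    · rintro ⟨⟨h8, h9⟩, h10, h11⟩
      have hm0 : 0 < m := by omega
      have hk0 : 0 < k := by omega
      rw [Nat.le_div_iff_mul_le hk0] at h9
      refine ⟨⟨h8, ?_⟩, h10, ?_⟩
      · calc m = m * 1 := (mul_one _).symm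
          _ ≤ m * k := Nat.mul_le_mul_left _ hk0
          _ ≤ N := h9
      · rw [Nat.le_div_iff_mul_le hm0, mul_comm]
        exact h9

/-- [V2c] The decomposition of `TT` into six sums.

Proof. Multiply `vaughan_point` by `ea p (a * n⁻¹)` and sum over `n ≤ N`; `sum_antidiag` for the sums over `n = m k`
(restricted by `m ≤ U`, or `U < m`); for the second sum `log_abel` with `K = N / m`, `P = N` and exchange. In the third
sum `va U m = 0` for `m > U²`; split at `U`. In the last sum split `m ≤ W` and `m > W`; in the second part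
`k ≤ N / m < W + 1`, i.e. `k ≤ W` (as `p ≤ (W + 1)²`... precisely `N < (W + 1)²`), and `vb U k = 0` for `k ≤ U`; exchange the
roles of `m` and `k` (`m k ≤ N`), so that the sum is over `k ∈ (U, W]` and `m ≤ N / k`. -/
theorem TTN_split (p : ℕ) [Fact p.Prime] (a : ZMod p) (N U W : ℕ) (hU : 1 ≤ U) (hUW : U ^ 2 ≤ W)
    (hW : W ≤ N) (hW2 : N < (W + 1) ^ 2) :
    TTN p N a = (∑ n ∈ Icc 1 U, ((ArithmeticFunction.vonMangoldt n : ℝ) : ℂ) * ea p (a * ((n : ZMod p))⁻¹)) +
      (∑ j ∈ Icc 2 N, (Real.log ((j : ℝ) / ((j : ℝ) - 1)) : ℂ) *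
        LL p (fun m => ((ArithmeticFunction.moebius m : ℤ) : ℂ)) (fun _ => j - 1)
          (fun m => N / m) 1 U a) -
      LL p (fun m => (va U m : ℂ)) (fun _ => 0) (fun m => N / m) 1 U a -
      BBN p (fun m => (va U m : ℂ)) (fun _ => 1) N U (U ^ 2) a +
      BBN p (fun m => ((ArithmeticFunction.vonMangoldt m : ℝ) : ℂ)) (fun k => (vb U k : ℂ)) N U W a +
      BBN p (fun k => (vb U k : ℂ))
        (fun m => if W < m then ((ArithmeticFunction.vonMangoldt m : ℝ) : ℂ) else 0) N U W a := by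
  have hUU : U ≤ U ^ 2 := by nlinarith
  rw [← v2_term1 p a N U (by omega), ← v2_term2 p a N U (by omega)]
  have h3 := v2_term3 p a N U hU (by omega)
  have h4 := v2_term4 p a N U W hU hUW hW hW2
  unfold TTN
  have h0 : ∀ n ∈ Icc 1 N, ((ArithmeticFunction.vonMangoldt n : ℝ) : ℂ) *
      ea p (a * ((n : ZMod p))⁻¹) =
      (((if n ≤ U then ArithmeticFunction.vonMangoldt n else 0 : ℝ)) : ℂ) *
        ea p (a * ((n : ZMod p))⁻¹) +
      ((∑ q ∈ (n.divisorsAntidiagonal).filter (fun q => q.1 ≤ U),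
        ((ArithmeticFunction.moebius q.1 : ℤ) : ℝ) * Real.log q.2 : ℝ) : ℂ) *
        ea p (a * ((n : ZMod p))⁻¹) -
      ((∑ q ∈ n.divisorsAntidiagonal, va U q.1 : ℝ) : ℂ) * ea p (a * ((n : ZMod p))⁻¹) +
      ((∑ q ∈ (n.divisorsAntidiagonal).filter (fun q => U < q.1),
        ArithmeticFunction.vonMangoldt q.1 * vb U q.2 : ℝ) : ℂ) *
        ea p (a * ((n : ZMod p))⁻¹) := by
    intro n hn
    rw [mem_Icc] at hn
    have h5 := vaughan_point U n hn.1
    have h6 := congrArg (fun r : ℝ => (r : ℂ)) h5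
    simp only [Complex.ofReal_add, Complex.ofReal_sub] at h6
    rw [h6]
    ring
  rw [sum_congr rfl h0, sum_add_distrib, sum_sub_distrib, sum_add_distrib, h3, h4]
  ring

end Pool.Agent.QQA
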