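import Pool.Agent.EPK.E1a
import Pool.Agent.EPK.D5
import Pool.Agent.QQA.LV2
import Pool.Agent.QQA.LD3

/-!
# [QQA-LE1b] the central bound
-/

set_option autoImplicit false

namespace Pool.Agent.QQA

open Finset Pool.Agent.MP_2f88e5_nt Pool.Agent.EPK

/-- the sum of the norms -/
noncomputable def q1b_S (p : ℕ) [Fact p.Prime] (x : ZMod p) (H D : ℕ) (F : ZMod p → ℂ) : ℝ :=
  ∑ h ∈ Icc 1 H, ∑ d ∈ Icc 1 D, ‖F (hd p x h d)‖

theorem q1b_S_add (p : ℕ) [Fact p.Prime] (x : ZMod p) (H D : ℕ) (F G : ZMod p → ℂ) :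
    q1b_S p x H D (fun a => F a + G a) ≤ q1b_S p x H D F + q1b_S p x H D G := by
  unfold q1b_S
  rw [← Finset.sum_add_distrib]
  refine Finset.sum_le_sum fun h _ => ?_
  rw [← Finset.sum_add_distrib]
  exact Finset.sum_le_sum fun d _ => norm_add_le _ _

theorem q1b_S_sub (p : ℕ) [Fact p.Prime] (x : ZMod p) (H D : ℕ) (F G : ZMod p → ℂ) :
    q1b_S p x H D (fun a => F a - G a) ≤ q1b_S p x H D F + q1b_S p x H D G := by
  unfold q1b_S
  rw [← Finset.sum_add_distrib]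
  refine Finset.sum_le_sum fun h _ => ?_
  rw [← Finset.sum_add_distrib]
  exact Finset.sum_le_sum fun d _ => norm_sub_le _ _

theorem q1b_S_sum (p : ℕ) [Fact p.Prime] (x : ZMod p) (H D : ℕ) (J : Finset ℕ) (c : ℕ → ℝ)
    (hc : ∀ j ∈ J, 0 ≤ c j) (F : ℕ → ZMod p → ℂ) :
    q1b_S p x H D (fun a => ∑ j ∈ J, (c j : ℂ) * F j a) ≤ ∑ j ∈ J, c j * q1b_S p x H D (F j) := by
  unfold q1b_S
  have h1 : ∑ j ∈ J, c j * ∑ h ∈ Icc 1 H, ∑ d ∈ Icc 1 D, ‖F j (hd p x h d)‖ =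
      ∑ h ∈ Icc 1 H, ∑ d ∈ Icc 1 D, ∑ j ∈ J, c j * ‖F j (hd p x h d)‖ := by
    simp only [Finset.mul_sum]
    rw [Finset.sum_comm]
    refine Finset.sum_congr rfl fun h _ => ?_
    rw [Finset.sum_comm]
  rw [h1]
  refine Finset.sum_le_sum fun h _ => Finset.sum_le_sum fun d _ => ?_
  refine (norm_sum_le _ _).trans (Finset.sum_le_sum fun j hj => ?_)
  rw [norm_mul, Complex.norm_real, Real.norm_eq_abs, abs_of_nonneg (hc j hj)]

theorem q1b_LL_congr (p : ℕ) [Fact p.Prime] (α α' : ℕ → ℂ) (u v : ℕ → ℕ) (A B : ℕ)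
    (h : ∀ m ∈ Icc A B, α m = α' m) : LL p α u v A B = LL p α' u v A B := by
  funext a
  unfold LL
  exact Finset.sum_congr rfl fun m hm => by rw [h m hm]

theorem q1b_BB_congr (p : ℕ) [Fact p.Prime] (α α' β β' : ℕ → ℂ) (Y U W : ℕ)
    (h : ∀ m ∈ Ioc U W, α m = α' m) (h' : ∀ k, 1 ≤ k → k ≤ Y → β k = β' k) :
    BBN p α β Y U W = BBN p α' β' Y U W := by
  funext a
  unfold BBN
  refine Finset.sum_congr rfl fun m hm => Finset.sum_congr rfl fun k hk => ?_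
  rw [h m hm, h' k (Finset.mem_Icc.1 hk).1 ((Finset.mem_Icc.1 hk).2.trans (Nat.div_le_self _ _))]

theorem q1b_ea_norm (p : ℕ) [Fact p.Prime] (u : ZMod p) : ‖ea p u‖ = 1 := by
  unfold ea
  exact AddChar.norm_apply _ _

/-- telescoping -/
theorem q1b_tel (n : ℕ) (hn : 1 ≤ n) :
    ∑ j ∈ Icc 2 n, Real.log ((j : ℝ) / ((j : ℝ) - 1)) = Real.log n := by
  induction n, hn using Nat.le_induction with
  | base => simp
  | succ n hn ih =>
    rw [Finset.sum_Icc_succ_top (by omega), ih]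
    have h1 : (0 : ℝ) < n := by exact_mod_cast hn
    push_cast
    rw [show (n : ℝ) + 1 - 1 = n by ring, Real.log_div (by positivity) (by positivity)]
    ring

theorem q1b_log_nonneg (j : ℕ) (hj : 2 ≤ j) : 0 ≤ Real.log ((j : ℝ) / ((j : ℝ) - 1)) := by
  apply Real.log_nonneg
  have h1 : (2 : ℝ) ≤ j := by exact_mod_cast hj
  rw [le_div_iff₀ (by linarith)]
  linarith

/-- [E1c] The bound for `p ≥ 17`, in terms of `T`.

Proof. `U = ⌊p^(1/4)⌋₊` (`U ≥ 2` and `p^(1/4) ≤ U + 1 ≤ 2 U`), `W = ⌊√p⌋₊`, hence `U² ≤ W` (`U² ≤ p^(1/2)`), `4 W ≤ p` (`p ≥ 17`),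
`Y < (W + 1)²`; `TT_split`, triangle inequality, sum over `h`, `d`. The six terms: the first is at most
`H D ∑_{n ≤ U} Λ(n) ≤ H D U log p ≤ H D p^(1/4) (3 + log p)`; the second: `∑_j log (j / (j - 1)) = log Y` and `typeI` for every `j`
(`B = 1`, `u = j - 1`, `v m = Y / m`, `m v m ≤ Y`); the third: `typeI` for the coefficient `va U m`, `B = 3 + log p` (replace the
coefficient by `0` outside `[1, U]`, which does not change `LL`); the fourth: `typeII` with `W` replaced by `U ^ 2` (`4 U² ≤ p`,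
`U² ≤ √p`), `B = T (3 + log p)`; the last two: `typeII` with `B = T (3 + log p)` (again the coefficients are replaced by `0`
outside the ranges of summation, `[1, Y]`, where `Λ(m) ≤ log m ≤ log p` (`ArithmeticFunction.vonMangoldt_le_log`),
`|vb U k| ≤ τ(k) ≤ T`, `|va U m| ≤ log m ≤ log p`; note `1 ≤ T` and `1 ≤ 3 + log p`). Total: `1 + 36 + 36 + 3 · 30 ≤ 200`. -/
theorem central_TN (p : ℕ) [Fact p.Prime] (hp : 17 ≤ p) (Y H D : ℕ) (hY : Y < p) (hY1 : Nat.sqrt p ≤ Y) (hH : H < p) (hD : D < p)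
    (T : ℝ) (hT : TauLE (16 * p ^ 4) T) (x : ZMod p) (hx : x ≠ 0) :
    ∑ h ∈ Icc 1 H, ∑ d ∈ Icc 1 D, ‖TTN p Y (hd p x h d)‖ ≤
      200 * T ^ 3 * (3 + Real.log p) ^ 4 *
        (((H * D : ℕ) : ℝ) ^ (3 / 4 : ℝ) * (p : ℝ) ^ (15 / 16 : ℝ) +
          ((H * D : ℕ) : ℝ) * (p : ℝ) ^ (7 / 8 : ℝ)) := by
  have hp0 : (0 : ℝ) < p := by
    have : 0 < p := by omega
    exact_mod_cast this
  have hp1 : (1 : ℝ) ≤ p := by
    have : 1 ≤ p := by omega
    exact_mod_cast this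
  have hp17 : (17 : ℝ) ≤ p := by exact_mod_cast hp
  have hlog : 0 ≤ Real.log p := Real.log_nonneg hp1
  set L : ℝ := 3 + Real.log p with hL
  have hL1 : 1 ≤ L := by rw [hL]; linarith
  have hT1 : 1 ≤ T := by
    have h1 := hT 1 le_rfl (by
      have : 0 < p := by omega
      have := Nat.pow_pos (n := 4) this
      omega)
    simpa using h1
  -- the parameters
  set U : ℕ := ⌊(p : ℝ) ^ (1 / 4 : ℝ)⌋₊ with hUdef
  have hq4 : ((p : ℝ) ^ (1 / 4 : ℝ)) ^ 4 = p := by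
    rw [← Real.rpow_natCast, ← Real.rpow_mul hp0.le]
    norm_num
  have hq0 : 0 < (p : ℝ) ^ (1 / 4 : ℝ) := Real.rpow_pos_of_pos hp0 _
  have hUle : (U : ℝ) ≤ (p : ℝ) ^ (1 / 4 : ℝ) := Nat.floor_le hq0.le
  have hU2 : 2 ≤ U := by
    apply Nat.le_floor
    push_cast
    by_contra h
    push Not at h
    have h1 : ((p : ℝ) ^ (1 / 4 : ℝ)) ^ 4 < 2 ^ 4 := pow_lt_pow_left₀ h hq0.le (by norm_num)
    rw [hq4] at h1
    norm_num at h1
    linarith
  have hUR : (2 : ℝ) ≤ U := by exact_mod_cast hU2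
  have hUp : (p : ℝ) ^ (1 / 4 : ℝ) ≤ 2 * U := by
    have h1 := (Nat.lt_floor_add_one ((p : ℝ) ^ (1 / 4 : ℝ))).le
    rw [← hUdef] at h1
    linarith
  have hU4 : U ^ 4 ≤ p := by
    have h1 : (U : ℝ) ^ 4 ≤ p := by
      rw [← hq4]
      exact pow_le_pow_left₀ (by positivity) hUle 4
    exact_mod_cast h1
  set W : ℕ := Nat.sqrt p with hWdef
  have hW1 : W * W ≤ p := Nat.sqrt_le p
  have hW2 : p < (W + 1) * (W + 1) := Nat.lt_succ_sqrt p
  have hW4 : 4 ≤ W := Nat.le_sqrt.2 (by omega)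
  have hUW : U ^ 2 ≤ W := Nat.le_sqrt.2 (by
    calc U ^ 2 * U ^ 2 = U ^ 4 := by ring
      _ ≤ p := hU4)
  have h4W : 4 * W ≤ p := by nlinarith
  have hWp : (W : ℝ) ≤ (p : ℝ) ^ (1 / 2 : ℝ) := by
    rw [← Real.sqrt_eq_rpow]
    apply Real.le_sqrt_of_sq_le
    have : ((W * W : ℕ) : ℝ) ≤ p := by exact_mod_cast hW1
    push_cast at this
    nlinarith
  have hU2p : ((U ^ 2 : ℕ) : ℝ) ≤ (p : ℝ) ^ (1 / 2 : ℝ) := by
    refine le_trans ?_ hWp
    exact_mod_cast hUW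
  have hsplit : TTN p Y = fun a => (∑ n ∈ Icc 1 U, ((ArithmeticFunction.vonMangoldt n : ℝ) : ℂ) * ea p (a * ((n : ZMod p))⁻¹)) +
      (∑ j ∈ Icc 2 Y, (Real.log ((j : ℝ) / ((j : ℝ) - 1)) : ℂ) *
        LL p (fun m => ((ArithmeticFunction.moebius m : ℤ) : ℂ)) (fun _ => j - 1)
          (fun m => Y / m) 1 U a) -
      LL p (fun m => (va U m : ℂ)) (fun _ => 0) (fun m => Y / m) 1 U a -
      BBN p (fun m => (va U m : ℂ)) (fun _ => 1) Y U (U ^ 2) a +
      BBN p (fun m => ((ArithmeticFunction.vonMangoldt m : ℝ) : ℂ)) (fun k => (vb U k : ℂ)) Y U W a +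
      BBN p (fun k => (vb U k : ℂ))
        (fun m => if W < m then ((ArithmeticFunction.vonMangoldt m : ℝ) : ℂ) else 0) Y U W a := by
    funext a
    exact TTN_split p a Y U W (by omega) hUW (by omega) (by
      have : (W + 1) ^ 2 = (W + 1) * (W + 1) := by ring
      omega)
  -- the sizes
  set E : ℝ := ((H * D : ℕ) : ℝ) ^ (3 / 4 : ℝ) * (p : ℝ) ^ (15 / 16 : ℝ) +
    ((H * D : ℕ) : ℝ) * (p : ℝ) ^ (7 / 8 : ℝ) with hE
  have hHD0 : (0 : ℝ) ≤ ((H * D : ℕ) : ℝ) := by positivity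
  have hE1 : ((H * D : ℕ) : ℝ) * (p : ℝ) ^ (7 / 8 : ℝ) ≤ E := by
    rw [hE]
    have : 0 ≤ ((H * D : ℕ) : ℝ) ^ (3 / 4 : ℝ) * (p : ℝ) ^ (15 / 16 : ℝ) := by positivity
    linarith
  have hE0 : 0 ≤ E := le_trans (by positivity) hE1
  have hEI : ((H * D : ℕ) : ℝ) ^ (3 / 4 : ℝ) * (p : ℝ) ^ (7 / 8 : ℝ) +
      ((H * D : ℕ) : ℝ) * (p : ℝ) ^ (3 / 4 : ℝ) ≤ E := by
    rw [hE]
    exact add_le_add (mul_le_mul_of_nonneg_left (Real.rpow_le_rpow_of_exponent_le hp1 (by norm_num))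
      (by positivity)) (mul_le_mul_of_nonneg_left (Real.rpow_le_rpow_of_exponent_le hp1 (by norm_num))
      (by positivity))
  have hlogle : ∀ m : ℕ, 1 ≤ m → m ≤ Y → Real.log m ≤ L := by
    intro m hm hmp
    have h1 : Real.log m ≤ Real.log p := by
      apply Real.log_le_log
      · exact_mod_cast hm
      · have : m ≤ p := by omega
        exact_mod_cast this
    rw [hL]
    linarith
  have hTL : L ≤ T * L := by nlinarith
  have hTL' : T ≤ T * L := by nlinarith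
  have hTL1 : 1 ≤ T * L := by nlinarith
  have hUp1 : U ≤ Y := by
    have : U ≤ U ^ 2 := by nlinarith
    omega
  have hU2p1 : U ^ 2 ≤ Y := by omega
  have hvM : ∀ m : ℕ, 1 ≤ m → m ≤ Y → ‖((ArithmeticFunction.vonMangoldt m : ℝ) : ℂ)‖ ≤ L := by
    intro m hm hmp
    rw [Complex.norm_real, Real.norm_eq_abs, abs_of_nonneg ArithmeticFunction.vonMangoldt_nonneg]
    exact ArithmeticFunction.vonMangoldt_le_log.trans (hlogle m hm hmp)
  obtain ⟨hva, -, hvb, -⟩ := va_vb U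
  have hvaL : ∀ m : ℕ, 1 ≤ m → m ≤ Y → ‖(va U m : ℂ)‖ ≤ L := by
    intro m hm hmp
    rw [Complex.norm_real, Real.norm_eq_abs]
    exact (hva m hm).trans (hlogle m hm hmp)
  have hvbT : ∀ k : ℕ, 1 ≤ k → k ≤ Y → ‖(vb U k : ℂ)‖ ≤ T := by
    intro k hk hkp
    rw [Complex.norm_real, Real.norm_eq_abs]
    refine (hvb k).trans (hT k hk ?_)
    have h1 : p ≤ 16 * p ^ 4 := by
      have : 0 < p := by omega
      calc p = p ^ 1 := by ring
        _ ≤ p ^ 4 := Nat.pow_le_pow_right this (by norm_num)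
        _ ≤ 16 * p ^ 4 := by omega
    omega
  -- the six terms
  have hS : ∑ h ∈ Icc 1 H, ∑ d ∈ Icc 1 D, ‖TTN p Y (hd p x h d)‖ = q1b_S p x H D (TTN p Y) := rfl
  rw [hS, hsplit]
  have b1 : q1b_S p x H D (fun a => ∑ n ∈ Icc 1 U, ((ArithmeticFunction.vonMangoldt n : ℝ) : ℂ) * ea p (a * ((n : ZMod p))⁻¹)) ≤
      T ^ 3 * L ^ 4 * E := by
    have h1 : q1b_S p x H D (fun a => ∑ n ∈ Icc 1 U, ((ArithmeticFunction.vonMangoldt n : ℝ) : ℂ) * ea p (a * ((n : ZMod p))⁻¹)) ≤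
        ∑ h ∈ Icc 1 H, ∑ d ∈ Icc 1 D, (U : ℝ) * L := by
      unfold q1b_S
      refine Finset.sum_le_sum fun h _ => Finset.sum_le_sum fun d _ => ?_
      refine (norm_sum_le _ _).trans ?_
      have h2 : ∀ n ∈ Icc 1 U, ‖((ArithmeticFunction.vonMangoldt n : ℝ) : ℂ) *
          ea p (hd p x h d * ((n : ZMod p))⁻¹)‖ ≤ L := by
        intro n hn
        rw [norm_mul, q1b_ea_norm, mul_one]
        exact hvM n (Finset.mem_Icc.1 hn).1 ((Finset.mem_Icc.1 hn).2.trans hUp1)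
      refine (Finset.sum_le_sum h2).trans ?_
      rw [Finset.sum_const, Nat.card_Icc, nsmul_eq_mul]
      simp
    refine h1.trans ?_
    rw [Finset.sum_const, Finset.sum_const, Nat.card_Icc, Nat.card_Icc, nsmul_eq_mul, nsmul_eq_mul]
    have h3 : (U : ℝ) ≤ (p : ℝ) ^ (7 / 8 : ℝ) :=
      hUle.trans (Real.rpow_le_rpow_of_exponent_le hp1 (by norm_num))
    have h4 : ((H + 1 - 1 : ℕ) : ℝ) * (((D + 1 - 1 : ℕ) : ℝ) * ((U : ℝ) * L)) ≤ E * L := by
      have h5 : ((H + 1 - 1 : ℕ) : ℝ) * (((D + 1 - 1 : ℕ) : ℝ) * ((U : ℝ) * L)) =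
          ((H * D : ℕ) : ℝ) * U * L := by
        rw [Nat.add_sub_cancel, Nat.add_sub_cancel]
        push_cast
        ring
      rw [h5]
      gcongr
      refine le_trans ?_ hE1
      gcongr
    refine h4.trans ?_
    have h6 : L ≤ T ^ 3 * L ^ 4 := by
      have h7 : 1 ≤ T ^ 3 := one_le_pow₀ hT1
      have h8 : L ≤ L ^ 4 := by
        calc L = L ^ 1 := by ring
          _ ≤ L ^ 4 := pow_le_pow_right₀ hL1 (by norm_num)
      nlinarith
    calc E * L ≤ E * (T ^ 3 * L ^ 4) := by gcongr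
      _ = T ^ 3 * L ^ 4 * E := by ring
  have hI : ∀ (α : ℕ → ℂ) (B : ℝ), 0 ≤ B → B ≤ L → (∀ m, ‖α m‖ ≤ B) → ∀ u : ℕ → ℕ,
      q1b_S p x H D (LL p α u (fun m => Y / m) 1 U) ≤ 36 * B * T ^ 2 * L ^ 2 * E := by
    intro α B hB hBL hα u
    refine (typeI p (by omega) H D U hH hD hUle T hT x hx α B hB hα u (fun m => Y / m)
      (fun m => (Nat.mul_div_le _ _).trans (by omega))).trans ?_
    gcongr
  have b2 : q1b_S p x H D (fun a => ∑ j ∈ Icc 2 Y, (Real.log ((j : ℝ) / ((j : ℝ) - 1)) : ℂ) *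
        LL p (fun m => ((ArithmeticFunction.moebius m : ℤ) : ℂ)) (fun _ => j - 1)
          (fun m => Y / m) 1 U a) ≤ 36 * (T ^ 3 * L ^ 4 * E) := by
    refine (q1b_S_sum p x H D (Icc 2 Y) (fun j => Real.log ((j : ℝ) / ((j : ℝ) - 1)))
      (fun j hj => q1b_log_nonneg j (Finset.mem_Icc.1 hj).1) (fun j =>
        LL p (fun m => ((ArithmeticFunction.moebius m : ℤ) : ℂ)) (fun _ => j - 1)
          (fun m => Y / m) 1 U)).trans ?_
    have h1 : ∀ j ∈ Icc 2 Y, Real.log ((j : ℝ) / ((j : ℝ) - 1)) * q1b_S p x H D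
        (LL p (fun m => ((ArithmeticFunction.moebius m : ℤ) : ℂ)) (fun _ => j - 1)
          (fun m => Y / m) 1 U) ≤
        Real.log ((j : ℝ) / ((j : ℝ) - 1)) * (36 * 1 * T ^ 2 * L ^ 2 * E) := by
      intro j hj
      apply mul_le_mul_of_nonneg_left _ (q1b_log_nonneg j (Finset.mem_Icc.1 hj).1)
      apply hI _ 1 zero_le_one hL1
      intro m
      rw [Complex.norm_intCast]
      have := ArithmeticFunction.abs_moebius_le_one (n := m)
      exact_mod_cast this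
    refine (Finset.sum_le_sum h1).trans ?_
    rw [← Finset.sum_mul, q1b_tel Y (by omega)]
    have h2 : Real.log ((Y : ℕ) : ℝ) ≤ L := hlogle Y (by omega) le_rfl
    have h3 : 0 ≤ 36 * 1 * T ^ 2 * L ^ 2 * E := by positivity
    have h4 : T ^ 2 ≤ T ^ 3 := pow_le_pow_right₀ hT1 (by norm_num)
    have h5 : L ^ 3 ≤ L ^ 4 := pow_le_pow_right₀ hL1 (by norm_num)
    calc Real.log ((Y : ℕ) : ℝ) * (36 * 1 * T ^ 2 * L ^ 2 * E) ≤ L * (36 * 1 * T ^ 2 * L ^ 2 * E) := by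
          gcongr
      _ = 36 * (T ^ 2 * L ^ 3 * E) := by ring
      _ ≤ 36 * (T ^ 3 * L ^ 4 * E) := by gcongr
  have b3 : q1b_S p x H D (LL p (fun m => (va U m : ℂ)) (fun _ => 0) (fun m => Y / m) 1 U) ≤
      36 * (T ^ 3 * L ^ 4 * E) := by
    rw [q1b_LL_congr p (fun m => (va U m : ℂ)) (fun m => if m ∈ Icc 1 U then (va U m : ℂ) else 0)
      (fun _ => 0) (fun m => Y / m) 1 U (fun m hm => by rw [if_pos hm])]
    refine (hI _ L (by linarith) le_rfl ?_ _).trans ?_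
    · intro m
      split_ifs with hm
      · exact hvaL m (Finset.mem_Icc.1 hm).1 ((Finset.mem_Icc.1 hm).2.trans hUp1)
      · rw [norm_zero]
        linarith
    · have h4 : T ^ 2 ≤ T ^ 3 := pow_le_pow_right₀ hT1 (by norm_num)
      have h5 : L ^ 3 ≤ L ^ 4 := pow_le_pow_right₀ hL1 (by norm_num)
      calc 36 * L * T ^ 2 * L ^ 2 * E = 36 * (T ^ 2 * L ^ 3 * E) := by ring
        _ ≤ 36 * (T ^ 3 * L ^ 4 * E) := by gcongr
  have hII : ∀ (α β : ℕ → ℂ) (W' : ℕ), 4 * W' ≤ p → (W' : ℝ) ≤ (p : ℝ) ^ (1 / 2 : ℝ) →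
      (∀ m ∈ Ioc U W', ‖α m‖ ≤ T * L) → (∀ k, 1 ≤ k → k ≤ Y → ‖β k‖ ≤ T * L) →
      q1b_S p x H D (BBN p α β Y U W') ≤ 30 * (T ^ 3 * L ^ 4 * E) := by
    intro α β W' h4W' hW'p hα hβ
    rw [q1b_BB_congr p α (fun m => if m ∈ Ioc U W' then α m else 0) β
      (fun k => if 1 ≤ k ∧ k ≤ Y then β k else 0) Y U W' (fun m hm => by rw [if_pos hm])
      (fun k h1 h2 => by rw [if_pos ⟨h1, h2⟩])]
    refine (typeIIN p Y H D U W' hY hH hD hU2 hUp h4W' hW'p T hT x hx _ _ (T * L) (by linarith) ?_ ?_).trans ?_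
    · intro m
      split_ifs with hm
      · exact hα m hm
      · rw [norm_zero]
        linarith
    · intro k
      split_ifs with hk
      · exact hβ k hk.1 hk.2
      · rw [norm_zero]
        linarith
    · exact le_of_eq (by rw [← hE]; ring)
  have b4 : q1b_S p x H D (BBN p (fun m => (va U m : ℂ)) (fun _ => 1) Y U (U ^ 2)) ≤
      30 * (T ^ 3 * L ^ 4 * E) := by
    apply hII _ _ (U ^ 2) (by omega) hU2p
    · intro m hm
      rw [Finset.mem_Ioc] at hm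
      exact (hvaL m (by omega) (by omega)).trans hTL
    · intro k _ _
      rw [norm_one]
      exact hTL1
  have b5 : q1b_S p x H D (BBN p (fun m => ((ArithmeticFunction.vonMangoldt m : ℝ) : ℂ))
      (fun k => (vb U k : ℂ)) Y U W) ≤ 30 * (T ^ 3 * L ^ 4 * E) := by
    apply hII _ _ W h4W hWp
    · intro m hm
      rw [Finset.mem_Ioc] at hm
      exact (hvM m (by omega) (by omega)).trans hTL
    · intro k h1 h2
      exact (hvbT k h1 h2).trans hTL'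
  have b6 : q1b_S p x H D (BBN p (fun k => (vb U k : ℂ))
        (fun m => if W < m then ((ArithmeticFunction.vonMangoldt m : ℝ) : ℂ) else 0) Y U W) ≤
      30 * (T ^ 3 * L ^ 4 * E) := by
    apply hII _ _ W h4W hWp
    · intro m hm
      rw [Finset.mem_Ioc] at hm
      exact (hvbT m (by omega) (by omega)).trans hTL'
    · intro k h1 h2
      split_ifs with hk
      · exact (hvM k h1 h2).trans hTL
      · rw [norm_zero]
        linarith
  have c5 := q1b_S_add p x H D (fun a => (∑ n ∈ Icc 1 U, ((ArithmeticFunction.vonMangoldt n : ℝ) : ℂ) * ea p (a * ((n : ZMod p))⁻¹)) +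
      (∑ j ∈ Icc 2 Y, (Real.log ((j : ℝ) / ((j : ℝ) - 1)) : ℂ) *
        LL p (fun m => ((ArithmeticFunction.moebius m : ℤ) : ℂ)) (fun _ => j - 1)
          (fun m => Y / m) 1 U a) -
      LL p (fun m => (va U m : ℂ)) (fun _ => 0) (fun m => Y / m) 1 U a -
      BBN p (fun m => (va U m : ℂ)) (fun _ => 1) Y U (U ^ 2) a +
      BBN p (fun m => ((ArithmeticFunction.vonMangoldt m : ℝ) : ℂ)) (fun k => (vb U k : ℂ)) Y U W a)
      (BBN p (fun k => (vb U k : ℂ))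
        (fun m => if W < m then ((ArithmeticFunction.vonMangoldt m : ℝ) : ℂ) else 0) Y U W)
  have c4 := q1b_S_add p x H D (fun a => (∑ n ∈ Icc 1 U, ((ArithmeticFunction.vonMangoldt n : ℝ) : ℂ) * ea p (a * ((n : ZMod p))⁻¹)) +
      (∑ j ∈ Icc 2 Y, (Real.log ((j : ℝ) / ((j : ℝ) - 1)) : ℂ) *
        LL p (fun m => ((ArithmeticFunction.moebius m : ℤ) : ℂ)) (fun _ => j - 1)
          (fun m => Y / m) 1 U a) -
      LL p (fun m => (va U m : ℂ)) (fun _ => 0) (fun m => Y / m) 1 U a -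
      BBN p (fun m => (va U m : ℂ)) (fun _ => 1) Y U (U ^ 2) a)
      (BBN p (fun m => ((ArithmeticFunction.vonMangoldt m : ℝ) : ℂ)) (fun k => (vb U k : ℂ)) Y U W)
  have c3 := q1b_S_sub p x H D (fun a => (∑ n ∈ Icc 1 U, ((ArithmeticFunction.vonMangoldt n : ℝ) : ℂ) * ea p (a * ((n : ZMod p))⁻¹)) +
      (∑ j ∈ Icc 2 Y, (Real.log ((j : ℝ) / ((j : ℝ) - 1)) : ℂ) *
        LL p (fun m => ((ArithmeticFunction.moebius m : ℤ) : ℂ)) (fun _ => j - 1)
          (fun m => Y / m) 1 U a) -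
      LL p (fun m => (va U m : ℂ)) (fun _ => 0) (fun m => Y / m) 1 U a)
      (BBN p (fun m => (va U m : ℂ)) (fun _ => 1) Y U (U ^ 2))
  have c2 := q1b_S_sub p x H D (fun a => (∑ n ∈ Icc 1 U, ((ArithmeticFunction.vonMangoldt n : ℝ) : ℂ) * ea p (a * ((n : ZMod p))⁻¹)) +
      (∑ j ∈ Icc 2 Y, (Real.log ((j : ℝ) / ((j : ℝ) - 1)) : ℂ) *
        LL p (fun m => ((ArithmeticFunction.moebius m : ℤ) : ℂ)) (fun _ => j - 1)
          (fun m => Y / m) 1 U a))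
      (LL p (fun m => (va U m : ℂ)) (fun _ => 0) (fun m => Y / m) 1 U)
  have c1 := q1b_S_add p x H D (fun a => ∑ n ∈ Icc 1 U, ((ArithmeticFunction.vonMangoldt n : ℝ) : ℂ) * ea p (a * ((n : ZMod p))⁻¹))
      (fun a => ∑ j ∈ Icc 2 Y, (Real.log ((j : ℝ) / ((j : ℝ) - 1)) : ℂ) *
        LL p (fun m => ((ArithmeticFunction.moebius m : ℤ) : ℂ)) (fun _ => j - 1)
          (fun m => Y / m) 1 U a)
  have hX0 : 0 ≤ T ^ 3 * L ^ 4 * E := by positivity
  calc _ ≤ _ := c5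
    _ ≤ 200 * (T ^ 3 * L ^ 4 * E) := by linarith
    _ = 200 * T ^ 3 * L ^ 4 * E := by ring

end Pool.Agent.QQA
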