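import Pool.Agent.QQA.Defs

set_option autoImplicit false

namespace Pool.Agent.QQA

open Finset

theorem F3_II (V n : ℕ) (Y : ℝ) (h : (wn V : ℝ) ≤ Y) (hn : n ∈ II V) : n ∈ Icc 1 ⌊Y⌋₊ := by
  unfold II at hn
  rw [mem_Ioc] at hn
  rw [mem_Icc]
  refine ⟨by omega, Nat.le_floor ?_⟩
  have : (n : ℝ) ≤ (wn V : ℝ) := by exact_mod_cast hn.2
  exact this.trans h

theorem F3_Qc (p : ℕ) (a : ℤ) (b V : ℕ) (Y : ℝ) (h : (wn V : ℝ) ≤ Y) :
    Qc p a b V ≤ #((Icc 1 ⌊Y⌋₊ ×ˢ Icc 1 ⌊Y⌋₊).filter (fun t : ℕ × ℕ => t.1.Prime ∧ t.2.Prime ∧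
          (p : ℤ) ∣ (b : ℤ) * t.1 * t.2 - a)) := by
  unfold Qc
  apply card_le_card
  intro t ht
  rw [mem_filter, mem_product] at ht ⊢
  exact ⟨⟨F3_II V t.1 Y h ht.1.1, F3_II V t.2 Y h ht.1.2⟩, ht.2⟩

theorem R_F3 (h2 : st_F2) : st_F3 := by
  obtain ⟨η, δ, c, C, A, hη, hδ, hc, hC, hA, X₀, H⟩ := h2
  set η' := min (η / 2) (1 / 2) with hη'
  have he1 : 0 < η' := lt_min (by positivity) (by norm_num)
  have he2 : η' ≤ η / 2 := min_le_left _ _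
  have he3 : η' ≤ 1 / 2 := min_le_right _ _
  set δ' := δ / 2 with hδ'
  have hd1 : 0 < δ' := by positivity
  refine ⟨η', δ', c / (16 * A ^ 2), (4 / δ + 1) * C, he1, hd1, by positivity, by positivity,
    max (max X₀ 16) (⌈(4 : ℝ) ^ (2 / η)⌉₊), fun X hX => ?_⟩
  have hX₀ : X₀ ≤ X := le_trans (le_trans (le_max_left _ _) (le_max_left _ _)) hX
  have hX16 : 16 ≤ X := le_trans (le_trans (le_max_right _ _) (le_max_left _ _)) hX
  have hXη : (4 : ℝ) ^ (2 / η) ≤ X := by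
    have h1 : ⌈(4 : ℝ) ^ (2 / η)⌉₊ ≤ X := le_trans (le_max_right _ _) hX
    exact Nat.ceil_le.1 h1
  have hXr : (16 : ℝ) ≤ X := by exact_mod_cast hX16
  have hX4 : (4 : ℝ) ≤ (X : ℝ) ^ (η / 2) := by
    calc (4 : ℝ) = ((4 : ℝ) ^ (2 / η)) ^ (η / 2) := by
          rw [← Real.rpow_mul (by norm_num)]
          rw [show 2 / η * (η / 2) = 1 by field_simp]
          rw [Real.rpow_one]
      _ ≤ (X : ℝ) ^ (η / 2) := Real.rpow_le_rpow (by positivity) hXη (by positivity)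
  classical
  have H' : ∀ s : ℕ, ∃ V : ℕ, ∃ Bad : Finset ℕ, (#Bad : ℝ) ≤ C * (X : ℝ) ^ (1 - δ) ∧
      ((X : ℝ) ^ (1 - η) ≤ 2 ^ s → 2 ^ s ≤ X → (2 : ℝ) ^ s ≤ A * V ∧ wn V ≤ 2 ^ s ∧
      ∀ p : ℕ, p.Prime → X < p → p ≤ 2 * X → p ∉ Bad → ∀ (a : ℤ) (b : ℕ), a ≠ 0 →
      |(a : ℝ)| ≤ (X : ℝ) ^ δ → 1 ≤ b → (b : ℝ) ≤ (X : ℝ) ^ δ → b * V ^ 2 ≤ X ^ 2 →
      c * (V : ℝ) ^ 2 / (X * Real.log X ^ 2) ≤ Qc p a b V) := by
    intro s
    by_cases h : (X : ℝ) ^ (1 - η) ≤ 2 ^ s ∧ 2 ^ s ≤ X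
    · obtain ⟨V, h1, h2, Bad, h3, h4⟩ := H X s hX₀ h.1 h.2
      exact ⟨V, Bad, h3, fun _ _ => ⟨h1, h2, h4⟩⟩
    · refine ⟨0, ∅, ?_, fun h1 h2 => absurd ⟨h1, h2⟩ h⟩
      simp only [card_empty, Nat.cast_zero]
      positivity
  choose Vs Bd hBd hmain using H'
  set L := Nat.log 2 X with hL
  refine ⟨(range (L + 1)).biUnion Bd, ?_, ?_⟩
  · have h1 : (#((range (L + 1)).biUnion Bd) : ℝ) ≤ (L + 1 : ℝ) * (C * (X : ℝ) ^ (1 - δ)) := by
      calc (#((range (L + 1)).biUnion Bd) : ℝ) ≤ ∑ s ∈ range (L + 1), (#(Bd s) : ℝ) := by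
            exact_mod_cast card_biUnion_le
        _ ≤ ∑ s ∈ range (L + 1), C * (X : ℝ) ^ (1 - δ) := Finset.sum_le_sum fun s _ => hBd s
        _ = (L + 1 : ℝ) * (C * (X : ℝ) ^ (1 - δ)) := by
            rw [sum_const, card_range, nsmul_eq_mul]
            push_cast
            rfl
    have hLlog : (L : ℝ) ≤ 2 * Real.log X := by
      have h2 : ((2 : ℝ) ^ L) ≤ X := by
        have : 2 ^ L ≤ X := Nat.pow_log_le_self 2 (by omega)
        exact_mod_cast this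
      have h3 : (L : ℝ) * Real.log 2 ≤ Real.log X := by
        rw [← Real.log_pow]
        exact Real.log_le_log (by positivity) h2
      have h4 := Real.log_two_gt_d9
      have h5 : (0 : ℝ) ≤ L := by positivity
      nlinarith
    have hlog : Real.log X ≤ (X : ℝ) ^ (δ / 2) / (δ / 2) :=
      Real.log_le_rpow_div (by positivity) (by positivity)
    have hone : (1 : ℝ) ≤ (X : ℝ) ^ (δ / 2) := Real.one_le_rpow (by linarith) (by positivity)
    have hL1 : (L + 1 : ℝ) ≤ (4 / δ + 1) * (X : ℝ) ^ (δ / 2) := by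
      have e : 2 * ((X : ℝ) ^ (δ / 2) / (δ / 2)) = 4 / δ * (X : ℝ) ^ (δ / 2) := by
        field_simp
        ring
      nlinarith
    calc (#((range (L + 1)).biUnion Bd) : ℝ) ≤ (L + 1 : ℝ) * (C * (X : ℝ) ^ (1 - δ)) := h1
      _ ≤ ((4 / δ + 1) * (X : ℝ) ^ (δ / 2)) * (C * (X : ℝ) ^ (1 - δ)) :=
          mul_le_mul_of_nonneg_right hL1 (by positivity)
      _ = (4 / δ + 1) * C * ((X : ℝ) ^ (δ / 2) * (X : ℝ) ^ (1 - δ)) := by ring
      _ = (4 / δ + 1) * C * (X : ℝ) ^ (1 - δ') := by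
          rw [← Real.rpow_add (by positivity)]
          congr 2
          rw [hδ']
          ring
  · intro p hp hpX hp2 hpB Y a b hY1 hY2 ha ha2 hb1 hb2 hbY
    have hpXr : (X : ℝ) < p := by exact_mod_cast hpX
    have hp2r : (p : ℝ) ≤ 2 * X := by exact_mod_cast hp2
    have hXpos : (0 : ℝ) < X := by linarith
    have hppos : (0 : ℝ) < p := by linarith
    have hYX : (X : ℝ) ^ (1 - η') ≤ Y :=
      (Real.rpow_le_rpow hXpos.le hpXr.le (by linarith)).trans hY1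
    have hY4 : 4 ≤ Y := by
      have h1 : (16 : ℝ) ^ (1 / 2 : ℝ) ≤ (X : ℝ) ^ (1 - η') := by
        calc (16 : ℝ) ^ (1 / 2 : ℝ) ≤ (X : ℝ) ^ (1 / 2 : ℝ) :=
              Real.rpow_le_rpow (by norm_num) hXr (by norm_num)
          _ ≤ (X : ℝ) ^ (1 - η') :=
              Real.rpow_le_rpow_of_exponent_le (by linarith) (by linarith)
      have h2 : (16 : ℝ) ^ (1 / 2 : ℝ) = 4 := by
        rw [← Real.sqrt_eq_rpow, show (16 : ℝ) = 4 ^ 2 by norm_num,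
          Real.sqrt_sq (by norm_num)]
      linarith
    set s := Nat.log 2 ⌊Y / 2⌋₊ with hs
    have hfl0 : ⌊Y / 2⌋₊ ≠ 0 := by
      have : 1 ≤ ⌊Y / 2⌋₊ := Nat.le_floor (by push_cast; linarith)
      omega
    have hs1 : ((2 : ℝ) ^ s) ≤ Y / 2 := by
      have h1 : 2 ^ s ≤ ⌊Y / 2⌋₊ := Nat.pow_log_le_self 2 hfl0
      calc ((2 : ℝ) ^ s) = ((2 ^ s : ℕ) : ℝ) := by push_cast; rfl
        _ ≤ (⌊Y / 2⌋₊ : ℝ) := by exact_mod_cast h1
        _ ≤ Y / 2 := Nat.floor_le (by linarith)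
    have hs2 : Y / 4 < (2 : ℝ) ^ s := by
      have h1 : ⌊Y / 2⌋₊ < 2 ^ (s + 1) := Nat.lt_pow_succ_log_self (by norm_num) _
      have h2 : Y / 2 < (⌊Y / 2⌋₊ : ℝ) + 1 := Nat.lt_floor_add_one _
      have h3 : ((⌊Y / 2⌋₊ : ℝ) + 1) ≤ (2 : ℝ) ^ (s + 1) := by exact_mod_cast h1
      rw [pow_succ] at h3
      linarith
    have hs3 : (X : ℝ) ^ (1 - η) ≤ 2 ^ s := by
      have h1 : (X : ℝ) ^ (1 - η) * (X : ℝ) ^ (η / 2) = (X : ℝ) ^ (1 - η / 2) := by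
        rw [← Real.rpow_add hXpos]
        congr 1
        ring
      have h2 : (X : ℝ) ^ (1 - η / 2) ≤ (X : ℝ) ^ (1 - η') :=
        Real.rpow_le_rpow_of_exponent_le (by linarith) (by linarith)
      have h3 : 0 < (X : ℝ) ^ (1 - η) := Real.rpow_pos_of_pos hXpos _
      nlinarith
    have hs4 : 2 ^ s ≤ X := by
      have h1 : ((2 : ℝ) ^ s) ≤ X := by linarith
      exact_mod_cast h1
    have hsL : s ∈ range (L + 1) := by
      rw [mem_range]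
      have : s ≤ L := by
        rw [hL]
        exact Nat.le_log_of_pow_le (by norm_num) hs4
      omega
    have hpBs : p ∉ Bd s := fun hc => hpB (mem_biUnion.2 ⟨s, hsL, hc⟩)
    obtain ⟨g1, g2, g3⟩ := hmain s hs3 hs4
    have hVw : Vs s ≤ wn (Vs s) := by
      unfold wn
      omega
    have hwr : (wn (Vs s) : ℝ) ≤ Y / 2 := by
      have h1 : (wn (Vs s) : ℝ) ≤ (2 : ℝ) ^ s := by exact_mod_cast g2
      linarith
    have hVr : (Vs s : ℝ) ≤ Y / 2 := by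
      have h1 : (Vs s : ℝ) ≤ (wn (Vs s) : ℝ) := by exact_mod_cast hVw
      linarith
    have hpow : (p : ℝ) ^ δ' ≤ (X : ℝ) ^ δ := by
      calc (p : ℝ) ^ δ' ≤ ((X : ℝ) ^ 2) ^ δ' := by
            apply Real.rpow_le_rpow hppos.le _ hd1.le
            nlinarith
        _ = (X : ℝ) ^ δ := by
            rw [← Real.rpow_natCast, ← Real.rpow_mul hXpos.le]
            congr 1
            rw [hδ']
            push_cast
            ring
    have hbV : b * (Vs s) ^ 2 ≤ X ^ 2 := by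
      have h1 : (b : ℝ) * (Vs s : ℝ) ^ 2 ≤ (X : ℝ) ^ 2 := by
        have h2 : (Vs s : ℝ) ^ 2 ≤ Y ^ 2 / 4 := by
          have h3 : (0 : ℝ) ≤ Vs s := by positivity
          nlinarith
        have h4 : (0 : ℝ) ≤ b := by positivity
        have h5 : (b : ℝ) * (Vs s : ℝ) ^ 2 ≤ b * (Y ^ 2 / 4) := mul_le_mul_of_nonneg_left h2 h4
        nlinarith
      exact_mod_cast h1
    have hfin := g3 p hp hpX hp2 hpBs a b ha (ha2.trans hpow) hb1 (hb2.trans hpow) hbV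
    have hQ : (Qc p a b (Vs s) : ℝ) ≤ (#((Icc 1 ⌊Y⌋₊ ×ˢ Icc 1 ⌊Y⌋₊).filter (fun t : ℕ × ℕ =>
        t.1.Prime ∧ t.2.Prime ∧ (p : ℤ) ∣ (b : ℤ) * t.1 * t.2 - a)) : ℝ) := by
      exact_mod_cast F3_Qc p a b (Vs s) Y (by linarith)
    refine le_trans ?_ hQ
    refine le_trans ?_ hfin
    have hlX : 0 < Real.log X := Real.log_pos (by linarith)
    have hlp : Real.log X ≤ Real.log p := Real.log_le_log hXpos hpXr.le
    have hden : (X : ℝ) * Real.log X ^ 2 ≤ p * Real.log p ^ 2 := by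
      apply mul_le_mul hpXr.le _ (by positivity) hppos.le
      nlinarith
    have hAV : Y / 4 ≤ A * Vs s := by linarith
    have hAV2 : Y ^ 2 / 16 ≤ A ^ 2 * (Vs s : ℝ) ^ 2 := by
      have h1 : (Y / 4) ^ 2 ≤ (A * Vs s) ^ 2 := pow_le_pow_left₀ (by linarith) hAV 2
      nlinarith
    have hnum : c / (16 * A ^ 2) * Y ^ 2 ≤ c * (Vs s : ℝ) ^ 2 := by
      rw [div_mul_eq_mul_div, div_le_iff₀ (by positivity)]
      nlinarith
    calc c / (16 * A ^ 2) * Y ^ 2 / (p * Real.log p ^ 2)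
        ≤ c / (16 * A ^ 2) * Y ^ 2 / (X * Real.log X ^ 2) := by
          apply div_le_div_of_nonneg_left _ _ hden
          · positivity
          · positivity
      _ ≤ c * (Vs s : ℝ) ^ 2 / (X * Real.log X ^ 2) := by
          apply div_le_div_of_nonneg_right hnum
          positivity

end Pool.Agent.QQA
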